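import Mathlib

open Finset Filter Topology

namespace Pool.Agent.H27.InitSum

/-- `n` is an initial divisor sum of `m`: the sum of all divisors of `m` up to some divisor `d`. -/
def IsInit (m n : ℕ) : Prop := ∃ d ∈ m.divisors, ∑ e ∈ m.divisors.filter (fun e => e ≤ d), e = n

/-- subset sums -/
def SS (S : Finset ℕ) (x : ℕ) : Prop := ∃ T ⊆ S, ∑ p ∈ T, p = x

lemma SS_extend {S : Finset ℕ} {a L p : ℕ} (hS : ∀ x, a ≤ x → x ≤ a + L → SS S x) (hp : p ∉ S)
    (hpL : p ≤ L + 1) : ∀ x, a ≤ x → x ≤ a + L + p → SS (insert p S) x := by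
  intro x h1 h2
  by_cases h : x ≤ a + L
  · obtain ⟨T, hT, hs⟩ := hS x h1 h
    exact ⟨T, hT.trans (subset_insert _ _), hs⟩
  · push Not at h
    obtain ⟨T, hT, hs⟩ := hS (x - p) (by omega) (by omega)
    refine ⟨insert p T, insert_subset_insert _ hT, ?_⟩
    rw [sum_insert (fun h => hp (hT h)), hs]
    omega

lemma bert (R : ℕ) (hR : 1 ≤ R) (M : ℕ) : M ≤ 2 * R + ∑ p ∈ (Ioc R M).filter Nat.Prime, p := by
  induction M using Nat.strong_induction_on with
  | _ M ih =>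
    by_cases h : M ≤ 2 * R
    · omega
    · push Not at h
      have ih1 := ih (M / 2) (by omega)
      obtain ⟨q, hq, h1, h2⟩ := Nat.exists_prime_lt_and_le_two_mul (M / 2) (by omega)
      have hsub : insert q ((Ioc R (M / 2)).filter Nat.Prime) ⊆ (Ioc R M).filter Nat.Prime := by
        intro x hx
        rw [mem_insert] at hx
        rcases hx with rfl | hx
        · rw [mem_filter, mem_Ioc]; exact ⟨⟨by omega, by omega⟩, hq⟩
        · rw [mem_filter, mem_Ioc] at hx ⊢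
          exact ⟨⟨by omega, by omega⟩, hx.2⟩
      have h3 := sum_le_sum_of_subset (f := fun p : ℕ => p) hsub
      rw [sum_insert] at h3
      · omega
      · rw [mem_filter, mem_Ioc]; omega

lemma SS_primes {S0 : Finset ℕ} {a L R M : ℕ} (hR : 1 ≤ R) (hL : 2 * R ≤ L)
    (hS : ∀ x, a ≤ x → x ≤ a + L → SS S0 x) (hdisj : ∀ p ∈ S0, p ≤ R ∨ M < p) :
    ∀ M', R ≤ M' → M' ≤ M → ∀ x, a ≤ x → x ≤ a + L + ∑ p ∈ (Ioc R M').filter Nat.Prime, p →
      SS (S0 ∪ (Ioc R M').filter Nat.Prime) x := by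
  intro M' hRM'
  induction M', hRM' using Nat.le_induction with
  | base =>
    intro _ x h1 h2
    simp only [Ioc_self, filter_empty, sum_empty, union_empty, add_zero] at h2 ⊢
    exact hS x h1 h2
  | succ K hK ih =>
    intro hKM x h1 h2
    have ih1 := ih (by omega)
    by_cases hp : (K + 1).Prime
    · have hset : (Ioc R (K + 1)).filter Nat.Prime = insert (K + 1) ((Ioc R K).filter Nat.Prime) := by
        ext y
        simp only [mem_filter, mem_Ioc, mem_insert]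
        constructor
        · rintro ⟨⟨h3, h4⟩, h5⟩
          rcases Nat.lt_or_ge K y with h6 | h6
          · left; omega
          · right; exact ⟨⟨h3, h6⟩, h5⟩
        · rintro (rfl | ⟨⟨h3, h4⟩, h5⟩)
          · exact ⟨⟨by omega, by omega⟩, hp⟩
          · exact ⟨⟨h3, by omega⟩, h5⟩
      have hnot : (K + 1) ∉ (Ioc R K).filter Nat.Prime := by
        rw [mem_filter, mem_Ioc]; omega
      rw [hset, sum_insert hnot] at h2
      rw [hset]
      have hnot2 : (K + 1) ∉ S0 ∪ (Ioc R K).filter Nat.Prime := by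
        rw [mem_union]
        rintro (h3 | h3)
        · rcases hdisj _ h3 with h4 | h4 <;> omega
        · exact hnot h3
      have hb := bert R hR K
      have := SS_extend (S := S0 ∪ (Ioc R K).filter Nat.Prime) (a := a) (L := L + ∑ p ∈ (Ioc R K).filter Nat.Prime, p)
        (p := K + 1) (fun y h3 h4 => ih1 y h3 (by omega)) hnot2 (by omega) x h1 (by omega)
      rw [union_insert]
      exact this
    · have hset : (Ioc R (K + 1)).filter Nat.Prime = (Ioc R K).filter Nat.Prime := by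
        ext y
        simp only [mem_filter, mem_Ioc]
        constructor
        · rintro ⟨⟨h3, h4⟩, h5⟩
          refine ⟨⟨h3, ?_⟩, h5⟩
          rcases Nat.lt_or_ge K y with h6 | h6
          · have : y = K + 1 := by omega
            exact absurd (this ▸ h5) hp
          · exact h6
        · rintro ⟨⟨h3, h4⟩, h5⟩
          exact ⟨⟨h3, by omega⟩, h5⟩
      rw [hset] at h2 ⊢
      exact ih1 x h1 h2

lemma sum_mod_const {T : Finset ℕ} {D rho : ℕ} (h : ∀ r ∈ T, r % D = rho % D) :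
    (∑ r ∈ T, r) % D = (T.card * rho) % D := by
  classical
  induction T using Finset.induction_on with
  | empty => simp
  | insert r T hr ih =>
    rw [sum_insert hr, card_insert_of_notMem hr, add_mul, one_mul, Nat.add_mod,
      ih (fun x hx => h x (mem_insert_of_mem hx)), h r (mem_insert_self _ _), Nat.add_comm (T.card * rho) rho]
    simp [Nat.add_mod]

/-- base interval of subset sums -/
lemma SS_base {B Rr : Finset ℕ} {D R rho : ℕ} (hD : 1 ≤ D) (hB : B.card = 3 * R)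
    (hdis : ∀ b ∈ B, ∀ b' ∈ B, b + D ≠ b')
    (hRr : Rr.card = D) (hRR : ∀ r ∈ Rr, r ≤ R) (hres : ∀ r ∈ Rr, r % D = rho % D) (hco : Nat.Coprime rho D)
    (hdis2 : ∀ b ∈ B, R < b) :
    ∀ x, (∑ b ∈ B, b + D * R) ≤ x → x ≤ (∑ b ∈ B, b + D * R) + 2 * D * R →
      SS (Rr ∪ (B ∪ B.image (fun b => b + D))) x := by
  classical
  intro x h1 h2
  -- choose j with j * rho ≡ x - sum B
  obtain ⟨y, hy⟩ : ∃ y, x = ∑ b ∈ B, b + y := ⟨x - ∑ b ∈ B, b, by omega⟩
  obtain ⟨j, hj1, hj2⟩ : ∃ j, j < D ∧ (j * rho) % D = y % D := by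
    have : NeZero D := ⟨by omega⟩
    refine ⟨((y : ZMod D) * ((ZMod.unitOfCoprime rho hco)⁻¹ : (ZMod D)ˣ)).val, ZMod.val_lt _, ?_⟩
    rw [← ZMod.natCast_eq_natCast_iff']
    push_cast
    rw [ZMod.natCast_zmod_val]
    have h3 : ((rho : ℕ) : ZMod D) = ((ZMod.unitOfCoprime rho hco : (ZMod D)ˣ) : ZMod D) := by simp
    rw [h3, mul_assoc, Units.inv_mul, mul_one]
  obtain ⟨T1, hT1, hT1c⟩ := exists_subset_card_eq (s := Rr) (n := j) (by omega)
  set s := ∑ r ∈ T1, r with hs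
  have hs1 : s ≤ D * R := by
    calc s ≤ ∑ r ∈ T1, R := sum_le_sum (fun r hr => hRR r (hT1 hr))
      _ = j * R := by rw [sum_const, hT1c, smul_eq_mul]
      _ ≤ D * R := Nat.mul_le_mul_right _ (by omega)
  have hs2 : s % D = y % D := by
    rw [hs, sum_mod_const (fun r hr => hres r (hT1 hr)), hT1c, hj2]
  have hsy : s ≤ y := by omega
  obtain ⟨i, hi⟩ : D ∣ y - s := (Nat.modEq_iff_dvd' hsy).1 hs2
  have hi2 : i ≤ 3 * R := by
    have h5 : D * i ≤ D * (3 * R) := by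
      rw [← hi]
      have : 2 * D * R + D * R = D * (3 * R) := by ring
      omega
    exact Nat.le_of_mul_le_mul_left h5 (by omega)
  obtain ⟨B1, hB1, hB1c⟩ := exists_subset_card_eq (s := B) (n := i) (by omega)
  refine ⟨T1 ∪ ((B \ B1) ∪ B1.image (fun b => b + D)), ?_, ?_⟩
  · refine union_subset_union hT1 (union_subset_union sdiff_subset (image_subset_image hB1))
  · have d1 : Disjoint (B \ B1) (B1.image (fun b => b + D)) := by
      rw [Finset.disjoint_left]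
      intro z hz hz2
      rw [mem_image] at hz2
      obtain ⟨b, hb, rfl⟩ := hz2
      exact hdis b (hB1 hb) _ (mem_sdiff.1 hz).1 rfl
    have d2 : Disjoint T1 ((B \ B1) ∪ B1.image (fun b => b + D)) := by
      rw [Finset.disjoint_left]
      intro z hz hz2
      have h6 := hRR z (hT1 hz)
      rw [mem_union, mem_image] at hz2
      rcases hz2 with hz2 | ⟨b, hb, rfl⟩
      · have := hdis2 z (mem_sdiff.1 hz2).1; omega
      · have := hdis2 b (hB1 hb); omega
    rw [sum_union d2, sum_union d1, sum_image (fun a _ b _ h => by simpa using h)]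
    rw [sum_add_distrib, sum_const, hB1c, smul_eq_mul]
    have h7 : ∑ b ∈ B \ B1, b + ∑ b ∈ B1, b = ∑ b ∈ B, b := sum_sdiff hB1
    have h8 : i * D = y - s := by rw [hi]; ring
    rw [h8, ← hs]
    omega

/-- product of primes in `(√Y, Y]` has initial divisor sum `1 + sum` -/
lemma init_of_primes {T : Finset ℕ} {z Y : ℕ} (hne : T.Nonempty) (hT : ∀ p ∈ T, p.Prime ∧ z < p ∧ p ≤ Y) (hz : Y ≤ z * z) :
    IsInit (∏ p ∈ T, p) (1 + ∑ p ∈ T, p) := by
  classical
  set m := ∏ p ∈ T, p with hm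
  have hm0 : m ≠ 0 := by
    rw [hm, prod_ne_zero_iff]
    intro p hp
    exact (hT p hp).1.ne_zero
  set d := T.max' hne with hd
  have hdT : d ∈ T := T.max'_mem hne
  refine ⟨d, ?_, ?_⟩
  · rw [Nat.mem_divisors]
    exact ⟨dvd_prod_of_mem _ hdT, hm0⟩
  · have hset : m.divisors.filter (fun e => e ≤ d) = insert 1 T := by
      ext e
      simp only [mem_filter, Nat.mem_divisors, mem_insert]
      have hprime : ∀ q : ℕ, q.Prime → q ∣ m → q ∈ T := by
        intro q hq hqm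
        rw [hm, hq.prime.dvd_finsetProd_iff] at hqm
        obtain ⟨p, hp, hqp⟩ := hqm
        have := (Nat.prime_dvd_prime_iff_eq hq (hT p hp).1).1 hqp
        rw [this]; exact hp
      constructor
      · rintro ⟨⟨h1, -⟩, h2⟩
        by_cases he1 : e = 1
        · left; exact he1
        · right
          have hq := Nat.minFac_prime he1
          obtain ⟨e', he'⟩ := Nat.minFac_dvd e
          have hqT := hprime _ hq ((Nat.minFac_dvd e).trans h1)
          by_cases he2 : e' = 1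
          · rw [he2, mul_one] at he'
            rw [he']; exact hqT
          · exfalso
            have hq2 := Nat.minFac_prime he2
            have hq2T := hprime _ hq2 ((Nat.minFac_dvd e').trans ((Dvd.intro_left _ he'.symm).trans h1))
            have he'0 : 0 < e' := by
              rcases Nat.eq_zero_or_pos e' with h | h
              · rw [h, mul_zero] at he'
                rw [he'] at h1
                exact absurd (Nat.eq_zero_of_zero_dvd h1) hm0
              · exact h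
            have h3 := Nat.minFac_le he'0
            have h4 := (hT _ hqT).2.1
            have h5 := (hT _ hq2T).2.1
            have h6 := (hT d hdT).2.2
            have h7 : z * z < e := by
              rw [he']
              calc z * z < e.minFac * e'.minFac := Nat.mul_lt_mul'' h4 h5
                _ ≤ e.minFac * e' := Nat.mul_le_mul_left _ h3
            omega
      · rintro (rfl | he)
        · exact ⟨⟨one_dvd _, hm0⟩, (hT d hdT).1.one_lt.le⟩
        · exact ⟨⟨dvd_prod_of_mem _ he, hm0⟩, T.le_max' e he⟩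
    rw [hset, sum_insert]
    intro h1
    exact (hT 1 h1).1.one_lt.ne rfl

lemma primes_many (k : ℕ) (hk : 1 ≤ k) : ∀ᶠ t : ℕ in atTop, 5 * t ^ (k - 1) ≤ Nat.primeCounting (t ^ k) := by
  have hlog : ∀ᶠ x : ℝ in atTop, ‖Real.log x‖ ≤ (Real.log 2 / (6 * k + 1)) * ‖id x‖ := by
    refine Real.isLittleO_log_id_atTop.bound ?_
    have := Real.log_pos (by norm_num : (1:ℝ) < 2)
    positivity
  have hlog2 := tendsto_natCast_atTop_atTop.eventually hlog
  filter_upwards [hlog2, eventually_ge_atTop 2] with t ht ht2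
  have htR : (2:ℝ) ≤ t := by exact_mod_cast ht2
  have hl0 : 0 < Real.log t := Real.log_pos (by linarith)
  simp only [Real.norm_eq_abs, id] at ht
  rw [abs_of_pos hl0, abs_of_nonneg (by positivity), div_mul_eq_mul_div, le_div_iff₀ (by positivity)] at ht
  have h1 := Chebyshev.pi_ge (t ^ k)
  have h2 : (5 * (t:ℝ) ^ (k - 1)) ≤ ((t ^ k : ℕ) * Real.log 2 - Real.log ((t ^ k : ℕ) + 1)) / Real.log (t ^ k : ℕ) := by
    push_cast
    rw [Real.log_pow, le_div_iff₀ (by positivity)]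
    have h3 : Real.log ((t:ℝ) ^ k + 1) ≤ (k + 1) * Real.log t := by
      have : (t:ℝ) ^ k + 1 ≤ t ^ (k + 1) := by
        rw [pow_succ]
        have : (1:ℝ) ≤ t ^ k := one_le_pow₀ (by linarith)
        nlinarith
      have := Real.log_le_log (by positivity) this
      rw [Real.log_pow] at this
      push_cast at this
      exact this
    obtain ⟨k', rfl⟩ := Nat.exists_eq_add_of_le' hk
    simp only [Nat.add_sub_cancel]
    have h4 : (1:ℝ) ≤ (t:ℝ) ^ k' := one_le_pow₀ (by linarith)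
    have h5 : (t:ℝ) ^ (k' + 1) * Real.log 2 = t ^ k' * (Real.log 2 * t) := by rw [pow_succ]; ring
    rw [h5]
    push_cast at h3 ht ⊢
    have h6 : (t:ℝ) ^ k' * (Real.log t * (6 * (k' + 1) + 1)) ≤ t ^ k' * (Real.log 2 * t) :=
      mul_le_mul_of_nonneg_left ht (by positivity)
    have h7 : (k' + 1 + 1 : ℝ) * Real.log t ≤ t ^ k' * ((k' + 1 + 1) * Real.log t) := by
      have : 0 ≤ (k' + 1 + 1 : ℝ) * Real.log t := by positivity
      nlinarith
    nlinarith
  have h3 := h2.trans h1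
  exact_mod_cast h3

lemma count_Ioc (y x : ℕ) : Nat.primeCounting x ≤ y + ((Ioc y x).filter Nat.Prime).card := by
  classical
  have h1 : Nat.primesLE x ⊆ (Ioc 0 y) ∪ (Ioc y x).filter Nat.Prime := by
    intro p hp
    rw [Nat.mem_primesLE] at hp
    have := hp.2.pos
    rw [mem_union, mem_filter, mem_Ioc, mem_Ioc]
    rcases Nat.lt_or_ge y p with h | h
    · right; exact ⟨⟨h, hp.1⟩, hp.2⟩
    · left; omega
  have h2 := (card_le_card h1).trans (card_union_le _ _)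
  rw [Nat.primesLE_card_eq_primeCounting, Nat.card_Ioc] at h2
  omega

lemma exists_D (t : ℕ) (ht : 2 ≤ t) (hpi : 5 * t ^ 9 ≤ Nat.primeCounting (t ^ 10)) :
    ∃ D : ℕ, ∃ B : Finset ℕ, 1 ≤ D ∧ D < t ∧ B.card = 3 * t ^ 6 ∧ (∀ b ∈ B, ∀ b' ∈ B, b + D ≠ b') ∧
      (∀ b ∈ B, t ^ 9 < b ∧ b.Prime ∧ (b + D).Prime ∧ b + D ≤ t ^ 10) := by
  classical
  have ht0 : 0 < t := by omega
  set Q := (Ioc (t ^ 9) (t ^ 10)).filter Nat.Prime with hQ
  have hQc : 4 * t ^ 9 ≤ Q.card := by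
    have := count_Ioc (t ^ 9) (t ^ 10)
    rw [← hQ] at this
    omega
  set β : ℕ → ℕ := fun i => sInf {p | p ∈ Q ∧ p / t = i} with hβ
  have hβ1 : ∀ q ∈ Q, β (q / t) ∈ Q ∧ β (q / t) / t = q / t := by
    intro q hq
    have : {p | p ∈ Q ∧ p / t = q / t}.Nonempty := ⟨q, hq, rfl⟩
    exact Nat.sInf_mem this
  have hβ2 : ∀ q ∈ Q, β (q / t) ≤ q := fun q hq => Nat.sInf_le ⟨hq, rfl⟩
  set N' := Q.filter (fun q => β (q / t) ≠ q) with hN'
  have hbase : (Q.filter (fun q => ¬ (β (q / t) ≠ q))).card ≤ t ^ 9 + 1 := by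
    rw [← card_range (t ^ 9 + 1)]
    refine card_le_card_of_injOn (fun q => q / t) ?_ ?_
    · intro q hq
      have hq := mem_coe.1 hq
      have hq1 := (mem_Ioc.1 (mem_filter.1 (mem_filter.1 hq).1).1).2
      rw [mem_coe, mem_range]
      have : q / t ≤ t ^ 9 := by
        apply Nat.div_le_of_le_mul
        rw [← pow_succ']
        exact hq1
      exact Nat.lt_succ_of_le this
    · intro q hq q' hq' hqq
      have hq := mem_coe.1 hq
      have hq' := mem_coe.1 hq'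
      rw [mem_filter, not_not] at hq hq'
      rw [← hq.2, ← hq'.2]
      simp only at hqq
      rw [hqq]
  have hsplit := card_filter_add_card_filter_not (s := Q) (fun q => β (q / t) ≠ q)
  have ht9 : 1 ≤ t ^ 9 := Nat.one_le_pow _ _ ht0
  have hN'c : 2 * t ^ 9 ≤ N'.card := by
    rw [hN']; omega
  obtain ⟨D, hD, hDc⟩ := exists_le_card_fiber_of_mul_le_card_of_maps_to (s := N') (t := range t)
    (f := fun q => q - β (q / t)) (n := 2 * t ^ 8) (by
      intro q hq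
      have hq1 := (mem_filter.1 hq).1
      have h1 := hβ1 q hq1
      have h2 := hβ2 q hq1
      rw [mem_range]
      have h3 := Nat.div_add_mod q t
      have h4 := Nat.div_add_mod (β (q / t)) t
      have h5 := Nat.mod_lt q ht0
      rw [h1.2] at h4
      omega) ⟨0, mem_range.2 ht0⟩ (by
      rw [card_range]
      have : t * (2 * t ^ 8) = 2 * t ^ 9 := by ring
      omega)
  rw [mem_range] at hD
  set F := N'.filter (fun q => q - β (q / t) = D) with hF
  have hFinj : Set.InjOn (fun q => β (q / t)) (F : Set ℕ) := by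
    intro q hq q' hq' hqq
    have hq := mem_coe.1 hq
    have hq' := mem_coe.1 hq'
    have e1 := (mem_filter.1 hq).2
    have e2 := (mem_filter.1 hq').2
    have e3 := hβ2 q (mem_filter.1 (mem_filter.1 hq).1).1
    have e4 := hβ2 q' (mem_filter.1 (mem_filter.1 hq').1).1
    simp only at hqq
    omega
  have hcard : 3 * t ^ 6 ≤ (F.image (fun q => β (q / t))).card := by
    rw [card_image_of_injOn hFinj]
    refine le_trans ?_ hDc
    have : 2 * t ^ 8 = 2 * (t * t) * t ^ 6 := by ring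
    rw [this]
    refine Nat.mul_le_mul_right _ ?_
    nlinarith
  obtain ⟨B, hB, hBc⟩ := exists_subset_card_eq hcard
  have hBp : ∀ b ∈ B, ∃ q ∈ Q, β (q / t) = b ∧ b + D = q ∧ b ∈ Q ∧ b / t = q / t ∧ b ≠ q := by
    intro b hb
    have := hB hb
    rw [mem_image] at this
    obtain ⟨q, hq, hqb⟩ := this
    have hq1 := (mem_filter.1 (mem_filter.1 hq).1)
    have e1 := (mem_filter.1 hq).2
    have e3 := hβ2 q hq1.1
    have e4 := hβ1 q hq1.1
    rw [hqb] at e1 e3 e4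
    refine ⟨q, hq1.1, hqb, by omega, e4.1, e4.2, ?_⟩
    have := hq1.2
    rw [hqb] at this
    exact this
  have hbne : B.Nonempty := by
    rw [← card_pos, hBc]
    positivity
  refine ⟨D, B, ?_, hD, hBc, ?_, ?_⟩
  · obtain ⟨b, hb⟩ := hbne
    obtain ⟨q, -, -, h1, -, -, h2⟩ := hBp b hb
    omega
  · intro b hb b' hb' hbb
    obtain ⟨q, hq, h1, h2, h3, h4, h5⟩ := hBp b hb
    obtain ⟨q', hq', h1', h2', h3', h4', h5'⟩ := hBp b' hb'
    have e1 : b' = q := by omega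
    have e2 : b' / t = q' / t := h4'
    have e3 : q / t = q' / t := by rw [← e1]; exact e2
    have e4 : b' = b := by rw [← h1', ← h1, e3]
    exact h5 (by omega)
  · intro b hb
    obtain ⟨q, hq, h1, h2, h3, h4, h5⟩ := hBp b hb
    rw [hQ, mem_filter, mem_Ioc] at hq h3
    rw [h2]
    exact ⟨h3.1.1, h3.2, hq.2, hq.1.2⟩

lemma exists_R (t D : ℕ) (ht : 2 ≤ t) (hD : 1 ≤ D) (hDt : D < t) (hpi : 5 * t ^ 5 ≤ Nat.primeCounting (t ^ 6)) :
    ∃ rho : ℕ, ∃ Rr : Finset ℕ, Rr.card = D ∧ Nat.Coprime rho D ∧ (∀ r ∈ Rr, r % D = rho % D) ∧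
      (∀ r ∈ Rr, r.Prime ∧ t ^ 5 < r ∧ r ≤ t ^ 6) := by
  classical
  have ht0 : 0 < t := by omega
  set Q := (Ioc (t ^ 5) (t ^ 6)).filter Nat.Prime with hQ
  have hQc : 4 * t ^ 5 ≤ Q.card := by
    have := count_Ioc (t ^ 5) (t ^ 6)
    rw [← hQ] at this
    omega
  have ht5 : t * t ≤ t ^ 5 := by
    have : t ^ 5 = t * t * t ^ 3 := by ring
    rw [this]
    exact Nat.le_mul_of_pos_right _ (by positivity)
  have htt : t ≤ t ^ 5 := Nat.le_self_pow (by norm_num) _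
  obtain ⟨rho, hrho, hc⟩ := exists_le_card_fiber_of_mul_le_card_of_maps_to (s := Q) (t := range D)
    (f := fun q => q % D) (n := D) (by
      intro q hq
      rw [mem_range]
      exact Nat.mod_lt _ hD) ⟨0, mem_range.2 hD⟩ (by
      rw [card_range]
      have : D * D ≤ t * t := Nat.mul_le_mul hDt.le hDt.le
      omega)
  rw [mem_range] at hrho
  obtain ⟨Rr, hRr, hRc⟩ := exists_subset_card_eq hc
  refine ⟨rho, Rr, hRc, ?_, ?_, ?_⟩
  · have hne : Rr.Nonempty := by rw [← card_pos]; omega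
    obtain ⟨r, hr⟩ := hne
    have h1 := mem_filter.1 (hRr hr)
    have h2 := mem_filter.1 h1.1
    have h3 := (mem_Ioc.1 h2.1).1
    have h4 : Nat.Coprime r D := by
      rw [Nat.Prime.coprime_iff_not_dvd h2.2]
      intro hd
      have := Nat.le_of_dvd hD hd
      omega
    have h5 : r % D = rho := h1.2
    rw [← h5]
    unfold Nat.Coprime at *
    rw [Nat.gcd_comm r D, Nat.gcd_rec] at h4
    exact h4
  · intro r hr
    have h1 := mem_filter.1 (hRr hr)
    have h5 : r % D = rho := h1.2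
    rw [h5, Nat.mod_eq_of_lt hrho]
  · intro r hr
    have h1 := mem_filter.1 (hRr hr)
    have h2 := mem_filter.1 h1.1
    have h3 := (mem_Ioc.1 h2.1)
    exact ⟨h2.2, h3.1, h3.2⟩

/-- many `n` below `9 t^16` are initial divisor sums -/
lemma interval_def : ∀ᶠ t : ℕ in atTop, ∃ a : ℕ, a ≤ 4 * t ^ 16 ∧ ∀ x, a ≤ x → x ≤ a + 4 * t ^ 16 → 1 ≤ x →
    ∃ m, IsInit m (1 + x) := by
  classical
  filter_upwards [primes_many 10 (by norm_num), primes_many 9 (by norm_num), primes_many 6 (by norm_num), eventually_ge_atTop 2]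
    with t h10 h9 h6 ht
  have ht0 : 0 < t := by omega
  simp only [Nat.reduceSub] at h10 h9 h6
  obtain ⟨D, B, hD1, hDt, hBc, hdis, hBp⟩ := exists_D t ht h10
  obtain ⟨rho, Rr, hRc, hco, hres, hRp⟩ := exists_R t D ht hD1 hDt h6
  have e69 : t ^ 6 ≤ t ^ 9 := Nat.pow_le_pow_right ht0 (by norm_num)
  have e68 : t ^ 6 ≤ t ^ 8 := Nat.pow_le_pow_right ht0 (by norm_num)
  have hbase := SS_base (B := B) (Rr := Rr) (D := D) (R := t ^ 6) (rho := rho) hD1 hBc hdis hRc
    (fun r hr => (hRp r hr).2.2) hres hco (fun b hb => by have := (hBp b hb).1; omega)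
  set a := ∑ b ∈ B, b + D * t ^ 6 with ha
  have hL : 2 * t ^ 6 ≤ 2 * D * t ^ 6 := Nat.mul_le_mul_right _ (by omega)
  have hS0 : ∀ p ∈ Rr ∪ (B ∪ B.image (fun b => b + D)), p ≤ t ^ 6 ∨ t ^ 9 < p := by
    intro p hp
    rw [mem_union, mem_union, mem_image] at hp
    rcases hp with hp | hp | ⟨b, hb, rfl⟩
    · left; exact (hRp p hp).2.2
    · right; exact (hBp p hp).1
    · right; have := (hBp b hb).1; omega
  have hfull := SS_primes (S0 := Rr ∪ (B ∪ B.image (fun b => b + D))) (a := a) (L := 2 * D * t ^ 6)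
    (R := t ^ 6) (M := t ^ 9) (Nat.one_le_pow _ _ ht0) hL hbase hS0 (t ^ 9) e69 le_rfl
  have hsum : 4 * t ^ 16 ≤ ∑ p ∈ (Ioc (t ^ 6) (t ^ 9)).filter Nat.Prime, p := by
    have h1 : (Ioc (t ^ 8) (t ^ 9)).filter Nat.Prime ⊆ (Ioc (t ^ 6) (t ^ 9)).filter Nat.Prime := by
      apply filter_subset_filter
      exact Ioc_subset_Ioc_left e68
    refine le_trans ?_ (sum_le_sum_of_subset h1)
    have h2 : ((Ioc (t ^ 8) (t ^ 9)).filter Nat.Prime).card * t ^ 8 ≤ ∑ p ∈ (Ioc (t ^ 8) (t ^ 9)).filter Nat.Prime, p := by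
      rw [← smul_eq_mul]
      refine card_nsmul_le_sum _ _ _ ?_
      intro p hp
      exact (mem_Ioc.1 (mem_filter.1 hp).1).1.le
    have h3 := count_Ioc (t ^ 8) (t ^ 9)
    have h4 : 4 * t ^ 8 ≤ ((Ioc (t ^ 8) (t ^ 9)).filter Nat.Prime).card := by omega
    calc 4 * t ^ 16 = 4 * t ^ 8 * t ^ 8 := by ring
      _ ≤ ((Ioc (t ^ 8) (t ^ 9)).filter Nat.Prime).card * t ^ 8 := Nat.mul_le_mul_right _ h4
      _ ≤ _ := h2
  refine ⟨a, ?_, ?_⟩
  · have h1 : ∑ b ∈ B, b ≤ B.card * t ^ 10 := by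
      rw [← smul_eq_mul]
      refine sum_le_card_nsmul _ _ _ ?_
      intro b hb
      have := (hBp b hb).2.2.2
      omega
    rw [hBc] at h1
    have h2 : D * t ^ 6 ≤ t ^ 16 := by
      calc D * t ^ 6 ≤ t * t ^ 6 := Nat.mul_le_mul_right _ hDt.le
        _ = t ^ 7 := by ring
        _ ≤ t ^ 16 := Nat.pow_le_pow_right ht0 (by norm_num)
    have h3 : 3 * t ^ 6 * t ^ 10 = 3 * t ^ 16 := by ring
    omega
  · intro x hx1 hx2 hx3
    obtain ⟨T, hT, hs⟩ := hfull x hx1 (by omega)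
    have hne : T.Nonempty := by
      rw [nonempty_iff_ne_empty]
      rintro rfl
      simp at hs; omega
    refine ⟨∏ p ∈ T, p, ?_⟩
    rw [← hs]
    refine init_of_primes (z := t ^ 5) (Y := t ^ 10) hne ?_ (by rw [← pow_add])
    intro p hp
    have hp := hT hp
    have e5 : t ^ 5 ≤ t ^ 6 := Nat.pow_le_pow_right ht0 (by norm_num)
    have e59 : t ^ 5 ≤ t ^ 9 := Nat.pow_le_pow_right ht0 (by norm_num)
    have e910 : t ^ 9 ≤ t ^ 10 := Nat.pow_le_pow_right ht0 (by norm_num)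
    rw [mem_union, mem_union, mem_union, mem_image, mem_filter, mem_Ioc] at hp
    rcases hp with (hp | hp | ⟨b, hb, rfl⟩) | hp
    · have := hRp p hp
      exact ⟨this.1, this.2.1, by omega⟩
    · have := hBp p hp
      exact ⟨this.2.1, by omega, by omega⟩
    · have := hBp b hb
      exact ⟨this.2.2.1, by omega, by omega⟩
    · exact ⟨hp.2, by omega, by omega⟩

/-! ### Counting -/

lemma rpow_three_halves {a : ℝ} (ha : 0 < a) : a ^ (3 / 2 : ℝ) = a * Real.sqrt a := by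
  rw [Real.sqrt_eq_rpow]
  have : (3 / 2 : ℝ) = 1 + 1 / 2 := by norm_num
  rw [this, Real.rpow_add ha, Real.rpow_one]

lemma sum_bound : ∃ C : ℝ, 0 < C ∧ ∀ M : ℕ, ∑ z ∈ (Icc 1 M) ×ˢ (Icc 1 M),
    1 / (Real.sqrt ((z.1 : ℝ) * z.2) * (Nat.lcm z.1 z.2 : ℝ)) ≤ C := by
  classical
  have hs1 : Summable (fun n : ℕ => 1 / (n : ℝ) ^ 2) := Real.summable_one_div_nat_pow.2 (by norm_num)
  have hs2 : Summable (fun n : ℕ => 1 / (n : ℝ) ^ (3 / 2 : ℝ)) := Real.summable_one_div_nat_rpow.2 (by norm_num)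
  set A := ∑' n : ℕ, 1 / (n : ℝ) ^ 2 with hA
  set B := ∑' n : ℕ, 1 / (n : ℝ) ^ (3 / 2 : ℝ) with hB
  have hA0 : 0 ≤ A := tsum_nonneg (fun n => by positivity)
  have hB0 : 0 ≤ B := tsum_nonneg (fun n => by positivity)
  refine ⟨A * (B * B) + 1, by positivity, ?_⟩
  intro M
  have h1 : ∑ g ∈ Icc 1 M, 1 / (g : ℝ) ^ 2 ≤ A := hs1.sum_le_tsum _ (fun n _ => by positivity)
  have h2 : ∑ g ∈ Icc 1 M, 1 / (g : ℝ) ^ (3 / 2 : ℝ) ≤ B := hs2.sum_le_tsum _ (fun n _ => by positivity)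
  have h20 : 0 ≤ ∑ g ∈ Icc 1 M, 1 / (g : ℝ) ^ (3 / 2 : ℝ) := sum_nonneg (fun n _ => by positivity)
  have h10 : 0 ≤ ∑ g ∈ Icc 1 M, 1 / (g : ℝ) ^ 2 := sum_nonneg (fun n _ => by positivity)
  set G : ℕ × (ℕ × ℕ) → ℝ := fun z => (1 / (z.1 : ℝ) ^ 2) * ((1 / (z.2.1 : ℝ) ^ (3 / 2 : ℝ)) * (1 / (z.2.2 : ℝ) ^ (3 / 2 : ℝ))) with hG
  have h3 : ∑ z ∈ (Icc 1 M) ×ˢ ((Icc 1 M) ×ˢ (Icc 1 M)), G z ≤ A * (B * B) := by
    have e1 : (∑ a ∈ Icc 1 M, 1 / (a : ℝ) ^ (3 / 2 : ℝ)) * (∑ b ∈ Icc 1 M, 1 / (b : ℝ) ^ (3 / 2 : ℝ))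
        = ∑ w ∈ Icc 1 M ×ˢ Icc 1 M, (1 / (w.1 : ℝ) ^ (3 / 2 : ℝ)) * (1 / (w.2 : ℝ) ^ (3 / 2 : ℝ)) := by
      rw [sum_mul_sum, ← sum_product']
    have e2 : (∑ g ∈ Icc 1 M, 1 / (g : ℝ) ^ 2) * (∑ w ∈ Icc 1 M ×ˢ Icc 1 M, (1 / (w.1 : ℝ) ^ (3 / 2 : ℝ)) * (1 / (w.2 : ℝ) ^ (3 / 2 : ℝ)))
        = ∑ z ∈ (Icc 1 M) ×ˢ ((Icc 1 M) ×ˢ (Icc 1 M)), G z := by
      rw [sum_mul_sum, ← sum_product']
    rw [← e2, ← e1]
    exact mul_le_mul h1 (mul_le_mul h2 h2 h20 hB0) (mul_nonneg h20 h20) hA0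
  set φ : ℕ × ℕ → ℕ × (ℕ × ℕ) := fun z => (Nat.gcd z.1 z.2, (z.1 / Nat.gcd z.1 z.2, z.2 / Nat.gcd z.1 z.2)) with hφ
  have hinj : Set.InjOn φ (((Icc 1 M) ×ˢ (Icc 1 M) : Finset (ℕ × ℕ)) : Set (ℕ × ℕ)) := by
    intro z _ w _ hzw
    simp only [hφ, Prod.mk.injEq] at hzw
    obtain ⟨h4, h5, h6⟩ := hzw
    have e1 := Nat.mul_div_cancel' (Nat.gcd_dvd_left z.1 z.2)
    have e2 := Nat.mul_div_cancel' (Nat.gcd_dvd_right z.1 z.2)
    have e3 := Nat.mul_div_cancel' (Nat.gcd_dvd_left w.1 w.2)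
    have e4 := Nat.mul_div_cancel' (Nat.gcd_dvd_right w.1 w.2)
    refine Prod.ext ?_ ?_
    · rw [← e1, ← e3, h5, h4]
    · rw [← e2, ← e4, h6, h4]
  have hterm : ∀ z ∈ (Icc 1 M) ×ˢ (Icc 1 M), 1 / (Real.sqrt ((z.1 : ℝ) * z.2) * (Nat.lcm z.1 z.2 : ℝ)) = G (φ z) := by
    rintro ⟨i, j⟩ hz
    rw [mem_product, mem_Icc, mem_Icc] at hz
    simp only at hz
    simp only [hG, hφ]
    have hg : 0 < Nat.gcd i j := Nat.gcd_pos_of_pos_left _ (by omega)
    obtain ⟨a, ha⟩ := Nat.gcd_dvd_left i j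
    obtain ⟨b, hb⟩ := Nat.gcd_dvd_right i j
    set g := Nat.gcd i j with hgdef
    have ha0 : 0 < a := Nat.pos_of_ne_zero (by rintro rfl; omega)
    have hb0 : 0 < b := Nat.pos_of_ne_zero (by rintro rfl; omega)
    have hia : i / g = a := by rw [ha, Nat.mul_div_cancel_left _ hg]
    have hjb : j / g = b := by rw [hb, Nat.mul_div_cancel_left _ hg]
    rw [hia, hjb]
    have hl : Nat.lcm i j = g * a * b := by
      have := Nat.gcd_mul_lcm i j
      rw [← hgdef] at this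
      have h7 : g * Nat.lcm i j = g * (g * a * b) := by
        rw [this]
        nth_rewrite 1 [ha]
        nth_rewrite 1 [hb]
        ring
      exact Nat.eq_of_mul_eq_mul_left hg h7
    rw [hl]
    have hgR : (0:ℝ) < g := by exact_mod_cast hg
    have haR : (0:ℝ) < a := by exact_mod_cast ha0
    have hbR : (0:ℝ) < b := by exact_mod_cast hb0
    rw [rpow_three_halves haR, rpow_three_halves hbR]
    have h8 : Real.sqrt ((i : ℝ) * j) = g * (Real.sqrt a * Real.sqrt b) := by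
      have : ((i : ℝ) * j) = (g : ℝ) ^ 2 * (a * b) := by
        have h9 : (i : ℝ) = g * a := by exact_mod_cast ha
        have h10 : (j : ℝ) = g * b := by exact_mod_cast hb
        rw [h9, h10]; ring
      rw [this, Real.sqrt_mul (by positivity), Real.sqrt_sq hgR.le, Real.sqrt_mul haR.le]
    rw [h8]
    push_cast
    have := Real.sqrt_pos.2 haR
    have := Real.sqrt_pos.2 hbR
    field_simp
  rw [sum_congr rfl hterm, ← sum_image hinj]
  refine le_trans (sum_le_sum_of_subset_of_nonneg (t := (Icc 1 M) ×ˢ ((Icc 1 M) ×ˢ (Icc 1 M))) ?_ ?_) (h3.trans (by linarith))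
  · intro z hz
    rw [mem_image] at hz
    obtain ⟨⟨i, j⟩, hw, rfl⟩ := hz
    rw [mem_product, mem_Icc, mem_Icc] at hw
    simp only at hw
    have hg : 0 < Nat.gcd i j := Nat.gcd_pos_of_pos_left _ (by omega)
    have h4 : Nat.gcd i j ≤ i := Nat.le_of_dvd (by omega) (Nat.gcd_dvd_left i j)
    have h5 : Nat.gcd i j ≤ j := Nat.le_of_dvd (by omega) (Nat.gcd_dvd_right i j)
    have h6 : 0 < i / Nat.gcd i j := Nat.div_pos h4 hg
    have h7 : 0 < j / Nat.gcd i j := Nat.div_pos h5 hg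
    have h8 : i / Nat.gcd i j ≤ i := Nat.div_le_self _ _
    have h9 : j / Nat.gcd i j ≤ j := Nat.div_le_self _ _
    simp only [hφ, mem_product, mem_Icc]
    omega
  · intro z _ _
    simp only [hG]
    positivity

/-- the second moment type bound -/
lemma triple_bound : ∃ C : ℝ, 0 < C ∧ ∀ M : ℕ,
    ∑ m ∈ Icc 1 M, ∑ d ∈ m.divisors, ((∑ e ∈ m.divisors.filter (fun e => e ≤ d), e : ℕ) : ℝ) ≤ C * (M : ℝ) ^ 2 := by
  classical
  obtain ⟨C, hC, hbd⟩ := sum_bound
  refine ⟨C, hC, ?_⟩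
  intro M
  have step1 : ∀ m ∈ Icc 1 M, ∑ d ∈ m.divisors, ((∑ e ∈ m.divisors.filter (fun e => e ≤ d), e : ℕ) : ℝ) ≤
      ∑ z ∈ (Icc 1 M) ×ˢ (Icc 1 M), (if z.1 ∣ m ∧ z.2 ∣ m then (M : ℝ) / Real.sqrt ((z.1 : ℝ) * z.2) else 0) := by
    intro m hm
    rw [mem_Icc] at hm
    have e1 : ∑ d ∈ m.divisors, ((∑ e ∈ m.divisors.filter (fun e => e ≤ d), e : ℕ) : ℝ)
        = ∑ d ∈ m.divisors, ∑ e ∈ m.divisors, (if e ≤ d then (e : ℝ) else 0) := by
      refine sum_congr rfl ?_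
      intro d _
      rw [sum_filter]
      push_cast
      rfl
    have e2 : ∑ d ∈ m.divisors, ∑ e ∈ m.divisors, (if e ≤ d then (e : ℝ) else 0)
        = ∑ j ∈ m.divisors, ∑ i ∈ m.divisors, (if m / i ≤ m / j then ((m / i : ℕ) : ℝ) else 0) := by
      rw [← Nat.sum_div_divisors m (fun d => ∑ e ∈ m.divisors, (if e ≤ d then (e : ℝ) else 0))]
      refine sum_congr rfl ?_
      intro j _
      rw [← Nat.sum_div_divisors m (fun e => (if e ≤ m / j then (e : ℝ) else 0))]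
    rw [e1, e2]
    have e3 : ∑ j ∈ m.divisors, ∑ i ∈ m.divisors, (if m / i ≤ m / j then ((m / i : ℕ) : ℝ) else 0)
        ≤ ∑ j ∈ m.divisors, ∑ i ∈ m.divisors, (M : ℝ) / Real.sqrt ((i : ℝ) * j) := by
      refine sum_le_sum (fun j hj => sum_le_sum (fun i hi => ?_))
      rw [Nat.mem_divisors] at hi hj
      have hi0 : 0 < i := Nat.pos_of_dvd_of_pos hi.1 (by omega)
      have hj0 : 0 < j := Nat.pos_of_dvd_of_pos hj.1 (by omega)
      have hiR : (0:ℝ) < i := by exact_mod_cast hi0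
      have hjR : (0:ℝ) < j := by exact_mod_cast hj0
      split_ifs with hle
      · -- j ≤ i
        have hji : j ≤ i := by
          obtain ⟨a, ha⟩ := hi.1
          obtain ⟨b, hb⟩ := hj.1
          have h1 : m / i = a := by rw [ha, Nat.mul_div_cancel_left _ hi0]
          have h2 : m / j = b := by rw [hb, Nat.mul_div_cancel_left _ hj0]
          rw [h1, h2] at hle
          by_contra hcon
          push Not at hcon
          have hb0 : 0 < b := Nat.pos_of_ne_zero (by rintro rfl; omega)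
          have : i * a < j * b := by
            calc i * a ≤ i * b := Nat.mul_le_mul_left _ hle
              _ < j * b := Nat.mul_lt_mul_of_pos_right hcon hb0
          omega
        have h3 : ((m / i : ℕ) : ℝ) ≤ (M : ℝ) / i := by
          refine (Nat.cast_div_le).trans ?_
          exact div_le_div_of_nonneg_right (by exact_mod_cast hm.2) hiR.le
        refine h3.trans ?_
        refine div_le_div_of_nonneg_left (by positivity) (Real.sqrt_pos.2 (by positivity)) ?_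
        rw [Real.sqrt_le_left hiR.le]
        have : (j : ℝ) ≤ i := by exact_mod_cast hji
        nlinarith
      · positivity
    refine e3.trans ?_
    rw [← sum_product' m.divisors m.divisors (fun j i => (M : ℝ) / Real.sqrt ((i : ℝ) * j))]
    rw [← sum_filter]
    have hsub : m.divisors ×ˢ m.divisors ⊆ ((Icc 1 M) ×ˢ (Icc 1 M)).filter (fun z => z.1 ∣ m ∧ z.2 ∣ m) := by
      rintro ⟨j, i⟩ hz
      rw [mem_product, Nat.mem_divisors, Nat.mem_divisors] at hz
      simp only at hz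
      rw [mem_filter, mem_product, mem_Icc, mem_Icc]
      simp only
      have hi0 : 0 < i := Nat.pos_of_dvd_of_pos hz.2.1 (by omega)
      have hj0 : 0 < j := Nat.pos_of_dvd_of_pos hz.1.1 (by omega)
      have hi1 := Nat.le_of_dvd (by omega) hz.2.1
      have hj1 := Nat.le_of_dvd (by omega) hz.1.1
      exact ⟨⟨⟨by omega, by omega⟩, ⟨by omega, by omega⟩⟩, hz.1.1, hz.2.1⟩
    have hmul : ∀ z : ℕ × ℕ, (M : ℝ) / Real.sqrt ((z.2 : ℝ) * z.1) = (M : ℝ) / Real.sqrt ((z.1 : ℝ) * z.2) := by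
      intro z; rw [mul_comm]
    simp only [hmul]
    exact sum_le_sum_of_subset_of_nonneg hsub (fun z _ _ => by positivity)
  refine (sum_le_sum step1).trans ?_
  rw [sum_comm]
  have step2 : ∀ z ∈ (Icc 1 M) ×ˢ (Icc 1 M), ∑ m ∈ Icc 1 M, (if z.1 ∣ m ∧ z.2 ∣ m then (M : ℝ) / Real.sqrt ((z.1 : ℝ) * z.2) else 0)
      ≤ (M : ℝ) ^ 2 * (1 / (Real.sqrt ((z.1 : ℝ) * z.2) * (Nat.lcm z.1 z.2 : ℝ))) := by
    rintro ⟨i, j⟩ hz
    rw [mem_product, mem_Icc, mem_Icc] at hz
    simp only at hz ⊢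
    rw [← sum_filter, sum_const, nsmul_eq_mul]
    have hl0 : 0 < Nat.lcm i j := Nat.lcm_pos (by omega) (by omega)
    have h1 : ((Icc 1 M).filter (fun m => i ∣ m ∧ j ∣ m)).card = M / Nat.lcm i j := by
      have : (Icc 1 M).filter (fun m => i ∣ m ∧ j ∣ m) = (Ioc 0 M).filter (fun m => Nat.lcm i j ∣ m) := by
        ext x
        simp only [mem_filter, mem_Icc, mem_Ioc, Nat.lcm_dvd_iff]
        constructor
        · rintro ⟨⟨h1, h2⟩, h3⟩; exact ⟨⟨by omega, h2⟩, h3⟩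
        · rintro ⟨⟨h1, h2⟩, h3⟩; exact ⟨⟨by omega, h2⟩, h3⟩
      rw [this, Nat.Ioc_filter_dvd_card_eq_div]
    rw [h1]
    have h2 : ((M / Nat.lcm i j : ℕ) : ℝ) ≤ (M : ℝ) / (Nat.lcm i j : ℝ) := Nat.cast_div_le
    have hlR : (0:ℝ) < (Nat.lcm i j : ℝ) := by exact_mod_cast hl0
    have hiR : (0:ℝ) < i := by exact_mod_cast (by omega : 0 < i)
    have hjR : (0:ℝ) < j := by exact_mod_cast (by omega : 0 < j)
    have hsq : 0 < Real.sqrt ((i : ℝ) * j) := Real.sqrt_pos.2 (by positivity)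
    calc ((M / Nat.lcm i j : ℕ) : ℝ) * ((M : ℝ) / Real.sqrt ((i : ℝ) * j))
        ≤ ((M : ℝ) / (Nat.lcm i j : ℝ)) * ((M : ℝ) / Real.sqrt ((i : ℝ) * j)) :=
          mul_le_mul_of_nonneg_right h2 (by positivity)
      _ = _ := by field_simp
  refine (sum_le_sum step2).trans ?_
  rw [← mul_sum, mul_comm]
  exact mul_le_mul_of_nonneg_right (hbd M) (by positivity)

lemma count_small : ∃ C : ℝ, 0 < C ∧ ∀ (M K : ℕ) (S : Finset ℕ), 
    (∀ n ∈ S, K ≤ n ∧ ∃ m, m ≤ M ∧ IsInit m n) → (K : ℝ) * S.card ≤ C * (M : ℝ) ^ 2 := by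
  classical
  obtain ⟨C, hC, hbd⟩ := triple_bound
  refine ⟨C, hC, ?_⟩
  intro M K S hS
  refine le_trans ?_ (hbd M)
  have h1 : ∀ n ∈ S, ∃ z : ℕ × ℕ, z.1 ∈ Icc 1 M ∧ z.2 ∈ z.1.divisors ∧ ∑ e ∈ z.1.divisors.filter (fun e => e ≤ z.2), e = n := by
    intro n hn
    obtain ⟨_, m, hm, d, hd, hs⟩ := hS n hn
    refine ⟨(m, d), ?_, hd, hs⟩
    rw [mem_Icc]
    refine ⟨?_, hm⟩
    have := (Nat.mem_divisors.1 hd).2
    simp only
    omega
  choose! φ hφ1 hφ2 hφ3 using h1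
  set U := (Icc 1 M).sigma (fun m => m.divisors) with hU
  have h2 : ∑ m ∈ Icc 1 M, ∑ d ∈ m.divisors, ((∑ e ∈ m.divisors.filter (fun e => e ≤ d), e : ℕ) : ℝ)
      = ∑ z ∈ U, ((∑ e ∈ z.1.divisors.filter (fun e => e ≤ z.2), e : ℕ) : ℝ) := by
    rw [hU, sum_sigma]
  rw [h2]
  set ψ : ℕ → (Σ _ : ℕ, ℕ) := fun n => ⟨(φ n).1, (φ n).2⟩ with hψ
  have hinj : Set.InjOn ψ (S : Set ℕ) := by
    intro n hn n' hn' hnn
    have e1 := hφ3 n hn
    have e2 := hφ3 n' hn'
    simp only [hψ, Sigma.mk.injEq, heq_eq_eq] at hnn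
    rw [← e1, ← e2, hnn.1, hnn.2]
  have h3 : ∑ z ∈ S.image ψ, ((∑ e ∈ z.1.divisors.filter (fun e => e ≤ z.2), e : ℕ) : ℝ) ≤
      ∑ z ∈ U, ((∑ e ∈ z.1.divisors.filter (fun e => e ≤ z.2), e : ℕ) : ℝ) := by
    refine sum_le_sum_of_subset_of_nonneg ?_ (fun z _ _ => by positivity)
    intro z hz
    rw [mem_image] at hz
    obtain ⟨n, hn, rfl⟩ := hz
    rw [hU, mem_sigma]
    exact ⟨hφ1 n hn, hφ2 n hn⟩
  refine le_trans ?_ h3
  rw [sum_image hinj]
  rw [mul_comm, ← nsmul_eq_mul]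
  refine card_nsmul_le_sum _ _ _ ?_
  intro n hn
  simp only [hψ]
  rw [hφ3 n hn]
  exact_mod_cast (hS n hn).1

/-- `f n` is defined: some positive integer has `n` as an initial divisor sum. -/
def Defined (n : ℕ) : Prop := ∃ m, 0 < m ∧ IsInit m n

/-- `f n`: the least positive integer `m` such that `n` is an initial divisor sum of `m`
(junk value `0` when there is none). -/
noncomputable def f (n : ℕ) : ℕ := sInf {m : ℕ | 0 < m ∧ IsInit m n}

lemma IsInit.pos {m n : ℕ} (h : IsInit m n) : 0 < m := by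
  obtain ⟨d, hd, _⟩ := h
  have := (Nat.mem_divisors.1 hd).2
  omega

lemma lt_f {n : ℕ} {M : ℕ} (hdef : Defined n) (h : ¬ ∃ m, m ≤ M ∧ IsInit m n) : M < f n := by
  have hmem : f n ∈ {m : ℕ | 0 < m ∧ IsInit m n} := Nat.sInf_mem hdef
  by_contra hcon
  push Not at hcon
  exact h ⟨f n, hcon, hmem.2⟩

/-- key: for a fixed `c > 0` and all large `t`, at least `2 t^16` integers `n` in `[t^16, 9 t^16]` have
`f n` defined and `f n > c n`. -/
lemma key : ∃ c : ℝ, 0 < c ∧ ∀ᶠ t : ℕ in atTop, ∃ S : Finset ℕ, 2 * t ^ 16 ≤ S.card ∧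
    ∀ n ∈ S, t ^ 16 ≤ n ∧ n ≤ 9 * t ^ 16 ∧ Defined n ∧ c * n < f n := by
  classical
  obtain ⟨C, hC, hcount⟩ := count_small
  have hsC : 0 < Real.sqrt C := Real.sqrt_pos.2 hC
  refine ⟨1 / (9 * Real.sqrt C), by positivity, ?_⟩
  filter_upwards [interval_def, eventually_ge_atTop 1] with t ht ht1
  obtain ⟨a, ha, hdef⟩ := ht
  have ht0 : 1 ≤ t ^ 16 := Nat.one_le_pow _ _ (by omega)
  set W := Icc (max (a + 1) (t ^ 16 + 1)) (a + 1 + 4 * t ^ 16) with hW
  set M := ⌊(1 / (9 * Real.sqrt C)) * ((9 * t ^ 16 : ℕ) : ℝ)⌋₊ with hM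
  have hWc : 3 * t ^ 16 ≤ W.card := by
    rw [hW, Nat.card_Icc]
    rcases le_total (a + 1) (t ^ 16 + 1) with h | h
    · rw [max_eq_right h]; omega
    · rw [max_eq_left h]; omega
  have hWdef : ∀ n ∈ W, Defined n := by
    intro n hn
    rw [hW, mem_Icc] at hn
    have h1 : a + 1 ≤ n := (le_max_left _ _).trans hn.1
    have h2 : t ^ 16 + 1 ≤ n := (le_max_right _ _).trans hn.1
    obtain ⟨m, hm⟩ := hdef (n - 1) (by omega) (by omega) (by omega)
    have h3 : 1 + (n - 1) = n := by omega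
    rw [h3] at hm
    exact ⟨m, hm.pos, hm⟩
  set E := W.filter (fun n => ∃ m, m ≤ M ∧ IsInit m n) with hE
  have hEc := hcount M (t ^ 16) E (by
    intro n hn
    have h1 := mem_filter.1 hn
    have h2 := (mem_Icc.1 h1.1).1
    have h3 := (le_max_right _ _).trans h2
    exact ⟨by omega, h1.2⟩)
  have hMle : (M : ℝ) ≤ (1 / (9 * Real.sqrt C)) * ((9 * t ^ 16 : ℕ) : ℝ) := Nat.floor_le (by positivity)
  have htR : (0:ℝ) < (t : ℝ) ^ 16 := by
    have : (0:ℝ) < t := by exact_mod_cast ht1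
    positivity
  have hM2 : C * (M : ℝ) ^ 2 ≤ (t : ℝ) ^ 16 * (t : ℝ) ^ 16 := by
    have h1 : (M : ℝ) ^ 2 ≤ ((1 / (9 * Real.sqrt C)) * ((9 * t ^ 16 : ℕ) : ℝ)) ^ 2 :=
      pow_le_pow_left₀ (by positivity) hMle 2
    have h2 : ((1 / (9 * Real.sqrt C)) * ((9 * t ^ 16 : ℕ) : ℝ)) ^ 2 = (t : ℝ) ^ 16 * (t : ℝ) ^ 16 / C := by
      push_cast
      have : Real.sqrt C ^ 2 = C := Real.sq_sqrt hC.le
      rw [mul_pow, div_pow, mul_pow, this]
      field_simp
    rw [h2] at h1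
    calc C * (M : ℝ) ^ 2 ≤ C * ((t : ℝ) ^ 16 * (t : ℝ) ^ 16 / C) := mul_le_mul_of_nonneg_left h1 hC.le
      _ = _ := by field_simp
  have hEc2 : E.card ≤ t ^ 16 := by
    have h1 : (t : ℝ) ^ 16 * E.card ≤ (t : ℝ) ^ 16 * (t : ℝ) ^ 16 := by
      refine le_trans ?_ hM2
      have := hEc
      push_cast at this
      exact this
    have h2 := le_of_mul_le_mul_left h1 htR
    exact_mod_cast h2
  have hsplit := card_filter_add_card_filter_not (s := W) (fun n => ∃ m, m ≤ M ∧ IsInit m n)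
  rw [← hE] at hsplit
  refine ⟨W.filter (fun n => ¬ ∃ m, m ≤ M ∧ IsInit m n), by omega, ?_⟩
  intro n hn
  have hn1 := mem_filter.1 hn
  have hn2 := mem_Icc.1 hn1.1
  have h3 := (le_max_right _ _).trans hn2.1
  refine ⟨by omega, by omega, hWdef n hn1.1, ?_⟩
  have h4 := lt_f (hWdef n hn1.1) hn1.2
  have h5 : (1 / (9 * Real.sqrt C)) * ((9 * t ^ 16 : ℕ) : ℝ) < (f n : ℝ) :=
    (Nat.floor_lt (by positivity)).1 (by rw [← hM]; exact h4)
  refine lt_of_le_of_lt ?_ h5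
  refine mul_le_mul_of_nonneg_left ?_ (by positivity)
  have : n ≤ 9 * t ^ 16 := by omega
  exact_mod_cast this

end Pool.Agent.H27.InitSum
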