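import Mathlib

set_option maxHeartbeats 4000000

open Finset Filter Topology

namespace Pool.Agent.H27.LimDiv

/-- the product of the prime factors `< K` of `x` (with multiplicity) -/
def sm (K x : ℕ) : ℕ := (x.primeFactorsList.filter (fun p => p < K)).prod
/-- the product of the prime factors `≥ K` of `x` (with multiplicity) -/
def ro (K x : ℕ) : ℕ := (x.primeFactorsList.filter (fun p => ¬ p < K)).prod

lemma list_split (l : List ℕ) (P : ℕ → Prop) [DecidablePred P] :
    (l.filter (fun p => P p)).prod * (l.filter (fun p => ¬ P p)).prod = l.prod := by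
  induction l with
  | nil => simp
  | cons a l ih =>
    by_cases h : P a
    · simp [List.filter_cons, h] at ih ⊢
      rw [← ih]; ring
    · simp [List.filter_cons, h] at ih ⊢
      rw [← ih]; ring

lemma sm_mul_ro (K : ℕ) {x : ℕ} (hx : x ≠ 0) : sm K x * ro K x = x := by
  unfold sm ro
  rw [list_split x.primeFactorsList (fun p => p < K), Nat.prod_primeFactorsList hx]

lemma sm_mul (K : ℕ) {a b : ℕ} (ha : a ≠ 0) (hb : b ≠ 0) : sm K (a*b) = sm K a * sm K b := by
  unfold sm
  have h := (Nat.perm_primeFactorsList_mul ha hb).filter (fun p => decide (p < K))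
  rw [h.prod_eq, List.filter_append, List.prod_append]

lemma ro_mul (K : ℕ) {a b : ℕ} (ha : a ≠ 0) (hb : b ≠ 0) : ro K (a*b) = ro K a * ro K b := by
  unfold ro
  have h := (Nat.perm_primeFactorsList_mul ha hb).filter (fun p => decide (¬ p < K))
  rw [h.prod_eq, List.filter_append, List.prod_append]

lemma pfl_ro (K x : ℕ) : List.Perm (x.primeFactorsList.filter (fun p => ¬ p < K)) (ro K x).primeFactorsList :=
  (Nat.primeFactorsList_unique rfl (fun p hp => Nat.prime_of_mem_primeFactorsList (List.mem_of_mem_filter hp)))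

lemma pfl_sm (K x : ℕ) : List.Perm (x.primeFactorsList.filter (fun p => p < K)) (sm K x).primeFactorsList :=
  (Nat.primeFactorsList_unique rfl (fun p hp => Nat.prime_of_mem_primeFactorsList (List.mem_of_mem_filter hp)))

lemma sm_ne (K : ℕ) (x : ℕ) : sm K x ≠ 0 := by
  unfold sm
  intro h
  rw [List.prod_eq_zero_iff] at h
  exact (Nat.prime_of_mem_primeFactorsList (List.mem_of_mem_filter h)).ne_zero rfl

lemma ro_ne (K : ℕ) (x : ℕ) : ro K x ≠ 0 := by
  unfold ro
  intro h
  rw [List.prod_eq_zero_iff] at h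
  exact (Nat.prime_of_mem_primeFactorsList (List.mem_of_mem_filter h)).ne_zero rfl

/-- if all prime factors are ≥ K then sm = 1 -/
lemma sm_eq_one {K x : ℕ} (h : ∀ p ∈ x.primeFactorsList, ¬ p < K) : sm K x = 1 := by
  unfold sm
  rw [List.filter_eq_nil_iff.2]
  · simp
  · intro p hp; simpa using h p hp

lemma ro_eq_one {K x : ℕ} (h : ∀ p ∈ x.primeFactorsList, p < K) : ro K x = 1 := by
  unfold ro
  rw [List.filter_eq_nil_iff.2]
  · simp
  · intro p hp; simpa using h p hp

lemma mem_ro {K x p : ℕ} (h : p ∈ (ro K x).primeFactorsList) : ¬ p < K := by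
  have := (pfl_ro K x).mem_iff.2 h
  simpa using (List.mem_filter.1 this).2

lemma mem_sm {K x p : ℕ} (h : p ∈ (sm K x).primeFactorsList) : p < K := by
  have := (pfl_sm K x).mem_iff.2 h
  simpa using (List.mem_filter.1 this).2

lemma sm_ro (K x : ℕ) : sm K (ro K x) = 1 := sm_eq_one (fun p hp => mem_ro hp)
lemma ro_sm (K x : ℕ) : ro K (sm K x) = 1 := ro_eq_one (fun p hp => mem_sm hp)
lemma ro_ro (K x : ℕ) : ro K (ro K x) = ro K x := by
  have := sm_mul_ro K (ro_ne K x)
  rwa [sm_ro, one_mul] at this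
lemma sm_sm (K x : ℕ) : sm K (sm K x) = sm K x := by
  have := sm_mul_ro K (sm_ne K x)
  rwa [ro_sm, mul_one] at this

lemma ro_small {K a d : ℕ} (ha : a ≠ 0) (hd : d ≠ 0) (h : d < K) : ro K (a * d) = ro K a := by
  have h1 : ro K d = 1 := by
    apply ro_eq_one
    intro p hp
    exact lt_of_le_of_lt (Nat.le_of_dvd (Nat.pos_of_ne_zero hd) (Nat.dvd_of_mem_primeFactorsList hp)) h
  rw [ro_mul K ha hd, h1, mul_one]

/-- admissibility for a forbidden ternary relation `U` -/
def Adm (U : ℕ → ℕ → ℕ → Prop) (A : Finset ℕ) : Prop :=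
  ∀ a ∈ A, ∀ b ∈ A, ∀ c ∈ A, a ≠ b → a ≠ c → b ≠ c → ¬ U a b c

open Classical in
/-- the largest size of an admissible subset of `X` -/
noncomputable def F (U : ℕ → ℕ → ℕ → Prop) (X : Finset ℕ) : ℕ :=
  (X.powerset.filter (fun A => Adm U A)).sup Finset.card

lemma le_F {U : ℕ → ℕ → ℕ → Prop} {X A : Finset ℕ} (hA : A ⊆ X) (h : Adm U A) : A.card ≤ F U X := by
  unfold F
  exact Finset.le_sup (f := Finset.card) (by simp [hA, h])

lemma exists_F (U : ℕ → ℕ → ℕ → Prop) (X : Finset ℕ) : ∃ A, A ⊆ X ∧ Adm U A ∧ A.card = F U X := by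
  classical
  have hne : (X.powerset.filter (fun A => Adm U A)).Nonempty :=
    ⟨∅, by rw [mem_filter]; exact ⟨by simp, by intro a ha; simp at ha⟩⟩
  obtain ⟨A, hA, h⟩ := Finset.exists_mem_eq_sup _ hne Finset.card
  refine ⟨A, ?_, ?_, ?_⟩
  · simp at hA; exact hA.1
  · simp at hA; exact hA.2
  · unfold F
    rw [← h]

lemma Adm.subset {U : ℕ → ℕ → ℕ → Prop} {A B : Finset ℕ} (h : Adm U A) (hB : B ⊆ A) : Adm U B :=
  fun a ha b hb c hc => h a (hB ha) b (hB hb) c (hB hc)

lemma F_mono {U : ℕ → ℕ → ℕ → Prop} {X Y : Finset ℕ} (h : X ⊆ Y) : F U X ≤ F U Y := by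
  obtain ⟨A, hA, hA', hc⟩ := exists_F U X
  rw [← hc]; exact le_F (hA.trans h) hA'

lemma F_le_add {U : ℕ → ℕ → ℕ → Prop} {X Y : Finset ℕ} {x : ℕ} (h : Y ⊆ insert x X) : F U Y ≤ F U X + 1 := by
  obtain ⟨A, hA, hA', hc⟩ := exists_F U Y
  rw [← hc]
  have h1 : A.erase x ⊆ X := by
    intro y hy
    rw [mem_erase] at hy
    have := h (hA hy.2)
    rw [mem_insert] at this
    exact this.resolve_left hy.1
  have h2 := le_F h1 (hA'.subset (erase_subset x A))
  have h3 := Finset.pred_card_le_card_erase (s := A) (a := x)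
  omega

/-- the truncated relation -/
def TK (T : ℕ → ℕ → ℕ → Prop) (K : ℕ) (a b c : ℕ) : Prop := T a b c ∧ ro K a = ro K b ∧ ro K a = ro K c

lemma F_union {T : ℕ → ℕ → ℕ → Prop} {K : ℕ} {X Y : Finset ℕ}
    (h : ∀ x ∈ X, ∀ y ∈ Y, ro K x ≠ ro K y) : F (TK T K) (X ∪ Y) = F (TK T K) X + F (TK T K) Y := by
  apply le_antisymm
  · obtain ⟨A, hA, hA', hc⟩ := exists_F (TK T K) (X ∪ Y)
    rw [← hc]
    have h1 : A = (A ∩ X) ∪ (A ∩ Y) := by
      rw [← inter_union_distrib_left, inter_eq_left.2 hA]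
    have h2 : A.card ≤ (A ∩ X).card + (A ∩ Y).card := by
      conv_lhs => rw [h1]
      exact card_union_le _ _
    have h3 := le_F (inter_subset_right : A ∩ X ⊆ X) (hA'.subset inter_subset_left)
    have h4 := le_F (inter_subset_right : A ∩ Y ⊆ Y) (hA'.subset inter_subset_left)
    omega
  · obtain ⟨A, hA, hA', hc⟩ := exists_F (TK T K) X
    obtain ⟨B, hB, hB', hd⟩ := exists_F (TK T K) Y
    have hdis : Disjoint A B := by
      rw [Finset.disjoint_left]
      intro x hx hy
      exact h x (hA hx) x (hB hy) rfl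
    rw [← hc, ← hd, ← card_union_of_disjoint hdis]
    apply le_F (union_subset_union hA hB)
    intro a ha b hb c hcc hab hac hbc hT
    obtain ⟨hT, e1, e2⟩ := hT
    rw [mem_union] at ha hb hcc
    rcases ha with ha | ha
    · have hb' : b ∈ A := hb.resolve_right (fun hb => h a (hA ha) b (hB hb) e1)
      have hc' : c ∈ A := hcc.resolve_right (fun hb => h a (hA ha) c (hB hb) e2)
      exact hA' a ha b hb' c hc' hab hac hbc ⟨hT, e1, e2⟩
    · have hb' : b ∈ B := hb.resolve_left (fun hb => h b (hA hb) a (hB ha) e1.symm)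
      have hc' : c ∈ B := hcc.resolve_left (fun hb => h c (hA hb) a (hB ha) e2.symm)
      exact hB' a ha b hb' c hc' hab hac hbc ⟨hT, e1, e2⟩

lemma F_image {T : ℕ → ℕ → ℕ → Prop} {K : ℕ} {X : Finset ℕ} {m : ℕ} (hm : m ≠ 0)
    (hT : ∀ m a b c : ℕ, 0 < m → (T (m*a) (m*b) (m*c) ↔ T a b c))
    (hX : ∀ x ∈ X, x ≠ 0) : F (TK T K) (X.image (fun x => m * x)) = F (TK T K) X := by
  have hinj : Function.Injective (fun x : ℕ => m * x) := fun a b h => Nat.eq_of_mul_eq_mul_left (Nat.pos_of_ne_zero hm) h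
  have key : ∀ A : Finset ℕ, (∀ x ∈ A, x ≠ 0) → (Adm (TK T K) (A.image (fun x => m * x)) ↔ Adm (TK T K) A) := by
    intro A hA
    have hTK : ∀ a ∈ A, ∀ b ∈ A, ∀ c ∈ A, (TK T K (m*a) (m*b) (m*c) ↔ TK T K a b c) := by
      intro a ha b hb c hc
      unfold TK
      rw [hT m a b c (Nat.pos_of_ne_zero hm), ro_mul K hm (hA a ha), ro_mul K hm (hA b hb), ro_mul K hm (hA c hc),
        Nat.mul_right_inj (ro_ne K m), Nat.mul_right_inj (ro_ne K m)]
    constructor
    · intro h a ha b hb c hc hab hac hbc hh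
      exact h (m*a) (mem_image_of_mem _ ha) (m*b) (mem_image_of_mem _ hb) (m*c) (mem_image_of_mem _ hc)
        (fun e => hab (hinj e)) (fun e => hac (hinj e)) (fun e => hbc (hinj e)) ((hTK a ha b hb c hc).2 hh)
    · intro h a ha b hb c hc hab hac hbc hh
      obtain ⟨a', ha', rfl⟩ := mem_image.1 ha
      obtain ⟨b', hb', rfl⟩ := mem_image.1 hb
      obtain ⟨c', hc', rfl⟩ := mem_image.1 hc
      exact h a' ha' b' hb' c' hc' (fun e => hab (by rw [e])) (fun e => hac (by rw [e])) (fun e => hbc (by rw [e]))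
        ((hTK a' ha' b' hb' c' hc').1 hh)
  apply le_antisymm
  · obtain ⟨A, hA, hA', hc⟩ := exists_F (TK T K) (X.image (fun x => m * x))
    obtain ⟨B, hB, rfl⟩ := Finset.subset_image_iff.1 hA
    rw [← hc, card_image_of_injective _ hinj]
    exact le_F (by exact_mod_cast hB) ((key B (fun x hx => hX x (hB hx))).1 hA')
  · obtain ⟨A, hA, hA', hc⟩ := exists_F (TK T K) X
    rw [← hc, ← card_image_of_injective A hinj]
    exact le_F (image_subset_image hA) ((key A (fun x hx => hX x (hA hx))).2 hA')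

end Pool.Agent.H27.LimDiv
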