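import Pool.Agent.H27.LimA

set_option maxHeartbeats 4000000

open Finset Filter Topology

namespace Pool.Agent.H27.LimDiv

lemma class_eq (K n m : ℕ) (hm : ro K m = m) (hm0 : m ≠ 0) :
    (Icc 1 n).filter (fun x => ro K x = m) =
      (((Icc 1 (n/m)).filter (fun x => ro K x = 1))).image (fun x => m * x) := by
  ext x
  simp only [mem_filter, mem_Icc, mem_image]
  constructor
  · rintro ⟨⟨h1, h2⟩, h3⟩
    have hx : sm K x * ro K x = x := sm_mul_ro K (by omega)
    rw [h3] at hx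
    refine ⟨sm K x, ⟨⟨Nat.pos_of_ne_zero (sm_ne K x), ?_⟩, ro_sm K x⟩, ?_⟩
    · rw [Nat.le_div_iff_mul_le (Nat.pos_of_ne_zero hm0), hx]; exact h2
    · rw [mul_comm]; exact hx
  · rintro ⟨y, ⟨⟨h1, h2⟩, h3⟩, rfl⟩
    refine ⟨⟨Nat.mul_pos (Nat.pos_of_ne_zero hm0) h1, ?_⟩, ?_⟩
    · rw [Nat.le_div_iff_mul_le (Nat.pos_of_ne_zero hm0)] at h2
      rw [mul_comm]; exact h2
    · rw [ro_mul K hm0 (by omega), hm, h3, mul_one]

noncomputable def hh (T : ℕ → ℕ → ℕ → Prop) (K t : ℕ) : ℕ :=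
  F (TK T K) ((Icc 1 t).filter (fun x => ro K x = 1))

lemma rec_step {T : ℕ → ℕ → ℕ → Prop}
    (hT : ∀ m a b c : ℕ, 0 < m → (T (m*a) (m*b) (m*c) ↔ T a b c)) (K n : ℕ) (hn : 1 ≤ n) :
    F (TK T K) (Icc 1 n) + hh T K (sm K n - 1) = F (TK T K) (Icc 1 (n-1)) + hh T K (sm K n) := by
  obtain ⟨m, hm⟩ : ∃ m, m = ro K n := ⟨_, rfl⟩
  obtain ⟨s, hs⟩ : ∃ s, s = sm K n := ⟨_, rfl⟩
  have hsm : s * m = n := by rw [hm, hs]; exact sm_mul_ro K (by omega)
  have hm0 : m ≠ 0 := by rw [hm]; exact ro_ne K n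
  have hs0 : s ≠ 0 := by rw [hs]; exact sm_ne K n
  have hmm : ro K m = m := by rw [hm]; exact ro_ro K n
  have hsplit : ∀ n', F (TK T K) (Icc 1 n') = F (TK T K) ((Icc 1 n').filter (fun x => ro K x = m))
      + F (TK T K) ((Icc 1 n').filter (fun x => ¬ ro K x = m)) := by
    intro n'
    rw [← F_union, filter_union_filter_not_eq]
    intro x hx y hy e
    rw [mem_filter] at hx hy
    exact hy.2 (e ▸ hx.2)
  have e1 : ∀ n', F (TK T K) ((Icc 1 n').filter (fun x => ro K x = m)) = hh T K (n'/m) := by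
    intro n'
    rw [class_eq K n' m hmm hm0, F_image hm0 hT]
    · rfl
    · intro x hx
      rw [mem_filter, mem_Icc] at hx
      omega
  have e2 : (Icc 1 n).filter (fun x => ¬ ro K x = m) = (Icc 1 (n-1)).filter (fun x => ¬ ro K x = m) := by
    ext x
    simp only [mem_filter, mem_Icc]
    constructor
    · rintro ⟨⟨h1, h2⟩, h3⟩
      refine ⟨⟨h1, ?_⟩, h3⟩
      have : x ≠ n := by rintro rfl; exact h3 hm.symm
      omega
    · rintro ⟨⟨h1, h2⟩, h3⟩
      exact ⟨⟨h1, by omega⟩, h3⟩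
  have e3 : n / m = s := by rw [← hsm]; exact Nat.mul_div_cancel s (Nat.pos_of_ne_zero hm0)
  have e4 : (n - 1) / m = s - 1 := by
    obtain ⟨t, rfl⟩ := Nat.exists_eq_succ_of_ne_zero hs0
    apply Nat.div_eq_of_lt_le
    · rw [← hsm]
      simp only [Nat.succ_eq_add_one, Nat.add_sub_cancel]
      have : 0 < m := Nat.pos_of_ne_zero hm0
      have h5 : (t+1) * m = t * m + m := by ring
      rw [h5]; omega
    · rw [← hsm]
      simp only [Nat.succ_eq_add_one, Nat.add_sub_cancel]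
      have : 0 < m := Nat.pos_of_ne_zero hm0
      have h5 : (t+1) * m = t * m + m := by ring
      rw [h5]; omega
  rw [hsplit n, hsplit (n-1), e1, e1, e2, e3, e4, hs]
  ring

noncomputable def dl (T : ℕ → ℕ → ℕ → Prop) (K s : ℕ) : ℝ := (hh T K s : ℝ) - (hh T K (s-1) : ℝ)

lemma dl_nonneg (T : ℕ → ℕ → ℕ → Prop) (K s : ℕ) : 0 ≤ dl T K s := by
  unfold dl hh
  have : F (TK T K) ((Icc 1 (s-1)).filter (fun x => ro K x = 1)) ≤ F (TK T K) ((Icc 1 s).filter (fun x => ro K x = 1)) := by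
    apply F_mono
    apply filter_subset_filter
    apply Icc_subset_Icc_right
    omega
  have h2 : ((F (TK T K) ((Icc 1 (s-1)).filter (fun x => ro K x = 1)) : ℕ) : ℝ) ≤
    ((F (TK T K) ((Icc 1 s).filter (fun x => ro K x = 1)) : ℕ) : ℝ) := by exact_mod_cast this
  linarith

lemma dl_le (T : ℕ → ℕ → ℕ → Prop) (K s : ℕ) : dl T K s ≤ 1 := by
  unfold dl hh
  have : F (TK T K) ((Icc 1 s).filter (fun x => ro K x = 1)) ≤ F (TK T K) ((Icc 1 (s-1)).filter (fun x => ro K x = 1)) + 1 := by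
    apply F_le_add (x := s)
    intro x hx
    rw [mem_filter, mem_Icc] at hx
    rw [mem_insert, mem_filter, mem_Icc]
    by_cases h : x = s
    · left; exact h
    · right; exact ⟨⟨hx.1.1, by omega⟩, hx.2⟩
  have h2 : ((F (TK T K) ((Icc 1 s).filter (fun x => ro K x = 1)) : ℕ) : ℝ) ≤
    ((F (TK T K) ((Icc 1 (s-1)).filter (fun x => ro K x = 1)) : ℕ) : ℝ) + 1 := by exact_mod_cast this
  linarith

lemma F_empty (U : ℕ → ℕ → ℕ → Prop) : F U ∅ = 0 := by
  obtain ⟨A, hA, hA', hc⟩ := exists_F U ∅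
  rw [← hc]
  rw [Finset.subset_empty] at hA
  rw [hA]; rfl

lemma F_sum {T : ℕ → ℕ → ℕ → Prop}
    (hT : ∀ m a b c : ℕ, 0 < m → (T (m*a) (m*b) (m*c) ↔ T a b c)) (K n : ℕ) :
    (F (TK T K) (Icc 1 n) : ℝ) = ∑ x ∈ Icc 1 n, dl T K (sm K x) := by
  induction n with
  | zero => simp [F_empty]
  | succ n ih =>
    rw [Finset.sum_Icc_succ_top (by omega), ← ih]
    have h := rec_step hT K (n+1) (by omega)
    rw [Nat.add_sub_cancel] at h
    have h2 : ((F (TK T K) (Icc 1 (n+1)) : ℕ) : ℝ) + (hh T K (sm K (n+1) - 1) : ℝ) =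
      (F (TK T K) (Icc 1 n) : ℝ) + (hh T K (sm K (n+1)) : ℝ) := by exact_mod_cast h
    unfold dl
    linarith

def Nc (K n s : ℕ) : ℕ := ((Icc 1 n).filter (fun x => sm K x = s)).card

lemma sm_le {K x : ℕ} (hx : x ≠ 0) : sm K x ≤ x :=
  Nat.le_of_dvd (Nat.pos_of_ne_zero hx) ⟨ro K x, (sm_mul_ro K hx).symm⟩

lemma Nc_zero {K n s : ℕ} (h : s ∉ Icc 1 n) : Nc K n s = 0 := by
  unfold Nc
  rw [card_eq_zero, filter_eq_empty_iff]
  intro x hx e
  apply h
  rw [mem_Icc] at hx ⊢
  have h1 := sm_ne K x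
  have h2 := sm_le (K := K) (x := x) (by omega)
  omega

lemma F_tsum {T : ℕ → ℕ → ℕ → Prop}
    (hT : ∀ m a b c : ℕ, 0 < m → (T (m*a) (m*b) (m*c) ↔ T a b c)) (K n : ℕ) :
    (F (TK T K) (Icc 1 n) : ℝ) = ∑' s, dl T K s * (Nc K n s : ℝ) := by
  rw [F_sum hT K n, tsum_eq_sum (s := Icc 1 n)]
  · rw [← Finset.sum_fiberwise_of_maps_to (s := Icc 1 n) (t := Icc 1 n) (g := fun x => sm K x)]
    · apply Finset.sum_congr rfl
      intro s _
      rw [Finset.sum_congr rfl (g := fun _ => dl T K s)]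
      · rw [Finset.sum_const, nsmul_eq_mul, mul_comm]
        rfl
      · intro x hx
        rw [mem_filter] at hx
        rw [hx.2]
    · intro x hx
      rw [mem_Icc] at hx ⊢
      have h1 := sm_ne K x
      have h2 := sm_le (K := K) (x := x) (by omega)
      omega
  · intro s hs
    rw [Nc_zero hs]; simp

lemma Nc_le (K n s : ℕ) : (Nc K n s : ℝ) ≤ n / s := by
  have h : Nc K n s ≤ n / s := by
    unfold Nc
    rw [← Nat.Ioc_filter_dvd_card_eq_div n s]
    apply card_le_card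
    intro x hx
    rw [mem_filter, mem_Icc] at hx
    rw [mem_filter, mem_Ioc]
    refine ⟨by omega, ?_⟩
    rw [← hx.2]
    exact ⟨ro K x, (sm_mul_ro K (by omega)).symm⟩
  calc (Nc K n s : ℝ) ≤ ((n / s : ℕ) : ℝ) := by exact_mod_cast h
    _ ≤ n / s := Nat.cast_div_le

lemma Nc_nonsmooth {K n s : ℕ} (h : sm K s ≠ s) : Nc K n s = 0 := by
  unfold Nc
  rw [card_eq_zero, filter_eq_empty_iff]
  intro x hx e
  apply h
  rw [← e]; exact sm_sm K x

lemma dens (p : ℕ → Prop) [DecidablePred p] (a : ℕ) (ha : 0 < a) (hp : ∀ x, p (a + x) ↔ p x) :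
    Tendsto (fun n : ℕ => (Nat.count p n : ℝ)/n) atTop (𝓝 ((Nat.count p a : ℝ) / a)) := by
  have h1 : ∀ q r, Nat.count p (a*q + r) = q * Nat.count p a + Nat.count p r := by
    intro q
    induction q with
    | zero => intro r; simp
    | succ q ih =>
      intro r
      have : a * (q+1) + r = a + (a * q + r) := by ring
      rw [this, Nat.count_add]
      have h3 : Nat.count (fun k => p (a + k)) (a*q+r) = Nat.count p (a*q+r) := by
        rw [Nat.count_eq_card_filter_range, Nat.count_eq_card_filter_range]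
        congr 1
        apply Finset.filter_congr
        intro x _
        exact hp x
      rw [h3, ih]; ring
  have ha' : (0:ℝ) < a := by exact_mod_cast ha
  have hb : ∀ n : ℕ, 0 < n → |(Nat.count p n : ℝ)/n - (Nat.count p a : ℝ)/a| ≤ a / n := by
    intro n hn
    have hn' : (0:ℝ) < n := by exact_mod_cast hn
    have e := h1 (n/a) (n % a)
    rw [Nat.div_add_mod] at e
    have h3 : Nat.count p (n % a) ≤ n % a := Nat.count_le _
    have h4 : n % a < a := Nat.mod_lt n ha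
    have h5 : Nat.count p a ≤ a := Nat.count_le _
    have e' : (Nat.count p n : ℝ) = ((n/a : ℕ):ℝ) * (Nat.count p a : ℝ) + (Nat.count p (n%a) : ℝ) := by exact_mod_cast e
    have e6 : (a:ℝ) * ((n/a : ℕ) : ℝ) + ((n % a : ℕ) : ℝ) = n := by exact_mod_cast Nat.div_add_mod n a
    have h3' : (Nat.count p (n % a) : ℝ) ≤ ((n % a : ℕ) : ℝ) := by exact_mod_cast h3
    have h4' : ((n % a : ℕ) : ℝ) ≤ a := by exact_mod_cast h4.le
    have h5' : (Nat.count p a : ℝ) ≤ a := by exact_mod_cast h5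
    have h7 : (0:ℝ) ≤ (Nat.count p (n%a) : ℝ) := Nat.cast_nonneg _
    have h8 : (0:ℝ) ≤ (Nat.count p a : ℝ) := Nat.cast_nonneg _
    have h9 : (0:ℝ) ≤ ((n % a : ℕ) : ℝ) := Nat.cast_nonneg _
    rw [div_sub_div _ _ hn'.ne' ha'.ne', abs_div, abs_of_pos (mul_pos hn' ha'), div_le_div_iff₀ (mul_pos hn' ha') hn']
    have key : |(Nat.count p n : ℝ) * a - n * (Nat.count p a : ℝ)| ≤ a * a := by
      rw [abs_le]
      constructor
      · rw [e', ← e6]
        nlinarith [mul_nonneg h9 h8, mul_le_mul h4' h5' h8 ha'.le]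
      · rw [e', ← e6]
        nlinarith [mul_nonneg h9 h8, mul_le_mul_of_nonneg_left (h3'.trans h4') ha'.le]
    nlinarith [mul_le_mul_of_nonneg_right key hn'.le]
  rw [tendsto_iff_dist_tendsto_zero]
  have hz : Tendsto (fun n : ℕ => (a:ℝ) / n) atTop (𝓝 0) := tendsto_const_div_atTop_nhds_zero_nat (a:ℝ)
  refine squeeze_zero' (Eventually.of_forall (fun n => dist_nonneg)) ?_ hz
  filter_upwards [eventually_gt_atTop 0] with n hn
  rw [Real.dist_eq]
  exact hb n hn

lemma sm_iff {K s x : ℕ} (hs : sm K s = s) (hx : x ≠ 0) :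
    sm K x = s ↔ ∃ m, x = s * m ∧ Nat.Coprime m (K-1).factorial := by
  constructor
  · intro h
    refine ⟨ro K x, by rw [← h]; exact (sm_mul_ro K hx).symm, ?_⟩
    apply Nat.Coprime.symm
    rw [Nat.coprime_iff_gcd_eq_one]  
    by_contra hne
    obtain ⟨p, hp, hpd⟩ := Nat.exists_prime_and_dvd hne
    have h1 : p ∣ (K-1).factorial := hpd.trans (Nat.gcd_dvd_left _ _)
    have h2 : p ∣ ro K x := hpd.trans (Nat.gcd_dvd_right _ _)
    rw [hp.dvd_factorial] at h1
    have h3 := mem_ro ((Nat.mem_primeFactorsList (ro_ne K x)).2 ⟨hp, h2⟩)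
    have := hp.two_le
    omega
  · rintro ⟨m, rfl, hm⟩
    have hs0 : s ≠ 0 := by rintro rfl; simp at hx
    have hm0 : m ≠ 0 := by rintro rfl; simp at hx
    rw [sm_mul K hs0 hm0, hs]
    have : sm K m = 1 := by
      apply sm_eq_one
      intro p hp hpK
      have hpp := Nat.prime_of_mem_primeFactorsList hp
      have h1 : p ∣ (K-1).factorial := by rw [hpp.dvd_factorial]; omega
      have h2 := Nat.dvd_of_mem_primeFactorsList hp
      have h3 := Nat.dvd_gcd h2 h1
      rw [hm] at h3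
      exact hpp.one_lt.ne' (Nat.dvd_one.1 h3)
    rw [this, mul_one]

lemma Nc_count (K n s : ℕ) : Nc K n s = Nat.count (fun y => sm K (y+1) = s) n := by
  induction n with
  | zero => simp [Nc]
  | succ n ih =>
    rw [Nat.count_succ, ← ih]
    unfold Nc
    have : Icc 1 (n+1) = insert (n+1) (Icc 1 n) := by
      ext x; simp only [mem_Icc, mem_insert]; omega
    rw [this, filter_insert]
    split_ifs with h
    · rw [card_insert_of_notMem]
      simp
    · simp

lemma Nc_lim (K s : ℕ) : ∃ c : ℝ, Tendsto (fun n : ℕ => (Nc K n s : ℝ) / n) atTop (𝓝 c) := by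
  by_cases hs : sm K s = s
  · have hs0 : 0 < s := by rw [← hs]; exact Nat.pos_of_ne_zero (sm_ne K s)
    refine ⟨(Nat.count (fun y => sm K (y+1) = s) (s * (K-1).factorial) : ℝ) / ((s * (K-1).factorial : ℕ) : ℝ), ?_⟩
    · have := dens (fun y => sm K (y+1) = s) (s * (K-1).factorial) (Nat.mul_pos hs0 (Nat.factorial_pos _)) ?_
      · simp only [Nc_count]
        exact this
      · intro x
        rw [sm_iff hs (by omega), sm_iff hs (by omega)]
        constructor
        · rintro ⟨m, h1, h2⟩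
          have hle : (K-1).factorial ≤ m := by
            by_contra hlt
            push Not at hlt
            have : s * m ≤ s * (K-1).factorial := Nat.mul_le_mul_left s hlt.le
            omega
          refine ⟨m - (K-1).factorial, ?_, ?_⟩
          · rw [Nat.mul_sub]; omega
          · rwa [Nat.coprime_sub_self_left hle]
        · rintro ⟨m, h1, h2⟩
          refine ⟨m + (K-1).factorial, ?_, ?_⟩
          · rw [Nat.mul_add]; omega
          · rwa [Nat.coprime_add_self_left]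
  · refine ⟨0, ?_⟩
    simp [Nc_nonsmooth hs]

end Pool.Agent.H27.LimDiv
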