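import Pool.Agent.H27.LimB

set_option maxHeartbeats 4000000

open Finset Filter Topology

namespace Pool.Agent.H27.LimDiv

noncomputable def recipHom : ℕ →* ℝ where
  toFun n := ((n:ℝ))⁻¹
  map_one' := by simp
  map_mul' a b := by push_cast; rw [mul_inv]

lemma mem_smooth {K s : ℕ} (h : sm K s = s) : s ∈ K.smoothNumbers := by
  rw [Nat.mem_smoothNumbers, ← h]
  exact ⟨sm_ne K s, fun p hp => mem_sm hp⟩

lemma summ (K : ℕ) : Summable (fun s : ℕ => (K.smoothNumbers).indicator (fun n => ‖recipHom n‖) s) := by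
  have h := (EulerProduct.summable_and_hasSum_smoothNumbers_prod_primesBelow_geometric (f := recipHom) (by
    intro p hp
    have : (1:ℝ) < p := by exact_mod_cast hp.one_lt
    show ‖((p:ℝ))⁻¹‖ < 1
    rw [norm_inv, Real.norm_of_nonneg (by linarith)]
    exact inv_lt_one_of_one_lt₀ this) K).1
  have := (summable_subtype_iff_indicator (f := fun n => ‖recipHom n‖) (s := K.smoothNumbers)).1 h
  exact this

/-- the truncated problem has a limit -/
lemma lim_K {T : ℕ → ℕ → ℕ → Prop}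
    (hT : ∀ m a b c : ℕ, 0 < m → (T (m*a) (m*b) (m*c) ↔ T a b c)) (K : ℕ) :
    ∃ c : ℝ, Tendsto (fun n : ℕ => (F (TK T K) (Icc 1 n) : ℝ) / n) atTop (𝓝 c) := by
  choose c hc using Nc_lim K
  refine ⟨∑' s, dl T K s * c s, ?_⟩
  have h := tendsto_tsum_of_dominated_convergence (𝓕 := atTop) (f := fun (n : ℕ) (s : ℕ) => dl T K s * ((Nc K n s : ℝ) / n))
    (g := fun s => dl T K s * c s) (bound := fun s : ℕ => (K.smoothNumbers).indicator (fun n => ‖recipHom n‖) s)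
    (summ K) (fun s => (hc s).const_mul _) ?_
  · refine h.congr (fun n => ?_)
    rw [F_tsum hT K n, ← tsum_div_const]
    apply tsum_congr
    intro s
    ring
  · filter_upwards [eventually_gt_atTop 0] with n hn s
    have hn' : (0:ℝ) < n := by exact_mod_cast hn
    by_cases hs : sm K s = s
    · rw [Set.indicator_of_mem (mem_smooth hs)]
      have hs0 : 0 < s := by rw [← hs]; exact Nat.pos_of_ne_zero (sm_ne K s)
      have hs' : (0:ℝ) < s := by exact_mod_cast hs0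
      show ‖dl T K s * ((Nc K n s : ℝ) / n)‖ ≤ ‖((s:ℝ))⁻¹‖
      rw [Real.norm_of_nonneg (mul_nonneg (dl_nonneg T K s) (by positivity)), Real.norm_of_nonneg (by positivity)]
      have h1 : (Nc K n s : ℝ) / n ≤ (s:ℝ)⁻¹ := by
        rw [div_le_iff₀ hn']
        have := Nc_le K n s
        rw [inv_mul_eq_div]; exact this
      calc dl T K s * ((Nc K n s : ℝ) / n) ≤ 1 * ((Nc K n s : ℝ) / n) :=
            mul_le_mul_of_nonneg_right (dl_le T K s) (by positivity)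
        _ ≤ (s:ℝ)⁻¹ := by rw [one_mul]; exact h1
    · rw [Nc_nonsmooth hs]
      simp only [Nat.cast_zero, zero_div, mul_zero, norm_zero]
      exact Set.indicator_nonneg (fun _ _ => norm_nonneg _) _

lemma F_le_TK (T : ℕ → ℕ → ℕ → Prop) (K : ℕ) (X : Finset ℕ) : F T X ≤ F (TK T K) X := by
  obtain ⟨A, hA, hA', hc⟩ := exists_F T X
  rw [← hc]
  apply le_F hA
  intro a ha b hb c hc hab hac hbc hh
  exact hA' a ha b hb c hc hab hac hbc hh.1

lemma TK_le_F {T : ℕ → ℕ → ℕ → Prop} {K : ℕ} (hK : 0 < K)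
    (htr : ∀ n a b c : ℕ, 1 ≤ a → a ≤ n → 1 ≤ b → b ≤ n → 1 ≤ c → c ≤ n → n < K * a → n < K * b → n < K * c →
      T a b c → ro K a = ro K b ∧ ro K a = ro K c) (n : ℕ) :
    (F (TK T K) (Icc 1 n) : ℝ) ≤ (F T (Icc 1 n) : ℝ) + n / K := by
  obtain ⟨A, hA, hA', hc⟩ := exists_F (TK T K) (Icc 1 n)
  have h1 : (A.filter (fun x => n < K * x)).card ≤ F T (Icc 1 n) := by
    apply le_F ((filter_subset _ _).trans hA)
    intro a ha b hb c hcc hab hac hbc hh
    rw [mem_filter] at ha hb hcc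
    have ha1 := mem_Icc.1 (hA ha.1)
    have hb1 := mem_Icc.1 (hA hb.1)
    have hc1 := mem_Icc.1 (hA hcc.1)
    exact hA' a ha.1 b hb.1 c hcc.1 hab hac hbc
      ⟨hh, htr n a b c ha1.1 ha1.2 hb1.1 hb1.2 hc1.1 hc1.2 ha.2 hb.2 hcc.2 hh⟩
  have h2 : (A.filter (fun x => ¬ n < K * x)).card ≤ n / K := by
    have : (A.filter (fun x => ¬ n < K * x)) ⊆ Icc 1 (n / K) := by
      intro x hx
      rw [mem_filter] at hx
      have hx1 := mem_Icc.1 (hA hx.1)
      rw [mem_Icc]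
      refine ⟨hx1.1, ?_⟩
      rw [Nat.le_div_iff_mul_le hK, mul_comm]
      exact not_lt.1 hx.2
    have := card_le_card this
    simpa using this
  have h3 : A.card = (A.filter (fun x => n < K * x)).card + (A.filter (fun x => ¬ n < K * x)).card :=
    (card_filter_add_card_filter_not _).symm
  have h4 : A.card ≤ F T (Icc 1 n) + n / K := by omega
  rw [← hc]
  calc (A.card : ℝ) ≤ ((F T (Icc 1 n) + n / K : ℕ) : ℝ) := by exact_mod_cast h4
    _ = (F T (Icc 1 n) : ℝ) + ((n / K : ℕ) : ℝ) := by push_cast; ring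
    _ ≤ _ := by gcongr; exact Nat.cast_div_le

theorem lim_main {T : ℕ → ℕ → ℕ → Prop}
    (hT : ∀ m a b c : ℕ, 0 < m → (T (m*a) (m*b) (m*c) ↔ T a b c))
    (htr : ∀ K n a b c : ℕ, 0 < K → 1 ≤ a → a ≤ n → 1 ≤ b → b ≤ n → 1 ≤ c → c ≤ n →
      n < K * a → n < K * b → n < K * c → T a b c → ro K a = ro K b ∧ ro K a = ro K c) :
    ∃ L : ℝ, Tendsto (fun n : ℕ => (F T (Icc 1 n) : ℝ) / n) atTop (𝓝 L) := by
  apply cauchySeq_tendsto_of_complete
  rw [Metric.cauchySeq_iff]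
  intro ε hε
  obtain ⟨K, hK⟩ := exists_nat_gt (4 / ε)
  have hK0 : (0:ℝ) < K := lt_trans (by positivity) hK
  have hK0' : 0 < K := by exact_mod_cast hK0
  have hKe : (1:ℝ) / K < ε / 4 := by
    rw [div_lt_div_iff₀ hK0 (by norm_num)]
    rw [div_lt_iff₀ hε] at hK
    linarith
  obtain ⟨c, hc⟩ := lim_K hT K
  rw [Metric.tendsto_atTop] at hc
  obtain ⟨N, hN⟩ := hc (ε/4) (by positivity)
  have key : ∀ n ≥ N + 1, |(F T (Icc 1 n) : ℝ) / n - c| < ε / 2 := by
    intro n hn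
    have h1 := hN n (by omega)
    rw [Real.dist_eq, abs_lt] at h1
    have hn' : (0:ℝ) < n := by
      have : 0 < n := by omega
      exact_mod_cast this
    have h2 : (F T (Icc 1 n) : ℝ) / n ≤ (F (TK T K) (Icc 1 n) : ℝ) / n := by
      gcongr
      exact_mod_cast F_le_TK T K (Icc 1 n)
    have h3 : (F (TK T K) (Icc 1 n) : ℝ) / n ≤ (F T (Icc 1 n) : ℝ) / n + 1 / K := by
      have := TK_le_F (T := T) hK0' (fun n a b c => htr K n a b c hK0') n
      rw [div_add_div _ _ hn'.ne' hK0.ne', div_le_div_iff₀ hn' (by positivity)]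
      have h5 : (n:ℝ) / K * K = n := by field_simp
      have h6 := mul_le_mul_of_nonneg_right this hK0.le
      rw [add_mul, h5] at h6
      nlinarith [mul_le_mul_of_nonneg_right h6 hn'.le]
    rw [abs_lt]
    constructor <;> linarith [h1.1, h1.2]
  refine ⟨N+1, fun m hm n hn => ?_⟩
  have h1 := key m hm
  have h2 := key n hn
  rw [abs_lt] at h1 h2
  rw [Real.dist_eq, abs_lt]
  constructor <;> linarith [h1.1, h1.2, h2.1, h2.2]

lemma scale1 : ∀ m a b c : ℕ, 0 < m → ((m*a ∣ m*b ∧ m*a ∣ m*c) ↔ (a ∣ b ∧ a ∣ c)) := by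
  intro m a b c hm
  rw [Nat.mul_dvd_mul_iff_left hm, Nat.mul_dvd_mul_iff_left hm]

lemma scale2 : ∀ m a b c : ℕ, 0 < m → ((m*b ∣ m*a ∧ m*c ∣ m*a) ↔ (b ∣ a ∧ c ∣ a)) := by
  intro m a b c hm
  rw [Nat.mul_dvd_mul_iff_left hm, Nat.mul_dvd_mul_iff_left hm]

lemma ro_dvd {K n a b : ℕ} (ha : 1 ≤ a) (hb : 1 ≤ b) (hbn : b ≤ n) (h : n < K * a) (hab : a ∣ b) : ro K a = ro K b := by
  obtain ⟨d, rfl⟩ := hab
  have hd : d ≠ 0 := by rintro rfl; omega
  rw [ro_small (by omega) hd]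
  have : a * d < a * K := by rw [mul_comm a K]; omega
  exact Nat.lt_of_mul_lt_mul_left this

theorem lim_f : ∃ L : ℝ, Tendsto (fun n : ℕ => (F (fun a b c => a ∣ b ∧ a ∣ c) (Icc 1 n) : ℝ) / n) atTop (𝓝 L) := by
  apply lim_main (T := fun a b c => a ∣ b ∧ a ∣ c) scale1
  intro K n a b c hK ha han hb hbn hc hcn h1 h2 h3 hT
  exact ⟨ro_dvd ha hb hbn h1 hT.1, ro_dvd ha hc hcn h1 hT.2⟩

theorem lim_g : ∃ L : ℝ, Tendsto (fun n : ℕ => (F (fun a b c => b ∣ a ∧ c ∣ a) (Icc 1 n) : ℝ) / n) atTop (𝓝 L) := by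
  apply lim_main (T := fun a b c => b ∣ a ∧ c ∣ a) scale2
  intro K n a b c hK ha han hb hbn hc hcn h1 h2 h3 hT
  exact ⟨(ro_dvd hb ha han h2 hT.1).symm, (ro_dvd hc ha han h3 hT.2).symm⟩

end Pool.Agent.H27.LimDiv
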