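import Pool.Agent.H27.LimC

set_option maxHeartbeats 4000000

open Finset Filter Topology

namespace Pool.Agent.H27.LimDiv

lemma sm_eq_of_ro {K x : ℕ} (hx : x ≠ 0) (h : ro K x = 1) : sm K x = x := by
  have := sm_mul_ro K hx
  rwa [h, mul_one] at this

lemma dl_nonsmooth (T : ℕ → ℕ → ℕ → Prop) {K s : ℕ} (h : sm K s ≠ s) : dl T K s = 0 := by
  unfold dl hh
  have : (Icc 1 s).filter (fun x => ro K x = 1) = (Icc 1 (s-1)).filter (fun x => ro K x = 1) := by
    ext x
    simp only [mem_filter, mem_Icc]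
    constructor
    · rintro ⟨⟨h1, h2⟩, h3⟩
      refine ⟨⟨h1, ?_⟩, h3⟩
      have : x ≠ s := by
        rintro rfl
        exact h (sm_eq_of_ro (by omega) h3)
      omega
    · rintro ⟨⟨h1, h2⟩, h3⟩
      exact ⟨⟨h1, by omega⟩, h3⟩
  rw [this, sub_self]

lemma Nc_full {K s : ℕ} (hs : sm K s = s) : Nc K (s * (K-1).factorial) s = Nat.totient (K-1).factorial := by
  have hs0 : 0 < s := by rw [← hs]; exact Nat.pos_of_ne_zero (sm_ne K s)
  have htot := Nat.filter_coprime_Ico_eq_totient (K-1).factorial 1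
  rw [← htot]
  unfold Nc
  have hinj : Function.Injective (fun m : ℕ => s * m) := fun a b h => Nat.eq_of_mul_eq_mul_left hs0 h
  rw [← card_image_of_injective ((Ico 1 (1 + (K-1).factorial)).filter (fun x => (K-1).factorial.Coprime x)) hinj]
  congr 1
  ext x
  simp only [mem_filter, mem_Icc, mem_image, mem_Ico]
  constructor
  · rintro ⟨⟨h1, h2⟩, h3⟩
    obtain ⟨m, rfl, hm⟩ := (sm_iff hs (by omega)).1 h3
    have hm0 : m ≠ 0 := by rintro rfl; simp at h1
    have := Nat.le_of_mul_le_mul_left h2 hs0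
    exact ⟨m, ⟨⟨by omega, by omega⟩, hm.symm⟩, rfl⟩
  · rintro ⟨m, ⟨⟨h1, h2⟩, h3⟩, rfl⟩
    refine ⟨⟨Nat.mul_pos hs0 h1, Nat.mul_le_mul_left s (by omega)⟩, ?_⟩
    rw [sm_iff hs (Nat.mul_pos hs0 h1).ne']
    exact ⟨m, rfl, h3.symm⟩

lemma tot_prod (K : ℕ) : ((Nat.totient (K-1).factorial : ℕ) : ℝ) =
    ((K-1).factorial : ℝ) * ∏ p ∈ K.primesBelow, (1 - (p:ℝ)⁻¹) := by
  have h := Nat.totient_eq_mul_prod_factors (K-1).factorial
  have h2 : (K-1).factorial.primeFactors = K.primesBelow := by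
    ext p
    rw [Nat.mem_primeFactors, Nat.mem_primesBelow]
    constructor
    · rintro ⟨h1, h2, -⟩
      rw [h1.dvd_factorial] at h2
      have := h1.two_le
      exact ⟨by omega, h1⟩
    · rintro ⟨h1, h2⟩
      refine ⟨h2, ?_, (Nat.factorial_pos _).ne'⟩
      rw [h2.dvd_factorial]; omega
  rw [h2] at h
  have h3 : (((Nat.totient (K-1).factorial : ℕ) : ℚ) : ℝ) = (((K-1).factorial * ∏ p ∈ K.primesBelow, (1 - (p:ℚ)⁻¹) : ℚ) : ℝ) := by
    rw [h]
  push_cast at h3
  exact h3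

lemma Nc_lim' {K s : ℕ} (hs : sm K s = s) :
    Tendsto (fun n : ℕ => (Nc K n s : ℝ) / n) atTop (𝓝 ((∏ p ∈ K.primesBelow, (1 - (p:ℝ)⁻¹)) * (1 / s))) := by
  have hs0 : 0 < s := by rw [← hs]; exact Nat.pos_of_ne_zero (sm_ne K s)
  have := dens (fun y => sm K (y+1) = s) (s * (K-1).factorial) (Nat.mul_pos hs0 (Nat.factorial_pos _)) ?_
  · simp only [Nc_count]
    convert this using 2
    rw [← Nc_count, Nc_full hs, tot_prod]
    have h1 : (0:ℝ) < s := by exact_mod_cast hs0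
    have h2 : (0:ℝ) < (K-1).factorial := by exact_mod_cast Nat.factorial_pos _
    push_cast
    field_simp
  · intro x
    rw [sm_iff hs (by omega), sm_iff hs (by omega)]
    constructor
    · rintro ⟨m, h1, h2⟩
      have hle : (K-1).factorial ≤ m := by
        by_contra hlt
        push Not at hlt
        have : s * m ≤ s * (K-1).factorial := Nat.mul_le_mul_left s hlt.le
        omega
      refine ⟨m - (K-1).factorial, ?_, ?_⟩
      · rw [Nat.mul_sub]; omega
      · rwa [Nat.coprime_sub_self_left hle]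
    · rintro ⟨m, h1, h2⟩
      refine ⟨m + (K-1).factorial, ?_, ?_⟩
      · rw [Nat.mul_add]; omega
      · rwa [Nat.coprime_add_self_left]

/-- the value of the truncated limit -/
noncomputable def lam (T : ℕ → ℕ → ℕ → Prop) (K : ℕ) : ℝ :=
  (∏ p ∈ K.primesBelow, (1 - (p:ℝ)⁻¹)) * ∑' s : ℕ, dl T K s / s

lemma summable_dl (T : ℕ → ℕ → ℕ → Prop) (K : ℕ) : Summable (fun s : ℕ => dl T K s / s) := by
  refine Summable.of_nonneg_of_le (fun s => div_nonneg (dl_nonneg T K s) (Nat.cast_nonneg s)) (fun s => ?_) (summ K)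
  by_cases hs : sm K s = s
  · rw [Set.indicator_of_mem (mem_smooth hs)]
    have hs0 : 0 < s := by rw [← hs]; exact Nat.pos_of_ne_zero (sm_ne K s)
    have hs' : (0:ℝ) < s := by exact_mod_cast hs0
    show dl T K s / s ≤ ‖((s:ℝ))⁻¹‖
    rw [Real.norm_of_nonneg (by positivity), div_eq_mul_inv]
    calc dl T K s * (s:ℝ)⁻¹ ≤ 1 * (s:ℝ)⁻¹ := mul_le_mul_of_nonneg_right (dl_le T K s) (by positivity)
      _ = _ := one_mul _
  · rw [dl_nonsmooth T hs, zero_div]
    exact Set.indicator_nonneg (fun _ _ => norm_nonneg _) _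

lemma lim_K' {T : ℕ → ℕ → ℕ → Prop}
    (hT : ∀ m a b c : ℕ, 0 < m → (T (m*a) (m*b) (m*c) ↔ T a b c)) (K : ℕ) :
    Tendsto (fun n : ℕ => (F (TK T K) (Icc 1 n) : ℝ) / n) atTop (𝓝 (lam T K)) := by
  have h := tendsto_tsum_of_dominated_convergence (𝓕 := atTop) (f := fun (n : ℕ) (s : ℕ) => dl T K s * ((Nc K n s : ℝ) / n))
    (g := fun s => dl T K s * ((∏ p ∈ K.primesBelow, (1 - (p:ℝ)⁻¹)) * (1 / s)))
    (bound := fun s : ℕ => (K.smoothNumbers).indicator (fun n => ‖recipHom n‖) s)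
    (summ K) ?_ ?_
  · have e : ∑' s : ℕ, dl T K s * ((∏ p ∈ K.primesBelow, (1 - (p:ℝ)⁻¹)) * (1 / s)) = lam T K := by
      unfold lam
      rw [← tsum_mul_left]
      apply tsum_congr
      intro s
      ring
    rw [e] at h
    refine h.congr (fun n => ?_)
    rw [F_tsum hT K n, ← tsum_div_const]
    apply tsum_congr
    intro s
    ring
  · intro s
    by_cases hs : sm K s = s
    · exact (Nc_lim' hs).const_mul _
    · rw [dl_nonsmooth T hs]
      simp
  · filter_upwards [eventually_gt_atTop 0] with n hn s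
    have hn' : (0:ℝ) < n := by exact_mod_cast hn
    by_cases hs : sm K s = s
    · rw [Set.indicator_of_mem (mem_smooth hs)]
      have hs0 : 0 < s := by rw [← hs]; exact Nat.pos_of_ne_zero (sm_ne K s)
      have hs' : (0:ℝ) < s := by exact_mod_cast hs0
      show ‖dl T K s * ((Nc K n s : ℝ) / n)‖ ≤ ‖((s:ℝ))⁻¹‖
      rw [Real.norm_of_nonneg (mul_nonneg (dl_nonneg T K s) (by positivity)), Real.norm_of_nonneg (by positivity)]
      have h1 : (Nc K n s : ℝ) / n ≤ (s:ℝ)⁻¹ := by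
        rw [div_le_iff₀ hn']
        have := Nc_le K n s
        rw [inv_mul_eq_div]; exact this
      calc dl T K s * ((Nc K n s : ℝ) / n) ≤ 1 * ((Nc K n s : ℝ) / n) :=
            mul_le_mul_of_nonneg_right (dl_le T K s) (by positivity)
        _ ≤ (s:ℝ)⁻¹ := by rw [one_mul]; exact h1
    · rw [Nc_nonsmooth hs]
      simp only [Nat.cast_zero, zero_div, mul_zero, norm_zero]
      exact Set.indicator_nonneg (fun _ _ => norm_nonneg _) _

theorem bounds_main {T : ℕ → ℕ → ℕ → Prop}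
    (hT : ∀ m a b c : ℕ, 0 < m → (T (m*a) (m*b) (m*c) ↔ T a b c))
    (htr : ∀ K n a b c : ℕ, 0 < K → 1 ≤ a → a ≤ n → 1 ≤ b → b ≤ n → 1 ≤ c → c ≤ n →
      n < K * a → n < K * b → n < K * c → T a b c → ro K a = ro K b ∧ ro K a = ro K c)
    {L : ℝ} (hL : Tendsto (fun n : ℕ => (F T (Icc 1 n) : ℝ) / n) atTop (𝓝 L)) {K : ℕ} (hK : 0 < K) :
    lam T K - 1 / K ≤ L ∧ L ≤ lam T K := by
  have hK0 : (0:ℝ) < K := by exact_mod_cast hK
  constructor
  · refine le_of_tendsto_of_tendsto ((lim_K' hT K).sub_const (1/(K:ℝ))) hL ?_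
    filter_upwards [eventually_gt_atTop 0] with n hn
    have hn' : (0:ℝ) < n := by exact_mod_cast hn
    have := TK_le_F (T := T) hK (fun n a b c => htr K n a b c hK) n
    have h3 : (F (TK T K) (Icc 1 n) : ℝ) / n ≤ (F T (Icc 1 n) : ℝ) / n + 1 / K := by
      rw [div_add_div _ _ hn'.ne' hK0.ne', div_le_div_iff₀ hn' (by positivity)]
      have h5 : (n:ℝ) / K * K = n := by field_simp
      have h6 := mul_le_mul_of_nonneg_right this hK0.le
      rw [add_mul, h5] at h6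
      nlinarith [mul_le_mul_of_nonneg_right h6 hn'.le]
    linarith
  · refine le_of_tendsto_of_tendsto hL (lim_K' hT K) ?_
    filter_upwards [eventually_gt_atTop 0] with n hn
    have hn' : (0:ℝ) < n := by exact_mod_cast hn
    gcongr
    exact_mod_cast F_le_TK T K (Icc 1 n)

/-- `hh` in terms of `T`-admissible sets of smooth numbers -/
lemma hh_le {T : ℕ → ℕ → ℕ → Prop} {K s : ℕ} {A : Finset ℕ} (hA : A ⊆ Icc 1 s)
    (hsm : ∀ a ∈ A, a ∈ K.smoothNumbers) (h : Adm T A) : A.card ≤ hh T K s := by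
  unfold hh
  apply le_F
  · intro a ha
    rw [mem_filter]
    refine ⟨hA ha, ?_⟩
    exact ro_eq_one ((Nat.mem_smoothNumbers.1 (hsm a ha)).2)
  · intro a ha b hb c hc hab hac hbc hh
    exact h a ha b hb c hc hab hac hbc hh.1

lemma exists_hh (T : ℕ → ℕ → ℕ → Prop) (K s : ℕ) :
    ∃ A : Finset ℕ, A ⊆ Icc 1 s ∧ (∀ a ∈ A, a ∈ K.smoothNumbers) ∧ Adm T A ∧ A.card = hh T K s := by
  obtain ⟨A, hA, hA', hc⟩ := exists_F (TK T K) ((Icc 1 s).filter (fun x => ro K x = 1))
  refine ⟨A, hA.trans (filter_subset _ _), ?_, ?_, hc⟩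
  · intro a ha
    have := mem_filter.1 (hA ha)
    rw [mem_Icc] at this
    exact mem_smooth (sm_eq_of_ro (by omega) this.2)
  · intro a ha b hb c hcc hab hac hbc hh
    have h1 := (mem_filter.1 (hA ha)).2
    have h2 := (mem_filter.1 (hA hb)).2
    have h3 := (mem_filter.1 (hA hcc)).2
    exact hA' a ha b hb c hcc hab hac hbc ⟨hh, by rw [h1, h2], by rw [h1, h3]⟩

end Pool.Agent.H27.LimDiv
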