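import Pool.Agent.H27.LimD

set_option maxHeartbeats 4000000

open Finset Filter Topology

namespace Pool.Agent.H27.LimDiv

/-- the density factor `∏_{p < K} (1 - 1/p)` -/
noncomputable def PiK (K : ℕ) : ℝ := ∏ p ∈ K.primesBelow, (1 - (p:ℝ)⁻¹)

lemma PiK_pos (K : ℕ) : 0 < PiK K := by
  unfold PiK
  apply Finset.prod_pos
  intro p hp
  have h : (1:ℝ) < p := by exact_mod_cast (Nat.prime_of_mem_primesBelow hp).one_lt
  have := inv_lt_one_of_one_lt₀ h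
  linarith

lemma hasSum_smooth (K : ℕ) : HasSum (fun s : ℕ => (K.smoothNumbers).indicator (fun n => ((n:ℝ))⁻¹) s) (PiK K)⁻¹ := by
  have h := (EulerProduct.summable_and_hasSum_smoothNumbers_prod_primesBelow_geometric (f := recipHom) (by
    intro p hp
    have : (1:ℝ) < p := by exact_mod_cast hp.one_lt
    show ‖((p:ℝ))⁻¹‖ < 1
    rw [norm_inv, Real.norm_of_nonneg (by linarith)]
    exact inv_lt_one_of_one_lt₀ this) K).2
  have h2 : (∏ p ∈ K.primesBelow, (1 - recipHom p)⁻¹) = (PiK K)⁻¹ := by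
    unfold PiK
    rw [← Finset.prod_inv_distrib]
    rfl
  rw [h2] at h
  exact (hasSum_subtype_iff_indicator (f := fun n => recipHom n) (s := K.smoothNumbers)).1 h

lemma dl_le_ind (T : ℕ → ℕ → ℕ → Prop) (K s : ℕ) :
    dl T K s / s ≤ (K.smoothNumbers).indicator (fun n => ((n:ℝ))⁻¹) s := by
  by_cases hs : sm K s = s
  · rw [Set.indicator_of_mem (mem_smooth hs)]
    have hs0 : 0 < s := by rw [← hs]; exact Nat.pos_of_ne_zero (sm_ne K s)
    have hs' : (0:ℝ) < s := by exact_mod_cast hs0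
    rw [div_eq_mul_inv]
    calc dl T K s * (s:ℝ)⁻¹ ≤ 1 * (s:ℝ)⁻¹ := mul_le_mul_of_nonneg_right (dl_le T K s) (by positivity)
      _ = _ := one_mul _
  · rw [dl_nonsmooth T hs, zero_div]
    exact Set.indicator_nonneg (fun _ _ => by positivity) _

lemma lam_lower (T : ℕ → ℕ → ℕ → Prop) (K N : ℕ) :
    PiK K * ∑ s ∈ Icc 1 N, dl T K s / s ≤ lam T K := by
  unfold lam
  apply mul_le_mul_of_nonneg_left _ (PiK_pos K).le
  apply (summable_dl T K).sum_le_tsum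
  intro s _
  exact div_nonneg (dl_nonneg T K s) (Nat.cast_nonneg s)

lemma lam_upper (T : ℕ → ℕ → ℕ → Prop) (K N : ℕ) :
    lam T K ≤ PiK K * (∑ s ∈ Icc 1 N, dl T K s / s) +
      (1 - PiK K * ∑ s ∈ Icc 1 N, (K.smoothNumbers).indicator (fun n => ((n:ℝ))⁻¹) s) := by
  have h1 := (hasSum_smooth K).summable.sub (summable_dl T K)
  have h2 := h1.sum_le_tsum (Icc 1 N) (fun s _ => sub_nonneg.2 (dl_le_ind T K s))
  rw [(hasSum_smooth K).summable.tsum_sub (summable_dl T K), (hasSum_smooth K).tsum_eq, Finset.sum_sub_distrib] at h2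
  have h3 := mul_le_mul_of_nonneg_left h2 (PiK_pos K).le
  rw [mul_sub, mul_sub, mul_inv_cancel₀ (PiK_pos K).ne'] at h3
  have h4 : lam T K = PiK K * ∑' s : ℕ, dl T K s / s := rfl
  rw [h4]
  linarith

lemma gap_small (ε : ℝ) (hε : 0 < ε) : ∃ K : ℕ, 1 ≤ K ∧ ∃ N : ℕ,
    1 / (K:ℝ) + (1 - PiK K * ∑ s ∈ Icc 1 N, (K.smoothNumbers).indicator (fun n => ((n:ℝ))⁻¹) s) < ε := by
  obtain ⟨K, hK⟩ := exists_nat_gt (2 / ε)
  have hK0 : (0:ℝ) < K := lt_trans (by positivity) hK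
  have hK0' : 0 < K := by exact_mod_cast hK0
  have hKe : (1:ℝ) / K < ε / 2 := by
    rw [div_lt_div_iff₀ hK0 (by norm_num)]
    rw [div_lt_iff₀ hε] at hK
    linarith
  refine ⟨K, hK0', ?_⟩
  have h := (hasSum_smooth K).tendsto_sum_nat
  have h2 : Tendsto (fun n : ℕ => 1 - PiK K * ∑ s ∈ Icc 1 n, (K.smoothNumbers).indicator (fun n => ((n:ℝ))⁻¹) s) atTop (𝓝 0) := by
    have h3 : Tendsto (fun n : ℕ => 1 - PiK K * ∑ s ∈ range (n+1), (K.smoothNumbers).indicator (fun n => ((n:ℝ))⁻¹) s) atTop (𝓝 (1 - PiK K * (PiK K)⁻¹)) :=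
      ((h.comp (tendsto_add_atTop_nat 1)).const_mul _).const_sub _
    rw [mul_inv_cancel₀ (PiK_pos K).ne', sub_self] at h3
    refine h3.congr (fun n => ?_)
    congr 2
    symm
    apply Finset.sum_subset
    · intro x hx
      rw [mem_Icc] at hx
      rw [mem_range]; omega
    · intro x hx hx2
      rw [mem_range] at hx
      rw [mem_Icc] at hx2
      have : x = 0 := by omega
      subst this
      apply Set.indicator_of_notMem
      intro h0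
      exact (Nat.mem_smoothNumbers.1 h0).1 rfl
  rw [Metric.tendsto_atTop] at h2
  obtain ⟨N, hN⟩ := h2 (ε/2) (by positivity)
  refine ⟨N, ?_⟩
  have := hN N le_rfl
  rw [Real.dist_eq, sub_zero, abs_lt] at this
  linarith [this.2]

lemma htr_f : ∀ K n a b c : ℕ, 0 < K → 1 ≤ a → a ≤ n → 1 ≤ b → b ≤ n → 1 ≤ c → c ≤ n →
      n < K * a → n < K * b → n < K * c → (a ∣ b ∧ a ∣ c) → ro K a = ro K b ∧ ro K a = ro K c := by
  intro K n a b c hK ha han hb hbn hc hcn h1 h2 h3 hT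
  exact ⟨ro_dvd ha hb hbn h1 hT.1, ro_dvd ha hc hcn h1 hT.2⟩

lemma htr_g : ∀ K n a b c : ℕ, 0 < K → 1 ≤ a → a ≤ n → 1 ≤ b → b ≤ n → 1 ≤ c → c ≤ n →
      n < K * a → n < K * b → n < K * c → (b ∣ a ∧ c ∣ a) → ro K a = ro K b ∧ ro K a = ro K c := by
  intro K n a b c hK ha han hb hbn hc hcn h1 h2 h3 hT
  exact ⟨(ro_dvd hb ha han h2 hT.1).symm, (ro_dvd hc ha han h3 hT.2).symm⟩

theorem full_f : ∃ L : ℝ, Tendsto (fun n : ℕ => (F (fun a b c => a ∣ b ∧ a ∣ c) (Icc 1 n) : ℝ) / n) atTop (𝓝 L) ∧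
    ∀ K : ℕ, 1 ≤ K → Summable (fun s : ℕ => dl (fun a b c => a ∣ b ∧ a ∣ c) K s / s) ∧
      lam (fun a b c => a ∣ b ∧ a ∣ c) K - 1 / K ≤ L ∧ L ≤ lam (fun a b c => a ∣ b ∧ a ∣ c) K := by
  obtain ⟨L, hL⟩ := lim_f
  exact ⟨L, hL, fun K hK => ⟨summable_dl _ K, bounds_main (T := fun a b c => a ∣ b ∧ a ∣ c) scale1 htr_f hL hK⟩⟩

theorem full_g : ∃ L : ℝ, Tendsto (fun n : ℕ => (F (fun a b c => b ∣ a ∧ c ∣ a) (Icc 1 n) : ℝ) / n) atTop (𝓝 L) ∧
    ∀ K : ℕ, 1 ≤ K → Summable (fun s : ℕ => dl (fun a b c => b ∣ a ∧ c ∣ a) K s / s) ∧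
      lam (fun a b c => b ∣ a ∧ c ∣ a) K - 1 / K ≤ L ∧ L ≤ lam (fun a b c => b ∣ a ∧ c ∣ a) K := by
  obtain ⟨L, hL⟩ := lim_g
  exact ⟨L, hL, fun K hK => ⟨summable_dl _ K, bounds_main (T := fun a b c => b ∣ a ∧ c ∣ a) scale2 htr_g hL hK⟩⟩

end Pool.Agent.H27.LimDiv
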