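import Mathlib

open Finset

set_option maxHeartbeats 4000000

namespace Pool.Agent.H27.PPC

section abstract_moment

variable {Q : ℕ} [Fact Q.Prime] {Ω : Type} [AddCommGroup Ω] [Module (ZMod Q) Ω] [Fintype Ω]

lemma sum_shift (l l' : Ω →ₗ[ZMod Q] ZMod Q) (φ φ' : ZMod Q → ℝ) (ω0 : Ω) (h0 : l' ω0 = 0) (h1 : l ω0 ≠ 0) :
    (Q : ℝ) * ∑ ω : Ω, φ (l ω) * φ' (l' ω) = (∑ x : ZMod Q, φ x) * ∑ ω : Ω, φ' (l' ω) := by
  classical
  have hshift : ∀ t : ZMod Q, ∑ ω : Ω, φ (l ω) * φ' (l' ω) = ∑ ω : Ω, φ (l ω + t * l ω0) * φ' (l' ω) := by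
    intro t
    rw [← Equiv.sum_comp (Equiv.addRight (t • ω0)) (fun ω => φ (l ω) * φ' (l' ω))]
    refine sum_congr rfl ?_
    intro ω _
    simp only [Equiv.coe_addRight, map_add, map_smul, h0, smul_eq_mul, mul_zero, add_zero]
  have h2 : (Q : ℝ) * ∑ ω : Ω, φ (l ω) * φ' (l' ω) = ∑ t : ZMod Q, ∑ ω : Ω, φ (l ω + t * l ω0) * φ' (l' ω) := by
    rw [← sum_congr rfl (fun t _ => hshift t), sum_const, card_univ, ZMod.card, nsmul_eq_mul]
  rw [h2, sum_comm, mul_sum]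
  refine sum_congr rfl ?_
  intro ω _
  rw [← sum_mul]
  congr 1
  -- change of variables t ↦ l ω + t * l ω0
  refine Fintype.sum_bijective (fun t : ZMod Q => l ω + t * l ω0) ?_ _ _ (fun t => rfl)
  constructor
  · intro t t' h
    simp only [add_right_inj] at h
    exact mul_right_cancel₀ h1 h
  · intro x
    exact ⟨(x - l ω) / l ω0, by field_simp; ring⟩

lemma sum_uniform (l : Ω →ₗ[ZMod Q] ZMod Q) (φ : ZMod Q → ℝ) (hl : ∃ ω0, l ω0 ≠ 0) :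
    (Q : ℝ) * ∑ ω : Ω, φ (l ω) = (∑ x : ZMod Q, φ x) * (Fintype.card Ω : ℝ) := by
  obtain ⟨ω0, h1⟩ := hl
  have := sum_shift l 0 φ (fun _ => 1) ω0 (by simp) h1
  simpa using this

lemma second_moment {ι : Type} (I : Finset ι) (l : ι → (Ω →ₗ[ZMod Q] ZMod Q)) (φ : ZMod Q → ℝ) (hφ : ∑ x, φ x = 0)
    (E : Finset (ι × ι)) (hE : ∀ i ∈ I, ∀ i' ∈ I, (i, i') ∉ E → ∃ ω0, l i' ω0 = 0 ∧ l i ω0 ≠ 0)
    (hl : ∀ i ∈ I, ∃ ω0, l i ω0 ≠ 0) (hEI : E ⊆ I ×ˢ I) :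
    (Q : ℝ) * ∑ ω : Ω, (∑ i ∈ I, φ (l i ω)) ^ 2 ≤ E.card * ((Fintype.card Ω : ℝ) * ∑ x, φ x ^ 2) := by
  classical
  have hQ : (0:ℝ) < Q := by exact_mod_cast (Fact.out : Q.Prime).pos
  have h1 : ∀ ω : Ω, (∑ i ∈ I, φ (l i ω)) ^ 2 = ∑ p ∈ I ×ˢ I, φ (l p.1 ω) * φ (l p.2 ω) := by
    intro ω
    rw [sq, sum_mul_sum, ← sum_product']
  rw [sum_congr rfl (fun ω _ => h1 ω), sum_comm, mul_sum]
  have h2 : ∑ p ∈ I ×ˢ I, (Q : ℝ) * ∑ ω : Ω, φ (l p.1 ω) * φ (l p.2 ω) = ∑ p ∈ E, (Q : ℝ) * ∑ ω : Ω, φ (l p.1 ω) * φ (l p.2 ω) := by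
    symm
    refine sum_subset hEI ?_
    rintro ⟨i, i'⟩ hp hpE
    rw [mem_product] at hp
    obtain ⟨ω0, h3, h4⟩ := hE i hp.1 i' hp.2 hpE
    rw [sum_shift (l i) (l i') φ φ ω0 h3 h4, hφ, zero_mul]
  rw [h2]
  have h3 : ∀ p ∈ E, (Q : ℝ) * ∑ ω : Ω, φ (l p.1 ω) * φ (l p.2 ω) ≤ (Fintype.card Ω : ℝ) * ∑ x, φ x ^ 2 := by
    rintro ⟨i, i'⟩ hp
    have hp' := mem_product.1 (hEI hp)
    have e1 := sum_uniform (l i) (fun x => φ x ^ 2) (hl i hp'.1)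
    have e2 := sum_uniform (l i') (fun x => φ x ^ 2) (hl i' hp'.2)
    have e3 : ∑ ω : Ω, φ (l i ω) * φ (l i' ω) ≤ ∑ ω : Ω, (φ (l i ω) ^ 2 + φ (l i' ω) ^ 2) / 2 := by
      refine sum_le_sum ?_
      intro ω _
      nlinarith [sq_nonneg (φ (l i ω) - φ (l i' ω))]
    have e4 : ∑ ω : Ω, (φ (l i ω) ^ 2 + φ (l i' ω) ^ 2) / 2 = (∑ ω : Ω, φ (l i ω) ^ 2 + ∑ ω : Ω, φ (l i' ω) ^ 2) / 2 := by
      rw [← sum_add_distrib, sum_div]
    rw [e4] at e3
    have e5 := mul_le_mul_of_nonneg_left e3 hQ.le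
    simp only at e1 e2 ⊢
    nlinarith
  have h4 := sum_le_card_nsmul E _ _ h3
  rw [nsmul_eq_mul] at h4
  exact h4

end abstract_moment

section windows

variable {Q : ℕ} [Fact Q.Prime]

/-- window indicator -/
noncomputable def psi (w : ℕ) (x : ZMod Q) : ℝ := if x.valMinAbs.natAbs < w then 1 else 0

lemma psi_nonneg (w : ℕ) (x : ZMod Q) : 0 ≤ psi w x := by unfold psi; split_ifs <;> norm_num
lemma psi_le_one (w : ℕ) (x : ZMod Q) : psi w x ≤ 1 := by unfold psi; split_ifs <;> norm_num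
lemma psi_sq (w : ℕ) (x : ZMod Q) : psi w x ^ 2 = psi w x := by unfold psi; split_ifs <;> norm_num
lemma psi_neg (w : ℕ) (x : ZMod Q) : psi w (-x) = psi w x := by
  unfold psi; rw [ZMod.natAbs_valMinAbs_neg]
lemma psi_mono {w w' : ℕ} (h : w ≤ w') (x : ZMod Q) : psi w x ≤ psi w' x := by
  unfold psi
  by_cases h1 : x.valMinAbs.natAbs < w
  · rw [if_pos h1, if_pos (by omega)]
  · rw [if_neg h1]; split_ifs <;> norm_num

/-- mean of the window -/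
noncomputable def mu (Q w : ℕ) [Fact Q.Prime] : ℝ := (∑ x : ZMod Q, psi w x) / Q

lemma sum_psi (w : ℕ) : ∑ x : ZMod Q, psi w x = Q * mu Q w := by
  have hQ : (0:ℝ) < Q := by exact_mod_cast (Fact.out : Q.Prime).pos
  unfold mu; field_simp

lemma sum_psi_eq {w : ℕ} (h1 : 1 ≤ w) (h2 : 2 * w ≤ Q) : ∑ x : ZMod Q, psi w x = 2 * w - 1 := by
  classical
  unfold psi
  rw [← sum_filter, sum_const, nsmul_eq_mul, mul_one]
  have h3 : ((univ : Finset (ZMod Q)).filter (fun x => x.valMinAbs.natAbs < w)) = (Finset.Ioo (-(w : ℤ)) w).image (fun z : ℤ => (z : ZMod Q)) := by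
    ext x
    rw [mem_filter, mem_image]
    constructor
    · rintro ⟨-, h⟩
      refine ⟨x.valMinAbs, ?_, ZMod.coe_valMinAbs x⟩
      rw [Finset.mem_Ioo]; omega
    · rintro ⟨z, hz, rfl⟩
      rw [Finset.mem_Ioo] at hz
      refine ⟨mem_univ _, ?_⟩
      have : ((z : ℤ) : ZMod Q).valMinAbs = z := by
        rw [ZMod.valMinAbs_spec]
        refine ⟨rfl, ?_⟩
        rw [Set.mem_Ioc]
        constructor <;> omega
      rw [this]; omega
  rw [h3, card_image_of_injOn]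
  · rw [Int.card_Ioo]
    have : ((w : ℤ) - -(w : ℤ) - 1).toNat = 2 * w - 1 := by omega
    rw [this, Nat.cast_sub (by omega)]
    push_cast; ring
  · intro a ha b hb hab
    have ha := mem_coe.1 ha
    have hb := mem_coe.1 hb
    rw [Finset.mem_Ioo] at ha hb
    have h4 : ((a : ℤ) : ZMod Q).valMinAbs = a := by
      rw [ZMod.valMinAbs_spec]
      refine ⟨rfl, ?_⟩
      rw [Set.mem_Ioc]
      constructor <;> omega
    have h5 : ((b : ℤ) : ZMod Q).valMinAbs = b := by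
      rw [ZMod.valMinAbs_spec]
      refine ⟨rfl, ?_⟩
      rw [Set.mem_Ioc]
      constructor <;> omega
    simp only at hab
    rw [← h4, ← h5, hab]

lemma mu_bounds {w : ℕ} (h2 : 2 * w ≤ Q) : |mu Q w - 2 * w / Q| ≤ 1 / Q ∧ 0 ≤ mu Q w ∧ mu Q w ≤ 2 * w / Q := by
  have hQ : (0:ℝ) < Q := by exact_mod_cast (Fact.out : Q.Prime).pos
  rcases Nat.eq_zero_or_pos w with h | h
  · subst h
    have : mu Q 0 = 0 := by unfold mu psi; simp
    rw [this]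
    refine ⟨?_, le_rfl, by simp⟩
    simp
  · have e : mu Q w = (2 * w - 1) / Q := by unfold mu; rw [sum_psi_eq h h2]
    have hw : (1:ℝ) ≤ w := by exact_mod_cast h
    rw [e]
    refine ⟨?_, div_nonneg (by linarith) hQ.le, ?_⟩
    · rw [← sub_div, abs_div, abs_of_pos hQ]
      have : (2 * (w:ℝ) - 1 - 2 * w) = -1 := by ring
      rw [this]; simp
    · exact div_le_div_of_nonneg_right (by linarith) hQ.le

lemma psi_mul_le (w : ℕ) (x a b : ZMod Q) : psi w (x - a) * psi w (x - b) ≤ psi w (x - a) * psi (2 * w) (a - b) := by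
  unfold psi
  split_ifs with h1 h2 h3
  · norm_num
  · exfalso
    apply h3
    have h4 : a - b = (x - b) + (-(x - a)) := by ring
    have h5 := ZMod.natAbs_valMinAbs_add_le (x - b) (-(x - a))
    rw [← h4] at h5
    have h6 := ZMod.natAbs_valMinAbs_neg (x - a)
    have h7 : ((x - b).valMinAbs + (-(x - a)).valMinAbs).natAbs ≤ (x - b).valMinAbs.natAbs + (-(x - a)).valMinAbs.natAbs := Int.natAbs_add_le _ _
    omega
  all_goals norm_num

end windows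

section discrete

variable {Q : ℕ} [Fact Q.Prime]

/-- probability space of offsets and two rotations -/
abbrev Om (Q G : ℕ) : Type := (Fin G → ZMod Q) × (ZMod Q × ZMod Q)

def fy (Q G : ℕ) (j : ℕ) : Om Q G →ₗ[ZMod Q] ZMod Q :=
  if h : j < G then (LinearMap.proj ⟨j, h⟩).comp (LinearMap.fst (ZMod Q) (Fin G → ZMod Q) (ZMod Q × ZMod Q)) else 0

def ft1 (Q G : ℕ) : Om Q G →ₗ[ZMod Q] ZMod Q :=
  (LinearMap.fst (ZMod Q) (ZMod Q) (ZMod Q)).comp (LinearMap.snd (ZMod Q) (Fin G → ZMod Q) (ZMod Q × ZMod Q))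

def ft2 (Q G : ℕ) : Om Q G →ₗ[ZMod Q] ZMod Q :=
  (LinearMap.snd (ZMod Q) (ZMod Q) (ZMod Q)).comp (LinearMap.snd (ZMod Q) (Fin G → ZMod Q) (ZMod Q × ZMod Q))

/-- position of the element `(j, v)` -/
def lf (Q G : ℕ) (i : ℕ × (ℕ × ℕ)) : Om Q G →ₗ[ZMod Q] ZMod Q :=
  fy Q G i.1 + ((i.2.1 : ZMod Q) • ft1 Q G + (i.2.2 : ZMod Q) • ft2 Q G)

def ey (Q G : ℕ) (j : ℕ) : Om Q G := (if h : j < G then Pi.single ⟨j, h⟩ 1 else 0, (0, 0))

lemma fy_ey {G j : ℕ} (h : j < G) (j' : ℕ) : fy Q G j' (ey Q G j) = if j' = j then 1 else 0 := by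
  unfold fy ey
  rw [dif_pos h]
  by_cases h' : j' < G
  · rw [dif_pos h']
    simp only [LinearMap.coe_comp, Function.comp_apply, LinearMap.fst_apply, LinearMap.proj_apply]
    by_cases e : j' = j
    · subst e; simp
    · rw [if_neg e, Pi.single_eq_of_ne]
      intro h2
      exact e (Fin.mk.inj_iff.1 h2)
  · rw [dif_neg h', if_neg (by omega)]
    simp

lemma ft1_ey (G j : ℕ) : ft1 Q G (ey Q G j) = 0 := by unfold ft1 ey; simp
lemma ft2_ey (G j : ℕ) : ft2 Q G (ey Q G j) = 0 := by unfold ft2 ey; simp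

def et1 (Q G : ℕ) : Om Q G := (0, (1, 0))
def et2 (Q G : ℕ) : Om Q G := (0, (0, 1))
lemma fy_et1 (G j : ℕ) : fy Q G j (et1 Q G) = 0 := by unfold fy et1; split_ifs <;> simp
lemma fy_et2 (G j : ℕ) : fy Q G j (et2 Q G) = 0 := by unfold fy et2; split_ifs <;> simp
lemma ft1_et1 (G : ℕ) : ft1 Q G (et1 Q G) = 1 := by unfold ft1 et1; simp
lemma ft1_et2 (G : ℕ) : ft1 Q G (et2 Q G) = 0 := by unfold ft1 et2; simp
lemma ft2_et1 (G : ℕ) : ft2 Q G (et1 Q G) = 0 := by unfold ft2 et1; simp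
lemma ft2_et2 (G : ℕ) : ft2 Q G (et2 Q G) = 1 := by unfold ft2 et2; simp

lemma lf_ey {G j : ℕ} (h : j < G) (i : ℕ × (ℕ × ℕ)) : lf Q G i (ey Q G j) = if i.1 = j then 1 else 0 := by
  unfold lf
  simp only [LinearMap.add_apply, LinearMap.smul_apply, fy_ey h, ft1_ey, ft2_ey, smul_zero, add_zero]

lemma lf_et1 (G : ℕ) (i : ℕ × (ℕ × ℕ)) : lf Q G i (et1 Q G) = (i.2.1 : ZMod Q) := by
  unfold lf
  simp only [LinearMap.add_apply, LinearMap.smul_apply, fy_et1, ft1_et1, ft2_et1, smul_eq_mul, mul_one, mul_zero, add_zero, zero_add]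

lemma lf_et2 (G : ℕ) (i : ℕ × (ℕ × ℕ)) : lf Q G i (et2 Q G) = (i.2.2 : ZMod Q) := by
  unfold lf
  simp only [LinearMap.add_apply, LinearMap.smul_apply, fy_et2, ft1_et2, ft2_et2, smul_eq_mul, mul_one, mul_zero, add_zero, zero_add]

/-- group shape -/
def VV (L : ℕ) : Finset (ℕ × ℕ) := range 2 ×ˢ range L

lemma VV_card (L : ℕ) : (VV L).card = 2 * L := by unfold VV; simp

lemma cast_ne {L a b : ℕ} (hL : L < Q) (ha : a < L) (hb : b < L) (h : a ≠ b) : (a : ZMod Q) ≠ (b : ZMod Q) := by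
  intro h2
  rw [ZMod.natCast_eq_natCast_iff'] at h2
  rw [Nat.mod_eq_of_lt (by omega), Nat.mod_eq_of_lt (by omega)] at h2
  exact h h2

/-- separation for old-new forms -/
lemma sep_T {G L g : ℕ} (hg : g ≤ G) (hL : L < Q) (hQ2 : 2 < Q) (i i' : ℕ × (ℕ × ℕ)) (hi : i ∈ range g ×ˢ VV L)
    (hi' : i' ∈ range g ×ˢ VV L) (hne : i ≠ i') : ∃ ω0, lf Q G i' ω0 = 0 ∧ lf Q G i ω0 ≠ 0 := by
  obtain ⟨j, v1, v2⟩ := i
  obtain ⟨j', v1', v2'⟩ := i'
  unfold VV at hi hi'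
  simp only [mem_product, mem_range] at hi hi'
  by_cases hj : j = j'
  · subst hj
    by_cases h1 : v1 = v1'
    · have h2 : v2 ≠ v2' := by
        intro h2; apply hne; rw [h1, h2]
      refine ⟨et2 Q G - (v2' : ZMod Q) • ey Q G j, ?_, ?_⟩
      · rw [map_sub, map_smul, lf_et2, lf_ey (by omega)]
        simp
      · rw [map_sub, map_smul, lf_et2, lf_ey (by omega)]
        simp only [if_true, smul_eq_mul, mul_one]
        exact sub_ne_zero.2 (cast_ne hL hi.2.2 hi'.2.2 h2)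
    · refine ⟨et1 Q G - (v1' : ZMod Q) • ey Q G j, ?_, ?_⟩
      · rw [map_sub, map_smul, lf_et1, lf_ey (by omega)]
        simp
      · rw [map_sub, map_smul, lf_et1, lf_ey (by omega)]
        simp only [if_true, smul_eq_mul, mul_one]
        exact sub_ne_zero.2 (cast_ne hQ2 hi.2.1 hi'.2.1 h1)
  · refine ⟨ey Q G j, ?_, ?_⟩
    · rw [lf_ey (by omega)]
      simp only
      rw [if_neg (fun h => hj h.symm)]
    · rw [lf_ey (by omega)]
      simp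

/-- pair forms -/
def pf (Q G : ℕ) (i : (ℕ × ℕ) × ((ℕ × ℕ) × (ℕ × ℕ))) : Om Q G →ₗ[ZMod Q] ZMod Q :=
  lf Q G (i.1.1, i.2.1) - lf Q G (i.1.2, i.2.2)

def PP (g L : ℕ) : Finset ((ℕ × ℕ) × ((ℕ × ℕ) × (ℕ × ℕ))) :=
  ((range g ×ˢ range g).filter (fun p => p.1 < p.2)) ×ˢ (VV L ×ˢ VV L)

/-- non-separated pairs -/
def EE (Q g L : ℕ) : Finset (((ℕ × ℕ) × ((ℕ × ℕ) × (ℕ × ℕ))) × ((ℕ × ℕ) × ((ℕ × ℕ) × (ℕ × ℕ)))) :=
  (PP g L ×ˢ PP g L).filter (fun q => q.1.1 = q.2.1 ∧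
    ((q.1.2.1.1 : ZMod Q) - q.1.2.2.1 = (q.2.2.1.1 : ZMod Q) - q.2.2.2.1) ∧
    ((q.1.2.1.2 : ZMod Q) - q.1.2.2.2 = (q.2.2.1.2 : ZMod Q) - q.2.2.2.2))

lemma sep_U {G L g : ℕ} (hg : g ≤ G) (i i' : (ℕ × ℕ) × ((ℕ × ℕ) × (ℕ × ℕ))) (hi : i ∈ PP g L)
    (hi' : i' ∈ PP g L) (hne : (i, i') ∉ EE Q g L) : ∃ ω0, pf Q G i' ω0 = 0 ∧ pf Q G i ω0 ≠ 0 := by
  obtain ⟨⟨j, k⟩, ⟨v1, v2⟩, ⟨u1, u2⟩⟩ := i
  obtain ⟨⟨j', k'⟩, ⟨v1', v2'⟩, ⟨u1', u2'⟩⟩ := i'
  have hi0 := hi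
  have hi0' := hi'
  unfold PP at hi hi'
  simp only [mem_product, mem_filter, mem_range] at hi hi'
  obtain ⟨⟨⟨hj, hk⟩, hjk⟩, -⟩ := hi
  obtain ⟨⟨⟨hj', hk'⟩, hjk'⟩, -⟩ := hi'
  have hp : ∀ (a b : ℕ) (x1 x2 y1 y2 : ℕ) (ω : Om Q G), pf Q G ((a, b), ((x1, x2), (y1, y2))) ω = lf Q G (a, (x1, x2)) ω - lf Q G (b, (y1, y2)) ω := by
    intros; rfl
  by_cases hpair : (j, k) = (j', k')
  · rw [Prod.mk.injEq] at hpair
    obtain ⟨rfl, rfl⟩ := hpair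
    have hkj : ¬ (k = j) := by omega
    by_cases h1 : (v1 : ZMod Q) - u1 = (v1' : ZMod Q) - u1'
    · have h2 : ¬ ((v2 : ZMod Q) - u2 = (v2' : ZMod Q) - u2') := by
        intro h2
        apply hne
        unfold EE
        rw [mem_filter, mem_product]
        exact ⟨⟨hi0, hi0'⟩, rfl, h1, h2⟩
      refine ⟨et2 Q G - ((v2' : ZMod Q) - u2') • ey Q G j, ?_, ?_⟩
      · rw [hp]
        simp only [map_sub, map_smul, lf_et2, lf_ey (show j < G by omega), hkj, if_false, if_true, smul_eq_mul, mul_one, mul_zero, sub_zero]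
        ring
      · rw [hp]
        simp only [map_sub, map_smul, lf_et2, lf_ey (show j < G by omega), hkj, if_false, if_true, smul_eq_mul, mul_one, mul_zero, sub_zero]
        intro h3
        apply h2
        linear_combination h3
    · refine ⟨et1 Q G - ((v1' : ZMod Q) - u1') • ey Q G j, ?_, ?_⟩
      · rw [hp]
        simp only [map_sub, map_smul, lf_et1, lf_ey (show j < G by omega), hkj, if_false, if_true, smul_eq_mul, mul_one, mul_zero, sub_zero]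
        ring
      · rw [hp]
        simp only [map_sub, map_smul, lf_et1, lf_ey (show j < G by omega), hkj, if_false, if_true, smul_eq_mul, mul_one, mul_zero, sub_zero]
        intro h3
        apply h1
        linear_combination h3
  · -- an index in {j,k} not in {j',k'}
    have hex : (j ≠ j' ∧ j ≠ k') ∨ (k ≠ j' ∧ k ≠ k') := by
      by_contra hcon
      push Not at hcon
      apply hpair
      rw [Prod.mk.injEq]
      by_cases h1 : j = j'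
      · refine ⟨h1, ?_⟩
        by_contra h2
        have := hcon.2 (by omega)
        exact h2 this
      · have h2 := hcon.1 h1
        by_cases h3 : k = j'
        · omega
        · have h4 := hcon.2 h3
          omega
    rcases hex with ⟨h1, h2⟩ | ⟨h1, h2⟩
    · refine ⟨ey Q G j, ?_, ?_⟩
      · rw [hp, lf_ey (by omega), lf_ey (by omega)]
        simp only
        rw [if_neg (fun h => h1 h.symm), if_neg (fun h => h2 h.symm), sub_zero]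
      · rw [hp, lf_ey (by omega), lf_ey (by omega)]
        simp only
        rw [if_pos trivial, if_neg (by omega), sub_zero]
        exact one_ne_zero
    · refine ⟨ey Q G k, ?_, ?_⟩
      · rw [hp, lf_ey (by omega), lf_ey (by omega)]
        simp only
        rw [if_neg (fun h => h1 h.symm), if_neg (fun h => h2 h.symm), sub_zero]
      · rw [hp, lf_ey (by omega), lf_ey (by omega)]
        simp only
        rw [if_pos trivial, if_neg (by omega), zero_sub]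
        exact neg_ne_zero.2 one_ne_zero

lemma pf_ne {G L g : ℕ} (hg : g ≤ G) (i : (ℕ × ℕ) × ((ℕ × ℕ) × (ℕ × ℕ))) (hi : i ∈ PP g L) : ∃ ω0, pf Q G i ω0 ≠ 0 := by
  obtain ⟨⟨j, k⟩, ⟨v1, v2⟩, ⟨u1, u2⟩⟩ := i
  unfold PP at hi
  simp only [mem_product, mem_filter, mem_range] at hi
  obtain ⟨⟨⟨hj, hk⟩, hjk⟩, -⟩ := hi
  refine ⟨ey Q G j, ?_⟩
  unfold pf
  rw [LinearMap.sub_apply, lf_ey (by omega), lf_ey (by omega)]
  simp only
  rw [if_pos trivial, if_neg (by omega), sub_zero]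
  exact one_ne_zero

/-- bound on number of non-separated pairs -/
lemma EE_card {G L g : ℕ} (hg : g ≤ G) (hL : L < Q) (hQ2 : 2 < Q) : (EE Q g L).card ≤ G ^ 2 * (2 * L) ^ 3 := by
  classical
  have hT : (((range g ×ˢ range g)) ×ˢ (VV L ×ˢ (VV L ×ˢ VV L))).card = g * g * (2 * L) ^ 3 := by
    simp only [card_product, card_range, VV_card]; ring
  have h1 : (EE Q g L).card ≤ (((range g ×ˢ range g)) ×ˢ (VV L ×ˢ (VV L ×ˢ VV L))).card := by
    refine card_le_card_of_injOn (fun q => (q.1.1, (q.1.2.1, (q.1.2.2, q.2.2.1)))) ?_ ?_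
    · intro q hq
      have hq := mem_coe.1 hq
      unfold EE PP at hq
      rw [mem_filter] at hq
      simp only [mem_product, mem_filter] at hq
      simp only [coe_product, Set.mem_prod, mem_coe]
      refine ⟨hq.1.1.1.1, hq.1.1.2.1, hq.1.1.2.2, hq.1.2.2.1⟩
    · rintro ⟨⟨p, v, u⟩, ⟨p', v', u'⟩⟩ hq ⟨⟨r, a, b⟩, ⟨r', a', b'⟩⟩ hq2 heq
      have hq := mem_coe.1 hq
      have hq2 := mem_coe.1 hq2
      unfold EE PP at hq hq2
      rw [mem_filter] at hq hq2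
      simp only [mem_product, mem_filter] at hq hq2
      simp only [Prod.mk.injEq] at heq
      obtain ⟨e1, e2, e3, e4⟩ := heq
      subst e1 e2 e3 e4
      obtain ⟨⟨-, ⟨-, -, hu'⟩⟩, h1, h2, h3⟩ := hq
      obtain ⟨⟨-, ⟨-, -, hb'⟩⟩, h4, h5, h6⟩ := hq2
      subst h1
      subst h4
      unfold VV at hu' hb'
      rw [mem_product, mem_range, mem_range] at hu' hb'
      have e5 : (u'.1 : ZMod Q) = (b'.1 : ZMod Q) := by linear_combination h2 - h5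
      have e6 : (u'.2 : ZMod Q) = (b'.2 : ZMod Q) := by linear_combination h3 - h6
      have e7 : u'.1 = b'.1 := by
        by_contra hne
        exact cast_ne hQ2 hu'.1 hb'.1 hne e5
      have e8 : u'.2 = b'.2 := by
        by_contra hne
        exact cast_ne hL hu'.2 hb'.2 hne e6
      have e9 : u' = b' := Prod.ext e7 e8
      rw [e9]
  rw [hT] at h1
  refine h1.trans (Nat.mul_le_mul_right _ ?_)
  rw [sq]
  exact Nat.mul_le_mul hg hg

/-- old-new count -/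
noncomputable def Tc (m : ℕ) (X : ℕ → ZMod Q) (G L g w : ℕ) (ω : Om Q G) : ℝ :=
  ∑ i ∈ range g ×ˢ VV L, ∑ n ∈ range m, psi w (lf Q G i ω - X n)

/-- new-new count, different groups -/
noncomputable def Uc (G L g w : ℕ) (ω : Om Q G) : ℝ :=
  ∑ i ∈ PP g L, psi w (pf Q G i ω)

/-- same group -/
noncomputable def V0 (G L w : ℕ) (ω : Om Q G) : ℝ :=
  ∑ p ∈ (VV L ×ˢ VV L).filter (fun p => p.1 ≠ p.2), psi w (lf Q G (0, p.1) ω - lf Q G (0, p.2) ω)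

lemma center_sq (φ : ZMod Q → ℝ) (c : ℝ) (hc : ∑ x, φ x = Q * c) : ∑ x, (φ x - c) = 0 ∧ ∑ x, (φ x - c) ^ 2 ≤ ∑ x, φ x ^ 2 := by
  have hQ : (0:ℝ) < Q := by exact_mod_cast (Fact.out : Q.Prime).pos
  constructor
  · rw [sum_sub_distrib, hc, sum_const, card_univ, ZMod.card, nsmul_eq_mul, sub_self]
  · have h1 : ∀ x, (φ x - c) ^ 2 = φ x ^ 2 - 2 * c * φ x + c ^ 2 := by intro x; ring
    rw [sum_congr rfl (fun x _ => h1 x), sum_add_distrib, sum_sub_distrib, ← mul_sum, hc, sum_const, card_univ, ZMod.card, nsmul_eq_mul]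
    nlinarith [sq_nonneg c]

lemma moment_T (m : ℕ) (X : ℕ → ZMod Q) {G L g w : ℕ} (hg : g ≤ G) (hL : L < Q) (hQ2 : 2 < Q) :
    ∑ ω : Om Q G, (Tc m X G L g w ω - ((g * (2 * L) : ℕ) : ℝ) * (m * mu Q w)) ^ 2 ≤
      (Fintype.card (Om Q G) : ℝ) * (((g * (2 * L) : ℕ) : ℝ) * (mu Q w * ∑ n ∈ range m, ∑ n' ∈ range m, psi (2 * w) (X n - X n'))) := by
  classical
  have hQ : (0:ℝ) < Q := by exact_mod_cast (Fact.out : Q.Prime).pos
  set h : ZMod Q → ℝ := fun x => ∑ n ∈ range m, psi w (x - X n) with hh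
  have hsh : ∀ a : ZMod Q, ∑ x : ZMod Q, psi w (x - a) = Q * mu Q w := by
    intro a
    rw [← sum_psi]
    exact Equiv.sum_comp (Equiv.subRight a) (fun x => psi w x)
  have hsum : ∑ x, h x = Q * (m * mu Q w) := by
    rw [hh, sum_comm, sum_congr rfl (fun n _ => hsh (X n)), sum_const, card_range, nsmul_eq_mul]; ring
  obtain ⟨c1, c2⟩ := center_sq h (m * mu Q w) hsum
  have hI : (range g ×ˢ VV L).card = g * (2 * L) := by rw [card_product, card_range, VV_card]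
  have hrew : ∀ ω : Om Q G, Tc m X G L g w ω - ((g * (2 * L) : ℕ) : ℝ) * (m * mu Q w) = ∑ i ∈ range g ×ˢ VV L, (h (lf Q G i ω) - m * mu Q w) := by
    intro ω
    rw [sum_sub_distrib, sum_const, hI, nsmul_eq_mul]
    rfl
  rw [sum_congr rfl (fun ω _ => by rw [hrew ω])]
  have hmom := second_moment (Ω := Om Q G) (range g ×ˢ VV L) (fun i => lf Q G i) (fun x => h x - m * mu Q w) c1
    ((range g ×ˢ VV L).image (fun i => (i, i))) (by
      intro i hi i' hi' hne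
      refine sep_T hg hL hQ2 i i' hi hi' ?_
      rintro rfl
      exact hne (mem_image.2 ⟨i, hi, rfl⟩)) (by
      intro i hi
      have hi2 := mem_product.1 hi
      have := mem_range.1 hi2.1
      refine ⟨ey Q G i.1, ?_⟩
      rw [lf_ey (by omega), if_pos rfl]
      exact one_ne_zero) (by
      intro p hp
      rw [mem_image] at hp
      obtain ⟨i, hi, rfl⟩ := hp
      exact mem_product.2 ⟨hi, hi⟩)
  have hcard : (((range g ×ˢ VV L).image (fun i => (i, i))).card : ℝ) ≤ ((g * (2 * L) : ℕ) : ℝ) := by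
    rw [← hI]; exact_mod_cast card_image_le
  have hsq : ∑ x, h x ^ 2 ≤ Q * (mu Q w * ∑ n ∈ range m, ∑ n' ∈ range m, psi (2 * w) (X n - X n')) := by
    have e1 : ∀ x, h x ^ 2 ≤ ∑ n ∈ range m, ∑ n' ∈ range m, psi w (x - X n) * psi (2 * w) (X n - X n') := by
      intro x
      rw [hh, sq, sum_mul_sum]
      exact sum_le_sum (fun n _ => sum_le_sum (fun n' _ => psi_mul_le w x (X n) (X n')))
    refine (sum_le_sum (fun x _ => e1 x)).trans (le_of_eq ?_)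
    rw [sum_comm]
    rw [mul_sum, mul_sum]
    refine sum_congr rfl (fun n _ => ?_)
    rw [sum_comm]
    rw [mul_sum, mul_sum]
    refine sum_congr rfl (fun n' _ => ?_)
    rw [← sum_mul, hsh]; ring
  have hO : (0:ℝ) ≤ (Fintype.card (Om Q G) : ℝ) := by positivity
  have hfin : (Q : ℝ) * ∑ ω : Om Q G, (∑ i ∈ range g ×ˢ VV L, (h (lf Q G i ω) - m * mu Q w)) ^ 2 ≤
      Q * ((Fintype.card (Om Q G) : ℝ) * (((g * (2 * L) : ℕ) : ℝ) * (mu Q w * ∑ n ∈ range m, ∑ n' ∈ range m, psi (2 * w) (X n - X n')))) := by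
    refine hmom.trans ?_
    have e2 : (Fintype.card (Om Q G) : ℝ) * ∑ x, (h x - m * mu Q w) ^ 2 ≤ (Fintype.card (Om Q G) : ℝ) * (Q * (mu Q w * ∑ n ∈ range m, ∑ n' ∈ range m, psi (2 * w) (X n - X n'))) :=
      mul_le_mul_of_nonneg_left (c2.trans hsq) hO
    have e3 : 0 ≤ (Fintype.card (Om Q G) : ℝ) * ∑ x, (h x - m * mu Q w) ^ 2 := mul_nonneg hO (sum_nonneg (fun _ _ => sq_nonneg _))
    calc _ ≤ ((g * (2 * L) : ℕ) : ℝ) * ((Fintype.card (Om Q G) : ℝ) * ∑ x, (h x - m * mu Q w) ^ 2) := mul_le_mul_of_nonneg_right hcard e3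
      _ ≤ ((g * (2 * L) : ℕ) : ℝ) * ((Fintype.card (Om Q G) : ℝ) * (Q * (mu Q w * ∑ n ∈ range m, ∑ n' ∈ range m, psi (2 * w) (X n - X n')))) :=
        mul_le_mul_of_nonneg_left e2 (by positivity)
      _ = _ := by ring
  exact le_of_mul_le_mul_left hfin hQ

lemma moment_U {G L g w : ℕ} (hg : g ≤ G) (hL : L < Q) (hQ2 : 2 < Q) :
    ∑ ω : Om Q G, (Uc G L g w ω - ((PP g L).card : ℝ) * mu Q w) ^ 2 ≤
      (Fintype.card (Om Q G) : ℝ) * (((G ^ 2 * (2 * L) ^ 3 : ℕ) : ℝ) * mu Q w) := by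
  classical
  have hQ : (0:ℝ) < Q := by exact_mod_cast (Fact.out : Q.Prime).pos
  obtain ⟨c1, c2⟩ := center_sq (fun x : ZMod Q => psi w x) (mu Q w) (sum_psi w)
  have hrew : ∀ ω : Om Q G, Uc G L g w ω - ((PP g L).card : ℝ) * mu Q w = ∑ i ∈ PP g L, (psi w (pf Q G i ω) - mu Q w) := by
    intro ω
    rw [sum_sub_distrib, sum_const, nsmul_eq_mul]
    rfl
  rw [sum_congr rfl (fun ω _ => by rw [hrew ω])]
  have hmom := second_moment (Ω := Om Q G) (PP g L) (fun i => pf Q G i) (fun x => psi w x - mu Q w) c1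
    (EE Q g L) (fun i hi i' hi' hne => sep_U hg i i' hi hi' hne) (fun i hi => pf_ne hg i hi) (filter_subset _ _)
  have hcard : ((EE Q g L).card : ℝ) ≤ ((G ^ 2 * (2 * L) ^ 3 : ℕ) : ℝ) := by exact_mod_cast EE_card hg hL hQ2
  have hsq : ∑ x : ZMod Q, (psi w x - mu Q w) ^ 2 ≤ Q * mu Q w := by
    refine c2.trans (le_of_eq ?_)
    rw [← sum_psi]
    exact sum_congr rfl (fun x _ => psi_sq w x)
  have hO : (0:ℝ) ≤ (Fintype.card (Om Q G) : ℝ) := by positivity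
  have hfin : (Q : ℝ) * ∑ ω : Om Q G, (∑ i ∈ PP g L, (psi w (pf Q G i ω) - mu Q w)) ^ 2 ≤
      Q * ((Fintype.card (Om Q G) : ℝ) * (((G ^ 2 * (2 * L) ^ 3 : ℕ) : ℝ) * mu Q w)) := by
    refine hmom.trans ?_
    have e2 : (Fintype.card (Om Q G) : ℝ) * ∑ x : ZMod Q, (psi w x - mu Q w) ^ 2 ≤ (Fintype.card (Om Q G) : ℝ) * (Q * mu Q w) :=
      mul_le_mul_of_nonneg_left hsq hO
    have e3 : 0 ≤ (Fintype.card (Om Q G) : ℝ) * ∑ x : ZMod Q, (psi w x - mu Q w) ^ 2 := mul_nonneg hO (sum_nonneg (fun _ _ => sq_nonneg _))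
    calc _ ≤ ((G ^ 2 * (2 * L) ^ 3 : ℕ) : ℝ) * ((Fintype.card (Om Q G) : ℝ) * ∑ x : ZMod Q, (psi w x - mu Q w) ^ 2) := mul_le_mul_of_nonneg_right hcard e3
      _ ≤ ((G ^ 2 * (2 * L) ^ 3 : ℕ) : ℝ) * ((Fintype.card (Om Q G) : ℝ) * (Q * mu Q w)) :=
        mul_le_mul_of_nonneg_left e2 (by positivity)
      _ = _ := by ring
  exact le_of_mul_le_mul_left hfin hQ

lemma moment_V {G L w : ℕ} (hL : L < Q) (hQ2 : 2 < Q) :
    ∑ ω : Om Q G, V0 G L w ω ≤ (Fintype.card (Om Q G) : ℝ) * ((((2 * L) ^ 2 : ℕ) : ℝ) * mu Q w) := by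
  classical
  have hQ : (0:ℝ) < Q := by exact_mod_cast (Fact.out : Q.Prime).pos
  unfold V0
  rw [sum_comm]
  have h1 : ∀ p ∈ (VV L ×ˢ VV L).filter (fun p => p.1 ≠ p.2), ∑ ω : Om Q G, psi w (lf Q G (0, p.1) ω - lf Q G (0, p.2) ω)
      = (Fintype.card (Om Q G) : ℝ) * mu Q w := by
    rintro ⟨⟨v1, v2⟩, ⟨u1, u2⟩⟩ hp
    rw [mem_filter, mem_product] at hp
    unfold VV at hp
    simp only [mem_product, mem_range] at hp
    obtain ⟨⟨hv, hu⟩, hne⟩ := hp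
    have hex : ∃ ω0, (lf Q G (0, (v1, v2)) - lf Q G (0, (u1, u2))) ω0 ≠ 0 := by
      by_cases h1 : v1 = u1
      · have h2 : v2 ≠ u2 := by intro h2; apply hne; rw [h1, h2]
        refine ⟨et2 Q G, ?_⟩
        rw [LinearMap.sub_apply, lf_et2, lf_et2]
        exact sub_ne_zero.2 (cast_ne hL hv.2 hu.2 h2)
      · refine ⟨et1 Q G, ?_⟩
        rw [LinearMap.sub_apply, lf_et1, lf_et1]
        exact sub_ne_zero.2 (cast_ne hQ2 hv.1 hu.1 h1)
    have h2 := sum_uniform (lf Q G (0, (v1, v2)) - lf Q G (0, (u1, u2))) (fun x => psi w x) hex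
    rw [sum_psi] at h2
    have h3 : (Q : ℝ) * ∑ ω : Om Q G, psi w (lf Q G (0, (v1, v2)) ω - lf Q G (0, (u1, u2)) ω) = Q * ((Fintype.card (Om Q G) : ℝ) * mu Q w) := by
      simp only [LinearMap.sub_apply] at h2
      rw [h2]; ring
    exact mul_left_cancel₀ hQ.ne' h3
  rw [sum_congr rfl h1, sum_const, nsmul_eq_mul]
  have h2 : ((VV L ×ˢ VV L).filter (fun p => p.1 ≠ p.2)).card ≤ (2 * L) ^ 2 := by
    refine (card_filter_le _ _).trans ?_
    rw [card_product, VV_card, sq]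
  have h3 : (0:ℝ) ≤ mu Q w := by
    unfold mu
    exact div_nonneg (sum_nonneg (fun x _ => psi_nonneg w x)) hQ.le
  have h4 : (((VV L ×ˢ VV L).filter (fun p => p.1 ≠ p.2)).card : ℝ) ≤ (((2 * L) ^ 2 : ℕ) : ℝ) := by exact_mod_cast h2
  have h5 : 0 ≤ (Fintype.card (Om Q G) : ℝ) * mu Q w := by positivity
  calc _ ≤ (((2 * L) ^ 2 : ℕ) : ℝ) * ((Fintype.card (Om Q G) : ℝ) * mu Q w) := mul_le_mul_of_nonneg_right h4 h5
    _ = _ := by ring

lemma mu_mono {w w' : ℕ} (h : w ≤ w') : mu Q w ≤ mu Q w' := by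
  have hQ : (0:ℝ) < Q := by exact_mod_cast (Fact.out : Q.Prime).pos
  unfold mu
  exact div_le_div_of_nonneg_right (sum_le_sum (fun x _ => psi_mono h x)) hQ.le

lemma mu_nonneg (w : ℕ) : 0 ≤ mu Q w := by
  unfold mu
  exact div_nonneg (sum_nonneg (fun x _ => psi_nonneg w x)) (by positivity)

/-- existence of a good configuration -/
lemma discrete_exists (m L G W : ℕ) (X : ℕ → ZMod Q) (gs ws : Finset ℕ) (hgs : ∀ g ∈ gs, g ≤ G) (hws : ∀ w ∈ ws, w ≤ W)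
    (hL : L < Q) (hQ2 : 2 < Q) (R2 : ℝ) (hR2 : ∑ n ∈ range m, ∑ n' ∈ range m, psi (2 * W) (X n - X n') ≤ R2)
    (lam : ℝ) (hlam : 0 ≤ lam) (B : ℝ)
    (hB : B = (gs.card : ℝ) * ws.card * (mu Q W * ((G * (2 * L) : ℕ) * R2 + ((G ^ 2 * (2 * L) ^ 3 : ℕ) : ℝ))) + lam * ((((2 * L) ^ 2 : ℕ) : ℝ) * mu Q W)) :
    ∃ ω : Om Q G, (∀ g ∈ gs, ∀ w ∈ ws, (Tc m X G L g w ω - ((g * (2 * L) : ℕ) : ℝ) * (m * mu Q w)) ^ 2 ≤ B ∧
      (Uc G L g w ω - ((PP g L).card : ℝ) * mu Q w) ^ 2 ≤ B) ∧ lam * V0 G L W ω ≤ B := by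
  classical
  set N := (Fintype.card (Om Q G) : ℝ) with hN
  have hN0 : 0 ≤ N := by positivity
  have hmuW := mu_nonneg (Q := Q) W
  have hR20 : 0 ≤ R2 := le_trans (sum_nonneg (fun n _ => sum_nonneg (fun n' _ => psi_nonneg _ _))) hR2
  set Φ : Om Q G → ℝ := fun ω => (∑ g ∈ gs, ∑ w ∈ ws, ((Tc m X G L g w ω - ((g * (2 * L) : ℕ) : ℝ) * (m * mu Q w)) ^ 2 +
      (Uc G L g w ω - ((PP g L).card : ℝ) * mu Q w) ^ 2)) + lam * V0 G L W ω with hΦ
  have htot : ∑ ω : Om Q G, Φ ω ≤ ∑ ω : Om Q G, B := by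
    rw [sum_const, card_univ, nsmul_eq_mul]
    simp only [hΦ]
    rw [sum_add_distrib, ← mul_sum, sum_comm]
    have e1 : ∀ g ∈ gs, ∑ ω : Om Q G, ∑ w ∈ ws, ((Tc m X G L g w ω - ((g * (2 * L) : ℕ) : ℝ) * (m * mu Q w)) ^ 2 +
      (Uc G L g w ω - ((PP g L).card : ℝ) * mu Q w) ^ 2) ≤ ws.card * (N * (mu Q W * ((G * (2 * L) : ℕ) * R2 + ((G ^ 2 * (2 * L) ^ 3 : ℕ) : ℝ)))) := by
      intro g hg
      rw [sum_comm, ← nsmul_eq_mul]
      refine sum_le_card_nsmul _ _ _ ?_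
      intro w hw
      rw [sum_add_distrib]
      have a1 := moment_T m X (w := w) (hgs g hg) hL hQ2
      have a2 := moment_U (w := w) (hgs g hg) hL hQ2
      rw [← hN] at a1 a2
      have hmu : mu Q w ≤ mu Q W := mu_mono (hws w hw)
      have hmu0 := mu_nonneg (Q := Q) w
      have b1 : ∑ n ∈ range m, ∑ n' ∈ range m, psi (2 * w) (X n - X n') ≤ R2 :=
        le_trans (sum_le_sum (fun n _ => sum_le_sum (fun n' _ => psi_mono (Nat.mul_le_mul_left 2 (hws w hw)) _))) hR2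
      have b0 : 0 ≤ ∑ n ∈ range m, ∑ n' ∈ range m, psi (2 * w) (X n - X n') := sum_nonneg (fun n _ => sum_nonneg (fun n' _ => psi_nonneg _ _))
      have b2 : ((g * (2 * L) : ℕ) : ℝ) ≤ ((G * (2 * L) : ℕ) : ℝ) := by exact_mod_cast Nat.mul_le_mul_right _ (hgs g hg)
      have b3 : ((g * (2 * L) : ℕ) : ℝ) * (mu Q w * ∑ n ∈ range m, ∑ n' ∈ range m, psi (2 * w) (X n - X n')) ≤ ((G * (2 * L) : ℕ) : ℝ) * (mu Q W * R2) :=
        mul_le_mul b2 (mul_le_mul hmu b1 b0 hmuW) (mul_nonneg hmu0 b0) (by positivity)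
      have b4 : ((G ^ 2 * (2 * L) ^ 3 : ℕ) : ℝ) * mu Q w ≤ ((G ^ 2 * (2 * L) ^ 3 : ℕ) : ℝ) * mu Q W := mul_le_mul_of_nonneg_left hmu (by positivity)
      have c1 := a1.trans (mul_le_mul_of_nonneg_left b3 hN0)
      have c2 := a2.trans (mul_le_mul_of_nonneg_left b4 hN0)
      refine (add_le_add c1 c2).trans (le_of_eq ?_)
      ring
    have e2 := sum_le_card_nsmul _ _ _ e1
    rw [nsmul_eq_mul] at e2
    have e3 := mul_le_mul_of_nonneg_left (moment_V (Q := Q) (G := G) (w := W) hL hQ2) hlam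
    rw [← hN] at e3
    refine (add_le_add e2 e3).trans (le_of_eq ?_)
    rw [hB, ← hN]; ring
  have hne : (univ : Finset (Om Q G)).Nonempty := ⟨0, mem_univ _⟩
  obtain ⟨ω, -, hω⟩ := exists_le_of_sum_le hne htot
  have hV0 : 0 ≤ V0 G L W ω := by
    unfold V0
    exact sum_nonneg (fun p _ => psi_nonneg _ _)
  have hS0 : ∀ g ∈ gs, ∀ w ∈ ws, 0 ≤ (Tc m X G L g w ω - ((g * (2 * L) : ℕ) : ℝ) * (m * mu Q w)) ^ 2 +
      (Uc G L g w ω - ((PP g L).card : ℝ) * mu Q w) ^ 2 := fun g _ w _ => by positivity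
  refine ⟨ω, ?_, ?_⟩
  · intro g hg w hw
    have h1 : (Tc m X G L g w ω - ((g * (2 * L) : ℕ) : ℝ) * (m * mu Q w)) ^ 2 +
      (Uc G L g w ω - ((PP g L).card : ℝ) * mu Q w) ^ 2 ≤ ∑ w ∈ ws, ((Tc m X G L g w ω - ((g * (2 * L) : ℕ) : ℝ) * (m * mu Q w)) ^ 2 +
      (Uc G L g w ω - ((PP g L).card : ℝ) * mu Q w) ^ 2) := single_le_sum (f := fun w => (Tc m X G L g w ω - ((g * (2 * L) : ℕ) : ℝ) * (m * mu Q w)) ^ 2 +
      (Uc G L g w ω - ((PP g L).card : ℝ) * mu Q w) ^ 2) (fun w hw => hS0 g hg w hw) hw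
    have h2 : ∑ w ∈ ws, ((Tc m X G L g w ω - ((g * (2 * L) : ℕ) : ℝ) * (m * mu Q w)) ^ 2 +
      (Uc G L g w ω - ((PP g L).card : ℝ) * mu Q w) ^ 2) ≤ ∑ g ∈ gs, ∑ w ∈ ws, ((Tc m X G L g w ω - ((g * (2 * L) : ℕ) : ℝ) * (m * mu Q w)) ^ 2 +
      (Uc G L g w ω - ((PP g L).card : ℝ) * mu Q w) ^ 2) := single_le_sum (f := fun g => ∑ w ∈ ws, ((Tc m X G L g w ω - ((g * (2 * L) : ℕ) : ℝ) * (m * mu Q w)) ^ 2 +
      (Uc G L g w ω - ((PP g L).card : ℝ) * mu Q w) ^ 2)) (fun g hg => sum_nonneg (fun w hw => hS0 g hg w hw)) hg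
    have h3 : ∑ g ∈ gs, ∑ w ∈ ws, ((Tc m X G L g w ω - ((g * (2 * L) : ℕ) : ℝ) * (m * mu Q w)) ^ 2 +
      (Uc G L g w ω - ((PP g L).card : ℝ) * mu Q w) ^ 2) ≤ Φ ω := by
      simp only [hΦ]
      have := mul_nonneg hlam hV0
      linarith
    have h4 : (Tc m X G L g w ω - ((g * (2 * L) : ℕ) : ℝ) * (m * mu Q w)) ^ 2 + (Uc G L g w ω - ((PP g L).card : ℝ) * mu Q w) ^ 2 ≤ B :=
      h1.trans (h2.trans (h3.trans hω))
    have h5 := sq_nonneg (Tc m X G L g w ω - ((g * (2 * L) : ℕ) : ℝ) * (m * mu Q w))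
    have h6 := sq_nonneg (Uc G L g w ω - ((PP g L).card : ℝ) * mu Q w)
    constructor <;> linarith
  · refine le_trans ?_ hω
    simp only [hΦ]
    have : 0 ≤ ∑ g ∈ gs, ∑ w ∈ ws, ((Tc m X G L g w ω - ((g * (2 * L) : ℕ) : ℝ) * (m * mu Q w)) ^ 2 +
      (Uc G L g w ω - ((PP g L).card : ℝ) * mu Q w) ^ 2) := sum_nonneg (fun g hg => sum_nonneg (fun w hw => hS0 g hg w hw))
    linarith

end discrete

end Pool.Agent.H27.PPC
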