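import Mathlib
import Pool.Agent.H27.PPCA

open Finset

set_option maxHeartbeats 4000000

namespace Pool.Agent.H27.PPC

/-- distance to nearest integer -/
noncomputable def nd (x : ℝ) : ℝ := |x - round x|

lemma nd_lt {x ρ : ℝ} : nd x < ρ ↔ ∃ z : ℤ, |x - z| < ρ := by
  unfold nd
  constructor
  · intro h; exact ⟨round x, h⟩
  · rintro ⟨z, hz⟩; exact lt_of_le_of_lt (round_le x z) hz

lemma nd_neg (x : ℝ) : nd (-x) = nd x := by
  apply le_antisymm
  · by_contra h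
    push Not at h
    obtain ⟨z, hz⟩ := nd_lt.1 h
    have : nd (-x) < nd (-x) := nd_lt.2 ⟨-z, by push_cast; rw [← abs_neg]; convert hz using 2; ring⟩
    exact lt_irrefl _ this
  · by_contra h
    push Not at h
    obtain ⟨z, hz⟩ := nd_lt.1 h
    have : nd x < nd x := nd_lt.2 ⟨-z, by push_cast; rw [← abs_neg]; convert hz using 2; ring⟩
    exact lt_irrefl _ this

lemma nd_add_int (x : ℝ) (z : ℤ) : nd (x + z) = nd x := by
  unfold nd
  rw [round_add_intCast]; push_cast; congr 1; ring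

/-- the indicator of a close pair -/
noncomputable def Ip (α : ℝ) (a : ℕ → ℤ) (ρ : ℝ) (k l : ℕ) : ℝ :=
  if k ≠ l ∧ nd (((a k - a l : ℤ) : ℝ) * α) < ρ then 1 else 0

lemma Ip_nonneg (α : ℝ) (a : ℕ → ℤ) (ρ : ℝ) (k l : ℕ) : 0 ≤ Ip α a ρ k l := by unfold Ip; split_ifs <;> norm_num
lemma Ip_le_one (α : ℝ) (a : ℕ → ℤ) (ρ : ℝ) (k l : ℕ) : Ip α a ρ k l ≤ 1 := by unfold Ip; split_ifs <;> norm_num
lemma Ip_symm (α : ℝ) (a : ℕ → ℤ) (ρ : ℝ) (k l : ℕ) : Ip α a ρ k l = Ip α a ρ l k := by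
  unfold Ip
  have : nd (((a k - a l : ℤ) : ℝ) * α) = nd (((a l - a k : ℤ) : ℝ) * α) := by
    rw [← nd_neg]; congr 1; push_cast; ring
  rw [this]
  simp only [ne_comm]

/-- the number of close pairs among the first `n` terms -/
noncomputable def cnt (α : ℝ) (a : ℕ → ℤ) (n : ℕ) (ρ : ℝ) : ℝ := ∑ k ∈ range n, ∑ l ∈ range n, Ip α a ρ k l

lemma cnt_congr {α : ℝ} {a a' : ℕ → ℤ} {n : ℕ} (h : ∀ k < n, a k = a' k) (ρ : ℝ) : cnt α a n ρ = cnt α a' n ρ := by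
  unfold cnt
  refine sum_congr rfl (fun k hk => sum_congr rfl (fun l hl => ?_))
  rw [mem_range] at hk hl
  unfold Ip
  rw [h k hk, h l hl]

lemma cnt_mono_n (α : ℝ) (a : ℕ → ℤ) {n n' : ℕ} (h : n ≤ n') (ρ : ℝ) : cnt α a n ρ ≤ cnt α a n' ρ := by
  unfold cnt
  have hs : range n ⊆ range n' := range_subset_range.2 h
  calc _ ≤ ∑ k ∈ range n, ∑ l ∈ range n', Ip α a ρ k l :=
        sum_le_sum (fun k _ => sum_le_sum_of_subset_of_nonneg hs (fun l _ _ => Ip_nonneg _ _ _ _ _))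
    _ ≤ _ := sum_le_sum_of_subset_of_nonneg hs (fun k _ _ => sum_nonneg (fun l _ => Ip_nonneg _ _ _ _ _))

lemma cnt_mono_ρ (α : ℝ) (a : ℕ → ℤ) (n : ℕ) {ρ ρ' : ℝ} (h : ρ ≤ ρ') : cnt α a n ρ ≤ cnt α a n ρ' := by
  unfold cnt
  refine sum_le_sum (fun k _ => sum_le_sum (fun l _ => ?_))
  unfold Ip
  by_cases h1 : k ≠ l ∧ nd (((a k - a l : ℤ) : ℝ) * α) < ρ
  · rw [if_pos h1, if_pos ⟨h1.1, lt_of_lt_of_le h1.2 h⟩]
  · rw [if_neg h1]; split_ifs <;> norm_num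

lemma cnt_nonneg (α : ℝ) (a : ℕ → ℤ) (n : ℕ) (ρ : ℝ) : 0 ≤ cnt α a n ρ :=
  sum_nonneg (fun k _ => sum_nonneg (fun l _ => Ip_nonneg _ _ _ _ _))

/-- discretised position -/
def near (Q : ℕ) (x : ℝ) (X : ZMod Q) : Prop := ∃ z : ℤ, (z : ZMod Q) = X ∧ |Q * x - z| ≤ 1 / 2

section trans
variable {Q : ℕ} [Fact Q.Prime]

lemma psi_of_nd {x x' : ℝ} {X X' : ZMod Q} (h : near Q x X) (h' : near Q x' X') {ρ : ℝ} {w : ℕ}
    (hn : nd (x - x') < ρ) (hw : Q * ρ + 1 ≤ w) : psi w (X - X') = 1 := by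
  have hQ : (0:ℝ) < Q := by exact_mod_cast (Fact.out : Q.Prime).pos
  obtain ⟨z, hz, hz2⟩ := h
  obtain ⟨z', hz', hz2'⟩ := h'
  obtain ⟨t, ht⟩ := nd_lt.1 hn
  unfold psi
  rw [if_pos]
  have e1 : ((z - z' - Q * t : ℤ) : ZMod Q) = X - X' := by
    push_cast; rw [hz, hz']; simp
  have e2 := ZMod.natAbs_min_of_le_div_two Q (X - X').valMinAbs (z - z' - Q * t) (by
    rw [ZMod.coe_valMinAbs, e1]) (ZMod.natAbs_valMinAbs_le _)
  refine lt_of_le_of_lt e2 ?_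
  have e3 : (((z - z' - Q * t : ℤ)).natAbs : ℝ) = |((z - z' - Q * t : ℤ) : ℝ)| := by
    rw [← Int.cast_abs, Int.abs_eq_natAbs]; rfl
  have e4 : |((z - z' - Q * t : ℤ) : ℝ)| < Q * ρ + 1 := by
    push_cast
    have h1 := abs_le.1 hz2
    have h2 := abs_le.1 hz2'
    have h3 := abs_lt.1 ht
    have h4 : Q * (x - x' - t) < Q * ρ := mul_lt_mul_of_pos_left h3.2 hQ
    have h5 : Q * (-ρ) < Q * (x - x' - t) := mul_lt_mul_of_pos_left h3.1 hQ
    rw [abs_lt]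
    constructor <;> nlinarith
  have e5 : (((z - z' - Q * t : ℤ)).natAbs : ℝ) < w := by rw [e3]; linarith
  exact_mod_cast e5

lemma nd_of_psi {x x' : ℝ} {X X' : ZMod Q} (h : near Q x X) (h' : near Q x' X') {ρ : ℝ} {w : ℕ}
    (hn : psi w (X - X') ≠ 0) (hw : (w : ℝ) < Q * ρ) : nd (x - x') < ρ := by
  have hQ : (0:ℝ) < Q := by exact_mod_cast (Fact.out : Q.Prime).pos
  obtain ⟨z, hz, hz2⟩ := h
  obtain ⟨z', hz', hz2'⟩ := h'
  unfold psi at hn
  have hn2 : (X - X').valMinAbs.natAbs < w := by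
    by_contra h; rw [if_neg h] at hn; exact hn rfl
  have e1 : (((z - z' - (X - X').valMinAbs : ℤ)) : ZMod Q) = 0 := by
    push_cast
    rw [hz, hz', sub_self]
  rw [ZMod.intCast_zmod_eq_zero_iff_dvd] at e1
  obtain ⟨t, ht⟩ := e1
  rw [nd_lt]
  refine ⟨t, ?_⟩
  have e3 : ((X - X').valMinAbs.natAbs : ℝ) = |((X - X').valMinAbs : ℝ)| := by
    rw [← Int.cast_abs, Int.abs_eq_natAbs]; rfl
  have e4 : |((X - X').valMinAbs : ℝ)| + 1 ≤ w := by rw [← e3]; exact_mod_cast hn2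
  have e5 : (z:ℝ) - z' - (X - X').valMinAbs = Q * t := by exact_mod_cast ht
  have e6 : |Q * (x - x' - t)| < Q * ρ := by
    have h1 := abs_le.1 hz2
    have h2 := abs_le.1 hz2'
    have h3 := abs_le.1 (le_refl |((X - X').valMinAbs : ℝ)|)
    rw [abs_lt]
    constructor <;> nlinarith
  rw [abs_mul, abs_of_pos hQ] at e6
  exact lt_of_mul_lt_mul_left e6 hQ.le

end trans

/-- multiples of an irrational number are dense modulo one -/
lemma dense_mult {β : ℝ} (hβ : Irrational β) (t η : ℝ) (hη : 0 < η) (K : ℕ) : ∃ k : ℕ, K ≤ k ∧ ∃ z : ℤ, |k * β - t - z| < η := by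
  obtain ⟨n, hn⟩ := exists_nat_one_div_lt hη
  obtain ⟨k, hk, -, hk2⟩ := Real.exists_nat_abs_mul_sub_round_le β (n := n + 1) (by omega)
  set θ := (k:ℝ) * β - round ((k:ℝ) * β) with hθ
  have hθη : |θ| < η := by
    refine lt_of_le_of_lt hk2 (lt_of_le_of_lt ?_ hn)
    push_cast
    apply one_div_le_one_div_of_le <;> linarith
  have hθ0 : θ ≠ 0 := by
    intro h
    have h2 : Irrational ((k:ℝ) * β) := by
      exact hβ.natCast_mul (by omega)
    exact h2 ⟨round ((k:ℝ) * β), by push_cast; linarith⟩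
  rcases lt_or_gt_of_ne hθ0 with hneg | hpos
  · -- θ < 0
    obtain ⟨z', hz'⟩ := exists_nat_gt (t - (K + 1) * θ)
    have hz'' : (t - z') / θ ≥ K + 1 := by
      rw [ge_iff_le, le_div_iff_of_neg hneg]; linarith
    set j := ⌊(t - z') / θ⌋₊ with hj
    have hnn : 0 ≤ (t - z') / θ := by have : (0:ℝ) ≤ K := by positivity
                                      linarith
    have hj1 : (j:ℝ) ≤ (t - z') / θ := Nat.floor_le hnn
    have hj2 : (t - z') / θ < j + 1 := Nat.lt_floor_add_one _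
    have hjK : K ≤ j := by
      rw [hj]; apply Nat.le_floor; linarith
    refine ⟨j * k, le_trans hjK (Nat.le_mul_of_pos_right _ hk), j * round ((k:ℝ) * β) - z', ?_⟩
    have e1 : ((j * k : ℕ) : ℝ) * β - t - ((j * round ((k:ℝ) * β) - z' : ℤ) : ℝ) = j * θ - (t - z') := by
      rw [hθ]; push_cast; ring
    rw [e1]
    rw [le_div_iff_of_neg hneg] at hj1
    rw [div_lt_iff_of_neg hneg] at hj2
    rw [abs_of_neg hneg] at hθη
    rw [abs_lt]; constructor <;> nlinarith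
  · obtain ⟨z', hz'⟩ := exists_nat_gt ((K + 1) * θ - t)
    have hz'' : (t + z') / θ ≥ K + 1 := by
      rw [ge_iff_le, le_div_iff₀ hpos]; linarith
    set j := ⌊(t + z') / θ⌋₊ with hj
    have hnn : 0 ≤ (t + z') / θ := by have : (0:ℝ) ≤ K := by positivity
                                      linarith
    have hj1 : (j:ℝ) ≤ (t + z') / θ := Nat.floor_le hnn
    have hj2 : (t + z') / θ < j + 1 := Nat.lt_floor_add_one _
    have hjK : K ≤ j := by
      rw [hj]; apply Nat.le_floor; linarith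
    refine ⟨j * k, le_trans hjK (Nat.le_mul_of_pos_right _ hk), j * round ((k:ℝ) * β) + z', ?_⟩
    have e1 : ((j * k : ℕ) : ℝ) * β - t - ((j * round ((k:ℝ) * β) + z' : ℤ) : ℝ) = j * θ - (t + z') := by
      rw [hθ]; push_cast; ring
    rw [e1]
    rw [le_div_iff₀ hpos] at hj1
    rw [div_lt_iff₀ hpos] at hj2
    rw [abs_of_pos hpos] at hθη
    rw [abs_lt]; constructor <;> nlinarith

end Pool.Agent.H27.PPC
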