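import Mathlib
import Pool.Agent.H27.PPCB1

open Finset

set_option maxHeartbeats 4000000

namespace Pool.Agent.H27.PPC

lemma realize {Q G L : ℕ} [Fact Q.Prime] {α0 : ℝ} (hα : Irrational α0) (ω : Om Q G) (D M A : ℕ) (hD : 1 ≤ D) (hM : 1 ≤ M) :
    ∃ (b : ℕ → ℕ) (d1 d2 : ℕ), 0 < d2 ∧ D ∣ d2 ∧ M * d2 ∣ d1 ∧ 0 < d1 ∧ A < b 0 ∧ (∀ j, j + 1 < G → b j + d1 + L * d2 < b (j + 1)) ∧
      ∀ j < G, ∀ v1 < 2, ∀ v2 < L, near Q (((b j + v1 * d1 + v2 * d2 : ℕ) : ℝ) * α0) (lf Q G (j, (v1, v2)) ω) := by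
  have hQ : (0:ℝ) < Q := by exact_mod_cast (Fact.out : Q.Prime).pos
  set η : ℝ := 1 / (8 * Q * (L + 1)) with hη
  have hη0 : 0 < η := by positivity
  obtain ⟨k2, hk2, z2, h2⟩ := dense_mult (hα.natCast_mul (by omega : D ≠ 0)) (ω.2.2.val / Q) η hη0 1
  set d2 := k2 * D with hd2
  have hd2pos : 0 < d2 := Nat.mul_pos hk2 hD
  obtain ⟨k1, hk1, z1, h1⟩ := dense_mult (hα.natCast_mul (by positivity : M * d2 ≠ 0)) (ω.2.1.val / Q) η hη0 1
  set d1 := k1 * (M * d2) with hd1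
  have hd1pos : 0 < d1 := by positivity
  have hk : ∀ j : ℕ, ∃ k : ℕ, 0 ≤ k ∧ ∃ z : ℤ, |k * α0 - (if h : j < G then ((ω.1 ⟨j, h⟩).val : ℝ) / Q else 0) - z| < η :=
    fun j => dense_mult hα _ η hη0 0
  choose k hk0 zk hzk using hk
  obtain ⟨P, hP, zP, hzP⟩ := dense_mult hα 0 (η / (G + 1)) (by positivity) (A + ∑ j ∈ range G, k j + d1 + L * d2 + 1)
  refine ⟨fun j => k j + P * (j + 1), d1, d2, hd2pos, ⟨k2, by rw [hd2]; ring⟩, ⟨k1, by rw [hd1]; ring⟩, hd1pos, ?_, ?_, ?_⟩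
  · simp only [zero_add, mul_one]; omega
  · intro j hj
    have : k j ≤ ∑ j ∈ range G, k j := single_le_sum (f := k) (fun _ _ => Nat.zero_le _) (mem_range.2 (by omega))
    simp only
    have e : P * (j + 1 + 1) = P * (j + 1) + P := by ring
    rw [e]
    omega
  · intro j hj v1 hv1 v2 hv2
    have e0 := hzk j
    rw [dif_pos hj] at e0
    set y := ω.1 ⟨j, hj⟩ with hy
    have elf : lf Q G (j, (v1, v2)) ω = y + ((v1 : ZMod Q) * ω.2.1 + (v2 : ZMod Q) * ω.2.2) := by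
      unfold lf fy ft1 ft2
      simp only [hj, dif_pos, LinearMap.add_apply, LinearMap.smul_apply, LinearMap.coe_comp, Function.comp_apply, LinearMap.fst_apply, LinearMap.snd_apply, LinearMap.proj_apply, smul_eq_mul]
      rfl
    refine ⟨(y.val : ℤ) + v1 * (ω.2.1.val : ℤ) + v2 * (ω.2.2.val : ℤ) + Q * (zk j + (j + 1) * zP + v1 * z1 + v2 * z2), ?_, ?_⟩
    · rw [elf]
      push_cast
      rw [ZMod.natCast_self]
      simp only [ZMod.natCast_val, ZMod.cast_id', id_eq, zero_mul, add_zero]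
      ring
    · have hQη : (Q:ℝ) * η * (L + 1) = 1 / 8 := by rw [hη]; field_simp
      have t0 : |(Q:ℝ) * (k j * α0 - (y.val:ℝ) / Q - zk j)| ≤ Q * η := by
        rw [abs_mul, abs_of_pos hQ]; exact mul_le_mul_of_nonneg_left e0.le hQ.le
      have t1 : |(Q:ℝ) * ((j + 1) * (P * α0 - 0 - zP))| ≤ Q * η := by
        rw [abs_mul, abs_of_pos hQ]; refine mul_le_mul_of_nonneg_left ?_ hQ.le
        rw [abs_mul, abs_of_nonneg (by positivity)]
        have hjG : (j:ℝ) + 1 ≤ G + 1 := by have : (j:ℝ) ≤ G := by exact_mod_cast hj.le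
                                           linarith
        calc ((j:ℝ) + 1) * |P * α0 - 0 - zP| ≤ (G + 1) * (η / (G + 1)) := mul_le_mul hjG hzP.le (abs_nonneg _) (by positivity)
          _ = η := by field_simp
      have t2 : |(Q:ℝ) * (v1 * (k1 * (((M * d2 : ℕ):ℝ) * α0) - (ω.2.1.val:ℝ) / Q - z1))| ≤ Q * η := by
        rw [abs_mul, abs_of_pos hQ]; refine mul_le_mul_of_nonneg_left ?_ hQ.le
        rw [abs_mul, abs_of_nonneg (by positivity)]
        have hv : (v1:ℝ) ≤ 1 := by exact_mod_cast (by omega : v1 ≤ 1)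
        calc (v1:ℝ) * _ ≤ 1 * η := mul_le_mul hv h1.le (abs_nonneg _) (by positivity)
          _ = η := one_mul _
      have t3 : |(Q:ℝ) * (v2 * (k2 * ((D:ℝ) * α0) - (ω.2.2.val:ℝ) / Q - z2))| ≤ Q * η * L := by
        rw [abs_mul, abs_of_pos hQ, mul_assoc]; refine mul_le_mul_of_nonneg_left ?_ hQ.le
        rw [abs_mul, abs_of_nonneg (by positivity), mul_comm η]
        have hv : (v2:ℝ) ≤ L := by exact_mod_cast hv2.le
        exact mul_le_mul hv h2.le (abs_nonneg _) (by positivity)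
      have eq : (Q:ℝ) * (((k j + P * (j + 1) + v1 * d1 + v2 * d2 : ℕ) : ℝ) * α0) -
          (((y.val : ℤ) + v1 * (ω.2.1.val : ℤ) + v2 * (ω.2.2.val : ℤ) + Q * (zk j + (j + 1) * zP + v1 * z1 + v2 * z2) : ℤ) : ℝ) =
          (Q:ℝ) * (k j * α0 - (y.val:ℝ) / Q - zk j) + (Q:ℝ) * ((j + 1) * (P * α0 - 0 - zP)) +
          (Q:ℝ) * (v1 * (k1 * (((M * d2 : ℕ):ℝ) * α0) - (ω.2.1.val:ℝ) / Q - z1)) +
          (Q:ℝ) * (v2 * (k2 * ((D:ℝ) * α0) - (ω.2.2.val:ℝ) / Q - z2)) := by
        rw [hd1]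
        rw [hd2]
        push_cast
        field_simp
        ring
      simp only
      rw [eq]
      have s1 := abs_le.1 t0
      have s2 := abs_le.1 t1
      have s3 := abs_le.1 t2
      have s4 := abs_le.1 t3
      have hQη0 : 0 < (Q:ℝ) * η := by positivity
      have hL0 : (0:ℝ) ≤ L := by positivity
      rw [abs_le]
      constructor <;> nlinarith

/-- index of a new element -/
def code (L : ℕ) (i : ℕ × (ℕ × ℕ)) : ℕ := i.1 * (2 * L) + (i.2.1 * L + i.2.2)

lemma sum_mul_range (a b : ℕ) (f : ℕ → ℝ) : ∑ k ∈ range (a * b), f k = ∑ i ∈ range a, ∑ j ∈ range b, f (i * b + j) := by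
  induction a with
  | zero => simp
  | succ a ih => rw [sum_range_succ, ← ih, Nat.succ_mul, sum_range_add]

lemma sum_code (g L : ℕ) (f : ℕ → ℝ) : ∑ k ∈ range (g * (2 * L)), f k = ∑ i ∈ range g ×ˢ VV L, f (code L i) := by
  rw [sum_mul_range, sum_product]
  refine sum_congr rfl (fun j _ => ?_)
  rw [sum_mul_range 2 L (fun r => f (j * (2 * L) + r))]
  unfold VV
  rw [sum_product]
  rfl

lemma sum_symm (g : ℕ) (H : ℕ → ℕ → ℝ) (hs : ∀ j j', H j j' = H j' j) :
    ∑ j ∈ range g, ∑ j' ∈ range g, H j j' = 2 * (∑ p ∈ (range g ×ˢ range g).filter (fun p => p.1 < p.2), H p.1 p.2) + ∑ j ∈ range g, H j j := by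
  have h1 : ∑ p ∈ (range g ×ˢ range g).filter (fun p => p.1 < p.2), H p.1 p.2 = ∑ j ∈ range g, ∑ j' ∈ range g, if j < j' then H j j' else 0 := by
    rw [sum_filter, sum_product]
  have h2 : ∑ j ∈ range g, ∑ j' ∈ range g, (if j' < j then H j j' else 0) = ∑ j ∈ range g, ∑ j' ∈ range g, if j < j' then H j j' else 0 := by
    rw [sum_comm]
    refine sum_congr rfl (fun j _ => sum_congr rfl (fun j' _ => ?_))
    rw [hs]
  have h3 : ∑ j ∈ range g, ∑ j' ∈ range g, (if j = j' then H j j' else 0) = ∑ j ∈ range g, H j j := by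
    refine sum_congr rfl (fun j hj => ?_)
    rw [sum_ite_eq, if_pos hj]
  rw [h1, ← h3]
  have h4 : ∑ j ∈ range g, ∑ j' ∈ range g, H j j' = ∑ j ∈ range g, ∑ j' ∈ range g, ((if j < j' then H j j' else 0) + (if j' < j then H j j' else 0) + (if j = j' then H j j' else 0)) := by
    refine sum_congr rfl (fun j _ => sum_congr rfl (fun j' _ => ?_))
    rcases lt_trichotomy j j' with h | h | h
    · rw [if_pos h, if_neg (by omega), if_neg (by omega)]; ring
    · subst h; simp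
    · rw [if_neg (by omega), if_pos h, if_neg (by omega)]; ring
  rw [h4]
  simp only [sum_add_distrib]
  rw [h2]; ring

lemma cnt_split (α : ℝ) (a : ℕ → ℤ) (m g L : ℕ) (ρ : ℝ) :
    cnt α a (m + g * (2 * L)) ρ = cnt α a m ρ + 2 * (∑ i ∈ range g ×ˢ VV L, ∑ n ∈ range m, Ip α a ρ (m + code L i) n) +
      (2 * (∑ p ∈ PP g L, Ip α a ρ (m + code L (p.1.1, p.2.1)) (m + code L (p.1.2, p.2.2))) +
        ∑ j ∈ range g, ∑ p ∈ VV L ×ˢ VV L, Ip α a ρ (m + code L (j, p.1)) (m + code L (j, p.2))) := by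
  have h1 : cnt α a (m + g * (2 * L)) ρ = cnt α a m ρ + 2 * (∑ k ∈ range (g * (2 * L)), ∑ n ∈ range m, Ip α a ρ (m + k) n) +
      ∑ k ∈ range (g * (2 * L)), ∑ l ∈ range (g * (2 * L)), Ip α a ρ (m + k) (m + l) := by
    unfold cnt
    rw [sum_range_add]
    simp only [sum_range_add, sum_add_distrib]
    have : ∑ k ∈ range m, ∑ l ∈ range (g * (2 * L)), Ip α a ρ k (m + l) = ∑ k ∈ range (g * (2 * L)), ∑ n ∈ range m, Ip α a ρ (m + k) n := by
      rw [sum_comm]
      refine sum_congr rfl (fun k _ => sum_congr rfl (fun l _ => ?_))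
      rw [Ip_symm]
    rw [this]; ring
  have h2 : ∑ k ∈ range (g * (2 * L)), ∑ l ∈ range (g * (2 * L)), Ip α a ρ (m + k) (m + l) =
      ∑ j ∈ range g, ∑ j' ∈ range g, ∑ p ∈ VV L ×ˢ VV L, Ip α a ρ (m + code L (j, p.1)) (m + code L (j', p.2)) := by
    rw [sum_code g L (fun k => ∑ l ∈ range (g * (2 * L)), Ip α a ρ (m + k) (m + l))]
    have h3 : ∀ i : ℕ × (ℕ × ℕ), ∑ l ∈ range (g * (2 * L)), Ip α a ρ (m + code L i) (m + l) = ∑ i' ∈ range g ×ˢ VV L, Ip α a ρ (m + code L i) (m + code L i') :=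
      fun i => sum_code g L (fun l => Ip α a ρ (m + code L i) (m + l))
    rw [sum_congr rfl (fun i _ => h3 i), sum_product]
    refine sum_congr rfl (fun j _ => ?_)
    have h4 : ∀ v ∈ VV L, ∑ i' ∈ range g ×ˢ VV L, Ip α a ρ (m + code L (j, v)) (m + code L i') = ∑ j' ∈ range g, ∑ v' ∈ VV L, Ip α a ρ (m + code L (j, v)) (m + code L (j', v')) := by
      intro v _
      rw [sum_product]
    rw [sum_congr rfl h4, sum_comm]
    refine sum_congr rfl (fun j' _ => ?_)
    rw [sum_product]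
  rw [h1, h2, sum_symm g (fun j j' => ∑ p ∈ VV L ×ˢ VV L, Ip α a ρ (m + code L (j, p.1)) (m + code L (j', p.2)))]
  · rw [sum_code g L (fun k => ∑ n ∈ range m, Ip α a ρ (m + k) n)]
    unfold PP
    rw [sum_product (s := (range g ×ˢ range g).filter (fun p => p.1 < p.2)) (t := VV L ×ˢ VV L)]
  · intro j j'
    rw [sum_product, sum_product, sum_comm]
    refine sum_congr rfl (fun v _ => sum_congr rfl (fun v' _ => ?_))
    rw [Ip_symm]

lemma code_inj {L : ℕ} {j j' : ℕ} {v v' : ℕ × ℕ} (hv : v ∈ VV L) (hv' : v' ∈ VV L) (h : code L (j, v) = code L (j', v')) : j = j' ∧ v = v' := by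
  obtain ⟨v1, v2⟩ := v
  obtain ⟨u1, u2⟩ := v'
  unfold VV at hv hv'
  rw [mem_product, mem_range, mem_range] at hv hv'
  simp only at hv hv'
  unfold code at h
  simp only at h
  have hL : 0 < L := by omega
  have hr : v1 * L + v2 < 2 * L := by
    have : v1 * L ≤ 1 * L := Nat.mul_le_mul_right L (by omega)
    omega
  have hr' : u1 * L + u2 < 2 * L := by
    have : u1 * L ≤ 1 * L := Nat.mul_le_mul_right L (by omega)
    omega
  have e1 : (j * (2 * L) + (v1 * L + v2)) / (2 * L) = j := by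
    rw [Nat.mul_comm j, Nat.mul_add_div (by omega), Nat.div_eq_of_lt hr, add_zero]
  have e2 : (j' * (2 * L) + (u1 * L + u2)) / (2 * L) = j' := by
    rw [Nat.mul_comm j', Nat.mul_add_div (by omega), Nat.div_eq_of_lt hr', add_zero]
  have e3 : j = j' := by rw [← e1, h, e2]
  subst e3
  have e4 : v1 * L + v2 = u1 * L + u2 := by omega
  have e5 : (v1 * L + v2) / L = v1 := by
    rw [Nat.mul_comm v1, Nat.mul_add_div hL, Nat.div_eq_of_lt hv.2, add_zero]
  have e6 : (u1 * L + u2) / L = u1 := by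
    rw [Nat.mul_comm u1, Nat.mul_add_div hL, Nat.div_eq_of_lt hv'.2, add_zero]
  have e7 : v1 = u1 := by rw [← e5, e4, e6]
  subst e7
  exact ⟨rfl, by rw [Prod.mk.injEq]; exact ⟨rfl, by omega⟩⟩

section trans2
variable {Q : ℕ} [Fact Q.Prime]

lemma sub_mul_cast (α : ℝ) (a : ℕ → ℤ) (k l : ℕ) : ((a k - a l : ℤ) : ℝ) * α = a k * α - a l * α := by push_cast; ring

lemma upper_bd {α : ℝ} {a : ℕ → ℤ} {m G L : ℕ} {X : ℕ → ZMod Q} {ω : Om Q G} (hX : ∀ n < m, near Q (a n * α) (X n))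
    (hN : ∀ j < G, ∀ v ∈ VV L, near Q (a (m + code L (j, v)) * α) (lf Q G (j, v) ω)) {g w W : ℕ} {ρ : ℝ} (hg : g ≤ G)
    (hw : Q * ρ + 1 ≤ w) (hwW : w ≤ W) :
    cnt α a (m + g * (2 * L)) ρ - cnt α a m ρ ≤ 2 * Tc m X G L g w ω + 2 * Uc G L g w ω + g * V0 G L W ω := by
  rw [cnt_split]
  have h1 : ∑ i ∈ range g ×ˢ VV L, ∑ n ∈ range m, Ip α a ρ (m + code L i) n ≤ Tc m X G L g w ω := by
    unfold Tc
    refine sum_le_sum (fun i hi => sum_le_sum (fun n hn => ?_))
    rw [mem_product, mem_range] at hi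
    rw [mem_range] at hn
    unfold Ip
    split_ifs with h
    · rw [sub_mul_cast] at h
      rw [psi_of_nd (hN i.1 (by omega) i.2 hi.2) (hX n hn) h.2 hw]
    · exact psi_nonneg _ _
  have h2 : ∑ p ∈ PP g L, Ip α a ρ (m + code L (p.1.1, p.2.1)) (m + code L (p.1.2, p.2.2)) ≤ Uc G L g w ω := by
    unfold Uc
    refine sum_le_sum (fun p hp => ?_)
    unfold PP at hp
    rw [mem_product, mem_filter, mem_product, mem_range, mem_range, mem_product] at hp
    unfold Ip pf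
    split_ifs with h
    · rw [sub_mul_cast] at h
      rw [LinearMap.sub_apply, psi_of_nd (hN p.1.1 (by omega) p.2.1 hp.2.1) (hN p.1.2 (by omega) p.2.2 hp.2.2) h.2 hw]
    · exact psi_nonneg _ _
  have h3 : ∑ j ∈ range g, ∑ p ∈ VV L ×ˢ VV L, Ip α a ρ (m + code L (j, p.1)) (m + code L (j, p.2)) ≤ g * V0 G L W ω := by
    have h4 : ∀ j ∈ range g, ∑ p ∈ VV L ×ˢ VV L, Ip α a ρ (m + code L (j, p.1)) (m + code L (j, p.2)) ≤ V0 G L W ω := by
      intro j hj
      rw [mem_range] at hj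
      unfold V0
      rw [sum_filter]
      refine sum_le_sum (fun p hp => ?_)
      rw [mem_product] at hp
      by_cases hpp : p.1 ≠ p.2
      · rw [if_pos hpp]
        unfold Ip
        split_ifs with h
        · rw [sub_mul_cast] at h
          have h5 := psi_of_nd (hN j (by omega) p.1 hp.1) (hN j (by omega) p.2 hp.2) h.2 hw
          have h6 : lf Q G (0, p.1) ω - lf Q G (0, p.2) ω = lf Q G (j, p.1) ω - lf Q G (j, p.2) ω := by
            unfold lf
            simp only [LinearMap.add_apply]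
            ring
          rw [h6, ← h5]
          exact psi_mono hwW _
        · exact psi_nonneg _ _
      · push Not at hpp
        rw [if_neg (by simpa using hpp), hpp]
        unfold Ip
        rw [if_neg (by simp)]
    have h5 := sum_le_card_nsmul _ _ _ h4
    rw [card_range, nsmul_eq_mul] at h5
    exact h5
  linarith

lemma lower_bd {α : ℝ} {a : ℕ → ℤ} {m G L : ℕ} {X : ℕ → ZMod Q} {ω : Om Q G} (hX : ∀ n < m, near Q (a n * α) (X n))
    (hN : ∀ j < G, ∀ v ∈ VV L, near Q (a (m + code L (j, v)) * α) (lf Q G (j, v) ω)) {g w : ℕ} {ρ : ℝ} (hg : g ≤ G)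
    (hw : w = 0 ∨ (w : ℝ) < Q * ρ) :
    2 * Tc m X G L g w ω + 2 * Uc G L g w ω ≤ cnt α a (m + g * (2 * L)) ρ - cnt α a m ρ := by
  rw [cnt_split]
  have key : ∀ (x x' : ℝ) (Y Y' : ZMod Q), near Q x Y → near Q x' Y' → psi w (Y - Y') ≠ 0 → nd (x - x') < ρ := by
    intro x x' Y Y' h h' hn
    rcases hw with hw | hw
    · exfalso; apply hn; subst hw; unfold psi; simp
    · exact nd_of_psi h h' hn hw
  have h1 : Tc m X G L g w ω ≤ ∑ i ∈ range g ×ˢ VV L, ∑ n ∈ range m, Ip α a ρ (m + code L i) n := by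
    unfold Tc
    refine sum_le_sum (fun i hi => sum_le_sum (fun n hn => ?_))
    rw [mem_product, mem_range] at hi
    rw [mem_range] at hn
    by_cases h0 : psi w (lf Q G i ω - X n) = 0
    · rw [h0]; exact Ip_nonneg _ _ _ _ _
    · have := key _ _ _ _ (hN i.1 (by omega) i.2 hi.2) (hX n hn) h0
      unfold Ip
      rw [sub_mul_cast, if_pos ⟨by omega, this⟩]
      exact psi_le_one _ _
  have h2 : Uc G L g w ω ≤ ∑ p ∈ PP g L, Ip α a ρ (m + code L (p.1.1, p.2.1)) (m + code L (p.1.2, p.2.2)) := by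
    unfold Uc
    refine sum_le_sum (fun p hp => ?_)
    unfold PP at hp
    rw [mem_product, mem_filter, mem_product, mem_range, mem_range, mem_product] at hp
    by_cases h0 : psi w (pf Q G p ω) = 0
    · rw [h0]; exact Ip_nonneg _ _ _ _ _
    · have h0' := h0
      unfold pf at h0'
      rw [LinearMap.sub_apply] at h0'
      have := key _ _ _ _ (hN p.1.1 (by omega) p.2.1 hp.2.1) (hN p.1.2 (by omega) p.2.2 hp.2.2) h0'
      have hne : m + code L (p.1.1, p.2.1) ≠ m + code L (p.1.2, p.2.2) := by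
        intro h
        have h3 := (code_inj hp.2.1 hp.2.2 (by omega : code L (p.1.1, p.2.1) = code L (p.1.2, p.2.2))).1
        omega
      unfold Ip
      rw [sub_mul_cast, if_pos ⟨hne, this⟩]
      exact psi_le_one _ _
  have h3 : 0 ≤ ∑ j ∈ range g, ∑ p ∈ VV L ×ˢ VV L, Ip α a ρ (m + code L (j, p.1)) (m + code L (j, p.2)) :=
    sum_nonneg (fun j _ => sum_nonneg (fun p _ => Ip_nonneg _ _ _ _ _))
  linarith

lemma R2_bd {α : ℝ} {a : ℕ → ℤ} {m : ℕ} {X : ℕ → ZMod Q} (hX : ∀ n < m, near Q (a n * α) (X n)) {W : ℕ} {ρ : ℝ}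
    (hW : ((2 * W : ℕ) : ℝ) < Q * ρ) : ∑ n ∈ range m, ∑ n' ∈ range m, psi (2 * W) (X n - X n') ≤ m + cnt α a m ρ := by
  have h1 : (m:ℝ) = ∑ n ∈ range m, ∑ n' ∈ range m, if n = n' then (1:ℝ) else 0 := by
    rw [sum_congr rfl (fun n hn => by rw [sum_ite_eq, if_pos hn])]
    simp
  rw [h1]
  unfold cnt
  rw [← sum_add_distrib]
  refine sum_le_sum (fun n hn => ?_)
  rw [← sum_add_distrib]
  refine sum_le_sum (fun n' hn' => ?_)
  rw [mem_range] at hn hn'
  by_cases h : n = n'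
  · rw [if_pos h]
    have := Ip_nonneg α a ρ n n'
    have := psi_le_one (2 * W) (X n - X n')
    linarith
  · rw [if_neg h, zero_add]
    by_cases h0 : psi (2 * W) (X n - X n') = 0
    · rw [h0]; exact Ip_nonneg _ _ _ _ _
    · unfold Ip
      rw [sub_mul_cast, if_pos ⟨h, nd_of_psi (hX n hn) (hX n' hn') h0 hW⟩]
      exact psi_le_one _ _

end trans2

end Pool.Agent.H27.PPC
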