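import Mathlib
import Pool.Agent.H27.PPCB2

open Finset

set_option maxHeartbeats 4000000

namespace Pool.Agent.H27.PPC

/-- extension of a sequence by `G` groups -/
def ext (a : ℕ → ℤ) (m L : ℕ) (b : ℕ → ℕ) (d1 d2 : ℕ) : ℕ → ℤ := fun n =>
  if n < m then a n else ((b ((n - m) / (2 * L)) + ((n - m) % (2 * L)) / L * d1 + ((n - m) % (2 * L)) % L * d2 : ℕ) : ℤ)

lemma ext_old {a : ℕ → ℤ} {m L : ℕ} {b : ℕ → ℕ} {d1 d2 : ℕ} {n : ℕ} (h : n < m) : ext a m L b d1 d2 n = a n := by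
  unfold ext; rw [if_pos h]

lemma ext_code {a : ℕ → ℤ} {m L : ℕ} {b : ℕ → ℕ} {d1 d2 : ℕ} {j : ℕ} {v : ℕ × ℕ} (hv : v ∈ VV L) :
    ext a m L b d1 d2 (m + code L (j, v)) = ((b j + v.1 * d1 + v.2 * d2 : ℕ) : ℤ) := by
  obtain ⟨v1, v2⟩ := v
  unfold VV at hv
  rw [mem_product, mem_range, mem_range] at hv
  simp only at hv
  unfold ext code
  simp only
  rw [if_neg (by omega), Nat.add_sub_cancel_left]
  have hL : 0 < L := by omega
  have hr : v1 * L + v2 < 2 * L := by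
    have : v1 * L ≤ 1 * L := Nat.mul_le_mul_right L (by omega)
    omega
  have e1 : (j * (2 * L) + (v1 * L + v2)) / (2 * L) = j := by
    rw [Nat.mul_comm j, Nat.mul_add_div (by omega), Nat.div_eq_of_lt hr, add_zero]
  have e2 : (j * (2 * L) + (v1 * L + v2)) % (2 * L) = v1 * L + v2 := by
    rw [Nat.mul_comm j, Nat.mul_add_mod, Nat.mod_eq_of_lt hr]
  have e3 : (v1 * L + v2) / L = v1 := by
    rw [Nat.mul_comm v1, Nat.mul_add_div hL, Nat.div_eq_of_lt hv.2, add_zero]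
  have e4 : (v1 * L + v2) % L = v2 := by
    rw [Nat.mul_comm v1, Nat.mul_add_mod, Nat.mod_eq_of_lt hv.2]
  rw [e1, e2, e3, e4]

lemma PP_card (g L : ℕ) : 2 * ((PP g L).card : ℝ) = ((g * (2 * L) : ℕ) : ℝ) ^ 2 - ((g * (2 * L) : ℕ) : ℝ) * (2 * L) := by
  have h := sum_symm g (fun _ _ => (1:ℝ)) (fun _ _ => rfl)
  simp only [sum_const, card_range, nsmul_eq_mul, mul_one] at h
  unfold PP
  rw [card_product, card_product, VV_card]
  push_cast
  have h2 : (2:ℝ) * (((range g ×ˢ range g).filter (fun p => p.1 < p.2)).card : ℝ) = g * g - g := by linarith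
  calc (2:ℝ) * ((((range g ×ˢ range g).filter (fun p => p.1 < p.2)).card : ℝ) * (2 * L * (2 * L))) =
      (2 * (((range g ×ˢ range g).filter (fun p => p.1 < p.2)).card : ℝ)) * (2 * L * (2 * L)) := by ring
    _ = (g * g - g) * (2 * L * (2 * L)) := by rw [h2]
    _ = _ := by ring

lemma num_upper {m S q ρ μ x y δ : ℝ} (hm : 0 < m) (hS : 0 ≤ S) (hq : 0 < q) (hqδ : 10000 * S ≤ q * δ) (hρ0 : 0 ≤ ρ) (hρ : ρ * m ≤ S)
    (hμ : μ ≤ 2 * ρ + 8 * (S / (m * q))) (hx0 : 0 ≤ x) (h1 : x ≤ y) (h2 : y ≤ x + 8 * m / q) (h3 : y ≤ 8 * m) :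
    μ * (2 * y * m + y ^ 2) ≤ 2 * ρ * (2 * x * m + x ^ 2) + δ * m / 10 := by
  have hy0 : 0 ≤ y := hx0.trans h1
  have F0 : 0 ≤ 2 * y * m + y ^ 2 := by positivity
  have F1 : 2 * y * m + y ^ 2 ≤ 80 * m ^ 2 := by nlinarith
  have F2 : 2 * y * m + y ^ 2 ≤ 2 * x * m + x ^ 2 + 144 * m ^ 2 / q := by
    have e : 144 * m ^ 2 / q = (8 * m / q) * (18 * m) := by field_simp; ring
    rw [e]
    have : (y - x) * (2 * m + y + x) ≤ (8 * m / q) * (18 * m) := by
      apply mul_le_mul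
      · linarith
      · linarith
      · linarith
      · positivity
    nlinarith
  have s1 : μ * (2 * y * m + y ^ 2) ≤ (2 * ρ + 8 * (S / (m * q))) * (2 * y * m + y ^ 2) := mul_le_mul_of_nonneg_right hμ F0
  have s2 : 8 * (S / (m * q)) * (2 * y * m + y ^ 2) ≤ 8 * (S / (m * q)) * (80 * m ^ 2) := mul_le_mul_of_nonneg_left F1 (by positivity)
  have s3 : 2 * ρ * (2 * y * m + y ^ 2) ≤ 2 * ρ * (2 * x * m + x ^ 2 + 144 * m ^ 2 / q) := mul_le_mul_of_nonneg_left F2 (by positivity)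
  have hSq : S / q ≤ δ / 10000 := by
    rw [div_le_div_iff₀ hq (by norm_num)]; linarith
  have s4 : 8 * (S / (m * q)) * (80 * m ^ 2) = 640 * (S / q) * m := by field_simp; ring
  have s5 : 2 * ρ * (144 * m ^ 2 / q) ≤ 288 * (S / q) * m := by
    have : 2 * ρ * (144 * m ^ 2 / q) = 288 * (ρ * m / q) * m := by field_simp; ring
    rw [this]
    have : ρ * m / q ≤ S / q := div_le_div_of_nonneg_right hρ hq.le
    nlinarith
  have s6 : (S / q) * m ≤ (δ / 10000) * m := mul_le_mul_of_nonneg_right hSq hm.le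
  have hδm : 0 ≤ δ * m := by
    have : 0 ≤ S / q * m := by positivity
    nlinarith
  nlinarith

lemma num_lower {m S q ρ μ x y δ : ℝ} (hm : 0 < m) (hS : 0 ≤ S) (hq : 0 < q) (hqδ : 10000 * S ≤ q * δ) (hρ0 : 0 ≤ ρ) (hρ : ρ * m ≤ S)
    (hμ : 2 * ρ - 9 * (S / (m * q)) ≤ μ) (hμ0 : 0 ≤ μ) (hμ1 : μ ≤ 2 * ρ) (hy0 : 0 ≤ y) (h1 : y ≤ x) (h2 : x ≤ y + 8 * m / q) (h3 : x ≤ 8 * m) :
    2 * ρ * (2 * x * m + x ^ 2) - δ * m / 5 ≤ μ * (2 * y * m + y ^ 2) := by
  have hx0 : 0 ≤ x := hy0.trans h1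
  have F0 : 0 ≤ 2 * x * m + x ^ 2 := by positivity
  have F1 : 2 * x * m + x ^ 2 ≤ 80 * m ^ 2 := by nlinarith
  have F2 : 2 * x * m + x ^ 2 ≤ 2 * y * m + y ^ 2 + 144 * m ^ 2 / q := by
    have e : 144 * m ^ 2 / q = (8 * m / q) * (18 * m) := by field_simp; ring
    rw [e]
    have : (x - y) * (2 * m + x + y) ≤ (8 * m / q) * (18 * m) := by
      apply mul_le_mul
      · linarith
      · linarith
      · linarith
      · positivity
    nlinarith
  have s1 : μ * (2 * x * m + x ^ 2) ≤ μ * (2 * y * m + y ^ 2) + μ * (144 * m ^ 2 / q) := by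
    rw [← mul_add]; exact mul_le_mul_of_nonneg_left F2 hμ0
  have s1' : μ * (144 * m ^ 2 / q) ≤ 2 * ρ * (144 * m ^ 2 / q) := mul_le_mul_of_nonneg_right hμ1 (by positivity)
  have s2 : (2 * ρ - 9 * (S / (m * q))) * (2 * x * m + x ^ 2) ≤ μ * (2 * x * m + x ^ 2) := mul_le_mul_of_nonneg_right hμ F0
  have s3 : 9 * (S / (m * q)) * (2 * x * m + x ^ 2) ≤ 9 * (S / (m * q)) * (80 * m ^ 2) := mul_le_mul_of_nonneg_left F1 (by positivity)
  have hSq : S / q ≤ δ / 10000 := by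
    rw [div_le_div_iff₀ hq (by norm_num)]; linarith
  have s4 : 9 * (S / (m * q)) * (80 * m ^ 2) = 720 * (S / q) * m := by field_simp; ring
  have s5 : 2 * ρ * (144 * m ^ 2 / q) ≤ 288 * (S / q) * m := by
    have : 2 * ρ * (144 * m ^ 2 / q) = 288 * (ρ * m / q) * m := by field_simp; ring
    rw [this]
    have : ρ * m / q ≤ S / q := div_le_div_of_nonneg_right hρ hq.le
    nlinarith
  have s6 : (S / q) * m ≤ (δ / 10000) * m := mul_le_mul_of_nonneg_right hSq hm.le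
  have hδm : 0 ≤ δ * m := by
    have : 0 ≤ S / q * m := by positivity
    nlinarith
  nlinarith

lemma block {α0 : ℝ} (hα : Irrational α0) (S : ℕ) (hS : 1 ≤ S) (δ : ℝ) (hδ : 0 < δ) (hδ1 : δ ≤ 1) :
    ∃ G M0 : ℕ, 1 ≤ G ∧ ∀ m : ℕ, M0 ≤ m → 1 ≤ m ∧ 2 * G ≤ m ∧ (∀ a : ℕ → ℤ, (cnt α0 a m (4 * (S:ℝ) / (m:ℝ)) ≤ (8 * (S:ℝ) + 7) * (m:ℝ)) →
      ∀ D M A : ℕ, 1 ≤ D → 1 ≤ M → ∃ (b : ℕ → ℕ) (d1 d2 : ℕ), 0 < d2 ∧ D ∣ d2 ∧ M * d2 ∣ d1 ∧ 0 < d1 ∧ A < b 0 ∧ (∀ j, j + 1 < G → b j + d1 + (4 * m / G) * d2 < b (j + 1)) ∧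
       ∀ x ≤ G * (2 * (4 * m / G)), ∀ ρ : ℝ, 0 ≤ ρ → ρ ≤ S / m →
        |cnt α0 (ext a m (4 * m / G) b d1 d2) (m + x) ρ - cnt α0 a m ρ - 2 * ρ * (2 * (x:ℝ) * (m:ℝ) + (x:ℝ) ^ 2)| ≤ δ * (m:ℝ)) := by
  have hS1 : (1:ℝ) ≤ S := by exact_mod_cast hS
  obtain ⟨q, hqδ'⟩ := exists_nat_ge (10000 * (S:ℝ) / δ)
  have hqδ : 10000 * (S:ℝ) ≤ q * δ := by rwa [div_le_iff₀ hδ] at hqδ'
  have hq1 : (10000:ℝ) ≤ q := by
    have hq0 : (0:ℝ) ≤ q := by positivity
    nlinarith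
  have hq0 : (0:ℝ) < q := by linarith
  have hqn : 10000 ≤ q := by exact_mod_cast hq1
  set K : ℝ := (q + 1) * (q + 3) with hK
  have hK0 : 0 < K := by positivity
  have hK1 : 1 ≤ K := by nlinarith
  set β : ℝ := (δ / 20) ^ 2 with hβ
  have hβ0 : 0 < β := by positivity
  obtain ⟨G0, hG0'⟩ := exists_nat_ge (2 * (1728 * K * S) / β)
  have hG0 : 2 * (1728 * K * S) ≤ G0 * β := by rwa [div_le_iff₀ hβ0] at hG0'
  have hG0pos : 0 < G0 := by
    rcases Nat.eq_zero_or_pos G0 with h | h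
    · subst h
      simp only [Nat.cast_zero, zero_mul] at hG0
      have : 0 < 2 * (1728 * K * (S:ℝ)) := by positivity
      linarith
    · exact h
  obtain ⟨M1, hM1'⟩ := exists_nat_ge (768 * K * S ^ 2 / β)
  have hM1 : 768 * K * (S:ℝ) ^ 2 ≤ M1 * β := by rwa [div_le_iff₀ hβ0] at hM1'
  set G := q * G0 with hG
  have hGpos : 0 < G := by positivity
  have hGq : (q:ℝ) ≤ G := by exact_mod_cast Nat.le_mul_of_pos_right q hG0pos
  have hGG0 : (G0:ℝ) ≤ G := by exact_mod_cast Nat.le_mul_of_pos_left G0 (by omega : 0 < q)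
  refine ⟨G, 2 * G + 3 * S + M1 + 1, hGpos, ?_⟩
  intro m hm
  refine ⟨by omega, by omega, ?_⟩
  intro a hctl D M A hD hM
  have hmpos : 0 < m := by omega
  have hm0 : (0:ℝ) < m := by exact_mod_cast hmpos
  have hm1 : (1:ℝ) ≤ m := by exact_mod_cast hmpos
  have hmM1 : (M1:ℝ) ≤ m := by exact_mod_cast (by omega : M1 ≤ m)
  have hm3S : 3 * (S:ℝ) ≤ m := by exact_mod_cast (by omega : 3 * S ≤ m)
  set L := 4 * m / G with hL
  have hGL : G * L ≤ 4 * m := by rw [hL]; exact Nat.mul_div_le _ _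
  have hLpos : 1 ≤ L := by
    rw [hL, Nat.le_div_iff_mul_le hGpos]; omega
  have hGL2n : G * (2 * L) ≤ 8 * m := by
    have e : G * (2 * L) = 2 * (G * L) := by ring
    omega
  have hGL2 : ((G * (2 * L) : ℕ) : ℝ) ≤ 8 * m := by exact_mod_cast hGL2n
  obtain ⟨Q, hQge, hQp⟩ := Nat.exists_infinite_primes (4 * m * (q + 2) + L + 3)
  haveI : Fact Q.Prime := ⟨hQp⟩
  have hQ0 : (0:ℝ) < Q := by exact_mod_cast hQp.pos
  have hQ1 : 4 * (m:ℝ) * (q + 2) ≤ Q := by exact_mod_cast (by omega : 4 * m * (q + 2) ≤ Q)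
  set τ : ℝ := S / (m * q) with hτ
  have hτ0 : 0 < τ := by positivity
  have hτq : τ * q = S / m := by rw [hτ]; field_simp
  have hQτ : 1 ≤ Q * τ := by
    rw [hτ, mul_div_assoc', le_div_iff₀ (by positivity)]
    have e1 : (m:ℝ) * q ≤ Q := by
      have : 0 ≤ (m:ℝ) * q := by positivity
      linarith
    have e2 : (Q:ℝ) * 1 ≤ Q * S := mul_le_mul_of_nonneg_left hS1 hQ0.le
    linarith
  have hSm : (1:ℝ) / m ≤ S / m := div_le_div_of_nonneg_right hS1 hm0.le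
  obtain ⟨w0, hw0a, hw0b⟩ : ∃ w0 : ℕ, Q * τ ≤ w0 ∧ (w0:ℝ) < Q * τ + 1 := ⟨⌈Q * τ⌉₊, Nat.le_ceil _, Nat.ceil_lt_add_one (by positivity)⟩
  have hw0c : (w0:ℝ) ≤ 2 * (Q * τ) := by linarith
  have hw01 : (1:ℝ) ≤ w0 := hQτ.trans hw0a
  have hw0pos : (0:ℝ) < w0 := by linarith
  set W := (q + 2) * w0 with hW
  have hWb : (W:ℝ) ≤ (3 / 2) * (Q * (S / m)) := by
    rw [hW]; push_cast
    have h1 : ((q:ℝ) + 2) * w0 ≤ (q + 2) * (Q * τ + 1) := mul_le_mul_of_nonneg_left hw0b.le (by positivity)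
    have h2 : ((q:ℝ) + 2) * (Q * τ + 1) = Q * (τ * q) + 2 * (Q * τ) + (q + 2) := by ring
    have h3 : 2 * (Q * τ) ≤ (1 / 4) * (Q * (S / m)) := by
      rw [← hτq]
      have e1 : 0 ≤ Q * τ := by positivity
      have e2 : (Q * τ) * 10000 ≤ (Q * τ) * q := mul_le_mul_of_nonneg_left hq1 e1
      linarith
    have h4 : (q:ℝ) + 2 ≤ (1 / 4) * (Q * (S / m)) := by
      have h5 : (Q:ℝ) * (1 / m) ≤ Q * (S / m) := mul_le_mul_of_nonneg_left hSm hQ0.le
      have h6 : 4 * ((q:ℝ) + 2) ≤ Q * (1 / m) := by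
        rw [mul_one_div, le_div_iff₀ hm0]; linarith
      linarith
    rw [hτq] at h2
    linarith
  have h2W : 2 * W ≤ Q := by
    have h1 : (2:ℝ) * W ≤ Q := by
      have h2 : (S:ℝ) / m ≤ 1 / 3 := by rw [div_le_div_iff₀ hm0 (by norm_num)]; linarith
      have h3 : (Q:ℝ) * (S / m) ≤ Q * (1 / 3) := mul_le_mul_of_nonneg_left h2 hQ0.le
      linarith
    exact_mod_cast h1
  set X : ℕ → ZMod Q := fun n => ((round ((Q:ℝ) * (a n * α0)) : ℤ) : ZMod Q) with hXdef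
  have hX : ∀ n < m, near Q (a n * α0) (X n) := fun n _ => ⟨_, rfl, abs_sub_round _⟩
  have hSm0 : (0:ℝ) < S / m := by positivity
  have hR2 : ∑ n ∈ range m, ∑ n' ∈ range m, psi (2 * W) (X n - X n') ≤ 16 * S * m := by
    have h1 := R2_bd hX (W := W) (ρ := 4 * S / m) (by
      push_cast
      have : (Q:ℝ) * (4 * S / m) = 4 * (Q * (S / m)) := by ring
      rw [this]
      have : 0 < (Q:ℝ) * (S / m) := by positivity
      linarith)
    have h2 := hctl
    have h4 : (1:ℝ) * m ≤ S * m := mul_le_mul_of_nonneg_right hS1 hm0.le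
    linarith
  have hmuW : mu Q W ≤ 3 * (S / m) := by
    refine (mu_bounds h2W).2.2.trans ?_
    rw [div_le_iff₀ hQ0]; linarith
  have hmuW0 : 0 ≤ mu Q W := mu_nonneg W
  set gs : Finset ℕ := (range (q + 1)).image (fun i => i * G0) with hgs
  set ws : Finset ℕ := (range (q + 3)).image (fun i => i * w0) with hws
  have hgsc : (gs.card : ℝ) ≤ q + 1 := by
    have : gs.card ≤ q + 1 := by rw [hgs]; exact card_image_le.trans (by rw [card_range])
    exact_mod_cast this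
  have hwsc : (ws.card : ℝ) ≤ q + 3 := by
    have : ws.card ≤ q + 3 := by rw [hws]; exact card_image_le.trans (by rw [card_range])
    exact_mod_cast this
  have hGm0 : (0:ℝ) < G := by exact_mod_cast hGpos
  obtain ⟨ω, hω, hωV⟩ := discrete_exists m L G W X gs ws (by
      intro g hg
      rw [hgs, mem_image] at hg
      obtain ⟨i, hi, rfl⟩ := hg
      rw [mem_range] at hi
      exact Nat.mul_le_mul_right _ (by omega)) (by
      intro w hw
      rw [hws, mem_image] at hw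
      obtain ⟨i, hi, rfl⟩ := hw
      rw [mem_range] at hi
      exact Nat.mul_le_mul_right _ (by omega)) (by omega) (by omega) (16 * S * m) hR2 (G * m) (by positivity) _ rfl
  set B : ℝ := (gs.card : ℝ) * ws.card * (mu Q W * ((G * (2 * L) : ℕ) * (16 * S * m) + ((G ^ 2 * (2 * L) ^ 3 : ℕ) : ℝ))) + (G * m) * ((((2 * L) ^ 2 : ℕ) : ℝ) * mu Q W) with hB
  have hBle : B ≤ β * m ^ 2 := by
    have e0 : (gs.card : ℝ) * ws.card ≤ K := by
      rw [hK]; exact mul_le_mul hgsc hwsc (by positivity) (by positivity)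
    have e1 : ((G * (2 * L) : ℕ) : ℝ) * (16 * S * m) ≤ 8 * m * (16 * S * m) := mul_le_mul_of_nonneg_right hGL2 (by positivity)
    have e2 : ((G ^ 2 * (2 * L) ^ 3 : ℕ) : ℝ) ≤ 512 * m ^ 3 / G := by
      rw [le_div_iff₀ hGm0]
      have : ((G ^ 2 * (2 * L) ^ 3 : ℕ) : ℝ) * G = ((G * (2 * L) : ℕ) : ℝ) ^ 3 := by push_cast; ring
      rw [this]
      calc ((G * (2 * L) : ℕ) : ℝ) ^ 3 ≤ (8 * m) ^ 3 := pow_le_pow_left₀ (by positivity) hGL2 3
        _ = 512 * m ^ 3 := by ring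
    have e3 : (G:ℝ) * m * (((2 * L) ^ 2 : ℕ) : ℝ) ≤ 64 * m ^ 3 / G := by
      rw [le_div_iff₀ hGm0]
      have : (G:ℝ) * m * (((2 * L) ^ 2 : ℕ) : ℝ) * G = m * ((G * (2 * L) : ℕ) : ℝ) ^ 2 := by push_cast; ring
      rw [this]
      calc (m:ℝ) * ((G * (2 * L) : ℕ) : ℝ) ^ 2 ≤ m * (8 * m) ^ 2 := mul_le_mul_of_nonneg_left (pow_le_pow_left₀ (by positivity) hGL2 2) hm0.le
        _ = 64 * m ^ 3 := by ring
    have f1 : mu Q W * ((G * (2 * L) : ℕ) * (16 * S * m) + ((G ^ 2 * (2 * L) ^ 3 : ℕ) : ℝ)) ≤ 3 * (S / m) * (8 * m * (16 * S * m) + 512 * m ^ 3 / G) :=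
      mul_le_mul hmuW (add_le_add e1 e2) (by positivity) (by positivity)
    have f2 : (G * m) * ((((2 * L) ^ 2 : ℕ) : ℝ) * mu Q W) ≤ (64 * m ^ 3 / G) * (3 * (S / m)) := by
      rw [← mul_assoc]
      exact mul_le_mul e3 hmuW hmuW0 (by positivity)
    have f3 : (gs.card : ℝ) * ws.card * (mu Q W * ((G * (2 * L) : ℕ) * (16 * S * m) + ((G ^ 2 * (2 * L) ^ 3 : ℕ) : ℝ))) ≤ K * (3 * (S / m) * (8 * m * (16 * S * m) + 512 * m ^ 3 / G)) :=
      mul_le_mul e0 f1 (by positivity) hK0.le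
    have f4 : K * (3 * ((S:ℝ) / m) * (8 * m * (16 * S * m) + 512 * m ^ 3 / G)) = 384 * K * S ^ 2 * m + 1536 * (K * S / G) * m ^ 2 := by field_simp; ring
    have f5 : (64 * (m:ℝ) ^ 3 / G) * (3 * (S / m)) = 192 * (S / G) * m ^ 2 := by field_simp; ring
    have f6 : (S:ℝ) / G ≤ K * S / G := div_le_div_of_nonneg_right (le_mul_of_one_le_left (by linarith) hK1) hGm0.le
    have f7 : 1728 * (K * S / G) ≤ β / 2 := by
      rw [mul_div_assoc', div_le_iff₀ hGm0]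
      have e1 : (G0:ℝ) * β ≤ G * β := mul_le_mul_of_nonneg_right hGG0 hβ0.le
      linarith
    have f8' : 768 * K * (S:ℝ) ^ 2 ≤ m * β := hM1.trans (mul_le_mul_of_nonneg_right hmM1 hβ0.le)
    have f8 : 384 * K * (S:ℝ) ^ 2 * m ≤ β / 2 * m ^ 2 := by
      have := mul_le_mul_of_nonneg_right f8' hm0.le
      linarith
    have f9 : (1728 * (K * S / G)) * m ^ 2 ≤ β / 2 * m ^ 2 := mul_le_mul_of_nonneg_right f7 (by positivity)
    have f10 : 192 * ((S:ℝ) / G) * m ^ 2 ≤ 192 * (K * S / G) * m ^ 2 := mul_le_mul_of_nonneg_right (by linarith) (by positivity)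
    rw [hB]
    linarith
  obtain ⟨b, d1, d2, hd2, hDd, hMd, hd1, hA, hbinc, hnear⟩ := realize hα ω D M A hD hM
  refine ⟨b, d1, d2, hd2, hDd, hMd, hd1, hA, hbinc, ?_⟩
  set a' := ext a m L b d1 d2 with ha'
  have hX' : ∀ n < m, near Q (a' n * α0) (X n) := by
    intro n hn
    rw [ha', ext_old hn]; exact hX n hn
  have hN : ∀ j < G, ∀ v ∈ VV L, near Q (a' (m + code L (j, v)) * α0) (lf Q G (j, v) ω) := by
    intro j hj v hv
    rw [ha', ext_code hv]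
    have hv' := hv
    unfold VV at hv'
    rw [mem_product, mem_range, mem_range] at hv'
    have := hnear j hj v.1 hv'.1 v.2 hv'.2
    rw [Int.cast_natCast]
    exact this
  have hcold : ∀ ρ, cnt α0 a' m ρ = cnt α0 a m ρ := fun ρ => cnt_congr (fun k hk => by rw [ha', ext_old hk]) ρ
  have hδm : 0 ≤ δ * m / 20 := by positivity
  have hβm : β * m ^ 2 = (δ * m / 20) ^ 2 := by rw [hβ]; ring
  have hV : G * V0 G L W ω ≤ δ * m / 400 := by
    have h1 : G * m * V0 G L W ω ≤ β * m ^ 2 := hωV.trans hBle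
    have h2 : (G:ℝ) * V0 G L W ω ≤ β * m := by
      have : (G * V0 G L W ω) * m ≤ (β * m) * m := by
        have e1 : (G * V0 G L W ω) * m = G * m * V0 G L W ω := by ring
        have e2 : (β * m) * m = β * m ^ 2 := by ring
        rw [e1, e2]; exact h1
      exact le_of_mul_le_mul_right this hm0
    have h3 : β * m ≤ δ * m / 400 := by
      have e1 : β ≤ δ / 400 := by
        have e0 : δ * δ ≤ 1 * δ := mul_le_mul_of_nonneg_right hδ1 hδ.le
        rw [hβ]; linarith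
      have e2 := mul_le_mul_of_nonneg_right e1 hm0.le
      linarith
    linarith
  have hV0 : 0 ≤ V0 G L W ω := sum_nonneg (fun p _ => psi_nonneg _ _)
  intro x hx ρ hρ0 hρ
  -- grid in x
  have hGw : 0 < G0 * (2 * L) := by positivity
  obtain ⟨i', hi'1, hi'2⟩ : ∃ i' : ℕ, i' * (G0 * (2 * L)) ≤ x ∧ x < (i' + 1) * (G0 * (2 * L)) := by
    refine ⟨x / (G0 * (2 * L)), Nat.div_mul_le_self _ _, ?_⟩
    have e1 := Nat.div_add_mod x (G0 * (2 * L))
    have e2 := Nat.mod_lt x hGw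
    have e3 : (x / (G0 * (2 * L)) + 1) * (G0 * (2 * L)) = (G0 * (2 * L)) * (x / (G0 * (2 * L))) + G0 * (2 * L) := by ring
    omega
  have hi'q : i' ≤ q := by
    by_contra h
    push Not at h
    have h1 : (q + 1) * (G0 * (2 * L)) ≤ i' * (G0 * (2 * L)) := Nat.mul_le_mul_right _ h
    have h2 : G * (2 * L) = q * (G0 * (2 * L)) := by rw [hG]; ring
    have h3 : (q + 1) * (G0 * (2 * L)) = q * (G0 * (2 * L)) + G0 * (2 * L) := by ring
    omega
  have hG02L : ((G0 * (2 * L) : ℕ) : ℝ) ≤ 8 * m / q := by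
    rw [le_div_iff₀ hq0]
    have : ((G0 * (2 * L) : ℕ) : ℝ) * q = ((G * (2 * L) : ℕ) : ℝ) := by rw [hG]; push_cast; ring
    rw [this]; exact hGL2
  -- grid in ρ
  have hQρ0 : 0 ≤ Q * ρ / w0 := by positivity
  obtain ⟨i, hi1, hi2⟩ : ∃ i : ℕ, (i:ℝ) * w0 ≤ Q * ρ ∧ Q * ρ < (i + 1) * w0 := by
    refine ⟨⌊Q * ρ / w0⌋₊, ?_, ?_⟩
    · have := Nat.floor_le hQρ0
      rwa [le_div_iff₀ hw0pos] at this
    · have := Nat.lt_floor_add_one (Q * ρ / w0)
      rwa [div_lt_iff₀ hw0pos] at this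
  have hρm : ρ * m ≤ S := by rwa [le_div_iff₀ hm0] at hρ
  have hiq : i ≤ q := by
    have h1 : (i:ℝ) * w0 ≤ q * w0 := by
      calc (i:ℝ) * w0 ≤ Q * ρ := hi1
        _ ≤ Q * (S / m) := mul_le_mul_of_nonneg_left hρ hQ0.le
        _ = q * (Q * τ) := by rw [← hτq]; ring
        _ ≤ q * w0 := mul_le_mul_of_nonneg_left hw0a hq0.le
    have h2 := le_of_mul_le_mul_right h1 hw0pos
    exact_mod_cast h2
  have hxle : (x:ℝ) ≤ 8 * m := le_trans (by exact_mod_cast hx) hGL2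
  have hx0 : (0:ℝ) ≤ x := by positivity
  have hTU : ∀ g w : ℕ, g ∈ gs → w ∈ ws → |2 * Tc m X G L g w ω + 2 * Uc G L g w ω - mu Q w * (2 * ((g * (2 * L) : ℕ) : ℝ) * m + ((g * (2 * L) : ℕ) : ℝ) ^ 2 - ((g * (2 * L) : ℕ) : ℝ) * (2 * L))| ≤ δ * m / 5 := by
    intro g w hg hw
    obtain ⟨h1, h2⟩ := hω g hg w hw
    have h3 := abs_le_of_sq_le_sq (h1.trans (hBle.trans (le_of_eq hβm))) hδm
    have h4 := abs_le_of_sq_le_sq (h2.trans (hBle.trans (le_of_eq hβm))) hδm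
    clear h1 h2
    have h5 := PP_card g L
    have h6 : 2 * Tc m X G L g w ω + 2 * Uc G L g w ω - mu Q w * (2 * ((g * (2 * L) : ℕ) : ℝ) * m + ((g * (2 * L) : ℕ) : ℝ) ^ 2 - ((g * (2 * L) : ℕ) : ℝ) * (2 * L)) =
      2 * (Tc m X G L g w ω - ((g * (2 * L) : ℕ) : ℝ) * (m * mu Q w)) + 2 * (Uc G L g w ω - ((PP g L).card : ℝ) * mu Q w) := by
      linear_combination (mu Q w) * h5
    rw [h6, abs_le]
    have h3 := abs_le.1 h3
    have h4 := abs_le.1 h4
    constructor <;> linarith [h3.1, h3.2, h4.1, h4.2]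
  rw [abs_le]
  constructor
  · -- lower bound
    have hgmem : i' * G0 ∈ gs := by
      rw [hgs, mem_image]; exact ⟨i', mem_range.2 (by omega), rfl⟩
    have hwmem : (i - 1) * w0 ∈ ws := by
      rw [hws, mem_image]; exact ⟨i - 1, mem_range.2 (by omega), rfl⟩
    have hgG : i' * G0 ≤ G := Nat.mul_le_mul_right _ hi'q
    have hwcond : (i - 1) * w0 = 0 ∨ (((i - 1) * w0 : ℕ) : ℝ) < Q * ρ := by
      rcases Nat.eq_zero_or_pos i with h | h
      · left; subst h; simp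
      · right
        refine lt_of_lt_of_le ?_ hi1
        rw [Nat.cast_mul, Nat.cast_sub h]
        push_cast
        linarith
    have h1 := lower_bd hX' hN (g := i' * G0) (w := (i - 1) * w0) (ρ := ρ) hgG hwcond
    have h2 := (abs_le.1 (hTU _ _ hgmem hwmem)).1
    have hyx : i' * G0 * (2 * L) ≤ x := by rw [mul_assoc]; exact hi'1
    have h3 := cnt_mono_n α0 a' (Nat.add_le_add_left hyx m) ρ
    rw [hcold] at h1
    set y : ℝ := ((i' * G0 * (2 * L) : ℕ) : ℝ) with hy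
    set μ := mu Q ((i - 1) * w0) with hμ
    have h2w : 2 * ((i - 1) * w0) ≤ Q := by
      have : (i - 1) * w0 ≤ W := Nat.mul_le_mul_right _ (by omega)
      omega
    obtain ⟨m1, m2, m3⟩ := mu_bounds h2w
    rw [← hμ] at m1 m2 m3
    have hi1' : (((i - 1) * w0 : ℕ) : ℝ) ≤ Q * ρ := by
      refine le_trans ?_ hi1
      exact_mod_cast Nat.mul_le_mul_right _ (by omega : i - 1 ≤ i)
    have hi2' : Q * ρ - 2 * w0 ≤ (((i - 1) * w0 : ℕ) : ℝ) := by
      have : (i:ℝ) - 1 ≤ ((i - 1 : ℕ) : ℝ) := by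
        rcases Nat.eq_zero_or_pos i with h | h
        · subst h; simp
        · rw [Nat.cast_sub h]; simp
      rw [Nat.cast_mul]
      have e1 := mul_le_mul_of_nonneg_right this hw0pos.le
      linarith
    have hμ1 : μ ≤ 2 * ρ := by
      refine m3.trans ?_
      rw [div_le_iff₀ hQ0]; linarith
    have hμ2 : 2 * ρ - 9 * τ ≤ μ := by
      have n1 := (abs_le.1 m1).1
      have n2 : 2 * ρ - 8 * τ ≤ 2 * (((i - 1) * w0 : ℕ) : ℝ) / Q := by
        rw [le_div_iff₀ hQ0]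
        linarith
      have n3 : (1:ℝ) / Q ≤ τ := by
        rw [div_le_iff₀ hQ0]; linarith
      linarith
    have hxy : (x:ℝ) ≤ y + 8 * m / q := by
      have : (x:ℝ) ≤ y + ((G0 * (2 * L) : ℕ) : ℝ) := by
        rw [hy]
        have e : (i' + 1) * (G0 * (2 * L)) = i' * G0 * (2 * L) + G0 * (2 * L) := by ring
        rw [e] at hi'2
        exact_mod_cast hi'2.le
      linarith
    have hyx' : y ≤ x := by rw [hy]; exact_mod_cast hyx
    have hy0 : 0 ≤ y := by rw [hy]; positivity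
    have key := num_lower hm0 (by linarith : (0:ℝ) ≤ S) hq0 hqδ hρ0 hρm hμ2 m2 hμ1 hy0 hyx' hxy hxle
    have hLterm : μ * (y * (2 * L)) ≤ δ * m / 10 := by
      have e1 : μ ≤ 2 * (S / m) := by linarith
      have e2 : (2 * (L:ℝ)) ≤ 8 * m / G := by
        rw [le_div_iff₀ hGm0]
        have : 2 * (L:ℝ) * G = ((G * (2 * L) : ℕ) : ℝ) := by push_cast; ring
        rw [this]; exact hGL2
      have e3 : y * (2 * L) ≤ 8 * m * (8 * m / G) := mul_le_mul (hyx'.trans hxle) e2 (by positivity) (by positivity)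
      have e4 : μ * (y * (2 * L)) ≤ 2 * (S / m) * (8 * m * (8 * m / G)) := mul_le_mul e1 e3 (by positivity) (by positivity)
      have e5 : 2 * ((S:ℝ) / m) * (8 * m * (8 * m / G)) = 128 * (S / G) * m := by field_simp; ring
      have e6 : (S:ℝ) / G ≤ δ / 10000 := by
        rw [div_le_div_iff₀ hGm0 (by norm_num)]
        have e8 : (q:ℝ) * δ ≤ G * δ := mul_le_mul_of_nonneg_right hGq hδ.le
        linarith
      have e7 : ((S:ℝ) / G) * m ≤ (δ / 10000) * m := mul_le_mul_of_nonneg_right e6 hm0.le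
      linarith
    have hexp : μ * (2 * y * m + y ^ 2 - y * (2 * L)) = μ * (2 * y * m + y ^ 2) - μ * (y * (2 * L)) := by ring
    rw [hexp] at h2
    linarith
  · -- upper bound
    set gp := min (i' + 1) q with hgp
    have hgpq : gp ≤ q := min_le_right _ _
    have hgmem : gp * G0 ∈ gs := by
      rw [hgs, mem_image]; exact ⟨gp, mem_range.2 (by omega), rfl⟩
    have hwmem : (i + 2) * w0 ∈ ws := by
      rw [hws, mem_image]; exact ⟨i + 2, mem_range.2 (by omega), rfl⟩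
    have hgG : gp * G0 ≤ G := Nat.mul_le_mul_right _ hgpq
    have hwW : (i + 2) * w0 ≤ W := Nat.mul_le_mul_right _ (by omega)
    have hwcond : Q * ρ + 1 ≤ (((i + 2) * w0 : ℕ) : ℝ) := by
      push_cast
      linarith
    have h1 := upper_bd hX' hN (g := gp * G0) (w := (i + 2) * w0) (W := W) (ρ := ρ) hgG hwcond hwW
    have h2 := (abs_le.1 (hTU _ _ hgmem hwmem)).2
    have hxy0 : x ≤ gp * G0 * (2 * L) := by
      rw [mul_assoc]
      rcases le_total (i' + 1) q with h | h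
      · rw [hgp, min_eq_left h]; exact hi'2.le
      · rw [hgp, min_eq_right h]
        have : G * (2 * L) = q * (G0 * (2 * L)) := by rw [hG]; ring
        rw [← this]; exact hx
    have hyx0 : gp * G0 * (2 * L) ≤ x + G0 * (2 * L) := by
      have : gp * (G0 * (2 * L)) ≤ (i' + 1) * (G0 * (2 * L)) := Nat.mul_le_mul_right _ (min_le_left _ _)
      rw [mul_assoc]
      have e : (i' + 1) * (G0 * (2 * L)) = i' * (G0 * (2 * L)) + G0 * (2 * L) := by ring
      omega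
    have h3 := cnt_mono_n α0 a' (Nat.add_le_add_left hxy0 m) ρ
    rw [hcold] at h1
    set y : ℝ := ((gp * G0 * (2 * L) : ℕ) : ℝ) with hy
    set μ := mu Q ((i + 2) * w0) with hμ
    have h2w : 2 * ((i + 2) * w0) ≤ Q := by omega
    obtain ⟨m1, m2, m3⟩ := mu_bounds h2w
    rw [← hμ] at m1 m2 m3
    have hμ2 : μ ≤ 2 * ρ + 8 * τ := by
      refine m3.trans ?_
      rw [div_le_iff₀ hQ0]
      push_cast
      linarith
    have hyle : y ≤ 8 * m := by
      refine le_trans ?_ hGL2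
      rw [hy]
      exact_mod_cast Nat.mul_le_mul_right _ hgG
    have hyx : y ≤ x + 8 * m / q := by
      have : y ≤ x + ((G0 * (2 * L) : ℕ) : ℝ) := by rw [hy]; exact_mod_cast hyx0
      linarith
    have hxy : (x:ℝ) ≤ y := by rw [hy]; exact_mod_cast hxy0
    have key := num_upper hm0 (by linarith : (0:ℝ) ≤ S) hq0 hqδ hρ0 hρm hμ2 hx0 hxy hyx hyle
    have hgV : ((gp * G0 : ℕ) : ℝ) * V0 G L W ω ≤ G * V0 G L W ω := mul_le_mul_of_nonneg_right (by exact_mod_cast hgG) hV0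
    have hLt : 0 ≤ μ * (y * (2 * L)) := by
      have : 0 ≤ y := hx0.trans hxy
      positivity
    have hexp : μ * (2 * y * m + y ^ 2 - y * (2 * L)) = μ * (2 * y * m + y ^ 2) - μ * (y * (2 * L)) := by ring
    rw [hexp] at h2
    linarith

end Pool.Agent.H27.PPC
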