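import Mathlib
import Pool.Agent.H27.PPCB4

open Finset MeasureTheory Filter Topology

set_option maxHeartbeats 4000000

namespace Pool.Agent.H27.PPC

section count
variable {M : ℕ} [Fact M.Prime]

def lh (M : ℕ) (h : ℕ) : (ZMod M × ZMod M) →ₗ[ZMod M] ZMod M :=
  LinearMap.fst (ZMod M) (ZMod M) (ZMod M) + (h : ZMod M) • LinearMap.snd (ZMod M) (ZMod M) (ZMod M)

lemma lh_apply (h : ℕ) (ω : ZMod M × ZMod M) : lh M h ω = ω.1 + h * ω.2 := by
  unfold lh; simp

open Classical in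
lemma good_count (H w : ℕ) (hH : H < M) (hμ : H * mu M w ≤ 1) :
    (M:ℝ) ^ 2 * (H * mu M w / 2) ≤ ∑ ω : ZMod M × ZMod M, (if ∃ h < H, psi w (ω.1 + (h : ZMod M) * ω.2) ≠ 0 then (1:ℝ) else 0) := by
  have hM : (0:ℝ) < M := by exact_mod_cast (Fact.out : M.Prime).pos
  set μ := mu M w with hμd
  have hμ0 : 0 ≤ μ := mu_nonneg w
  have hcard : (Fintype.card (ZMod M × ZMod M) : ℝ) = M ^ 2 := by
    rw [Fintype.card_prod, ZMod.card]; push_cast; ring
  have h1 : ∀ h : ℕ, ∑ ω : ZMod M × ZMod M, psi w (lh M h ω) = M ^ 2 * μ := by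
    intro h
    have e := sum_uniform (lh M h) (fun x => psi w x) ⟨(1, 0), by rw [lh_apply]; simp⟩
    rw [sum_psi, hcard] at e
    have e2 : (M:ℝ) * ∑ ω : ZMod M × ZMod M, psi w (lh M h ω) = M * (M ^ 2 * μ) := by
      rw [e]; ring
    exact mul_left_cancel₀ hM.ne' e2
  have h2 : ∀ h < H, ∀ h' < H, h ≠ h' → ∑ ω : ZMod M × ZMod M, psi w (lh M h ω) * psi w (lh M h' ω) = M ^ 2 * μ ^ 2 := by
    intro h hh h' hh' hne
    have e := sum_shift (lh M h) (lh M h') (fun x => psi w x) (fun x => psi w x) (-(h' : ZMod M), 1) (by rw [lh_apply]; simp) (by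
      rw [lh_apply]
      simp only [mul_one]
      rw [neg_add_eq_sub]
      exact sub_ne_zero.2 (cast_ne hH hh hh' hne))
    rw [sum_psi, h1 h'] at e
    have e2 : (M:ℝ) * ∑ ω : ZMod M × ZMod M, psi w (lh M h ω) * psi w (lh M h' ω) = M * (M ^ 2 * μ ^ 2) := by
      rw [e]; ring
    exact mul_left_cancel₀ hM.ne' e2
  -- first moment
  have hZ1 : ∑ ω : ZMod M × ZMod M, ∑ h ∈ range H, psi w (lh M h ω) = H * (M ^ 2 * μ) := by
    rw [sum_comm, sum_congr rfl (fun h _ => h1 h), sum_const, card_range, nsmul_eq_mul]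
  have hZ2 : ∑ ω : ZMod M × ZMod M, (∑ h ∈ range H, psi w (lh M h ω)) ^ 2 ≤ H * (M ^ 2 * μ) + H ^ 2 * (M ^ 2 * μ ^ 2) := by
    have e1 : ∀ ω : ZMod M × ZMod M, (∑ h ∈ range H, psi w (lh M h ω)) ^ 2 = ∑ h ∈ range H, ∑ h' ∈ range H, psi w (lh M h ω) * psi w (lh M h' ω) := by
      intro ω; rw [sq, sum_mul_sum]
    rw [sum_congr rfl (fun ω _ => e1 ω), sum_comm]
    have e2 : ∀ h ∈ range H, ∑ ω : ZMod M × ZMod M, ∑ h' ∈ range H, psi w (lh M h ω) * psi w (lh M h' ω) ≤ M ^ 2 * μ + H * (M ^ 2 * μ ^ 2) := by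
      intro h hh
      rw [sum_comm]
      have e3 : ∀ h' ∈ range H, ∑ ω : ZMod M × ZMod M, psi w (lh M h ω) * psi w (lh M h' ω) ≤ (if h = h' then M ^ 2 * μ else 0) + M ^ 2 * μ ^ 2 := by
        intro h' hh'
        by_cases hne : h = h'
        · subst hne
          rw [if_pos rfl]
          have e4 : ∑ ω : ZMod M × ZMod M, psi w (lh M h ω) * psi w (lh M h ω) = M ^ 2 * μ := by
            rw [← h1 h]
            exact sum_congr rfl (fun ω _ => by rw [← sq, psi_sq])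
          rw [e4]
          have : 0 ≤ (M:ℝ) ^ 2 * μ ^ 2 := by positivity
          linarith
        · rw [if_neg hne, zero_add, h2 h (mem_range.1 hh) h' (mem_range.1 hh') hne]
      refine (sum_le_sum e3).trans (le_of_eq ?_)
      rw [sum_add_distrib, sum_ite_eq, if_pos hh, sum_const, card_range, nsmul_eq_mul]
    refine (sum_le_sum e2).trans (le_of_eq ?_)
    rw [sum_const, card_range, nsmul_eq_mul]; ring
  have hpt : ∀ ω : ZMod M × ZMod M, (3 * (∑ h ∈ range H, psi w (lh M h ω)) - (∑ h ∈ range H, psi w (lh M h ω)) ^ 2) / 2 ≤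
      (if ∃ h < H, psi w (ω.1 + (h : ZMod M) * ω.2) ≠ 0 then (1:ℝ) else 0) := by
    intro ω
    split_ifs with hex
    · -- z(3 - z)/2 ≤ 1 for z a natural number
      obtain ⟨n, hn⟩ : ∃ n : ℕ, ∑ h ∈ range H, psi w (lh M h ω) = n := by
        refine ⟨((range H).filter (fun h => (lh M h ω).valMinAbs.natAbs < w)).card, ?_⟩
        unfold psi
        rw [← sum_filter, sum_const, nsmul_eq_mul, mul_one]
      rw [hn]
      have : (n:ℝ) ≤ 1 ∨ (2:ℝ) ≤ n := by
        rcases Nat.lt_or_ge n 2 with h | h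
        · left; exact_mod_cast (by omega : n ≤ 1)
        · right; exact_mod_cast h
      rcases this with h | h <;> nlinarith
    · push Not at hex
      have : ∑ h ∈ range H, psi w (lh M h ω) = 0 := by
        refine sum_eq_zero (fun h hh => ?_)
        rw [lh_apply]; exact hex h (mem_range.1 hh)
      rw [this]; norm_num
  have hsum := sum_le_sum (s := (univ : Finset (ZMod M × ZMod M))) (fun ω _ => hpt ω)
  refine le_trans ?_ hsum
  rw [← sum_div, sum_sub_distrib, ← mul_sum, hZ1]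
  have hM2 : (0:ℝ) ≤ M ^ 2 := by positivity
  have hHμ : 0 ≤ H * μ := by positivity
  have hHμ2 : (H * μ) ^ 2 ≤ H * μ := by nlinarith
  have e5 : (M:ℝ) ^ 2 * (H * μ) ^ 2 ≤ M ^ 2 * (H * μ) := mul_le_mul_of_nonneg_left hHμ2 hM2
  nlinarith [hZ2, e5]

lemma sum_range_zmod (f : ZMod M → ℝ) : ∑ x ∈ range M, f (x : ZMod M) = ∑ x : ZMod M, f x := by
  haveI : NeZero M := ⟨(Fact.out : M.Prime).ne_zero⟩
  symm
  refine sum_nbij' (fun x => x.val) (fun x => (x : ZMod M)) ?_ ?_ ?_ ?_ ?_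
  · intro x _; rw [mem_range]; exact ZMod.val_lt x
  · intro x _; exact mem_univ _
  · intro x _; exact ZMod.natCast_zmod_val x
  · intro x hx; rw [mem_range] at hx; exact ZMod.val_cast_of_lt hx
  · intro x _; rw [ZMod.natCast_zmod_val]

lemma digits (F : ZMod M → ZMod M → ℝ) (k' c t : ℕ) (hk' : 0 < k') :
    ∑ v ∈ range (t * (M * (k' * M))), F ((c * (M * (k' * M)) + v : ℕ) : ZMod M) (((c * (M * (k' * M)) + v) / (k' * M) : ℕ) : ZMod M) =
      t * k' * ∑ ω : ZMod M × ZMod M, F ω.1 ω.2 := by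
  have hMp : 0 < M := (Fact.out : M.Prime).pos
  rw [sum_mul_range]
  have h1 : ∀ i ∈ range t, ∑ j ∈ range (M * (k' * M)), F ((c * (M * (k' * M)) + (i * (M * (k' * M)) + j) : ℕ) : ZMod M) (((c * (M * (k' * M)) + (i * (M * (k' * M)) + j)) / (k' * M) : ℕ) : ZMod M)
      = k' * ∑ ω : ZMod M × ZMod M, F ω.1 ω.2 := by
    intro i _
    rw [sum_mul_range]
    have h2 : ∀ y ∈ range M, ∑ x ∈ range (k' * M), F ((c * (M * (k' * M)) + (i * (M * (k' * M)) + (y * (k' * M) + x)) : ℕ) : ZMod M) (((c * (M * (k' * M)) + (i * (M * (k' * M)) + (y * (k' * M) + x))) / (k' * M) : ℕ) : ZMod M)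
       = k' * ∑ x : ZMod M, F x (y : ZMod M) := by
      intro y _
      have h3 : ∀ x ∈ range (k' * M), F ((c * (M * (k' * M)) + (i * (M * (k' * M)) + (y * (k' * M) + x)) : ℕ) : ZMod M) (((c * (M * (k' * M)) + (i * (M * (k' * M)) + (y * (k' * M) + x))) / (k' * M) : ℕ) : ZMod M) = F (x : ZMod M) (y : ZMod M) := by
        intro x hx
        rw [mem_range] at hx
        have e1 : (c * (M * (k' * M)) + (i * (M * (k' * M)) + (y * (k' * M) + x))) / (k' * M) = (c + i) * M + y := by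
          have : c * (M * (k' * M)) + (i * (M * (k' * M)) + (y * (k' * M) + x)) = (k' * M) * ((c + i) * M + y) + x := by ring
          rw [this, Nat.mul_add_div (by positivity), Nat.div_eq_of_lt hx, add_zero]
        rw [e1]
        push_cast
        simp
      rw [sum_congr rfl h3, sum_mul_range]
      have h4 : ∀ x' ∈ range k', ∑ j ∈ range M, F ((x' * M + j : ℕ) : ZMod M) (y : ZMod M) = ∑ x : ZMod M, F x (y : ZMod M) := by
        intro x' _
        rw [← sum_range_zmod (fun x => F x (y : ZMod M))]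
        refine sum_congr rfl (fun j _ => ?_)
        push_cast; simp
      rw [sum_congr rfl h4, sum_const, card_range, nsmul_eq_mul]
    rw [sum_congr rfl h2, ← mul_sum, sum_range_zmod (fun y => ∑ x : ZMod M, F x y), Fintype.sum_prod_type_right]
  rw [sum_congr rfl h1, sum_const, card_range, nsmul_eq_mul]; ring

lemma ev_close {α : ℝ} (hα : 0 ≤ α) {k d2 w h : ℕ} (hk : 0 < k) (hd2 : 0 < d2)
    (hp : psi (Q := M) w (((⌊((M * (k * d2) : ℕ) : ℝ) * α⌋₊ : ℕ) : ZMod M) + h * ((⌊((M * (k * d2) : ℕ) : ℝ) * α⌋₊ / k : ℕ) : ZMod M)) ≠ 0) :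
    nd (((k * d2 + h * d2 : ℕ) : ℝ) * α) < (w + h) / M := by
  have hM : (0:ℝ) < M := by exact_mod_cast (Fact.out : M.Prime).pos
  set u := ⌊((M * (k * d2) : ℕ) : ℝ) * α⌋₊ with hu
  have hnn : 0 ≤ ((M * (k * d2) : ℕ) : ℝ) * α := by positivity
  have hu1 : (u:ℝ) ≤ ((M * (k * d2) : ℕ) : ℝ) * α := Nat.floor_le hnn
  have hu2 : ((M * (k * d2) : ℕ) : ℝ) * α < u + 1 := Nat.lt_floor_add_one _
  have hk0 : (0:ℝ) < k := by exact_mod_cast hk
  have hq1 : k * (u / k) ≤ u := Nat.mul_div_le u k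
  have hq2 : u < k * (u / k) + k := by
    have := Nat.div_add_mod u k
    have := Nat.mod_lt u hk
    omega
  set q := u / k with hq
  have hq1' : (k:ℝ) * q ≤ u := by exact_mod_cast hq1
  have hq2' : (u:ℝ) + 1 ≤ k * q + k := by exact_mod_cast hq2
  -- bounds for M d2 α
  push_cast at hu1 hu2
  have g1 : (q:ℝ) ≤ M * (d2 * α) := by
    have : (k:ℝ) * q ≤ k * (M * (d2 * α)) := by linarith
    exact le_of_mul_le_mul_left this hk0
  have g2 : (M:ℝ) * (d2 * α) < q + 1 := by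
    have : (k:ℝ) * (M * (d2 * α)) < k * (q + 1) := by linarith
    exact lt_of_mul_lt_mul_left this hk0.le
  unfold psi at hp
  set V := (((u : ℕ) : ZMod M) + h * ((q : ℕ) : ZMod M)).valMinAbs with hV
  have hp2 : V.natAbs < w := by
    by_contra hcon; rw [if_neg hcon] at hp; exact hp rfl
  have e1 : (((u : ℤ) + h * q - V : ℤ) : ZMod M) = 0 := by
    rw [hV]; push_cast; simp
  rw [ZMod.intCast_zmod_eq_zero_iff_dvd] at e1
  obtain ⟨z, hz⟩ := e1
  have e2 : (u:ℝ) + h * q - V = M * z := by exact_mod_cast hz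
  have e3 : (V.natAbs : ℝ) = |(V : ℝ)| := by
    rw [← Int.cast_abs, Int.abs_eq_natAbs]; rfl
  have e4 : |(V : ℝ)| + 1 ≤ w := by rw [← e3]; exact_mod_cast hp2
  have e5 := abs_le.1 (le_refl |(V : ℝ)|)
  have hh0 : (0:ℝ) ≤ h := by positivity
  have g3 : (h:ℝ) * q ≤ h * (M * (d2 * α)) := mul_le_mul_of_nonneg_left g1 hh0
  have g4 : (h:ℝ) * (M * (d2 * α)) ≤ h * (q + 1) := mul_le_mul_of_nonneg_left g2.le hh0
  rw [nd_lt]
  refine ⟨z, ?_⟩
  rw [lt_div_iff₀ hM]
  have e6 : |((k * d2 + h * d2 : ℕ) : ℝ) * α - z| * M = |M * (((k * d2 + h * d2 : ℕ) : ℝ) * α) - M * z| := by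
    rw [← mul_sub, abs_mul, abs_of_pos hM]; ring
  rw [e6, abs_lt]
  push_cast
  constructor <;> linarith

end count

lemma ev_cnt {α ρ : ℝ} {a : ℕ → ℤ} {m L G : ℕ} {b : ℕ → ℕ} {d1 d2 h : ℕ} (hh : h < L)
    (hnd : nd (((d1 + h * d2 : ℕ) : ℝ) * α) < ρ) :
    ((G * (L - h) : ℕ) : ℝ) ≤ cnt α (ext a m L b d1 d2) (m + G * (2 * L)) ρ := by
  rw [cnt_split]
  set a' := ext a m L b d1 d2 with ha'
  have h1 : 0 ≤ ∑ i ∈ range G ×ˢ VV L, ∑ n ∈ range m, Ip α a' ρ (m + code L i) n := sum_nonneg (fun _ _ => sum_nonneg (fun _ _ => Ip_nonneg _ _ _ _ _))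
  have h2 : 0 ≤ ∑ p ∈ PP G L, Ip α a' ρ (m + code L (p.1.1, p.2.1)) (m + code L (p.1.2, p.2.2)) := sum_nonneg (fun _ _ => Ip_nonneg _ _ _ _ _)
  have h3 := cnt_nonneg α a' m ρ
  have h4 : ∀ j ∈ range G, ((L - h : ℕ) : ℝ) ≤ ∑ p ∈ VV L ×ˢ VV L, Ip α a' ρ (m + code L (j, p.1)) (m + code L (j, p.2)) := by
    intro j _
    have h5 : ((range (L - h)).image (fun v => (((1, v + h), (0, v)) : (ℕ × ℕ) × (ℕ × ℕ)))) ⊆ VV L ×ˢ VV L := by
      intro p hp
      rw [mem_image] at hp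
      obtain ⟨v, hv, rfl⟩ := hp
      rw [mem_range] at hv
      unfold VV
      simp only [mem_product, mem_range]
      omega
    refine le_trans ?_ (sum_le_sum_of_subset_of_nonneg h5 (fun _ _ _ => Ip_nonneg _ _ _ _ _))
    rw [sum_image (by
      intro x _ y _ hxy
      simp only [Prod.mk.injEq] at hxy
      exact hxy.2.2)]
    have h6 : ∀ v ∈ range (L - h), Ip α a' ρ (m + code L (j, (1, v + h))) (m + code L (j, (0, v))) = 1 := by
      intro v hv
      rw [mem_range] at hv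
      have m1 : ((1, v + h) : ℕ × ℕ) ∈ VV L := by unfold VV; simp only [mem_product, mem_range]; omega
      have m2 : ((0, v) : ℕ × ℕ) ∈ VV L := by unfold VV; simp only [mem_product, mem_range]; omega
      unfold Ip
      rw [if_pos]
      refine ⟨?_, ?_⟩
      · intro heq
        have := (code_inj m1 m2 (by omega : code L (j, (1, v + h)) = code L (j, (0, v)))).2
        simp at this
      · rw [ha', ext_code m1, ext_code m2]
        convert hnd using 2
        push_cast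
        ring
    rw [sum_congr rfl h6, sum_const, card_range, nsmul_eq_mul, mul_one]
  have h7 := card_nsmul_le_sum _ _ _ h4
  rw [card_range, nsmul_eq_mul] at h7
  push_cast at h7 ⊢
  linarith

end Pool.Agent.H27.PPC
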