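import Mathlib

open Finset MeasureTheory Filter Topology

set_option maxHeartbeats 4000000

namespace Pool.Agent.H27.PPC

open Classical in
/-- surviving cells -/
noncomputable def Acell (D : ℕ → ℕ) (Ev : ℕ → ℕ → Prop) : ℕ → Finset ℕ
  | 0 => range (D 0)
  | (n+1) => (range (D (n+1))).filter (fun u => u / (D (n+1) / D n) ∈ Acell D Ev n ∧ ¬ Ev n u)

open Classical in
lemma Acell_card (D : ℕ → ℕ) (hdvd : ∀ i, D i ∣ D (i+1)) (hpos : ∀ i, 0 < D i) (Ev : ℕ → ℕ → Prop) (κ : ℕ → ℝ)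
    (hκ1 : ∀ i, κ i ≤ 1)
    (hfrac : ∀ i p, (((range (D (i+1) / D i)).filter (fun v => ¬ Ev i (p * (D (i+1) / D i) + v))).card : ℝ) ≤ (1 - κ i) * ((D (i+1) / D i : ℕ) : ℝ)) (n : ℕ) :
    ((Acell D Ev n).card : ℝ) ≤ (∏ i ∈ range n, (1 - κ i)) * D n := by
  induction n with
  | zero => simp [Acell]
  | succ n ih =>
    set r := D (n+1) / D n with hr
    have hrpos : 0 < r := Nat.div_pos (Nat.le_of_dvd (hpos _) (hdvd n)) (hpos n)
    have hDr : D (n+1) = D n * r := (Nat.mul_div_cancel' (hdvd n)).symm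
    have hsub : Acell D Ev (n+1) ⊆ (Acell D Ev n).biUnion (fun p => ((range r).filter (fun v => ¬ Ev n (p * r + v))).image (fun v => p * r + v)) := by
      intro u hu
      rw [Acell, mem_filter] at hu
      obtain ⟨h1, h2, h3⟩ := hu
      rw [mem_biUnion]
      refine ⟨u / r, h2, ?_⟩
      rw [mem_image]
      have e : u / r * r + u % r = u := by rw [mul_comm]; exact Nat.div_add_mod u r
      refine ⟨u % r, ?_, e⟩
      rw [mem_filter, mem_range, e]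
      exact ⟨Nat.mod_lt _ hrpos, h3⟩
    have h1 : (Acell D Ev (n+1)).card ≤ ∑ p ∈ Acell D Ev n, ((range r).filter (fun v => ¬ Ev n (p * r + v))).card := by
      refine (card_le_card hsub).trans (card_biUnion_le.trans (sum_le_sum (fun p _ => card_image_le)))
    have h2 : ((Acell D Ev (n+1)).card : ℝ) ≤ ∑ p ∈ Acell D Ev n, (((range r).filter (fun v => ¬ Ev n (p * r + v))).card : ℝ) := by exact_mod_cast h1
    have h3 := sum_le_card_nsmul (Acell D Ev n) (fun p => (((range r).filter (fun v => ¬ Ev n (p * r + v))).card : ℝ)) _ (fun p _ => hfrac n p)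
    rw [nsmul_eq_mul] at h3
    refine (h2.trans h3).trans ?_
    rw [← hr, prod_range_succ, hDr]
    push_cast
    have h4 : 0 ≤ 1 - κ n := by linarith [hκ1 n]
    calc ((Acell D Ev n).card : ℝ) * ((1 - κ n) * r) ≤ ((∏ i ∈ range n, (1 - κ i)) * D n) * ((1 - κ n) * r) :=
          mul_le_mul_of_nonneg_right ih (by positivity)
      _ = _ := by ring

lemma Acell_mem (D : ℕ → ℕ) (hdvd : ∀ i, D i ∣ D (i+1)) (hpos : ∀ i, 0 < D i) (Ev : ℕ → ℕ → Prop) {α : ℝ} (hα0 : 0 ≤ α) (hα1 : α < 1)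
    (hav : ∀ i, ¬ Ev i ⌊(D (i+1) : ℝ) * α⌋₊) (n : ℕ) : ⌊(D n : ℝ) * α⌋₊ ∈ Acell D Ev n := by
  classical
  have hlt : ∀ n, ⌊(D n : ℝ) * α⌋₊ < D n := by
    intro n
    have h0 : (0:ℝ) < D n := by exact_mod_cast hpos n
    rw [Nat.floor_lt (by positivity)]
    nlinarith
  induction n with
  | zero => rw [Acell, mem_range]; exact hlt 0
  | succ n ih =>
    rw [Acell, mem_filter, mem_range]
    refine ⟨hlt _, ?_, hav n⟩
    have hrpos : 0 < D (n+1) / D n := Nat.div_pos (Nat.le_of_dvd (hpos _) (hdvd n)) (hpos n)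
    have hDr : D (n+1) = D n * (D (n+1) / D n) := (Nat.mul_div_cancel' (hdvd n)).symm
    rw [← Nat.floor_div_natCast]
    have e : (D (n+1) : ℝ) * α / ((D (n+1) / D n : ℕ) : ℝ) = D n * α := by
      have h0 : ((D (n+1) / D n : ℕ) : ℝ) ≠ 0 := by exact_mod_cast hrpos.ne'
      rw [div_eq_iff h0]
      have : (D (n+1) : ℝ) = D n * ((D (n+1) / D n : ℕ) : ℝ) := by exact_mod_cast hDr
      rw [this]; ring
    rw [e]; exact ih

open Classical in
lemma tree0 (D : ℕ → ℕ) (hdvd : ∀ i, D i ∣ D (i+1)) (hpos : ∀ i, 0 < D i) (Ev : ℕ → ℕ → Prop) (κ : ℕ → ℝ)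
    (hκ1 : ∀ i, κ i ≤ 1)
    (hfrac : ∀ i p, (((range (D (i+1) / D i)).filter (fun v => ¬ Ev i (p * (D (i+1) / D i) + v))).card : ℝ) ≤ (1 - κ i) * ((D (i+1) / D i : ℕ) : ℝ))
    (hlim : Tendsto (fun n => ∑ i ∈ range n, κ i) atTop atTop) :
    volume {α : ℝ | 0 ≤ α ∧ α < 1 ∧ ∀ i, ¬ Ev i ⌊(D (i+1) : ℝ) * α⌋₊} = 0 := by
  have hcell : ∀ n, volume {α : ℝ | 0 ≤ α ∧ α < 1 ∧ ∀ i, ¬ Ev i ⌊(D (i+1) : ℝ) * α⌋₊} ≤ ENNReal.ofReal (Real.exp (-(∑ i ∈ range n, κ i))) := by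
    intro n
    have hD0 : (0:ℝ) < D n := by exact_mod_cast hpos n
    have hsub : {α : ℝ | 0 ≤ α ∧ α < 1 ∧ ∀ i, ¬ Ev i ⌊(D (i+1) : ℝ) * α⌋₊} ⊆ ⋃ u ∈ Acell D Ev n, Set.Icc ((u:ℝ) / D n) ((u + 1) / D n) := by
      rintro α ⟨h0, h1, h2⟩
      have hm := Acell_mem D hdvd hpos Ev h0 h1 h2 n
      simp only [Set.mem_iUnion]
      refine ⟨⌊(D n : ℝ) * α⌋₊, hm, ?_, ?_⟩
      · rw [div_le_iff₀ hD0, mul_comm α]; exact Nat.floor_le (by positivity)
      · rw [le_div_iff₀ hD0, mul_comm α]; exact (Nat.lt_floor_add_one _).le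
    calc volume {α : ℝ | 0 ≤ α ∧ α < 1 ∧ ∀ i, ¬ Ev i ⌊(D (i+1) : ℝ) * α⌋₊} ≤ volume (⋃ u ∈ Acell D Ev n, Set.Icc ((u:ℝ) / D n) ((u + 1) / D n)) := measure_mono hsub
      _ ≤ ∑ u ∈ Acell D Ev n, volume (Set.Icc ((u:ℝ) / D n) ((u + 1) / D n)) := measure_biUnion_finset_le _ _
      _ = ∑ u ∈ Acell D Ev n, ENNReal.ofReal (1 / D n) := by
          refine sum_congr rfl (fun u _ => ?_)
          rw [Real.volume_Icc]; congr 1; ring
      _ = ENNReal.ofReal ((Acell D Ev n).card / D n) := by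
          rw [sum_const, nsmul_eq_mul, ← ENNReal.ofReal_natCast, ← ENNReal.ofReal_mul (by positivity)]
          congr 1; ring
      _ ≤ ENNReal.ofReal (Real.exp (-(∑ i ∈ range n, κ i))) := by
          apply ENNReal.ofReal_le_ofReal
          rw [div_le_iff₀ hD0]
          refine (Acell_card D hdvd hpos Ev κ hκ1 hfrac n).trans (mul_le_mul_of_nonneg_right ?_ hD0.le)
          rw [← sum_neg_distrib, Real.exp_sum]
          refine prod_le_prod (fun i _ => by linarith [hκ1 i]) (fun i _ => ?_)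
          have := Real.add_one_le_exp (-κ i)
          linarith
  have hl : Tendsto (fun n => ENNReal.ofReal (Real.exp (-(∑ i ∈ range n, κ i)))) atTop (𝓝 0) := by
    rw [← ENNReal.ofReal_zero]
    exact ENNReal.tendsto_ofReal (Real.tendsto_exp_neg_atTop_nhds_zero.comp hlim)
  have := ge_of_tendsto' hl hcell
  exact le_antisymm this (by simp)

open Classical in
lemma tree (D : ℕ → ℕ) (hdvd : ∀ i, D i ∣ D (i+1)) (hpos : ∀ i, 0 < D i) (Ev : ℕ → ℕ → Prop) (c : ℝ) (hc0 : 0 < c) (hc1 : c ≤ 1) (K0 : ℕ) (hK0 : 1 ≤ K0)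
    (hfrac : ∀ i p, (((range (D (i+1) / D i)).filter (fun v => ¬ Ev i (p * (D (i+1) / D i) + v))).card : ℝ) ≤ (1 - c / (K0 + i)) * ((D (i+1) / D i : ℕ) : ℝ)) :
    ∀ᵐ α : ℝ, 0 ≤ α → α < 1 → ∀ K, ∃ i, K ≤ i ∧ Ev i ⌊(D (i+1) : ℝ) * α⌋₊ := by
  have hK0' : (1:ℝ) ≤ K0 := by exact_mod_cast hK0
  have h1 : ∀ K : ℕ, ∀ᵐ α : ℝ, 0 ≤ α → α < 1 → ∃ i, K ≤ i ∧ Ev i ⌊(D (i+1) : ℝ) * α⌋₊ := by
    intro K
    have hlim : Tendsto (fun n => ∑ i ∈ range n, c / ((K0:ℝ) + ((K + i : ℕ) : ℝ))) atTop atTop := by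
      have hb : Tendsto (fun n => (c / ((K0:ℝ) + K + 1)) * ∑ i ∈ range n, 1 / ((i:ℝ) + 1)) atTop atTop :=
        Tendsto.const_mul_atTop (by positivity) Real.tendsto_sum_range_one_div_nat_succ_atTop
      refine tendsto_atTop_mono (fun n => ?_) hb
      rw [mul_sum]
      refine sum_le_sum (fun i _ => ?_)
      rw [mul_one_div, div_div]
      apply div_le_div_of_nonneg_left hc0.le (by positivity)
      push_cast
      have hi : (0:ℝ) ≤ i := by positivity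
      have hKn : (0:ℝ) ≤ K := by positivity
      nlinarith
    have := tree0 (fun i => D (K + i)) (fun i => hdvd (K + i)) (fun i => hpos _) (fun i => Ev (K + i)) (fun i => c / ((K0:ℝ) + ((K + i : ℕ) : ℝ)))
      (by
        intro i
        rw [div_le_one (by positivity)]
        have : (0:ℝ) ≤ ((K + i : ℕ) : ℝ) := by positivity
        linarith) (fun i p => hfrac (K + i) p) hlim
    rw [ae_iff]
    refine measure_mono_null ?_ this
    intro α hα
    simp only [Set.mem_setOf_eq, Classical.not_imp] at hα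
    obtain ⟨h0, h1, h2⟩ := hα
    refine ⟨h0, h1, ?_⟩
    intro i hi
    exact h2 ⟨K + i, Nat.le_add_right _ _, hi⟩
  have h2 := ae_all_iff.2 h1
  filter_upwards [h2] with α hα h0 h3 K
  exact hα K h0 h3

end Pool.Agent.H27.PPC
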