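import Mathlib
import Pool.Agent.H27.PPCC

open Finset MeasureTheory Filter Topology

set_option maxHeartbeats 4000000

namespace Pool.Agent.H27.PPC

lemma ext_mono {a : ℕ → ℤ} {m L G : ℕ} {b : ℕ → ℕ} {d1 d2 : ℕ} (hm : 1 ≤ m) (hL : 1 ≤ L) (hd2 : 0 < d2) (hd1 : L * d2 ≤ d1)
    (hb0 : (a (m-1)).toNat < b 0) (hb : ∀ j, j + 1 < G → b j + d1 + L * d2 < b (j+1)) :
    ∀ n, m ≤ n + 1 → n + 1 < m + G * (2 * L) → ext a m L b d1 d2 n < ext a m L b d1 d2 (n+1) := by
  intro n hn hn2
  have h00 : ((0, 0) : ℕ × ℕ) ∈ VV L := by unfold VV; simp only [mem_product, mem_range]; omega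
  rcases Nat.lt_or_ge n m with h | h
  · have hnm : n + 1 = m := by omega
    have e1 : ext a m L b d1 d2 n = a (m-1) := by rw [ext_old h]; congr 1; omega
    have e2 := ext_code (a := a) (m := m) (L := L) (b := b) (d1 := d1) (d2 := d2) (j := 0) h00
    have e3 : m + code L (0, (0, 0)) = n + 1 := by unfold code; simp; omega
    rw [e3] at e2
    rw [e1, e2]
    simp only [Nat.zero_mul, add_zero]
    have := Int.self_le_toNat (a (m-1))
    omega
  · obtain ⟨x, rfl⟩ := Nat.exists_eq_add_of_le h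
    set j := x / (2 * L) with hj
    set r := x % (2 * L) with hr
    have hx : (2 * L) * j + r = x := Nat.div_add_mod x (2 * L)
    have hr2 : r < 2 * L := Nat.mod_lt _ (by omega)
    set v1 := r / L with hv1
    set v2 := r % L with hv2
    have hrr : L * v1 + v2 = r := Nat.div_add_mod r L
    have hv2L : v2 < L := Nat.mod_lt _ (by omega)
    have hv12 : v1 < 2 := by rw [hv1, Nat.div_lt_iff_lt_mul (by omega)]; exact hr2
    have hm1 : ((v1, v2) : ℕ × ℕ) ∈ VV L := by unfold VV; simp only [mem_product, mem_range]; omega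
    have e0 := ext_code (a := a) (m := m) (L := L) (b := b) (d1 := d1) (d2 := d2) (j := j) hm1
    have c0 : code L (j, (v1, v2)) = x := by unfold code; simp only; rw [← hx, ← hrr]; ring
    rw [c0] at e0
    rw [e0]
    by_cases h1 : v2 + 1 < L
    · have hm2 : ((v1, v2 + 1) : ℕ × ℕ) ∈ VV L := by unfold VV; simp only [mem_product, mem_range]; omega
      have e1 := ext_code (a := a) (m := m) (L := L) (b := b) (d1 := d1) (d2 := d2) (j := j) hm2
      have c1 : m + code L (j, (v1, v2 + 1)) = m + x + 1 := by rw [← c0]; unfold code; simp only; ring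
      rw [c1] at e1
      rw [e1]
      have : v2 * d2 < (v2 + 1) * d2 := Nat.mul_lt_mul_of_pos_right (by omega) hd2
      simp only
      omega
    · have hv2e : v2 + 1 = L := by omega
      have hvd : v2 * d2 < L * d2 := Nat.mul_lt_mul_of_pos_right (by omega) hd2
      by_cases h2 : v1 = 0
      · have hm2 : ((1, 0) : ℕ × ℕ) ∈ VV L := by unfold VV; simp only [mem_product, mem_range]; omega
        have e1 := ext_code (a := a) (m := m) (L := L) (b := b) (d1 := d1) (d2 := d2) (j := j) hm2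
        have c1 : m + code L (j, (1, 0)) = m + x + 1 := by
          rw [← c0]; unfold code; simp only; rw [h2]; omega
        rw [c1] at e1
        rw [e1]
        simp only
        rw [h2]
        simp only [Nat.zero_mul, one_mul, add_zero]
        omega
      · have h3 : v1 = 1 := le_antisymm (Nat.lt_succ_iff.1 hv12) (Nat.one_le_iff_ne_zero.2 h2)
        have e1 := ext_code (a := a) (m := m) (L := L) (b := b) (d1 := d1) (d2 := d2) (j := j + 1) h00
        have c1 : m + code L (j + 1, (0, 0)) = m + x + 1 := by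
          rw [← c0]; unfold code; simp only; rw [h3]
          have : (j + 1) * (2 * L) = j * (2 * L) + 2 * L := by ring
          omega
        rw [c1] at e1
        rw [e1]
        simp only
        rw [h3]
        simp only [Nat.zero_mul, one_mul, add_zero]
        have hjG : j + 1 < G := by
          by_contra hcon
          push Not at hcon
          have : G * (2 * L) ≤ (j + 1) * (2 * L) := Nat.mul_le_mul_right _ hcon
          have e : (j + 1) * (2 * L) = (2 * L) * j + 2 * L := by ring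
          have hx2 : r + 1 = 2 * L := by rw [← hrr, h3]; omega
          omega
        have := hb j hjG
        omega

open Classical in
lemma step {α0 : ℝ} (hα : Irrational α0) (S : ℕ) (hS : 1 ≤ S) (δ : ℝ) (hδ : 0 < δ) (hδ1 : δ ≤ 1) :
    ∃ G M0 : ℕ, 1 ≤ G ∧ ∀ m : ℕ, M0 ≤ m → 1 ≤ m ∧ (∀ a : ℕ → ℤ, (cnt α0 a m (4 * (S:ℝ) / (m:ℝ)) ≤ (8 * (S:ℝ) + 7) * (m:ℝ)) →
      ∀ D : ℕ, 1 ≤ D → ∃ (m' : ℕ) (a' : ℕ → ℤ) (D' : ℕ) (Ev : ℕ → Prop), 8 * m ≤ m' ∧ (∀ n < m, a' n = a n) ∧ D ∣ D' ∧ 0 < D' ∧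
        (∀ n, m ≤ n + 1 → n + 1 < m' → a' n < a' (n + 1)) ∧
        (∀ n, m ≤ n → n ≤ m' → ∀ ρ : ℝ, 0 ≤ ρ → ρ ≤ S / m → |cnt α0 a' n ρ - cnt α0 a m ρ - 2 * ρ * ((n:ℝ) ^ 2 - (m:ℝ) ^ 2)| ≤ δ * (m:ℝ)) ∧
        (∀ p, (((range (D' / D)).filter (fun v => ¬ Ev (p * (D' / D) + v))).card : ℝ) ≤ (1 - 1 / 384 / G) * ((D' / D : ℕ) : ℝ)) ∧
        (∀ α : ℝ, 0 ≤ α → Ev ⌊(D' : ℝ) * α⌋₊ → 7 / 32 * (m' : ℝ) ≤ cnt α a' m' (1 / 16 / m'))) := by
  obtain ⟨G, M0, hG, hblock⟩ := block hα S hS δ hδ hδ1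
  refine ⟨G, M0, hG, ?_⟩
  intro m hm
  obtain ⟨hm1, hGm, hb⟩ := hblock m hm
  refine ⟨hm1, ?_⟩
  intro a hctl D hD
  set L := 4 * m / G with hL
  have hLpos : 1 ≤ L := by
    rw [hL, Nat.le_div_iff_mul_le (by omega)]; omega
  have hGL1 : G * L ≤ 4 * m := by rw [hL]; exact Nat.mul_div_le _ _
  have hGL2 : 4 * m < G * L + G := by
    have h1 := Nat.div_add_mod (4 * m) G
    have h2 := Nat.mod_lt (4 * m) (by omega : 0 < G)
    rw [← hL] at h1
    omega
  set m' := m + G * (2 * L) with hm'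
  have e2GL : G * (2 * L) = 2 * (G * L) := by ring
  have hm'8 : 8 * m ≤ m' := by omega
  have hm'9 : m' ≤ 9 * m := by omega
  obtain ⟨M, hMge, hMp⟩ := Nat.exists_infinite_primes (192 * m' * (L + 1))
  haveI : Fact M.Prime := ⟨hMp⟩
  have hm'pos : 0 < m' := by omega
  have hMp0 : 0 < M := hMp.pos
  obtain ⟨b, d1, d2, hd2, hDd, hMd, hd1, hA, hbinc, hcnt⟩ := hb a hctl D M (a (m-1)).toNat hD hMp0
  obtain ⟨t, ht⟩ := hDd
  obtain ⟨k', hk'⟩ := hMd
  have hk'pos : 0 < k' := by
    rcases Nat.eq_zero_or_pos k' with h | h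
    · subst h; simp at hk'; omega
    · exact h
  have htpos : 0 < t := by
    rcases Nat.eq_zero_or_pos t with h | h
    · subst h; simp at ht; omega
    · exact h
  have hd1' : d1 = (k' * M) * d2 := by rw [hk']; ring
  set w := M / (32 * m') with hw
  set H := (L + 1) / 2 with hH
  set Ev : ℕ → Prop := fun u => ∃ h < H, psi (Q := M) w ((u : ZMod M) + (h : ZMod M) * ((u / (k' * M) : ℕ) : ZMod M)) ≠ 0 with hEv
  set D' := M * ((k' * M) * d2) with hD'
  have hD'D : D' = D * (t * (M * (k' * M))) := by rw [hD', ht]; ring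
  have hD'div : D' / D = t * (M * (k' * M)) := by rw [hD'D]; exact Nat.mul_div_cancel_left _ hD
  -- real facts
  have hM0 : (0:ℝ) < M := by exact_mod_cast hMp0
  have hm'0 : (0:ℝ) < m' := by exact_mod_cast hm'pos
  have hG0 : (0:ℝ) < G := by exact_mod_cast hG
  have hMge' : 192 * (m':ℝ) * (L + 1) ≤ M := by exact_mod_cast hMge
  have hL0 : (1:ℝ) ≤ L := by exact_mod_cast hLpos
  have hw1 : (w:ℝ) ≤ M / (32 * m') := by
    rw [le_div_iff₀ (by positivity)]
    have := Nat.div_mul_le_self M (32 * m')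
    rw [← hw] at this
    exact_mod_cast this
  have hw2 : (M:ℝ) / (32 * m') - 1 ≤ w := by
    rw [sub_le_iff_le_add, div_le_iff₀ (by positivity)]
    have h1 := Nat.div_add_mod M (32 * m')
    have h2 := Nat.mod_lt M (by positivity : 0 < 32 * m')
    rw [← hw] at h1
    have h3 : M ≤ (w + 1) * (32 * m') := by
      have : (w + 1) * (32 * m') = 32 * m' * w + 32 * m' := by ring
      omega
    exact_mod_cast h3
  refine ⟨m', ext a m L b d1 d2, D', Ev, hm'8, fun n hn => ext_old hn, ⟨_, hD'D⟩, by positivity, ?_, ?_, ?_, ?_⟩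
  · refine ext_mono hm1 hLpos hd2 ?_ hA hbinc
    rw [hd1']
    apply Nat.mul_le_mul_right
    have h1 : L ≤ M := by
      have : L + 1 ≤ 192 * m' * (L + 1) := Nat.le_mul_of_pos_left _ (by positivity)
      omega
    exact h1.trans (Nat.le_mul_of_pos_left _ hk'pos)
  · intro n hn1 hn2 ρ hρ0 hρ
    obtain ⟨x, rfl⟩ := Nat.exists_eq_add_of_le hn1
    have := hcnt x (by omega) ρ hρ0 hρ
    convert this using 2
    push_cast; ring
  · intro p
    rw [hD'div]
    set r := t * (M * (k' * M)) with hr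
    have hsplit : (((range r).filter (fun v => ¬ Ev (p * r + v))).card : ℝ) = r - ∑ v ∈ range r, (if Ev (p * r + v) then (1:ℝ) else 0) := by
      have h1 := card_filter_add_card_filter_not (s := range r) (fun v => Ev (p * r + v))
      rw [card_range] at h1
      rw [← sum_filter, sum_const, nsmul_eq_mul, mul_one]
      have h2 : (((range r).filter (fun v => Ev (p * r + v))).card : ℝ) + (((range r).filter (fun v => ¬ Ev (p * r + v))).card : ℝ) = r := by exact_mod_cast h1
      linarith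
    have hdig := digits (M := M) (fun x y => if ∃ h < H, psi (Q := M) w (x + (h : ZMod M) * y) ≠ 0 then (1:ℝ) else 0) k' (p * t) t hk'pos
    have hsum : ∑ v ∈ range r, (if Ev (p * r + v) then (1:ℝ) else 0) = t * k' * ∑ ω : ZMod M × ZMod M, (if ∃ h < H, psi w (ω.1 + (h : ZMod M) * ω.2) ≠ 0 then (1:ℝ) else 0) := by
      rw [← hdig, ← hr]
      refine sum_congr rfl (fun v _ => ?_)
      have e : p * r = p * t * (M * (k' * M)) := by rw [hr]; ring
      rw [e]
    have hμb : 2 * w ≤ M := by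
      have h1 : w * (32 * m') ≤ M := Nat.div_mul_le_self M (32 * m')
      have h2 : w * 2 ≤ w * (32 * m') := Nat.mul_le_mul_left _ (by omega)
      omega
    obtain ⟨u1, u2, u3⟩ := mu_bounds (Q := M) hμb
    set μ := mu M w with hμ
    have u1' := (abs_le.1 u1).1
    have hHL : H ≤ L := by omega
    have hLm' : L ≤ m' := by
      have : L ≤ G * (2 * L) := by
        calc L = 1 * (1 * L) := by ring
          _ ≤ G * (2 * L) := Nat.mul_le_mul hG (Nat.mul_le_mul_right _ (by norm_num))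
      omega
    have hLmR : (L:ℝ) ≤ m' := by exact_mod_cast hLm'
    have hHR : (H:ℝ) ≤ L := by exact_mod_cast hHL
    have hH2 : (L:ℝ) ≤ 2 * H := by exact_mod_cast (by omega : L ≤ 2 * H)
    have hμup : μ ≤ 1 / (16 * m') := by
      refine u3.trans ?_
      rw [div_le_div_iff₀ hM0 (by positivity)]
      rw [le_div_iff₀ (by positivity)] at hw1
      linarith
    have hμlo : 1 / (32 * m') ≤ μ := by
      have h1 : 2 * ((M:ℝ) / (32 * m') - 1) / M ≤ 2 * w / M := div_le_div_of_nonneg_right (by linarith) hM0.le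
      have h2 : 2 * ((M:ℝ) / (32 * m') - 1) / M = 1 / (16 * m') - 2 / M := by field_simp; ring
      have h3 : (3:ℝ) / M ≤ 1 / (32 * m') := by
        rw [div_le_div_iff₀ hM0 (by positivity)]
        nlinarith
      have h4 : (1:ℝ) / (16 * m') = 1 / (32 * m') + 1 / (32 * m') := by field_simp; norm_num
      have h5 : (3:ℝ) / M = 2 / M + 1 / M := by ring
      linarith
    have hHμ : (H:ℝ) * μ ≤ 1 := by
      calc (H:ℝ) * μ ≤ m' * (1 / (16 * m')) := mul_le_mul (hHR.trans hLmR) hμup u2 hm'0.le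
        _ = 1 / 16 := by field_simp
        _ ≤ 1 := by norm_num
    have hHM : H < M := by
      have : L + 1 ≤ 192 * m' * (L + 1) := Nat.le_mul_of_pos_left _ (by positivity)
      omega
    have hgc := good_count (M := M) H w hHM hHμ
    rw [← hμ] at hgc
    have hfr : 1 / 384 / (G:ℝ) ≤ H * μ / 2 := by
      have h1 : (L:ℝ) / 2 * (1 / (32 * m')) ≤ H * μ := mul_le_mul (by linarith) hμlo (by positivity) (by positivity)
      have h2 : 1 / 384 / (G:ℝ) ≤ (L:ℝ) / 2 * (1 / (32 * m')) / 2 := by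
        have h3 : (m':ℝ) ≤ 3 * (G * L) := by
          exact_mod_cast (by omega : m' ≤ 3 * (G * L))
        have h4 : (L:ℝ) / 2 * (1 / (32 * m')) / 2 = L / (128 * m') := by field_simp; norm_num
        rw [h4, div_div, div_le_div_iff₀ (by positivity) (by positivity)]
        linarith
      linarith
    suffices hs : (r:ℝ) - ∑ v ∈ range r, (if Ev (p * r + v) then (1:ℝ) else 0) ≤ (1 - 1 / 384 / (G:ℝ)) * (r:ℝ) by
      rw [← hsplit] at hs
      convert hs
    rw [hsum]
    have hrr : (r:ℝ) = t * k' * M ^ 2 := by rw [hr]; push_cast; ring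
    have htk : (0:ℝ) ≤ t * k' := by positivity
    have hfin := mul_le_mul_of_nonneg_left hgc htk
    have hfin2 : (t * k' * (M:ℝ) ^ 2) * (1 / 384 / (G:ℝ)) ≤ (t * k' * (M:ℝ) ^ 2) * (H * μ / 2) := mul_le_mul_of_nonneg_left hfr (by positivity)
    rw [hrr]
    linarith
  · intro α hα0 hE
    obtain ⟨h, hh, hp⟩ := hE
    have h1 := ev_close (M := M) hα0 (k := k' * M) (d2 := d2) (w := w) (h := h) (by positivity) hd2 hp
    have hhL : h < L := by omega
    have h2 : ((w:ℝ) + h) / M ≤ 1 / 16 / m' := by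
      have h3 : (h:ℝ) ≤ L := by exact_mod_cast hhL.le
      have h4 : ((w:ℝ) + h) / M ≤ (M / (32 * m') + L) / M := div_le_div_of_nonneg_right (by linarith) hM0.le
      have h5 : ((M:ℝ) / (32 * m') + L) / M = 1 / (32 * m') + L / M := by field_simp
      have h6 : (L:ℝ) / M ≤ 1 / (32 * m') := by
        rw [div_le_div_iff₀ hM0 (by positivity)]
        nlinarith
      have h7 : (1:ℝ) / 16 / m' = 1 / (32 * m') + 1 / (32 * m') := by field_simp; norm_num
      linarith
    rw [← hd1'] at h1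
    have h3 := ev_cnt (a := a) (m := m) (G := G) (b := b) hhL (lt_of_lt_of_le h1 h2)
    refine le_trans ?_ h3
    have h4 : L ≤ 2 * (L - h) := by omega
    have h5 : G * L ≤ G * (2 * (L - h)) := Nat.mul_le_mul_left _ h4
    have h6 : G * (2 * (L - h)) = 2 * (G * (L - h)) := by ring
    have h7 : 7 * m' ≤ 32 * (G * (L - h)) := by omega
    have h8 : (7:ℝ) * m' ≤ 32 * ((G * (L - h) : ℕ) : ℝ) := by exact_mod_cast h7
    linarith

end Pool.Agent.H27.PPC
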