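import Mathlib
import Pool.Agent.H27.PPCE
import Pool.Agent.H27.PPCD

open Finset MeasureTheory Filter Topology

set_option maxHeartbeats 4000000

namespace Pool.Agent.H27.PPC

lemma dep_seq {σ : Type} (Inv : ℕ → σ → Prop) (Rel : ℕ → σ → σ → Prop) (s0 : σ) (h0 : Inv 0 s0)
    (hstep : ∀ n s, Inv n s → ∃ s', Inv (n+1) s' ∧ Rel n s s') : ∃ f : ℕ → σ, f 0 = s0 ∧ ∀ n, Inv n (f n) ∧ Rel n (f n) (f (n+1)) := by
  classical
  choose! g hg using hstep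
  let f : ℕ → σ := fun n => Nat.rec s0 (fun n s => g n s) n
  have hf : ∀ n, f (n+1) = g n (f n) := fun n => rfl
  have hI : ∀ n, Inv n (f n) := by
    intro n
    induction n with
    | zero => exact h0
    | succ n ih => rw [hf]; exact (hg n (f n) ih).1
  exact ⟨f, rfl, fun n => ⟨hI n, by rw [hf]; exact (hg n (f n) (hI n)).2⟩⟩

/-- stage function -/
def rs (cond : ℕ → ℕ) (K0 : ℕ) : ℕ → ℕ
  | 0 => 0
  | (i+1) => if cond (rs cond K0 i + 1) ≤ K0 + i + 1 then rs cond K0 i + 1 else rs cond K0 i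

lemma rs_cond (cond : ℕ → ℕ) (K0 : ℕ) (h : cond 0 ≤ K0) (i : ℕ) : cond (rs cond K0 i) ≤ K0 + i := by
  induction i with
  | zero => simpa [rs] using h
  | succ i ih =>
    rw [rs]
    split_ifs with h1
    · omega
    · omega

lemma rs_step (cond : ℕ → ℕ) (K0 : ℕ) (i : ℕ) : rs cond K0 i ≤ rs cond K0 (i+1) ∧ rs cond K0 (i+1) ≤ rs cond K0 i + 1 := by
  rw [rs]; split_ifs <;> omega

lemma rs_mono (cond : ℕ → ℕ) (K0 : ℕ) : Monotone (rs cond K0) := monotone_nat_of_le_succ (fun i => (rs_step cond K0 i).1)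

lemma rs_unb (cond : ℕ → ℕ) (K0 : ℕ) (R : ℕ) : ∃ i, R ≤ rs cond K0 i := by
  induction R with
  | zero => exact ⟨0, Nat.zero_le _⟩
  | succ R ih =>
    obtain ⟨i, hi⟩ := ih
    by_contra hcon
    push Not at hcon
    have hle := rs_mono cond K0 (le_max_left i (cond (R+1)))
    have h1 := hcon (max i (cond (R+1)))
    have h2 : rs cond K0 (max i (cond (R+1))) = R := by omega
    have h3 := hcon (max i (cond (R+1)) + 1)
    rw [rs, h2, if_pos] at h3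
    · omega
    · have := le_max_right i (cond (R+1))
      omega

/-- error sequence -/
noncomputable def es (r : ℕ → ℕ) : ℕ → ℝ
  | 0 => 9
  | (i+1) => (es r i + 1 / ((r i : ℝ) + 1)) / 8

lemma es_nonneg (r : ℕ → ℕ) (i : ℕ) : 0 ≤ es r i := by
  induction i with
  | zero => simp [es]
  | succ i ih => rw [es]; positivity

lemma es_le (r : ℕ → ℕ) (i : ℕ) : es r i ≤ 9 := by
  induction i with
  | zero => simp [es]
  | succ i ih =>
    rw [es]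
    have : 1 / ((r i : ℝ) + 1) ≤ 1 := by
      rw [div_le_one (by positivity)]
      have : (0:ℝ) ≤ r i := by positivity
      linarith
    linarith

lemma es_succ_le (r : ℕ → ℕ) (i : ℕ) : es r (i+1) ≤ 7 := by
  rw [es]
  have h1 := es_le r i
  have : 1 / ((r i : ℝ) + 1) ≤ 1 := by
    rw [div_le_one (by positivity)]
    have : (0:ℝ) ≤ r i := by positivity
    linarith
  linarith

lemma es_lim (r : ℕ → ℕ) (hm : Monotone r) (hu : ∀ R, ∃ i, R ≤ r i) (ε : ℝ) (hε : 0 < ε) : ∃ i1, ∀ i ≥ i1, es r i + 1 / ((r i : ℝ) + 1) < ε := by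
  obtain ⟨n, hn⟩ := exists_nat_one_div_lt (show 0 < ε / 4 by positivity)
  obtain ⟨i0, hi0⟩ := hu n
  have hd : ∀ i ≥ i0, 1 / ((r i : ℝ) + 1) < ε / 4 := by
    intro i hi
    refine lt_of_le_of_lt ?_ hn
    apply one_div_le_one_div_of_le (by positivity)
    have : (n:ℝ) ≤ r i := by exact_mod_cast hi0.trans (hm hi)
    linarith
  have hb : ∀ j, es r (i0 + j) ≤ 9 * (1/8) ^ j + ε / 4 := by
    intro j
    induction j with
    | zero => have := es_le r i0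
              simp only [add_zero, pow_zero]; linarith
    | succ j ih =>
      have h1 := hd (i0 + j) (by omega)
      have : i0 + (j + 1) = (i0 + j) + 1 := by ring
      rw [this, es, pow_succ]
      linarith
  obtain ⟨j0, hj0⟩ := exists_pow_lt_of_lt_one (show 0 < ε / 36 by positivity) (show (1/8 : ℝ) < 1 by norm_num)
  refine ⟨i0 + j0, ?_⟩
  intro i hi
  obtain ⟨j, rfl⟩ := Nat.exists_eq_add_of_le (show i0 ≤ i by omega)
  have h1 := hb j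
  have h2 := hd (i0 + j) (by omega)
  have h3 : (1/8 : ℝ) ^ j ≤ (1/8) ^ j0 := pow_le_pow_of_le_one (by norm_num) (by norm_num) (by omega)
  linarith

lemma init_seq {α0 : ℝ} (hα : Irrational α0) (n0 : ℕ) : ∃ (Q : ℕ) (a : ℕ → ℤ), n0 ≤ Q ∧ 1 ≤ Q ∧ (∀ n, n + 1 < Q → a n < a (n+1)) ∧
    ∀ ρ : ℝ, ρ ≤ 4 / (Q:ℝ) → cnt α0 a Q ρ ≤ 9 * (Q:ℝ) := by
  obtain ⟨Q, hQn, hQp⟩ := Nat.exists_infinite_primes (n0 + 10)
  haveI : Fact Q.Prime := ⟨hQp⟩
  have hQ0 : (0:ℝ) < Q := by exact_mod_cast hQp.pos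
  obtain ⟨b, d1, d2, hd2, -, -, hd1, -, hb, hn⟩ := realize (Q := Q) (G := Q) (L := 1) hα (fun j => ((j : ℕ) : ZMod Q), (0, 0)) 1 1 0 le_rfl le_rfl
  refine ⟨Q, fun n => (b n : ℤ), by omega, by omega, ?_, ?_⟩
  · intro n hn
    have := hb n hn
    show ((b n : ℕ) : ℤ) < ((b (n+1) : ℕ) : ℤ)
    omega
  · intro ρ hρ
    have hnear : ∀ n < Q, near Q (((b n : ℤ) : ℝ) * α0) ((n : ℕ) : ZMod Q) := by
      intro n hn'
      have := hn n hn' 0 (by norm_num) 0 (by norm_num)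
      simp only [zero_mul, add_zero] at this
      have e : lf Q Q (n, (0, 0)) ((fun j : Fin Q => ((j : ℕ) : ZMod Q), (0, 0)) : Om Q Q) = ((n : ℕ) : ZMod Q) := by
        unfold lf fy
        simp [hn']
      rw [e] at this
      exact this
    have h1 : cnt α0 (fun n => (b n : ℤ)) Q ρ ≤ ∑ k ∈ range Q, ∑ l ∈ range Q, psi 5 (((k : ℕ) : ZMod Q) - ((l : ℕ) : ZMod Q)) := by
      unfold cnt
      refine sum_le_sum (fun k hk => sum_le_sum (fun l hl => ?_))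
      rw [mem_range] at hk hl
      unfold Ip
      split_ifs with h
      · rw [sub_mul_cast] at h
        rw [psi_of_nd (hnear k hk) (hnear l hl) h.2]
        have : (Q:ℝ) * ρ ≤ Q * (4 / Q) := mul_le_mul_of_nonneg_left hρ hQ0.le
        have e : (Q:ℝ) * (4 / Q) = 4 := by field_simp
        push_cast
        linarith
      · exact psi_nonneg _ _
    refine h1.trans ?_
    have h2 : ∀ k ∈ range Q, ∑ l ∈ range Q, psi 5 (((k : ℕ) : ZMod Q) - ((l : ℕ) : ZMod Q)) = 9 := by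
      intro k _
      have e : ∑ x : ZMod Q, psi 5 (((k : ℕ) : ZMod Q) - x) = ∑ x : ZMod Q, psi 5 x := Equiv.sum_comp (Equiv.subLeft ((k : ℕ) : ZMod Q)) (fun x => psi 5 x)
      rw [sum_range_zmod (fun x => psi 5 (((k : ℕ) : ZMod Q) - x)), e, sum_psi_eq (by norm_num) (by omega)]
      norm_num
    rw [sum_congr rfl h2, sum_const, card_range, nsmul_eq_mul]
    linarith

open Classical in
lemma main_seq {α0 : ℝ} (hα : Irrational α0) : ∃ (A : ℕ → ℤ) (mm D : ℕ → ℕ) (r : ℕ → ℕ) (Ev : ℕ → ℕ → Prop) (K0 : ℕ), StrictMono A ∧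
    1 ≤ K0 ∧ Monotone r ∧ (∀ R, ∃ i, R ≤ r i) ∧ (∀ i, K0 + i ≤ mm i) ∧ (∀ i, mm i < mm (i+1)) ∧ (∀ i, 0 < D i) ∧ (∀ i, D i ∣ D (i+1)) ∧
    (∀ i n, mm i ≤ n → n ≤ mm (i+1) → ∀ ρ : ℝ, 0 ≤ ρ → ρ ≤ ((r i : ℝ) + 1) / mm i → |cnt α0 A n ρ - 2 * ρ * (n:ℝ) ^ 2| ≤ (es r i + 1 / ((r i:ℝ) + 1)) * mm i) ∧
    (∀ i p, (((range (D (i+1) / D i)).filter (fun v => ¬ Ev i (p * (D (i+1) / D i) + v))).card : ℝ) ≤ (1 - 1 / 384 / (K0 + i)) * ((D (i+1) / D i : ℕ) : ℝ)) ∧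
    (∀ i (α : ℝ), 0 ≤ α → Ev i ⌊(D (i+1) : ℝ) * α⌋₊ → 7 / 32 * (mm (i+1) : ℝ) ≤ cnt α A (mm (i+1)) (1 / 16 / mm (i+1))) := by
  have hst : ∀ r : ℕ, _ := fun r => step hα (r + 1) (by omega) (1 / ((r:ℝ) + 1)) (by positivity) (by
    rw [div_le_one (by positivity)]
    have : (0:ℝ) ≤ r := by positivity
    linarith)
  choose G M0 hG hstep using hst
  set cond : ℕ → ℕ := fun r => G r + M0 r with hcond
  obtain ⟨K0, a0, hK0c, hK01, ha0, hc0⟩ := init_seq hα (cond 0)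
  set r := rs cond K0 with hr
  have hrc : ∀ i, cond (r i) ≤ K0 + i := rs_cond cond K0 hK0c
  have hK0R : (1:ℝ) ≤ K0 := by exact_mod_cast hK01
  -- invariants
  let Inv : ℕ → (ℕ × (ℕ → ℤ) × ℕ) → Prop := fun i s => K0 + i ≤ s.1 ∧ 1 ≤ s.2.2 ∧
    (∀ ρ : ℝ, 0 ≤ ρ → ρ ≤ 4 * ((r i : ℝ) + 1) / s.1 → |cnt α0 s.2.1 s.1 ρ - 2 * ρ * (s.1 : ℝ) ^ 2| ≤ es r i * s.1) ∧
    cnt α0 s.2.1 s.1 (4 * ((r i : ℝ) + 1) / s.1) ≤ (8 * ((r i : ℝ) + 1) + 7) * s.1 ∧ (∀ n, n + 1 < s.1 → s.2.1 n < s.2.1 (n+1))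
  let Rel : ℕ → (ℕ × (ℕ → ℤ) × ℕ) → (ℕ × (ℕ → ℤ) × ℕ) → Prop := fun i s s' => s.1 < s'.1 ∧ (∀ n < s.1, s'.2.1 n = s.2.1 n) ∧ s.2.2 ∣ s'.2.2 ∧
    (∀ n, s.1 ≤ n → n ≤ s'.1 → ∀ ρ : ℝ, 0 ≤ ρ → ρ ≤ ((r i : ℝ) + 1) / s.1 → |cnt α0 s'.2.1 n ρ - 2 * ρ * (n:ℝ) ^ 2| ≤ (es r i + 1 / ((r i:ℝ) + 1)) * s.1) ∧
    ∃ Ev : ℕ → Prop, (∀ p, (((range (s'.2.2 / s.2.2)).filter (fun v => ¬ Ev (p * (s'.2.2 / s.2.2) + v))).card : ℝ) ≤ (1 - 1 / 384 / (K0 + i)) * ((s'.2.2 / s.2.2 : ℕ) : ℝ)) ∧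
      (∀ α : ℝ, 0 ≤ α → Ev ⌊(s'.2.2 : ℝ) * α⌋₊ → 7 / 32 * (s'.1 : ℝ) ≤ cnt α s'.2.1 s'.1 (1 / 16 / s'.1))
  have h0 : Inv 0 (K0, a0, 1) := by
    have e0 : r 0 = 0 := by rw [hr, rs]
    have e9 : es r 0 = 9 := by rw [es]
    refine ⟨by simp, le_rfl, ?_, ?_, ha0⟩
    · intro ρ hρ0 hρ
      simp only [e0, Nat.cast_zero, zero_add, mul_one] at hρ
      have h1 := hc0 ρ hρ
      have h2 := cnt_nonneg α0 a0 K0 ρ
      have h3 : 2 * ρ * (K0:ℝ) ^ 2 ≤ 8 * K0 := by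
        rw [le_div_iff₀ (by linarith)] at hρ
        nlinarith
      have h4 : 0 ≤ 2 * ρ * (K0:ℝ) ^ 2 := by positivity
      simp only [e9]
      rw [abs_le]
      constructor <;> linarith
    · simp only [e0, Nat.cast_zero, zero_add, mul_one]
      have h1 := hc0 (4 / K0) le_rfl
      linarith
  have hst2 : ∀ i s, Inv i s → ∃ s', Inv (i+1) s' ∧ Rel i s s' := by
    rintro i ⟨m, a, D⟩ ⟨i1, i2, i3, i4, i5⟩
    simp only at i1 i2 i3 i4 i5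
    have hc := hrc i
    simp only [hcond] at hc
    obtain ⟨hm1, hs⟩ := hstep (r i) m (by omega)
    have hcast : (((r i + 1 : ℕ)) : ℝ) = (r i : ℝ) + 1 := by push_cast; ring
    rw [hcast] at hs
    obtain ⟨m', a', D', Ev, s1, s2, s3, s4, s5, s6, s7, s8⟩ := hs a i4 D i2
    have hm0 : (0:ℝ) < m := by exact_mod_cast hm1
    have hm'0 : (0:ℝ) < m' := by exact_mod_cast (by omega : 0 < m')
    have hmm' : 8 * (m:ℝ) ≤ m' := by exact_mod_cast s1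
    have hri0 : (0:ℝ) ≤ r i := by positivity
    have hGi : ((G (r i) : ℕ) : ℝ) ≤ K0 + i := by exact_mod_cast (by omega : G (r i) ≤ K0 + i)
    have hG1 : (1:ℝ) ≤ G (r i) := by exact_mod_cast hG (r i)
    have hinter : ∀ n, m ≤ n → n ≤ m' → ∀ ρ : ℝ, 0 ≤ ρ → ρ ≤ ((r i : ℝ) + 1) / m → |cnt α0 a' n ρ - 2 * ρ * (n:ℝ) ^ 2| ≤ (es r i + 1 / ((r i:ℝ) + 1)) * m := by
      intro n hn1 hn2 ρ hρ0 hρ
      have t1 := s6 n hn1 hn2 ρ hρ0 hρ
      have t2 := i3 ρ hρ0 (hρ.trans (div_le_div_of_nonneg_right (by linarith) hm0.le))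
      have e : cnt α0 a' n ρ - 2 * ρ * (n:ℝ) ^ 2 = (cnt α0 a' n ρ - cnt α0 a m ρ - 2 * ρ * ((n:ℝ) ^ 2 - (m:ℝ) ^ 2)) + (cnt α0 a m ρ - 2 * ρ * (m:ℝ) ^ 2) := by ring
      rw [e]
      refine (abs_add_le _ _).trans ?_
      linarith
    have hctl' : ∀ ρ : ℝ, 0 ≤ ρ → ρ ≤ 4 * ((r (i+1) : ℝ) + 1) / m' → |cnt α0 a' m' ρ - 2 * ρ * (m' : ℝ) ^ 2| ≤ es r (i+1) * m' := by
      intro ρ hρ0 hρ
      have hr1 : (r (i+1) : ℝ) ≤ r i + 1 := by exact_mod_cast (rs_step cond K0 i).2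
      have hρ' : ρ ≤ ((r i : ℝ) + 1) / m := by
        refine hρ.trans ?_
        rw [div_le_div_iff₀ hm'0 hm0]
        nlinarith
      refine (hinter m' (by omega) le_rfl ρ hρ0 hρ').trans ?_
      rw [es]
      have : 0 ≤ es r i + 1 / ((r i:ℝ) + 1) := add_nonneg (es_nonneg r i) (by positivity)
      nlinarith
    refine ⟨(m', a', D'), ⟨?_, ?_, hctl', ?_, ?_⟩, ?_, s2, s3, hinter, Ev, ?_, s8⟩
    · simp only; omega
    · exact s4
    · simp only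
      have hr0 : (0:ℝ) ≤ r (i+1) := by positivity
      have t1 := (abs_le.1 (hctl' (4 * ((r (i+1) : ℝ) + 1) / m') (by positivity) le_rfl)).2
      have t2 : 2 * (4 * ((r (i+1) : ℝ) + 1) / m') * (m':ℝ) ^ 2 = 8 * ((r (i+1) : ℝ) + 1) * m' := by field_simp; ring
      rw [t2] at t1
      have t3 := mul_le_mul_of_nonneg_right (es_succ_le r i) hm'0.le
      linarith
    · intro n hn
      simp only at hn ⊢
      rcases Nat.lt_or_ge (n + 1) m with h | h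
      · rw [s2 n (by omega), s2 (n+1) h]; exact i5 n h
      · exact s5 n h hn
    · simp only; omega
    · intro p
      refine (s7 p).trans (mul_le_mul_of_nonneg_right ?_ (by positivity))
      have : 1 / 384 / ((K0:ℝ) + i) ≤ 1 / 384 / (G (r i) : ℝ) := div_le_div_of_nonneg_left (by norm_num) (by linarith) hGi
      linarith
  obtain ⟨f, -, hf⟩ := dep_seq Inv Rel _ h0 hst2
  have hmono : ∀ i j, i ≤ j → ∀ n < (f i).1, (f j).2.1 n = (f i).2.1 n ∧ (f i).1 ≤ (f j).1 := by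
    intro i j hij n hn
    induction j, hij using Nat.le_induction with
    | base => exact ⟨rfl, le_rfl⟩
    | succ j hj ih =>
      have h1 := (hf j).2.1
      have h2 := (hf j).2.2.1 n (by omega)
      exact ⟨h2.trans ih.1, by omega⟩
  set A : ℕ → ℤ := fun n => (f n).2.1 n with hA
  have hlt : ∀ n, n < (f n).1 := by
    intro n
    have := (hf n).1.1
    omega
  have hAag : ∀ i, ∀ n < (f i).1, (f i).2.1 n = A n := by
    intro i n hn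
    rcases le_total i n with h | h
    · exact ((hmono i n h n hn).1).symm
    · exact (hmono n i h n (hlt n)).1
  have hEv : ∀ i, ∃ Ev : ℕ → Prop, (∀ p, (((range ((f (i+1)).2.2 / (f i).2.2)).filter (fun v => ¬ Ev (p * ((f (i+1)).2.2 / (f i).2.2) + v))).card : ℝ) ≤ (1 - 1 / 384 / (K0 + i)) * (((f (i+1)).2.2 / (f i).2.2 : ℕ) : ℝ)) ∧
      (∀ α : ℝ, 0 ≤ α → Ev ⌊((f (i+1)).2.2 : ℝ) * α⌋₊ → 7 / 32 * ((f (i+1)).1 : ℝ) ≤ cnt α (f (i+1)).2.1 (f (i+1)).1 (1 / 16 / (f (i+1)).1)) :=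
    fun i => (hf i).2.2.2.2.2
  choose Ev hEv1 hEv2 using hEv
  refine ⟨A, fun i => (f i).1, fun i => (f i).2.2, r, Ev, K0, ?_, hK01, rs_mono cond K0, rs_unb cond K0, fun i => (hf i).1.1, fun i => (hf i).2.1, fun i => (hf i).1.2.1, fun i => (hf i).2.2.2.1, ?_, hEv1, ?_⟩
  · refine strictMono_nat_of_lt_succ (fun n => ?_)
    have h1 := hlt (n+1)
    rw [← hAag (n+1) n (by omega), ← hAag (n+1) (n+1) h1]
    exact (hf (n+1)).1.2.2.2.2 n h1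
  · intro i n hn1 hn2 ρ hρ0 hρ
    rw [← cnt_congr (fun k hk => hAag (i+1) k (lt_of_lt_of_le hk hn2)) ρ]
    exact (hf i).2.2.2.2.1 n hn1 hn2 ρ hρ0 hρ
  · intro i α hα0 hE
    rw [← cnt_congr (fun k hk => hAag (i+1) k hk) _]
    exact hEv2 i α hα0 hE

end Pool.Agent.H27.PPC
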