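import Mathlib

open Finset Filter Topology

set_option maxHeartbeats 4000000

namespace Pool.Agent.H27.RepGrowth


/-- number of `k`-tuples from `A` with sum `n` -/
noncomputable def r1 (A : Set ℕ) (n k : ℕ) : ℕ :=
  Nat.card {a : Fin k → ℕ // (∀ i, a i ∈ A) ∧ ∑ i, a i = n}
/-- number of such solutions with `a_1 ≤ ... ≤ a_k` -/
noncomputable def r2 (A : Set ℕ) (n k : ℕ) : ℕ :=
  Nat.card {a : Fin k → ℕ // Monotone a ∧ (∀ i, a i ∈ A) ∧ ∑ i, a i = n}
/-- number of such solutions with `a_1 < ... < a_k` -/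
noncomputable def r3 (A : Set ℕ) (n k : ℕ) : ℕ :=
  Nat.card {a : Fin k → ℕ // StrictMono a ∧ (∀ i, a i ∈ A) ∧ ∑ i, a i = n}

def WS (A : Set ℕ) (k n : ℕ) : Set (Multiset ℕ) := {s | Multiset.card s = k ∧ (∀ a ∈ s, a ∈ A) ∧ s.sum = n}

lemma WS_finite (A : Set ℕ) (k n : ℕ) : (WS A k n).Finite := by
  refine (Set.finite_Iic (k • (Multiset.range (n + 1)))).subset ?_
  rintro s ⟨hc, -, hs⟩
  rw [Set.mem_Iic, Multiset.le_iff_count]
  intro a
  by_cases ha : a ∈ s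
  · have h1 : a ≤ n := by
      rw [← hs]
      exact Multiset.single_le_sum (fun x _ => Nat.zero_le x) a ha
    have h2 : Multiset.count a (Multiset.range (n + 1)) = 1 :=
      Multiset.count_eq_one_of_mem (Multiset.nodup_range _) (Multiset.mem_range.2 (by omega))
    rw [Multiset.count_nsmul, h2, mul_one, ← hc]
    exact Multiset.count_le_card _ _
  · rw [Multiset.count_eq_zero_of_notMem ha]
    exact Nat.zero_le _

noncomputable def W2 (A : Set ℕ) (k n : ℕ) : Finset (Multiset ℕ) := (WS_finite A k n).toFinset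

lemma mem_W2 {A : Set ℕ} {k n : ℕ} {s : Multiset ℕ} : s ∈ W2 A k n ↔ Multiset.card s = k ∧ (∀ a ∈ s, a ∈ A) ∧ s.sum = n := by
  unfold W2
  rw [Set.Finite.mem_toFinset]
  rfl

noncomputable def W3 (A : Set ℕ) (k n : ℕ) : Finset (Multiset ℕ) := (W2 A k n).filter (fun s => s.Nodup)

lemma mem_W3 {A : Set ℕ} {k n : ℕ} {s : Multiset ℕ} : s ∈ W3 A k n ↔ (Multiset.card s = k ∧ (∀ a ∈ s, a ∈ A) ∧ s.sum = n) ∧ s.Nodup := by
  unfold W3
  rw [mem_filter, mem_W2]

lemma ofFn_mem {A : Set ℕ} {k n : ℕ} {a : Fin k → ℕ} (h : (∀ i, a i ∈ A) ∧ ∑ i, a i = n) :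
    ((List.ofFn a : List ℕ) : Multiset ℕ) ∈ W2 A k n := by
  rw [mem_W2]
  refine ⟨by simp, ?_, ?_⟩
  · intro x hx
    rw [Multiset.mem_coe, List.mem_ofFn] at hx
    obtain ⟨i, rfl⟩ := hx
    exact h.1 i
  · rw [Multiset.sum_coe, List.sum_ofFn, h.2]

lemma ofFn_inj {k : ℕ} {a b : Fin k → ℕ} (ha : Monotone a) (hb : Monotone b)
    (h : ((List.ofFn a : List ℕ) : Multiset ℕ) = ((List.ofFn b : List ℕ) : Multiset ℕ)) : a = b := by
  rw [Multiset.coe_eq_coe] at h
  have := h.eq_of_pairwise' (ha.sortedLE_ofFn.pairwise) (hb.sortedLE_ofFn.pairwise)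
  exact List.ofFn_injective this

lemma exists_ofFn {A : Set ℕ} {k n : ℕ} {s : Multiset ℕ} (h : s ∈ W2 A k n) :
    ∃ a : Fin k → ℕ, Monotone a ∧ (∀ i, a i ∈ A) ∧ ∑ i, a i = n ∧ ((List.ofFn a : List ℕ) : Multiset ℕ) = s := by
  rw [mem_W2] at h
  obtain ⟨hc, hA, hs⟩ := h
  set l := s.sort (· ≤ ·) with hl
  have hls : (l : Multiset ℕ) = s := Multiset.sort_eq _ _
  have hlen : l.length = k := by rw [← hc, ← hls]; simp
  subst hlen
  refine ⟨l.get, ?_, ?_, ?_, ?_⟩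
  · have h1 := Multiset.pairwise_sort s (· ≤ ·)
    rw [← hl] at h1
    have h2 : (List.ofFn l.get).SortedLE := by
      rw [List.ofFn_get]
      exact h1.sortedLE
    exact List.sortedLE_ofFn_iff.1 h2
  · intro i
    apply hA
    rw [← hls]
    exact List.get_mem _ _
  · rw [← List.sum_ofFn, List.ofFn_get, ← Multiset.sum_coe, hls, hs]
  · rw [List.ofFn_get, hls]

lemma r2_eq (A : Set ℕ) (n k : ℕ) : r2 A n k = (W2 A k n).card := by
  unfold r2
  rw [← Nat.card_eq_finsetCard]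
  refine Nat.card_congr (Equiv.ofBijective (fun a => ⟨((List.ofFn a.1 : List ℕ) : Multiset ℕ), ofFn_mem a.2.2⟩) ⟨?_, ?_⟩)
  · intro a b hab
    rw [Subtype.mk.injEq] at hab
    exact Subtype.ext (ofFn_inj a.2.1 b.2.1 hab)
  · rintro ⟨s, hs⟩
    obtain ⟨a, h1, h2, h3, h4⟩ := exists_ofFn hs
    exact ⟨⟨a, h1, h2, h3⟩, Subtype.ext h4⟩

lemma r3_eq (A : Set ℕ) (n k : ℕ) : r3 A n k = (W3 A k n).card := by
  unfold r3
  rw [← Nat.card_eq_finsetCard]
  refine Nat.card_congr (Equiv.ofBijective (fun a => ⟨((List.ofFn a.1 : List ℕ) : Multiset ℕ), ?_⟩) ⟨?_, ?_⟩)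
  · rw [mem_W3]
    refine ⟨mem_W2.1 (ofFn_mem a.2.2), ?_⟩
    rw [Multiset.coe_nodup, List.nodup_ofFn]
    exact a.2.1.injective
  · intro a b hab
    rw [Subtype.mk.injEq] at hab
    exact Subtype.ext (ofFn_inj a.2.1.monotone b.2.1.monotone hab)
  · rintro ⟨s, hs⟩
    have hs1 := mem_W3.1 hs
    obtain ⟨a, h1, h2, h3, h4⟩ := exists_ofFn (mem_W2.2 hs1.1)
    refine ⟨⟨a, h1.strictMono_of_injective ?_, h2, h3⟩, Subtype.ext h4⟩
    rw [← List.nodup_ofFn, ← Multiset.coe_nodup, h4]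
    exact hs1.2

/-! recursions -/

lemma W2_rec (A : Set ℕ) (k n a : ℕ) : ∑ s ∈ W2 A (k + 1) n, (s.count a : ℤ) =
    open Classical in if a ∈ A ∧ a ≤ n then ∑ s ∈ W2 A k (n - a), (1 + (s.count a : ℤ)) else 0 := by
  classical
  split_ifs with h
  · rw [← sum_filter_add_sum_filter_not (W2 A (k + 1) n) (fun s => a ∈ s)]
    have h0 : ∑ s ∈ (W2 A (k + 1) n).filter (fun s => ¬ a ∈ s), (s.count a : ℤ) = 0 := by
      refine sum_eq_zero ?_
      intro s hs
      rw [Multiset.count_eq_zero_of_notMem (mem_filter.1 hs).2]; simp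
    rw [h0, add_zero]
    refine sum_nbij' (fun s => s.erase a) (fun s => a ::ₘ s) ?_ ?_ ?_ ?_ ?_
    · intro s hs
      rw [mem_filter, mem_W2] at hs
      obtain ⟨⟨h1, h2, h3⟩, h4⟩ := hs
      have h5 := Multiset.cons_erase h4
      rw [mem_W2]
      refine ⟨?_, ?_, ?_⟩
      · rw [Multiset.card_erase_of_mem h4, h1]; rfl
      · intro b hb; exact h2 b (Multiset.mem_of_mem_erase hb)
      · rw [← h5, Multiset.sum_cons] at h3
        omega
    · intro s hs
      rw [mem_W2] at hs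
      rw [mem_filter, mem_W2]
      refine ⟨⟨by rw [Multiset.card_cons, hs.1], ?_, ?_⟩, Multiset.mem_cons_self _ _⟩
      · intro b hb
        rw [Multiset.mem_cons] at hb
        rcases hb with rfl | hb
        · exact h.1
        · exact hs.2.1 b hb
      · rw [Multiset.sum_cons, hs.2.2]; omega
    · intro s hs
      exact Multiset.cons_erase (mem_filter.1 hs).2
    · intro s hs
      exact Multiset.erase_cons_head _ _
    · intro s hs
      have h4 := (mem_filter.1 hs).2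
      have h5 := Multiset.cons_erase h4
      conv_lhs => rw [← h5]
      rw [Multiset.count_cons_self]; push_cast; ring
  · refine sum_eq_zero ?_
    intro s hs
    rw [mem_W2] at hs
    rw [Multiset.count_eq_zero_of_notMem]; · simp
    intro ha
    apply h
    refine ⟨hs.2.1 a ha, ?_⟩
    rw [← hs.2.2]
    exact Multiset.single_le_sum (fun x _ => Nat.zero_le x) a ha

lemma W3_rec (A : Set ℕ) (k n a : ℕ) : ∑ s ∈ W3 A (k + 1) n, (s.count a : ℤ) =
    open Classical in if a ∈ A ∧ a ≤ n then ∑ s ∈ W3 A k (n - a), (1 - (s.count a : ℤ)) else 0 := by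
  classical
  split_ifs with h
  · rw [← sum_filter_add_sum_filter_not (W3 A (k + 1) n) (fun s => a ∈ s)]
    have h0 : ∑ s ∈ (W3 A (k + 1) n).filter (fun s => ¬ a ∈ s), (s.count a : ℤ) = 0 := by
      refine sum_eq_zero ?_
      intro s hs
      rw [Multiset.count_eq_zero_of_notMem (mem_filter.1 hs).2]; simp
    rw [h0, add_zero]
    rw [← sum_filter_add_sum_filter_not (W3 A k (n - a)) (fun s => ¬ a ∈ s)]
    have h00 : ∑ s ∈ (W3 A k (n - a)).filter (fun s => ¬ ¬ a ∈ s), (1 - (s.count a : ℤ)) = 0 := by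
      refine sum_eq_zero ?_
      intro s hs
      rw [mem_filter, mem_W3, not_not] at hs
      rw [Multiset.count_eq_one_of_mem hs.1.2 hs.2]; simp
    rw [h00, add_zero]
    refine sum_nbij' (fun s => s.erase a) (fun s => a ::ₘ s) ?_ ?_ ?_ ?_ ?_
    · intro s hs
      rw [mem_filter, mem_W3] at hs
      obtain ⟨⟨⟨h1, h2, h3⟩, hn⟩, h4⟩ := hs
      have h5 := Multiset.cons_erase h4
      rw [mem_filter, mem_W3]
      refine ⟨⟨⟨?_, ?_, ?_⟩, ?_⟩, ?_⟩
      · rw [Multiset.card_erase_of_mem h4, h1]; rfl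
      · intro b hb; exact h2 b (Multiset.mem_of_mem_erase hb)
      · rw [← h5, Multiset.sum_cons] at h3
        omega
      · rw [← h5, Multiset.nodup_cons] at hn; exact hn.2
      · rw [← h5, Multiset.nodup_cons] at hn; exact hn.1
    · intro s hs
      rw [mem_filter, mem_W3] at hs
      obtain ⟨⟨⟨h1, h2, h3⟩, hn⟩, h4⟩ := hs
      rw [mem_filter, mem_W3]
      refine ⟨⟨⟨by rw [Multiset.card_cons, h1], ?_, ?_⟩, ?_⟩, Multiset.mem_cons_self _ _⟩
      · intro b hb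
        rw [Multiset.mem_cons] at hb
        rcases hb with rfl | hb
        · exact h.1
        · exact h2 b hb
      · rw [Multiset.sum_cons, h3]; omega
      · rw [Multiset.nodup_cons]; exact ⟨h4, hn⟩
    · intro s hs
      exact Multiset.cons_erase (mem_filter.1 hs).2
    · intro s hs
      exact Multiset.erase_cons_head _ _
    · intro s hs
      rw [mem_filter, mem_W3] at hs
      have h4 := hs.2
      have h5 := Multiset.cons_erase h4
      have hn := hs.1.2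
      rw [← h5, Multiset.nodup_cons] at hn
      rw [Multiset.count_eq_one_of_mem hs.1.2 h4, Multiset.count_eq_zero_of_notMem hn.1]
      simp
  · refine sum_eq_zero ?_
    intro s hs
    rw [mem_W3] at hs
    rw [Multiset.count_eq_zero_of_notMem]; · simp
    intro ha
    apply h
    refine ⟨hs.1.2.1 a ha, ?_⟩
    rw [← hs.1.2.2]
    exact Multiset.single_le_sum (fun x _ => Nat.zero_le x) a ha

open Classical in
/-- coefficient sequence of `Σ_{a ∈ A} z^(i a)` -/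
noncomputable def q (A : Set ℕ) (i m : ℕ) : ℤ := if i ∣ m ∧ m / i ∈ A then 1 else 0

lemma conv_q (A : Set ℕ) (i n : ℕ) (hi : 1 ≤ i) (g : ℕ → ℤ) :
    (open Classical in ∑ a ∈ range (n + 1), if a ∈ A ∧ i * a ≤ n then g (n - i * a) else 0)
      = ∑ p ∈ antidiagonal n, q A i p.1 * g p.2 := by
  classical
  rw [Nat.sum_antidiagonal_eq_sum_range_succ (fun m m' => q A i m * g m') n]
  have e1 : ∀ m ∈ range n.succ, q A i m * g (n - m) = if i ∣ m ∧ m / i ∈ A then g (n - m) else 0 := by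
    intro m _
    unfold q
    split_ifs <;> simp
  rw [sum_congr rfl e1, ← sum_filter, ← sum_filter]
  refine sum_nbij' (fun a => i * a) (fun m => m / i) ?_ ?_ ?_ ?_ ?_
  · intro a ha
    rw [mem_filter, mem_range] at ha
    rw [mem_filter, mem_range]
    refine ⟨by omega, dvd_mul_right _ _, ?_⟩
    rw [Nat.mul_div_cancel_left _ hi]; exact ha.2.1
  · intro m hm
    rw [mem_filter, mem_range] at hm
    rw [mem_filter, mem_range]
    have h1 := Nat.mul_div_cancel' hm.2.1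
    have h2 := Nat.div_le_self m i
    exact ⟨by omega, hm.2.2, by omega⟩
  · intro a _
    exact Nat.mul_div_cancel_left _ hi
  · intro m hm
    rw [mem_filter] at hm
    exact Nat.mul_div_cancel' hm.2.1
  · intro a _; rfl

/-- unrolling the recursion -/
lemma unroll (A : Set ℕ) (ε : ℤ) (G : ℕ → ℕ → ℤ) (D : ℕ → ℕ → ℕ → ℤ) (h0 : ∀ n a, D 0 n a = 0)
    (hrec : ∀ k n a : ℕ, D (k + 1) n a = open Classical in if a ∈ A ∧ a ≤ n then G k (n - a) + ε * D k (n - a) a else 0)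
    (hsum : ∀ k n : ℕ, (k : ℤ) * G k n = ∑ a ∈ range (n + 1), D k n a) (k n : ℕ) :
    (k : ℤ) * G k n = ∑ i ∈ range k, ε ^ i * ∑ p ∈ antidiagonal n, q A (i + 1) p.1 * G (k - 1 - i) p.2 := by
  classical
  have key : ∀ k n a, D k n a = ∑ i ∈ range k, ε ^ i * (if a ∈ A ∧ (i + 1) * a ≤ n then G (k - 1 - i) (n - (i + 1) * a) else 0) := by
    intro k
    induction k with
    | zero => intro n a; rw [h0]; simp
    | succ k ih =>
      intro n a
      rw [hrec, sum_range_succ']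
      by_cases h : a ∈ A ∧ a ≤ n
      · rw [if_pos h, ih, mul_sum]
        simp only [Nat.add_sub_cancel, Nat.sub_zero, pow_zero, one_mul, zero_add, h.1, h.2, true_and, if_true]
        rw [add_comm]
        congr 1
        refine sum_congr rfl ?_
        intro i hi
        have hi := mem_range.1 hi
        have e1 : k - 1 - i = k - (i + 1) := by omega
        have e2 : n - a - (i + 1) * a = n - (i + 1 + 1) * a := by
          rw [Nat.sub_sub]; congr 1; ring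
        have e3 : ((i + 1) * a ≤ n - a) ↔ ((i + 1 + 1) * a ≤ n) := by
          have : (i + 1 + 1) * a = (i + 1) * a + a := by ring
          rw [this]
          have := h.2
          omega
        rw [e1, e2, pow_succ]
        simp only [e3]
        ring
      · rw [if_neg h]
        symm
        have h2 : ∀ j : ℕ, ¬ (a ∈ A ∧ (j + 1) * a ≤ n) := by
          rintro j ⟨h3, h4⟩
          apply h
          refine ⟨h3, le_trans ?_ h4⟩
          exact Nat.le_mul_of_pos_left _ (Nat.succ_pos _)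
        simp only [h2, if_false, mul_zero, sum_const_zero, add_zero]
  rw [hsum]
  calc ∑ a ∈ range (n + 1), D k n a
      = ∑ a ∈ range (n + 1), ∑ i ∈ range k, ε ^ i * (if a ∈ A ∧ (i + 1) * a ≤ n then G (k - 1 - i) (n - (i + 1) * a) else 0) :=
        sum_congr rfl (fun a _ => key k n a)
    _ = ∑ i ∈ range k, ∑ a ∈ range (n + 1), ε ^ i * (if a ∈ A ∧ (i + 1) * a ≤ n then G (k - 1 - i) (n - (i + 1) * a) else 0) := sum_comm
    _ = _ := by
      refine sum_congr rfl ?_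
      intro i _
      rw [← mul_sum, conv_q A (i + 1) n (by omega) (fun m => G (k - 1 - i) m)]

lemma sum_count_W2 (A : Set ℕ) (k n : ℕ) (S : Finset (Multiset ℕ)) (hS : S ⊆ W2 A k n) :
    (k : ℤ) * (S.card : ℤ) = ∑ a ∈ range (n + 1), ∑ s ∈ S, (s.count a : ℤ) := by
  classical
  rw [sum_comm]
  have : ∀ s ∈ S, ∑ a ∈ range (n + 1), (s.count a : ℤ) = k := by
    intro s hs
    have hs := mem_W2.1 (hS hs)
    rw [← hs.1]
    have := Multiset.sum_count_eq_card (s := range (n + 1)) (m := s) (by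
      intro a ha
      rw [mem_range]
      have : a ≤ s.sum := Multiset.single_le_sum (fun x _ => Nat.zero_le x) a ha
      omega)
    exact_mod_cast this
  rw [sum_congr rfl this, sum_const, nsmul_eq_mul, mul_comm]

lemma rec_r2 (A : Set ℕ) (k n : ℕ) :
    (k : ℤ) * (r2 A n k : ℤ) = ∑ i ∈ range k, (1 : ℤ) ^ i * ∑ p ∈ antidiagonal n, q A (i + 1) p.1 * (r2 A p.2 (k - 1 - i) : ℤ) := by
  classical
  refine unroll A 1 (fun k n => (r2 A n k : ℤ)) (fun k n a => ∑ s ∈ W2 A k n, (s.count a : ℤ)) ?_ ?_ ?_ k n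
  · intro n a
    refine sum_eq_zero ?_
    intro s hs
    rw [mem_W2] at hs
    have : s = 0 := Multiset.card_eq_zero.1 hs.1
    rw [this]; simp
  · intro k n a
    rw [W2_rec]
    split_ifs with h
    · rw [sum_add_distrib, r2_eq]; simp
    · rfl
  · intro k n
    rw [r2_eq]
    exact sum_count_W2 A k n _ (Finset.Subset.refl _)

lemma rec_r3 (A : Set ℕ) (k n : ℕ) :
    (k : ℤ) * (r3 A n k : ℤ) = ∑ i ∈ range k, (-1 : ℤ) ^ i * ∑ p ∈ antidiagonal n, q A (i + 1) p.1 * (r3 A p.2 (k - 1 - i) : ℤ) := by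
  classical
  refine unroll A (-1) (fun k n => (r3 A n k : ℤ)) (fun k n a => ∑ s ∈ W3 A k n, (s.count a : ℤ)) ?_ ?_ ?_ k n
  · intro n a
    refine sum_eq_zero ?_
    intro s hs
    rw [mem_W3] at hs
    have : s = 0 := Multiset.card_eq_zero.1 hs.1.1
    rw [this]; simp
  · intro k n a
    rw [W3_rec]
    split_ifs with h
    · rw [sum_sub_distrib, r3_eq]; simp; ring
    · rfl
  · intro k n
    rw [r3_eq]
    exact sum_count_W2 A k n _ (filter_subset _ _)

lemma T1_finite (A : Set ℕ) (n k : ℕ) : {a : Fin k → ℕ | (∀ i, a i ∈ A) ∧ ∑ i, a i = n}.Finite := by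
  refine (Set.Finite.pi' (fun _ : Fin k => Set.finite_Iic n)).subset ?_
  rintro a ⟨-, hs⟩
  intro i
  rw [Set.mem_Iic, ← hs]
  exact single_le_sum (fun _ _ => Nat.zero_le _) (mem_univ i)

lemma r1_le (A : Set ℕ) (n k : ℕ) : r1 A n k ≤ (n + 1) ^ k := by
  unfold r1
  have h1 : Nat.card {a : Fin k → ℕ // (∀ i, a i ∈ A) ∧ ∑ i, a i = n} ≤ Nat.card (Fin k → Fin (n + 1)) := by
    refine Nat.card_le_card_of_injective (fun a => fun i => ⟨a.1 i, ?_⟩) ?_
    · have : a.1 i ≤ ∑ i, a.1 i := single_le_sum (fun _ _ => Nat.zero_le _) (mem_univ i)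
      rw [a.2.2] at this
      omega
    · intro a b hab
      apply Subtype.ext
      funext i
      have := congrFun hab i
      simpa using this
  simpa using h1

lemma r2_le_r1 (A : Set ℕ) (n k : ℕ) : r2 A n k ≤ r1 A n k := by
  unfold r2 r1
  have : Finite {a : Fin k → ℕ // (∀ i, a i ∈ A) ∧ ∑ i, a i = n} := T1_finite A n k
  refine Nat.card_le_card_of_injective (fun a => ⟨a.1, a.2.2⟩) ?_
  intro a b hab
  exact Subtype.ext (by simpa using hab)

lemma r3_le_r2 (A : Set ℕ) (n k : ℕ) : r3 A n k ≤ r2 A n k := by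
  unfold r2 r3
  have : Finite {a : Fin k → ℕ // Monotone a ∧ (∀ i, a i ∈ A) ∧ ∑ i, a i = n} :=
    (T1_finite A n k).subset (fun a ha => ha.2)
  refine Nat.card_le_card_of_injective (fun a => ⟨a.1, a.2.1.monotone, a.2.2⟩) ?_
  intro a b hab
  exact Subtype.ext (by simpa using hab)

lemma r3_pos {A : Set ℕ} (hA : A.Infinite) (k : ℕ) (hk : 1 ≤ k) (N : ℕ) : ∃ n ≥ N, 1 ≤ r3 A n k := by
  classical
  have : Infinite A := hA.to_subtype
  set e := Nat.orderEmbeddingOfSet A with he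
  refine ⟨∑ i : Fin k, e (N + i), ?_, ?_⟩
  · have h1 : e (N + (⟨0, hk⟩ : Fin k)) ≤ ∑ i : Fin k, e (N + i) :=
      single_le_sum (f := fun i : Fin k => e (N + i)) (fun _ _ => Nat.zero_le _) (mem_univ _)
    have h2 : N ≤ e N := e.strictMono.le_apply
    simp only [add_zero] at h1
    omega
  · unfold r3
    have : Finite {a : Fin k → ℕ // StrictMono a ∧ (∀ i, a i ∈ A) ∧ ∑ i, a i = ∑ i : Fin k, e (N + i)} :=
      (T1_finite A _ k).subset (fun a ha => ha.2)
    have hne : Nonempty {a : Fin k → ℕ // StrictMono a ∧ (∀ i, a i ∈ A) ∧ ∑ i, a i = ∑ i : Fin k, e (N + i)} := by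
      refine ⟨⟨fun i => e (N + i), ?_, ?_, rfl⟩⟩
      · intro i j hij
        apply e.strictMono
        have : (i : ℕ) < j := hij
        omega
      · intro i
        have h5 : e (N + i) ∈ Set.range e := ⟨_, rfl⟩
        rw [he, Nat.orderEmbeddingOfSet_range] at h5
        exact h5
    exact Nat.card_pos

lemma r1_zero (A : Set ℕ) (n : ℕ) : r1 A n 0 = if n = 0 then 1 else 0 := by
  unfold r1
  split_ifs with h
  · subst h
    rw [Nat.card_eq_one_iff_unique]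
    constructor
    · constructor
      intro a b
      apply Subtype.ext
      exact Subsingleton.elim _ _
    · exact ⟨⟨fun _ => 0, fun i => i.elim0, by simp⟩⟩
  · rw [Nat.card_eq_zero]
    left
    constructor
    rintro ⟨a, -, ha⟩
    simp at ha
    omega

noncomputable def T1 (A : Set ℕ) (k n : ℕ) : Finset (Fin k → ℕ) := (T1_finite A n k).toFinset

lemma mem_T1 {A : Set ℕ} {k n : ℕ} {a : Fin k → ℕ} : a ∈ T1 A k n ↔ (∀ i, a i ∈ A) ∧ ∑ i, a i = n := by
  unfold T1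
  rw [Set.Finite.mem_toFinset]
  rfl

lemma r1_eq (A : Set ℕ) (n k : ℕ) : r1 A n k = (T1 A k n).card := by
  unfold r1
  rw [← Nat.card_eq_finsetCard]
  exact Nat.card_congr (Equiv.subtypeEquivRight (fun a => mem_T1.symm))

lemma rec_r1 (A : Set ℕ) (k n : ℕ) :
    (r1 A n (k + 1) : ℤ) = ∑ p ∈ antidiagonal n, q A 1 p.1 * (r1 A p.2 k : ℤ) := by
  classical
  have hmaps : ∀ a ∈ T1 A (k + 1) n, (a 0, n - a 0) ∈ antidiagonal n := by
    intro a ha
    rw [HasAntidiagonal.mem_antidiagonal]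
    have h1 := (mem_T1.1 ha).2
    have h2 : a 0 ≤ ∑ i, a i := single_le_sum (fun _ _ => Nat.zero_le _) (mem_univ 0)
    simp only
    omega
  rw [r1_eq, card_eq_sum_card_fiberwise hmaps]
  push_cast
  refine sum_congr rfl ?_
  rintro ⟨m, m'⟩ hm
  rw [HasAntidiagonal.mem_antidiagonal] at hm
  simp only at hm ⊢
  unfold q
  simp only [one_dvd, Nat.div_one, true_and]
  split_ifs with h
  · rw [one_mul, r1_eq]
    congr 1
    refine card_bij' (fun a _ => Fin.tail a) (fun b _ => Fin.cons m b) ?_ ?_ ?_ ?_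
    · intro a ha
      rw [mem_filter, mem_T1] at ha
      obtain ⟨⟨h1, h2⟩, h3⟩ := ha
      rw [Prod.mk.injEq] at h3
      rw [mem_T1]
      refine ⟨fun i => h1 _, ?_⟩
      rw [Fin.sum_univ_succ] at h2
      have : ∑ i, Fin.tail a i = ∑ i : Fin k, a i.succ := rfl
      omega
    · intro b hb
      rw [mem_T1] at hb
      rw [mem_filter, mem_T1]
      refine ⟨⟨?_, ?_⟩, ?_⟩
      · intro i
        refine Fin.cases ?_ (fun j => ?_) i
        · simpa using h
        · simpa using hb.1 j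
      · rw [Fin.sum_univ_succ]
        simp only [Fin.cons_zero, Fin.cons_succ]
        omega
      · simp only [Fin.cons_zero, Prod.mk.injEq, true_and]
        omega
    · intro a ha
      rw [mem_filter, mem_T1] at ha
      have h3 := ha.2
      rw [Prod.mk.injEq] at h3
      rw [← h3.1]
      exact Fin.cons_self_tail a
    · intro b _
      exact Fin.tail_cons _ _
  · rw [zero_mul]
    have : (T1 A (k + 1) n).filter (fun a => (a 0, n - a 0) = (m, m')) = ∅ := by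
      rw [filter_eq_empty_iff]
      intro a ha h3
      rw [Prod.mk.injEq] at h3
      apply h
      rw [← h3.1]
      exact (mem_T1.1 ha).1 0
    rw [this]; simp

lemma r2_zero (A : Set ℕ) (n : ℕ) : r2 A n 0 = if n = 0 then 1 else 0 := by
  rw [← r1_zero A n]
  apply le_antisymm (r2_le_r1 A n 0)
  unfold r1 r2
  have : Finite {a : Fin 0 → ℕ // Monotone a ∧ (∀ i, a i ∈ A) ∧ ∑ i, a i = n} :=
    (T1_finite A n 0).subset (fun a ha => ha.2)
  refine Nat.card_le_card_of_injective (fun a => ⟨a.1, fun i => i.elim0, a.2⟩) ?_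
  intro a b hab
  exact Subtype.ext (by simpa using hab)

lemma r3_zero (A : Set ℕ) (n : ℕ) : r3 A n 0 = if n = 0 then 1 else 0 := by
  rw [← r1_zero A n]
  apply le_antisymm ((r3_le_r2 A n 0).trans (r2_le_r1 A n 0))
  unfold r1 r3
  have : Finite {a : Fin 0 → ℕ // StrictMono a ∧ (∀ i, a i ∈ A) ∧ ∑ i, a i = n} :=
    (T1_finite A n 0).subset (fun a ha => ha.2)
  refine Nat.card_le_card_of_injective (fun a => ⟨a.1, fun i => i.elim0, a.2⟩) ?_
  intro a b hab
  exact Subtype.ext (by simpa using hab)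



/-! ### analysis -/

lemma parseval_finite {M : ℕ} [NeZero M] (g : ZMod M → ℝ) :
    ∑ j : ZMod M, ‖∑ c : ZMod M, (g c : ℂ) * ZMod.stdAddChar (j * c)‖ ^ 2 = M * ∑ c : ZMod M, g c ^ 2 := by
  classical
  have key : ((∑ j : ZMod M, ‖∑ c : ZMod M, (g c : ℂ) * ZMod.stdAddChar (j * c)‖ ^ 2 : ℝ) : ℂ)
      = ((M * ∑ c : ZMod M, g c ^ 2 : ℝ) : ℂ) := by
    push_cast
    have h1 : ∀ j : ZMod M, ((‖∑ c : ZMod M, (g c : ℂ) * ZMod.stdAddChar (j * c)‖ : ℂ)) ^ 2 =
        ∑ c : ZMod M, ∑ c' : ZMod M, (g c : ℂ) * (g c') * ZMod.stdAddChar (j * (c - c')) := by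
      intro j
      rw [← Complex.mul_conj', map_sum, sum_mul_sum]
      refine sum_congr rfl (fun c _ => sum_congr rfl (fun c' _ => ?_))
      rw [map_mul (starRingEnd ℂ), Complex.conj_ofReal, ← AddChar.map_neg_eq_conj]
      have : j * (c - c') = j * c + -(j * c') := by ring
      rw [this, AddChar.map_add_eq_mul]
      ring
    rw [sum_congr rfl (fun j _ => h1 j), sum_comm]
    have h2 : ∀ c : ZMod M, ∑ j : ZMod M, ∑ c' : ZMod M, (g c : ℂ) * (g c') * ZMod.stdAddChar (j * (c - c')) = M * (g c : ℂ) ^ 2 := by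
      intro c
      rw [sum_comm]
      have h3 : ∀ c' : ZMod M, ∑ j : ZMod M, (g c : ℂ) * (g c') * ZMod.stdAddChar (j * (c - c')) =
          if c' = c then M * (g c : ℂ) ^ 2 else 0 := by
        intro c'
        rw [← mul_sum, AddChar.sum_mulShift (c - c') (ZMod.isPrimitive_stdAddChar M)]
        by_cases h : c' = c
        · subst h; simp; ring
        · have : c - c' ≠ 0 := fun h' => h (sub_eq_zero.1 h').symm
          simp [this, h]
      rw [sum_congr rfl (fun c' _ => h3 c')]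
      simp
    rw [sum_congr rfl (fun c _ => h2 c), mul_sum]
  exact_mod_cast key

/-- residue class sums -/
noncomputable def gc (M : ℕ) (c : ℕ → ℝ) (r : ℝ) (x : ZMod M) : ℝ := ∑' t : ℕ, c (x.val + M * t) * r ^ (x.val + M * t)

lemma summ_bdd {c : ℕ → ℝ} (hc0 : ∀ m, 0 ≤ c m) (hc1 : ∀ m, c m ≤ 1) {r : ℝ} (hr0 : 0 ≤ r) (hr1 : r < 1) :
    Summable (fun m => c m * r ^ m) := by
  refine Summable.of_nonneg_of_le (fun m => mul_nonneg (hc0 m) (pow_nonneg hr0 m)) (fun m => ?_) (summable_geometric_of_lt_one hr0 hr1)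
  exact mul_le_of_le_one_left (pow_nonneg hr0 m) (hc1 m)

lemma ev_root {M : ℕ} [NeZero M] {c : ℕ → ℝ} (hc0 : ∀ m, 0 ≤ c m) (hc1 : ∀ m, c m ≤ 1) {r : ℝ} (hr0 : 0 ≤ r) (hr1 : r < 1)
    (j : ZMod M) : ∑' m : ℕ, (c m : ℂ) * ((r : ℂ) * ZMod.stdAddChar j) ^ m = ∑ x : ZMod M, (gc M c r x : ℂ) * ZMod.stdAddChar (j * x) := by
  have hnorm : ‖(ZMod.stdAddChar j : ℂ)‖ = 1 := AddChar.norm_apply _ _
  have hsum : Summable (fun m : ℕ => (c m : ℂ) * ((r : ℂ) * ZMod.stdAddChar j) ^ m) := by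
    apply Summable.of_norm
    refine (summ_bdd hc0 hc1 hr0 hr1).congr ?_
    intro m
    rw [norm_mul, norm_pow, norm_mul, hnorm, mul_one, Complex.norm_real, Complex.norm_real, Real.norm_of_nonneg (hc0 m), Real.norm_of_nonneg hr0]
  rw [Nat.sumByResidueClasses hsum M]
  refine sum_congr rfl ?_
  intro x _
  unfold gc
  rw [Complex.ofReal_tsum, ← tsum_mul_right]
  refine tsum_congr ?_
  intro t
  have h1 : (ZMod.stdAddChar j : ℂ) ^ (x.val + M * t) = ZMod.stdAddChar (j * x) := by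
    rw [← AddChar.map_nsmul_eq_pow]
    congr 1
    rw [nsmul_eq_mul]
    push_cast
    simp
    ring
  rw [mul_pow, h1]
  push_cast
  ring


lemma gc_summable {M : ℕ} [NeZero M] {c : ℕ → ℝ} (hc0 : ∀ m, 0 ≤ c m) (hc1 : ∀ m, c m ≤ 1) {r : ℝ} (hr0 : 0 ≤ r) (hr1 : r < 1)
    (x : ZMod M) : Summable (fun t : ℕ => c (x.val + M * t) * r ^ (x.val + M * t)) := by
  refine (summ_bdd hc0 hc1 hr0 hr1).comp_injective (i := fun t : ℕ => x.val + M * t) ?_
  intro t t' h
  have hM : 0 < M := Nat.pos_of_ne_zero (NeZero.ne M)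
  have : M * t = M * t' := by simpa using h
  exact Nat.eq_of_mul_eq_mul_left hM this

lemma gc_nonneg {M : ℕ} {c : ℕ → ℝ} (hc0 : ∀ m, 0 ≤ c m) {r : ℝ} (hr0 : 0 ≤ r) (x : ZMod M) : 0 ≤ gc M c r x :=
  tsum_nonneg (fun t => mul_nonneg (hc0 _) (pow_nonneg hr0 _))

lemma sum_gc {M : ℕ} [NeZero M] {c : ℕ → ℝ} (hc0 : ∀ m, 0 ≤ c m) (hc1 : ∀ m, c m ≤ 1) {r : ℝ} (hr0 : 0 ≤ r) (hr1 : r < 1) :
    ∑ x : ZMod M, gc M c r x = ∑' m : ℕ, c m * r ^ m :=
  (Nat.sumByResidueClasses (summ_bdd hc0 hc1 hr0 hr1) M).symm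

lemma parseval {M : ℕ} [NeZero M] {c : ℕ → ℝ} (hc0 : ∀ m, 0 ≤ c m) (hc1 : ∀ m, c m ≤ 1) {r : ℝ} (hr0 : 0 ≤ r) (hr1 : r < 1) :
    ∑ j : ZMod M, ‖∑' m : ℕ, (c m : ℂ) * ((r : ℂ) * ZMod.stdAddChar j) ^ m‖ ^ 2 = M * ∑ x : ZMod M, gc M c r x ^ 2 := by
  rw [← parseval_finite]
  refine sum_congr rfl ?_
  intro j _
  rw [ev_root hc0 hc1 hr0 hr1]

lemma parseval_lower {M : ℕ} [NeZero M] {c : ℕ → ℝ} (hc0 : ∀ m, 0 ≤ c m) (hc1 : ∀ m, c m ≤ 1) {r : ℝ} (hr0 : 0 ≤ r) (hr1 : r < 1) :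
    M * ∑' m : ℕ, c m ^ 2 * (r ^ 2) ^ m ≤ ∑ j : ZMod M, ‖∑' m : ℕ, (c m : ℂ) * ((r : ℂ) * ZMod.stdAddChar j) ^ m‖ ^ 2 := by
  rw [parseval hc0 hc1 hr0 hr1]
  refine mul_le_mul_of_nonneg_left ?_ (by positivity)
  have hsq : ∀ m, c m ^ 2 * (r ^ 2) ^ m = (c m * r ^ m) ^ 2 := by intro m; ring
  have hs : Summable (fun m => c m ^ 2 * (r ^ 2) ^ m) := by
    have := summ_bdd (c := fun m => c m ^ 2) (fun m => by positivity) (fun m => by
      have := hc0 m; have := hc1 m; nlinarith) (r := r ^ 2) (by positivity) (by nlinarith)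
    exact this
  rw [Nat.sumByResidueClasses hs M]
  refine sum_le_sum ?_
  intro x _
  have hsx := gc_summable hc0 hc1 hr0 hr1 x
  have h1 : ∀ t : ℕ, c (x.val + M * t) * r ^ (x.val + M * t) ≤ gc M c r x := by
    intro t
    exact hsx.le_tsum t (fun t' _ => mul_nonneg (hc0 _) (pow_nonneg hr0 _))
  have h2 : gc M c r x ^ 2 = ∑' t : ℕ, (c (x.val + M * t) * r ^ (x.val + M * t)) * gc M c r x := by
    rw [tsum_mul_right, sq]
    rfl
  rw [h2]
  refine Summable.tsum_le_tsum ?_ ?_ (hsx.mul_right _)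
  · intro t
    rw [hsq, sq]
    exact mul_le_mul_of_nonneg_left (h1 t) (mul_nonneg (hc0 _) (pow_nonneg hr0 _))
  · refine hs.comp_injective (i := fun t : ℕ => x.val + M * t) ?_
    intro t t' h
    have hM : 0 < M := Nat.pos_of_ne_zero (NeZero.ne M)
    have : M * t = M * t' := by simpa using h
    exact Nat.eq_of_mul_eq_mul_left hM this

lemma parseval_upper {M : ℕ} [NeZero M] {c : ℕ → ℝ} (hc0 : ∀ m, 0 ≤ c m) (hc1 : ∀ m, c m ≤ 1) {r : ℝ} (hr0 : 0 ≤ r) (hr1 : r < 1) :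
    ∑ j : ZMod M, ‖∑' m : ℕ, (c m : ℂ) * ((r : ℂ) * ZMod.stdAddChar j) ^ m‖ ^ 2 ≤ M * ((1 - r ^ M)⁻¹ * ∑' m : ℕ, c m * r ^ m) := by
  have hM : 0 < M := Nat.pos_of_ne_zero (NeZero.ne M)
  rw [parseval hc0 hc1 hr0 hr1]
  refine mul_le_mul_of_nonneg_left ?_ (by positivity)
  rw [← sum_gc (M := M) hc0 hc1 hr0 hr1, mul_sum]
  refine sum_le_sum ?_
  intro x _
  rw [sq]
  refine mul_le_mul_of_nonneg_right ?_ (gc_nonneg hc0 hr0 x)
  have hrM1 : r ^ M < 1 := pow_lt_one₀ hr0 hr1 (by omega)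
  have hg := hasSum_geometric_of_lt_one (pow_nonneg hr0 M) hrM1
  rw [← hg.tsum_eq]
  refine Summable.tsum_le_tsum ?_ (gc_summable hc0 hc1 hr0 hr1 x) hg.summable
  intro t
  calc c (x.val + M * t) * r ^ (x.val + M * t) ≤ 1 * r ^ (x.val + M * t) := mul_le_mul_of_nonneg_right (hc1 _) (pow_nonneg hr0 _)
    _ = r ^ x.val * (r ^ M) ^ t := by rw [one_mul, pow_add, pow_mul]
    _ ≤ 1 * (r ^ M) ^ t := mul_le_mul_of_nonneg_right (pow_le_one₀ hr0 hr1.le) (by positivity)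
    _ = (r ^ M) ^ t := one_mul _

/-- L1 average from L2 average -/
lemma avg_upper {M : ℕ} [NeZero M] {c : ℕ → ℝ} (hc0 : ∀ m, 0 ≤ c m) (hc1 : ∀ m, c m ≤ 1) {r : ℝ} (hr0 : 0 ≤ r) (hr1 : r < 1) :
    ∑ j : ZMod M, ‖∑' m : ℕ, (c m : ℂ) * ((r : ℂ) * ZMod.stdAddChar j) ^ m‖ ≤ M * Real.sqrt ((1 - r ^ M)⁻¹ * ∑' m : ℕ, c m * r ^ m) := by
  have hM : 0 < M := Nat.pos_of_ne_zero (NeZero.ne M)
  have h1 := parseval_upper (M := M) hc0 hc1 hr0 hr1
  set w : ZMod M → ℝ := fun j => ‖∑' m : ℕ, (c m : ℂ) * ((r : ℂ) * ZMod.stdAddChar j) ^ m‖ with hw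
  have h2 : (∑ j : ZMod M, w j) ^ 2 ≤ M * ∑ j : ZMod M, w j ^ 2 := by
    have := sq_sum_le_card_mul_sum_sq (s := (univ : Finset (ZMod M))) (f := w)
    rw [card_univ, ZMod.card] at this
    exact this
  have h3 : (∑ j : ZMod M, w j) ^ 2 ≤ (M : ℝ) ^ 2 * ((1 - r ^ M)⁻¹ * ∑' m : ℕ, c m * r ^ m) := by
    refine h2.trans ?_
    rw [sq (M : ℝ), mul_assoc]
    exact mul_le_mul_of_nonneg_left h1 (by positivity)
  have h4 : 0 ≤ ∑ j : ZMod M, w j := sum_nonneg (fun j _ => norm_nonneg _)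
  calc ∑ j : ZMod M, w j = Real.sqrt ((∑ j : ZMod M, w j) ^ 2) := (Real.sqrt_sq h4).symm
    _ ≤ Real.sqrt ((M : ℝ) ^ 2 * ((1 - r ^ M)⁻¹ * ∑' m : ℕ, c m * r ^ m)) := Real.sqrt_le_sqrt h3
    _ = M * Real.sqrt ((1 - r ^ M)⁻¹ * ∑' m : ℕ, c m * r ^ m) := by
        rw [Real.sqrt_mul (by positivity), Real.sqrt_sq (by positivity)]

/-- lower bound for `|1 - r ω^j|` -/
lemma one_sub_lower {M : ℕ} [NeZero M] {r : ℝ} (hr0 : 0 ≤ r) (hr1 : r < 1) (j : ZMod M) (hj : j ≠ 0) :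
    2 * (min (j.val : ℝ) (M - j.val)) / M ≤ ‖1 - (r : ℂ) * ZMod.stdAddChar j‖ := by
  have hM : 0 < M := Nat.pos_of_ne_zero (NeZero.ne M)
  have hMR : (0:ℝ) < M := by exact_mod_cast hM
  have hnorm : ‖(ZMod.stdAddChar j : ℂ)‖ = 1 := AddChar.norm_apply _ _
  have hval : j.val < M := ZMod.val_lt j
  have hval0 : 0 < j.val := by
    rcases Nat.eq_zero_or_pos j.val with h | h
    · exact absurd ((ZMod.val_eq_zero j).1 h) hj
    · exact h
  have h1 : ‖1 - (ZMod.stdAddChar j : ℂ)‖ ≤ 2 * ‖1 - (r : ℂ) * ZMod.stdAddChar j‖ := by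
    have e1 : 1 - r ≤ ‖1 - (r : ℂ) * ZMod.stdAddChar j‖ := by
      have := norm_sub_norm_le (1 : ℂ) ((r : ℂ) * ZMod.stdAddChar j)
      rw [norm_one, norm_mul, hnorm, Complex.norm_real, Real.norm_of_nonneg hr0, mul_one] at this
      exact this
    have e2 : ‖1 - (ZMod.stdAddChar j : ℂ)‖ ≤ ‖1 - (r : ℂ) * ZMod.stdAddChar j‖ + ‖((r : ℂ) - 1) * ZMod.stdAddChar j‖ := by
      have : 1 - (ZMod.stdAddChar j : ℂ) = (1 - (r : ℂ) * ZMod.stdAddChar j) + ((r : ℂ) - 1) * ZMod.stdAddChar j := by ring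
      rw [this]
      exact norm_add_le _ _
    have e3 : ‖((r : ℂ) - 1) * ZMod.stdAddChar j‖ = 1 - r := by
      rw [norm_mul, hnorm, mul_one]
      have : ((r : ℂ) - 1) = ((r - 1 : ℝ) : ℂ) := by push_cast; ring
      rw [this, Complex.norm_real, Real.norm_of_nonpos (by linarith)]
      ring
    linarith
  have h2 : ‖1 - (ZMod.stdAddChar j : ℂ)‖ = 2 * Real.sin (Real.pi * j.val / M) := by
    have e1 : (ZMod.stdAddChar j : ℂ) = Complex.exp (Complex.I * ((2 * Real.pi * j.val / M : ℝ) : ℂ)) := by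
      have : j = ((j.val : ℤ) : ZMod M) := by simp
      conv_lhs => rw [this]
      rw [ZMod.stdAddChar_coe]
      congr 1
      push_cast
      ring
    rw [norm_sub_rev, e1, Complex.norm_exp_I_mul_ofReal_sub_one]
    have e2 : 2 * Real.pi * j.val / M / 2 = Real.pi * j.val / M := by ring
    rw [e2, Real.norm_of_nonneg]
    have : 0 ≤ Real.sin (Real.pi * j.val / M) := by
      apply Real.sin_nonneg_of_nonneg_of_le_pi
      · positivity
      · rw [div_le_iff₀ hMR]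
        have : (j.val : ℝ) ≤ M := by exact_mod_cast hval.le
        have := Real.pi_pos
        nlinarith
    positivity
  have h3 : 2 * (min (j.val : ℝ) (M - j.val)) / M ≤ Real.sin (Real.pi * j.val / M) := by
    have hpi := Real.pi_pos
    rcases le_total ((j.val : ℝ)) (M - j.val) with h | h
    · rw [min_eq_left h]
      have := Real.mul_le_sin (x := Real.pi * j.val / M) (by positivity) (by
        rw [div_le_div_iff₀ hMR (by norm_num)]
        nlinarith)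
      refine le_trans (le_of_eq ?_) this
      field_simp
    · rw [min_eq_right h]
      have e1 : Real.sin (Real.pi * j.val / M) = Real.sin (Real.pi * (M - j.val) / M) := by
        have : Real.pi * (M - j.val) / M = Real.pi - Real.pi * j.val / M := by field_simp
        rw [this, Real.sin_pi_sub]
      rw [e1]
      have hle : (j.val : ℝ) ≤ M := by exact_mod_cast hval.le
      have := Real.mul_le_sin (x := Real.pi * (M - j.val) / M) (by
        apply div_nonneg (mul_nonneg hpi.le (by linarith)) hMR.le) (by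
        rw [div_le_div_iff₀ hMR (by norm_num)]
        nlinarith)
      refine le_trans (le_of_eq ?_) this
      field_simp
  rw [h2] at h1
  linarith

/-- harmonic bound -/
lemma sum_inv_one_sub {M : ℕ} [NeZero M] {r : ℝ} (hr0 : 0 ≤ r) (hr1 : r < 1) :
    ∑ j ∈ (univ : Finset (ZMod M)).erase 0, ‖1 - (r : ℂ) * ZMod.stdAddChar j‖⁻¹ ≤ M * (1 + Real.log M) := by
  classical
  have hM : 0 < M := Nat.pos_of_ne_zero (NeZero.ne M)
  have hMR : (0:ℝ) < M := by exact_mod_cast hM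
  have h1 : ∀ j ∈ (univ : Finset (ZMod M)).erase 0, ‖1 - (r : ℂ) * ZMod.stdAddChar j‖⁻¹ ≤ M / 2 * ((j.val : ℝ)⁻¹ + ((M - j.val : ℕ) : ℝ)⁻¹) := by
    intro j hj
    have hj0 := ne_of_mem_erase hj
    have hval : j.val < M := ZMod.val_lt j
    have hval0 : 0 < j.val := by
      rcases Nat.eq_zero_or_pos j.val with h | h
      · exact absurd ((ZMod.val_eq_zero j).1 h) hj0
      · exact h
    have hv : (0:ℝ) < j.val := by exact_mod_cast hval0
    have hv2 : (0:ℝ) < (M:ℝ) - j.val := by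
      have : (j.val : ℝ) < M := by exact_mod_cast hval
      linarith
    have hlow := one_sub_lower hr0 hr1 j hj0
    have hmin : 0 < min (j.val : ℝ) (M - j.val) := lt_min hv hv2
    have hpos : 0 < 2 * (min (j.val : ℝ) (M - j.val)) / M := by positivity
    rw [Nat.cast_sub hval.le]
    calc ‖1 - (r : ℂ) * ZMod.stdAddChar j‖⁻¹ ≤ (2 * (min (j.val : ℝ) (M - j.val)) / M)⁻¹ := inv_anti₀ hpos hlow
      _ = M / 2 * (min (j.val : ℝ) (M - j.val))⁻¹ := by field_simp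
      _ ≤ M / 2 * ((j.val : ℝ)⁻¹ + ((M : ℝ) - j.val)⁻¹) := by
        refine mul_le_mul_of_nonneg_left ?_ (by positivity)
        rcases le_total ((j.val : ℝ)) (M - j.val) with h | h
        · rw [min_eq_left h]
          have : 0 ≤ ((M : ℝ) - j.val)⁻¹ := by positivity
          linarith
        · rw [min_eq_right h]
          have : 0 ≤ (j.val : ℝ)⁻¹ := by positivity
          linarith
  refine (sum_le_sum h1).trans ?_
  rw [← mul_sum, sum_add_distrib]
  have hharm : ∑ i ∈ Icc 1 M, ((i : ℝ))⁻¹ ≤ 1 + Real.log M := by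
    have := harmonic_le_one_add_log M
    rw [harmonic_eq_sum_Icc] at this
    push_cast at this
    exact this
  have hA : ∑ j ∈ (univ : Finset (ZMod M)).erase 0, (j.val : ℝ)⁻¹ ≤ ∑ i ∈ Icc 1 M, ((i : ℝ))⁻¹ := by
    have hinj : Set.InjOn (fun j : ZMod M => j.val) (((univ : Finset (ZMod M)).erase 0 : Finset (ZMod M)) : Set (ZMod M)) :=
      fun a _ b _ h => ZMod.val_injective M h
    rw [← sum_image (f := fun i : ℕ => ((i : ℝ))⁻¹) hinj]
    refine sum_le_sum_of_subset_of_nonneg ?_ (fun i _ _ => by positivity)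
    intro i hi
    rw [mem_image] at hi
    obtain ⟨j, hj, rfl⟩ := hi
    have hj0 := ne_of_mem_erase hj
    have hval : j.val < M := ZMod.val_lt j
    have hval0 : 0 < j.val := by
      rcases Nat.eq_zero_or_pos j.val with h | h
      · exact absurd ((ZMod.val_eq_zero j).1 h) hj0
      · exact h
    rw [mem_Icc]; omega
  have hB : ∑ j ∈ (univ : Finset (ZMod M)).erase 0, ((M - j.val : ℕ) : ℝ)⁻¹ ≤ ∑ i ∈ Icc 1 M, ((i : ℝ))⁻¹ := by
    have hinj : Set.InjOn (fun j : ZMod M => M - j.val) (((univ : Finset (ZMod M)).erase 0 : Finset (ZMod M)) : Set (ZMod M)) := by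
      intro a _ b _ h
      have ha : a.val < M := ZMod.val_lt a
      have hb : b.val < M := ZMod.val_lt b
      simp only at h
      exact ZMod.val_injective M (by omega)
    rw [← sum_image (f := fun i : ℕ => ((i : ℝ))⁻¹) hinj]
    refine sum_le_sum_of_subset_of_nonneg ?_ (fun i _ _ => by positivity)
    intro i hi
    rw [mem_image] at hi
    obtain ⟨j, hj, rfl⟩ := hi
    have hval : j.val < M := ZMod.val_lt j
    rw [mem_Icc]; omega
  have hM2 : (0:ℝ) ≤ M / 2 := by positivity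
  nlinarith [mul_le_mul_of_nonneg_left (hA.trans hharm) hM2, mul_le_mul_of_nonneg_left (hB.trans hharm) hM2]



/-- Newton-type inequality -/
lemma newton_ineq (k : ℕ) (hk : 1 ≤ k) (ε : ℂ) (hε : ‖ε‖ = 1) (P G : ℕ → ℂ) (Y : ℝ) (hY : 1 ≤ Y)
    (hP : ∀ i, 2 ≤ i → i ≤ k → ‖P i‖ ≤ Y) (hG0 : G 0 = 1)
    (hG : ∀ j ≤ k, (j : ℂ) * G j = ∑ i ∈ range j, ε ^ i * (P (i + 1) * G (j - 1 - i))) :
    ‖P 1‖ ^ 2 ≤ (4 * k * k.factorial : ℝ) * Y ∨ ‖P 1‖ ^ k ≤ (4 * k * k.factorial : ℝ) * ‖G k‖ := by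
  by_cases hX : ‖P 1‖ ^ 2 ≤ (4 * k * k.factorial : ℝ) * Y
  · exact Or.inl hX
  right
  push Not at hX
  set X := ‖P 1‖ with hXdef
  have hkR : (1:ℝ) ≤ k := by exact_mod_cast hk
  have hfact : (1:ℝ) ≤ k.factorial := by exact_mod_cast Nat.one_le_iff_ne_zero.2 (Nat.factorial_ne_zero k)
  have hK : (4:ℝ) ≤ 4 * k * k.factorial := by nlinarith
  have hX0 : 0 ≤ X := norm_nonneg _
  have hX1 : 1 ≤ X := by
    by_contra hcon
    push Not at hcon
    have : X ^ 2 < 1 := by nlinarith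
    nlinarith
  have hXX : 0 < X ^ 2 := by positivity
  -- main induction
  have key : ∀ j, j ≤ k → ‖G j - P 1 ^ j / (j.factorial : ℂ)‖ * X ^ 2 ≤ 2 * j * (X ^ j * Y) ∧ ‖G j‖ ≤ 2 * X ^ j := by
    intro j
    induction j using Nat.strong_induction_on with
    | _ j ih =>
      intro hjk
      have hmain : ‖G j - P 1 ^ j / (j.factorial : ℂ)‖ * X ^ 2 ≤ 2 * j * (X ^ j * Y) := by
        rcases Nat.eq_zero_or_pos j with h0 | hpos
        · subst h0
          simp [hG0]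
        · obtain ⟨j', rfl⟩ := Nat.exists_eq_add_of_le' hpos
          have hrec := hG (j' + 1) hjk
          rw [sum_range_succ'] at hrec
          simp only [Nat.add_sub_cancel, Nat.sub_zero, pow_zero, one_mul, zero_add] at hrec
          obtain ⟨ih1, ih2⟩ := ih j' (by omega) (by omega)
          have hjR : (0:ℝ) < (j' + 1 : ℕ) := by positivity
          have hjC : ((j' + 1 : ℕ) : ℂ) ≠ 0 := by exact_mod_cast Nat.succ_ne_zero j'
          have hfC : ((j'.factorial : ℕ) : ℂ) ≠ 0 := by exact_mod_cast Nat.factorial_ne_zero j'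
          have e1 : ((j' + 1 : ℕ) : ℂ) * (G (j' + 1) - P 1 ^ (j' + 1) / ((j' + 1).factorial : ℂ)) =
              (∑ i ∈ range j', ε ^ (i + 1) * (P (i + 1 + 1) * G (j' - (i + 1)))) + P 1 * (G j' - P 1 ^ j' / (j'.factorial : ℂ)) := by
            rw [mul_sub, hrec, Nat.factorial_succ]
            push_cast
            push_cast at hjC
            field_simp
            ring
          have e2 : ‖((j' + 1 : ℕ) : ℂ) * (G (j' + 1) - P 1 ^ (j' + 1) / ((j' + 1).factorial : ℂ))‖ * X ^ 2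
              ≤ (2 * j') * (X ^ (j' + 1) * Y) + X * (2 * j' * (X ^ j' * Y)) := by
            rw [e1]
            have e3 : ‖∑ i ∈ range j', ε ^ (i + 1) * (P (i + 1 + 1) * G (j' - (i + 1)))‖ * X ^ 2 ≤ (2 * j') * (X ^ (j' + 1) * Y) := by
              have e4 : ∀ i ∈ range j', ‖ε ^ (i + 1) * (P (i + 1 + 1) * G (j' - (i + 1)))‖ * X ^ 2 ≤ 2 * (X ^ (j' + 1) * Y) := by
                intro i hi
                have hi := mem_range.1 hi
                rw [norm_mul, norm_pow, hε, one_pow, one_mul, norm_mul]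
                have f1 := hP (i + 1 + 1) (by omega) (by omega)
                have f2 := (ih (j' - (i + 1)) (by omega) (by omega)).2
                have f3 : X ^ (j' - (i + 1)) * X ^ 2 ≤ X ^ (j' + 1) := by
                  rw [← pow_add]
                  exact pow_le_pow_right₀ hX1 (by omega)
                calc ‖P (i + 1 + 1)‖ * ‖G (j' - (i + 1))‖ * X ^ 2 ≤ Y * (2 * X ^ (j' - (i + 1))) * X ^ 2 := by
                      refine mul_le_mul_of_nonneg_right (mul_le_mul f1 f2 (norm_nonneg _) (by linarith)) hXX.le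
                  _ = 2 * Y * (X ^ (j' - (i + 1)) * X ^ 2) := by ring
                  _ ≤ 2 * Y * X ^ (j' + 1) := mul_le_mul_of_nonneg_left f3 (by linarith)
                  _ = 2 * (X ^ (j' + 1) * Y) := by ring
              calc ‖∑ i ∈ range j', ε ^ (i + 1) * (P (i + 1 + 1) * G (j' - (i + 1)))‖ * X ^ 2
                  ≤ (∑ i ∈ range j', ‖ε ^ (i + 1) * (P (i + 1 + 1) * G (j' - (i + 1)))‖) * X ^ 2 :=
                    mul_le_mul_of_nonneg_right (norm_sum_le _ _) hXX.le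
                _ = ∑ i ∈ range j', ‖ε ^ (i + 1) * (P (i + 1 + 1) * G (j' - (i + 1)))‖ * X ^ 2 := by rw [sum_mul]
                _ ≤ ∑ i ∈ range j', 2 * (X ^ (j' + 1) * Y) := sum_le_sum e4
                _ = (2 * j') * (X ^ (j' + 1) * Y) := by rw [sum_const, card_range, nsmul_eq_mul]; ring
            have e5 : ‖P 1 * (G j' - P 1 ^ j' / (j'.factorial : ℂ))‖ * X ^ 2 ≤ X * (2 * j' * (X ^ j' * Y)) := by
              rw [norm_mul, mul_assoc]
              exact mul_le_mul_of_nonneg_left ih1 hX0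
            have e6 := norm_add_le (∑ i ∈ range j', ε ^ (i + 1) * (P (i + 1 + 1) * G (j' - (i + 1)))) (P 1 * (G j' - P 1 ^ j' / (j'.factorial : ℂ)))
            have e7 := mul_le_mul_of_nonneg_right e6 hXX.le
            linarith
          rw [norm_mul, Complex.norm_natCast] at e2
          have e8 : (2 * j') * (X ^ (j' + 1) * Y) + X * (2 * j' * (X ^ j' * Y)) = 4 * j' * (X ^ (j' + 1) * Y) := by ring
          rw [e8] at e2
          have hnn : 0 ≤ ‖G (j' + 1) - P 1 ^ (j' + 1) / ((j' + 1).factorial : ℂ)‖ * X ^ 2 := by positivity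
          have hYX : 0 ≤ X ^ (j' + 1) * Y := by positivity
          have hj'0 : (0:ℝ) ≤ j' := by positivity
          set W := ‖G (j' + 1) - P 1 ^ (j' + 1) / ((j' + 1).factorial : ℂ)‖ * X ^ 2 with hW
          have e9 : ((j' + 1 : ℕ) : ℝ) * W ≤ 4 * j' * (X ^ (j' + 1) * Y) := by
            rw [hW]; linarith
          push_cast at e9 ⊢
          -- W ≤ 4 j'/(j'+1) V ≤ 2 (j'+1) V
          have e10 : (j' + 1 : ℝ) * W ≤ (j' + 1) * (2 * (j' + 1) * (X ^ (j' + 1) * Y)) := by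
            refine e9.trans ?_
            nlinarith [mul_nonneg (sq_nonneg ((j' : ℝ) - 1)) hYX, mul_nonneg hj'0 hYX, mul_nonneg (sq_nonneg (j' : ℝ)) hYX]
          exact le_of_mul_le_mul_left e10 (by positivity)
      refine ⟨hmain, ?_⟩
      have hjkR : (j : ℝ) ≤ k := by exact_mod_cast hjk
      have e1 : ‖G j - P 1 ^ j / (j.factorial : ℂ)‖ ≤ X ^ j := by
        have h1 : ‖G j - P 1 ^ j / (j.factorial : ℂ)‖ * X ^ 2 ≤ X ^ j * X ^ 2 := by
          refine hmain.trans ?_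
          have h2 : 2 * (j : ℝ) * Y ≤ X ^ 2 := by
            have : 2 * (j : ℝ) ≤ 4 * k * k.factorial := by nlinarith
            nlinarith
          have h3 : 0 ≤ X ^ j := by positivity
          nlinarith [mul_le_mul_of_nonneg_left h2 h3]
        exact le_of_mul_le_mul_right h1 hXX
      have e2 : ‖P 1 ^ j / (j.factorial : ℂ)‖ ≤ X ^ j := by
        rw [norm_div, norm_pow, Complex.norm_natCast]
        apply div_le_self (by positivity)
        exact_mod_cast Nat.one_le_iff_ne_zero.2 (Nat.factorial_ne_zero j)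
      have e3 : ‖G j‖ ≤ ‖G j - P 1 ^ j / (j.factorial : ℂ)‖ + ‖P 1 ^ j / (j.factorial : ℂ)‖ := by
        have := norm_add_le (G j - P 1 ^ j / (j.factorial : ℂ)) (P 1 ^ j / (j.factorial : ℂ))
        simpa using this
      linarith
  obtain ⟨h1, -⟩ := key k le_rfl
  -- conclude
  have hXk : 0 ≤ X ^ k := by positivity
  have h2 : ‖G k - P 1 ^ k / (k.factorial : ℂ)‖ ≤ X ^ k / (2 * k.factorial) := by
    have h3 : ‖G k - P 1 ^ k / (k.factorial : ℂ)‖ * X ^ 2 ≤ X ^ k / (2 * k.factorial) * X ^ 2 := by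
      refine h1.trans ?_
      have h4 : 2 * (k : ℝ) * Y ≤ X ^ 2 / (2 * k.factorial) := by
        rw [le_div_iff₀ (by positivity)]
        nlinarith
      calc 2 * (k : ℝ) * (X ^ k * Y) = X ^ k * (2 * k * Y) := by ring
        _ ≤ X ^ k * (X ^ 2 / (2 * k.factorial)) := mul_le_mul_of_nonneg_left h4 hXk
        _ = X ^ k / (2 * k.factorial) * X ^ 2 := by ring
    exact le_of_mul_le_mul_right h3 hXX
  have h5 : ‖P 1 ^ k / (k.factorial : ℂ)‖ = X ^ k / k.factorial := by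
    rw [norm_div, norm_pow, Complex.norm_natCast]
  have h6 : ‖P 1 ^ k / (k.factorial : ℂ)‖ ≤ ‖G k‖ + ‖G k - P 1 ^ k / (k.factorial : ℂ)‖ := by
    have := norm_sub_norm_le (P 1 ^ k / (k.factorial : ℂ)) (G k)
    rw [norm_sub_rev] at this
    linarith
  rw [h5] at h6
  have h7 : X ^ k / k.factorial = 2 * (X ^ k / (2 * k.factorial)) := by field_simp
  have h8 : X ^ k / (2 * k.factorial) ≤ ‖G k‖ := by linarith
  rw [div_le_iff₀ (by positivity)] at h8
  refine h8.trans ?_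
  have : 0 ≤ ‖G k‖ := norm_nonneg _
  nlinarith [mul_nonneg this (by positivity : (0:ℝ) ≤ k.factorial), mul_nonneg (mul_nonneg this (by positivity : (0:ℝ) ≤ k.factorial)) (by linarith : (0:ℝ) ≤ (k:ℝ) - 1)]

/-- evaluation of a coefficient sequence -/
noncomputable def ev (g : ℕ → ℂ) (z : ℂ) : ℂ := ∑' n, g n * z ^ n

lemma ev_summable {g : ℕ → ℂ} {k : ℕ} (hg : ∀ n, ‖g n‖ ≤ ((n : ℝ) + 1) ^ k) {z : ℂ} (hz : ‖z‖ < 1) :
    Summable (fun n => ‖g n * z ^ n‖) := by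
  have h1 : Summable (fun n : ℕ => (((n : ℝ) + 1) ^ k) * ‖z‖ ^ n) := by
    have h2 := summable_pow_mul_geometric_of_norm_lt_one (R := ℝ) k (r := ‖z‖) (by simpa using hz)
    have h3 : Summable (fun n : ℕ => (2:ℝ) ^ k * ((n : ℝ) ^ k * ‖z‖ ^ n) + 2 ^ k * ‖z‖ ^ n) :=
      (h2.mul_left _).add ((summable_geometric_of_lt_one (norm_nonneg z) hz).mul_left _)
    refine Summable.of_nonneg_of_le (fun n => by positivity) (fun n => ?_) h3
    have h4 : ((n : ℝ) + 1) ^ k ≤ 2 ^ k * (n : ℝ) ^ k + 2 ^ k := by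
      rcases Nat.eq_zero_or_pos n with h | h
      · subst h
        have : (1:ℝ) ≤ 2 ^ k := one_le_pow₀ (by norm_num)
        simp only [CharP.cast_eq_zero, zero_add, one_pow]
        have : (0:ℝ) ≤ 2 ^ k * 0 ^ k := by positivity
        linarith
      · have h5 : (1:ℝ) ≤ n := by exact_mod_cast h
        have h6 : ((n : ℝ) + 1) ^ k ≤ (2 * n) ^ k := pow_le_pow_left₀ (by positivity) (by linarith) k
        rw [mul_pow] at h6
        have : (0:ℝ) ≤ 2 ^ k := by positivity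
        linarith
    have h5 : 0 ≤ ‖z‖ ^ n := by positivity
    nlinarith [mul_le_mul_of_nonneg_right h4 h5]
  refine Summable.of_nonneg_of_le (fun n => norm_nonneg _) (fun n => ?_) h1
  rw [norm_mul, norm_pow]
  exact mul_le_mul_of_nonneg_right (hg n) (by positivity)

lemma ev_mul {g h : ℕ → ℂ} {z : ℂ} (hg : Summable (fun n => ‖g n * z ^ n‖)) (hh : Summable (fun n => ‖h n * z ^ n‖)) :
    ev g z * ev h z = ev (fun n => ∑ p ∈ antidiagonal n, g p.1 * h p.2) z := by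
  unfold ev
  rw [tsum_mul_tsum_eq_tsum_sum_antidiagonal_of_summable_norm hg hh]
  refine tsum_congr ?_
  intro n
  rw [sum_mul]
  refine sum_congr rfl ?_
  intro p hp
  rw [HasAntidiagonal.mem_antidiagonal] at hp
  rw [← hp, pow_add]
  ring

/-! ### putting things together -/

lemma q_nonneg (A : Set ℕ) (i m : ℕ) : (0:ℝ) ≤ (q A i m : ℝ) := by
  unfold q; split_ifs <;> simp

lemma q_le_one (A : Set ℕ) (i m : ℕ) : (q A i m : ℝ) ≤ 1 := by
  unfold q; split_ifs <;> simp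

lemma q_sq (A : Set ℕ) (i m : ℕ) : (q A i m : ℝ) ^ 2 = (q A i m : ℝ) := by
  unfold q; split_ifs <;> simp

noncomputable def P (A : Set ℕ) (i : ℕ) (z : ℂ) : ℂ := ev (fun m => ((q A i m : ℝ) : ℂ)) z

noncomputable def S (A : Set ℕ) (i : ℕ) (r : ℝ) : ℝ := ∑' m : ℕ, (q A i m : ℝ) * r ^ m

lemma S_summable (A : Set ℕ) (i : ℕ) {r : ℝ} (hr0 : 0 ≤ r) (hr1 : r < 1) : Summable (fun m => (q A i m : ℝ) * r ^ m) :=
  summ_bdd (q_nonneg A i) (q_le_one A i) hr0 hr1

lemma S_nonneg (A : Set ℕ) (i : ℕ) {r : ℝ} (hr0 : 0 ≤ r) : 0 ≤ S A i r :=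
  tsum_nonneg (fun m => mul_nonneg (q_nonneg A i m) (pow_nonneg hr0 m))

lemma S_le (A : Set ℕ) (i : ℕ) (hi : 2 ≤ i) {r : ℝ} (hr0 : 0 ≤ r) (hr1 : r < 1) : S A i r ≤ S A 1 (r ^ 2) := by
  unfold S
  have hinj : Function.Injective (fun a : ℕ => i * a) := fun a b h => Nat.eq_of_mul_eq_mul_left (by omega) h
  have h1 : ∑' a : ℕ, (q A i (i * a) : ℝ) * r ^ (i * a) = ∑' m : ℕ, (q A i m : ℝ) * r ^ m := by
    refine hinj.tsum_eq (f := fun m : ℕ => (q A i m : ℝ) * r ^ m) ?_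
    intro m hm
    rw [Function.mem_support] at hm
    by_contra hcon
    apply hm
    have : ¬ (i ∣ m ∧ m / i ∈ A) := by
      rintro ⟨⟨a, ha⟩, -⟩
      exact hcon ⟨a, ha.symm⟩
    unfold q
    rw [if_neg this]; simp
  rw [← h1]
  have hr2 : r ^ 2 < 1 := by nlinarith
  refine Summable.tsum_le_tsum ?_ ((S_summable A i hr0 hr1).comp_injective hinj) (S_summable A 1 (by positivity) hr2)
  intro a
  have h2 : q A i (i * a) = q A 1 a := by
    have e1 : i * a / i = a := Nat.mul_div_cancel_left _ (by omega)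
    unfold q
    by_cases ha : a ∈ A
    · rw [if_pos ⟨dvd_mul_right _ _, by rw [e1]; exact ha⟩, if_pos ⟨one_dvd _, by rw [Nat.div_one]; exact ha⟩]
    · rw [if_neg (fun h => ha (by have := h.2; rwa [e1] at this)), if_neg (fun h => ha (by have := h.2; rwa [Nat.div_one] at this))]
  rw [h2, ← pow_mul]
  exact mul_le_mul_of_nonneg_left (pow_le_pow_of_le_one hr0 hr1.le (Nat.mul_le_mul_right _ hi)) (q_nonneg A 1 a)

lemma q_norm_le (A : Set ℕ) (i n : ℕ) : ‖((q A i n : ℝ) : ℂ)‖ ≤ ((n : ℝ) + 1) ^ 0 := by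
  rw [Complex.norm_real, Real.norm_of_nonneg (q_nonneg A i n), pow_zero]
  exact q_le_one A i n

lemma ev_r1 (A : Set ℕ) (k : ℕ) {z : ℂ} (hz : ‖z‖ < 1) : ev (fun n => (r1 A n k : ℂ)) z = P A 1 z ^ k := by
  induction k with
  | zero =>
    unfold ev
    rw [tsum_eq_single 0]
    · beta_reduce; rw [r1_zero]; simp
    · intro n hn
      beta_reduce
      rw [r1_zero, if_neg hn]; simp
  | succ k ih =>
    have hs : Summable (fun n => ‖((r1 A n k : ℕ) : ℂ) * z ^ n‖) := by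
      refine ev_summable (k := k) (fun n => ?_) hz
      rw [Complex.norm_natCast]
      exact_mod_cast r1_le A n k
    rw [pow_succ', ← ih]
    unfold P
    rw [ev_mul (ev_summable (q_norm_le A 1) hz) hs]
    congr 1
    funext n
    have := rec_r1 A k n
    have h2 : ((r1 A n (k + 1) : ℤ) : ℂ) = ((∑ p ∈ antidiagonal n, q A 1 p.1 * (r1 A p.2 k : ℤ) : ℤ) : ℂ) := by rw [this]
    push_cast at h2 ⊢
    exact h2

lemma pt_r1 (A : Set ℕ) (k : ℕ) : ∃ K : ℝ, 1 ≤ K ∧ ∀ z : ℂ, ‖z‖ < 1 →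
    ‖P A 1 z‖ ^ 2 ≤ K * (1 + ∑ i ∈ Icc 2 k, ‖P A i z‖) ∨ ‖P A 1 z‖ ^ k ≤ K * ‖ev (fun n => (r1 A n k : ℂ)) z‖ := by
  refine ⟨1, le_refl _, ?_⟩
  intro z hz
  right
  rw [ev_r1 A k hz, norm_pow, one_mul]

/-- pointwise inequality from a Newton type recursion -/
lemma pt_rec (A : Set ℕ) (k : ℕ) (hk : 1 ≤ k) (ε : ℤ) (hε : ‖(ε : ℂ)‖ = 1) (g : ℕ → ℕ → ℕ)
    (hg0 : ∀ n, g n 0 = if n = 0 then 1 else 0) (hgb : ∀ n j, g n j ≤ (n + 1) ^ j)
    (hrec : ∀ j n : ℕ, (j : ℤ) * (g n j : ℤ) = ∑ i ∈ range j, ε ^ i * ∑ p ∈ antidiagonal n, q A (i + 1) p.1 * (g p.2 (j - 1 - i) : ℤ)) :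
    ∃ K : ℝ, 1 ≤ K ∧ ∀ z : ℂ, ‖z‖ < 1 →
    ‖P A 1 z‖ ^ 2 ≤ K * (1 + ∑ i ∈ Icc 2 k, ‖P A i z‖) ∨ ‖P A 1 z‖ ^ k ≤ K * ‖ev (fun n => (g n k : ℂ)) z‖ := by
  have hkR : (1:ℝ) ≤ k := by exact_mod_cast hk
  have hfact : (1:ℝ) ≤ k.factorial := by exact_mod_cast Nat.one_le_iff_ne_zero.2 (Nat.factorial_ne_zero k)
  refine ⟨4 * k * k.factorial, by nlinarith, ?_⟩
  intro z hz
  refine newton_ineq k hk (ε : ℂ) hε (fun i => P A i z) (fun j => ev (fun n => (g n j : ℂ)) z) (1 + ∑ i ∈ Icc 2 k, ‖P A i z‖) ?_ ?_ ?_ ?_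
  · have : 0 ≤ ∑ i ∈ Icc 2 k, ‖P A i z‖ := sum_nonneg (fun _ _ => norm_nonneg _)
    linarith
  · intro i h1 h2
    have := single_le_sum (f := fun i => ‖P A i z‖) (s := Icc 2 k) (fun _ _ => norm_nonneg _) (mem_Icc.2 ⟨h1, h2⟩)
    linarith
  · beta_reduce
    unfold ev
    rw [tsum_eq_single 0]
    · beta_reduce; rw [hg0]; simp
    · intro n hn
      beta_reduce
      rw [hg0, if_neg hn]; simp
  · intro j _
    beta_reduce
    have hs : ∀ j' : ℕ, Summable (fun n => ‖((g n j' : ℕ) : ℂ) * z ^ n‖) := by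
      intro j'
      refine ev_summable (k := j') (fun n => ?_) hz
      rw [Complex.norm_natCast]
      exact_mod_cast hgb n j'
    have hq : ∀ i : ℕ, Summable (fun n => ‖((q A i n : ℝ) : ℂ) * z ^ n‖) := fun i => ev_summable (q_norm_le A i) hz
    have h1 : ∀ i ∈ range j, (ε : ℂ) ^ i * (P A (i + 1) z * ev (fun n => (g n (j - 1 - i) : ℂ)) z)
        = ∑' n : ℕ, ((ε : ℂ) ^ i * (∑ p ∈ antidiagonal n, ((q A (i + 1) p.1 : ℝ) : ℂ) * (g p.2 (j - 1 - i) : ℂ))) * z ^ n := by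
      intro i _
      unfold P
      rw [ev_mul (hq _) (hs _)]
      unfold ev
      rw [← tsum_mul_left]
      refine tsum_congr ?_
      intro n; ring
    rw [sum_congr rfl h1]
    have hsm : ∀ i ∈ range j, Summable (fun n : ℕ => ((ε : ℂ) ^ i * (∑ p ∈ antidiagonal n, ((q A (i + 1) p.1 : ℝ) : ℂ) * (g p.2 (j - 1 - i) : ℂ))) * z ^ n) := by
      intro i _
      have := summable_norm_sum_mul_antidiagonal_of_summable_norm (hq (i + 1)) (hs (j - 1 - i))
      have h2 := this.of_norm.mul_left ((ε : ℂ) ^ i)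
      refine h2.congr ?_
      intro n
      rw [mul_assoc, sum_mul]
      congr 1
      refine sum_congr rfl ?_
      intro p hp
      rw [HasAntidiagonal.mem_antidiagonal] at hp
      rw [← hp, pow_add]
      ring
    rw [← Summable.tsum_finsetSum hsm]
    unfold ev
    rw [← tsum_mul_left]
    refine tsum_congr ?_
    intro n
    have h3 : (((j : ℤ) * (g n j : ℤ) : ℤ) : ℂ) = ((∑ i ∈ range j, ε ^ i * ∑ p ∈ antidiagonal n, q A (i + 1) p.1 * (g p.2 (j - 1 - i) : ℤ) : ℤ) : ℂ) := by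
      rw [hrec]
    rw [← sum_mul]
    push_cast at h3 ⊢
    rw [← h3]
    ring

lemma pt_r2 (A : Set ℕ) (k : ℕ) (hk : 1 ≤ k) : ∃ K : ℝ, 1 ≤ K ∧ ∀ z : ℂ, ‖z‖ < 1 →
    ‖P A 1 z‖ ^ 2 ≤ K * (1 + ∑ i ∈ Icc 2 k, ‖P A i z‖) ∨ ‖P A 1 z‖ ^ k ≤ K * ‖ev (fun n => (r2 A n k : ℂ)) z‖ :=
  pt_rec A k hk 1 (by simp) (fun n j => r2 A n j) (r2_zero A) (fun n j => (r2_le_r1 A n j).trans (r1_le A n j)) (rec_r2 A)

lemma pt_r3 (A : Set ℕ) (k : ℕ) (hk : 1 ≤ k) : ∃ K : ℝ, 1 ≤ K ∧ ∀ z : ℂ, ‖z‖ < 1 →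
    ‖P A 1 z‖ ^ 2 ≤ K * (1 + ∑ i ∈ Icc 2 k, ‖P A i z‖) ∨ ‖P A 1 z‖ ^ k ≤ K * ‖ev (fun n => (r3 A n k : ℂ)) z‖ :=
  pt_rec A k hk (-1) (by simp) (fun n j => r3 A n j) (r3_zero A)
    (fun n j => ((r3_le_r2 A n j).trans (r2_le_r1 A n j)).trans (r1_le A n j)) (rec_r3 A)

/-- summation by parts -/
lemma one_sub_mul_tsum {𝕜 : Type*} [NormedField 𝕜] [CompleteSpace 𝕜] (g : ℕ → 𝕜) (z : 𝕜) (hs : Summable (fun n => g n * z ^ n)) :
    (1 - z) * ∑' n, g n * z ^ n = ∑' n, (g n - (if n = 0 then 0 else g (n - 1))) * z ^ n ∧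
    Summable (fun n => (g n - (if n = 0 then 0 else g (n - 1))) * z ^ n) := by
  have hs1 : Summable (fun n => g (n + 1) * z ^ (n + 1)) := (summable_nat_add_iff (f := fun n => g n * z ^ n) 1).2 hs
  have hs2 : Summable (fun n => z * (g n * z ^ n)) := hs.mul_left z
  have hfun : ∀ n, (g (n + 1) - (if n + 1 = 0 then 0 else g (n + 1 - 1))) * z ^ (n + 1) = g (n + 1) * z ^ (n + 1) - z * (g n * z ^ n) := by
    intro n
    rw [if_neg (Nat.succ_ne_zero n), Nat.add_sub_cancel, pow_succ]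
    ring
  have hs3 : Summable (fun n => (g n - (if n = 0 then 0 else g (n - 1))) * z ^ n) := by
    rw [← summable_nat_add_iff (f := fun n => (g n - (if n = 0 then 0 else g (n - 1))) * z ^ n) 1]
    have h := hs1.sub hs2
    have e : (fun n => (g (n + 1) - (if n + 1 = 0 then 0 else g (n + 1 - 1))) * z ^ (n + 1)) = (fun n => g (n + 1) * z ^ (n + 1) - z * (g n * z ^ n)) := funext hfun
    rw [e]
    exact h
  refine ⟨?_, hs3⟩
  have a1 : ∑' n, g n * z ^ n = g 0 * z ^ 0 + ∑' n, g (n + 1) * z ^ (n + 1) := hs.tsum_eq_zero_add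
  have a2 : ∑' n, (g n - (if n = 0 then 0 else g (n - 1))) * z ^ n = (g 0 - (if (0:ℕ) = 0 then 0 else g (0 - 1))) * z ^ 0 +
      ∑' n, (g (n + 1) - (if n + 1 = 0 then 0 else g (n + 1 - 1))) * z ^ (n + 1) := hs3.tsum_eq_zero_add
  have a3 : ∑' n, (g (n + 1) - (if n + 1 = 0 then 0 else g (n + 1 - 1))) * z ^ (n + 1) = ∑' n, g (n + 1) * z ^ (n + 1) - ∑' n, z * (g n * z ^ n) := by
    rw [tsum_congr hfun]
    exact hs1.tsum_sub hs2
  have a4 : ∑' n, z * (g n * z ^ n) = z * ∑' n, g n * z ^ n := tsum_mul_left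
  rw [a2, a3, a4, sub_mul, one_mul, if_pos rfl, sub_zero]
  conv_lhs => enter [1]; rw [a1]
  ring

/-- bound from eventual monotonicity -/
lemma mono_bound (g : ℕ → ℕ) (k n0 : ℕ) (hgb : ∀ n, g n ≤ (n + 1) ^ k) (hmono : ∀ n ≥ n0, g n ≤ g (n + 1)) :
    ∃ C0 : ℝ, 0 ≤ C0 ∧ ∀ z : ℂ, ‖z‖ < 1 → ‖1 - z‖ * ‖ev (fun n => (g n : ℂ)) z‖ ≤ (1 - ‖z‖) * (∑' n : ℕ, (g n : ℝ) * ‖z‖ ^ n) + C0 := by
  set Δ : ℕ → ℝ := fun n => (g n : ℝ) - (if n = 0 then 0 else (g (n - 1) : ℝ)) with hΔ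
  refine ⟨∑ n ∈ range (n0 + 1), 2 * |Δ n|, sum_nonneg (fun n _ => by positivity), ?_⟩
  intro z hz
  have hsn : Summable (fun n => ‖((g n : ℕ) : ℂ) * z ^ n‖) := by
    refine ev_summable (k := k) (fun n => ?_) hz
    rw [Complex.norm_natCast]
    exact_mod_cast hgb n
  have hsr : Summable (fun n => (g n : ℝ) * ‖z‖ ^ n) := by
    refine hsn.congr ?_
    intro n
    rw [norm_mul, norm_pow, Complex.norm_natCast]
  obtain ⟨e1, s1⟩ := one_sub_mul_tsum (fun n => (g n : ℂ)) z hsn.of_norm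
  obtain ⟨e2, s2⟩ := one_sub_mul_tsum (fun n => (g n : ℝ)) ‖z‖ hsr
  rw [← norm_mul]
  unfold ev
  rw [e1, e2]
  have hnorm : ∀ n, ‖((g n : ℂ) - (if n = 0 then 0 else (g (n - 1) : ℂ))) * z ^ n‖ = |Δ n| * ‖z‖ ^ n := by
    intro n
    rw [norm_mul, norm_pow]
    congr 1
    have : ((g n : ℂ) - (if n = 0 then 0 else (g (n - 1) : ℂ))) = ((Δ n : ℝ) : ℂ) := by
      simp only [hΔ]
      split_ifs <;> push_cast <;> ring
    rw [this, Complex.norm_real, Real.norm_eq_abs]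
  -- summability of |Δ n| r^n
  have habs : ∀ n, |Δ n| * ‖z‖ ^ n ≤ Δ n * ‖z‖ ^ n + (if n ∈ range (n0 + 1) then 2 * |Δ n| else 0) := by
    intro n
    have hzn : 0 ≤ ‖z‖ ^ n := by positivity
    have hzn1 : ‖z‖ ^ n ≤ 1 := pow_le_one₀ (norm_nonneg _) hz.le
    split_ifs with h
    · have h1 : |Δ n| * ‖z‖ ^ n - Δ n * ‖z‖ ^ n ≤ 2 * |Δ n| * ‖z‖ ^ n := by
        have := neg_abs_le (Δ n)
        nlinarith
      have h2 : 2 * |Δ n| * ‖z‖ ^ n ≤ 2 * |Δ n| * 1 := mul_le_mul_of_nonneg_left hzn1 (by positivity)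
      linarith
    · rw [mem_range] at h
      push Not at h
      have h3 : 0 ≤ Δ n := by
        simp only [hΔ]
        rw [if_neg (by omega)]
        have := hmono (n - 1) (by omega)
        have h4 : n - 1 + 1 = n := by omega
        rw [h4] at this
        have : (g (n - 1) : ℝ) ≤ g n := by exact_mod_cast this
        linarith
      rw [abs_of_nonneg h3, add_zero]
  have hsfin : Summable (fun n => (if n ∈ range (n0 + 1) then 2 * |Δ n| else 0)) :=
    summable_of_ne_finset_zero (s := range (n0 + 1)) (fun n hn => if_neg hn)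
  have hsall : Summable (fun n => Δ n * ‖z‖ ^ n + (if n ∈ range (n0 + 1) then 2 * |Δ n| else 0)) := s2.add hsfin
  have hsabs : Summable (fun n => |Δ n| * ‖z‖ ^ n) :=
    Summable.of_nonneg_of_le (fun n => by positivity) habs hsall
  have hsn2 : Summable (fun n => ‖((g n : ℂ) - (if n = 0 then 0 else (g (n - 1) : ℂ))) * z ^ n‖) :=
    hsabs.congr (fun n => (hnorm n).symm)
  refine (norm_tsum_le_tsum_norm hsn2).trans ?_
  rw [tsum_congr hnorm]
  refine (hsabs.tsum_le_tsum habs hsall).trans ?_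
  rw [s2.tsum_add hsfin]
  have : ∑' n, (if n ∈ range (n0 + 1) then 2 * |Δ n| else 0) = ∑ n ∈ range (n0 + 1), 2 * |Δ n| := by
    rw [tsum_eq_sum (s := range (n0 + 1)) (fun n hn => if_neg hn)]
    exact sum_congr rfl (fun n hn => if_pos hn)
  rw [this]

/-- the radius `exp(-1/M)` -/
noncomputable def rr (M : ℕ) : ℝ := Real.exp (-(1 / (M : ℝ)))

lemma rr_pos (M : ℕ) : 0 < rr M := Real.exp_pos _

lemma rr_lt {M : ℕ} (hM : 1 ≤ M) : rr M < 1 := by
  unfold rr
  rw [Real.exp_lt_one_iff]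
  have : (0:ℝ) < M := by exact_mod_cast hM
  have : 0 < 1 / (M : ℝ) := by positivity
  linarith

lemma one_sub_rr_le (M : ℕ) : 1 - rr M ≤ 1 / M := by
  unfold rr
  have := Real.add_one_le_exp (-(1 / (M : ℝ)))
  linarith

lemma rr_pow {M : ℕ} (hM : 1 ≤ M) : rr M ^ M = Real.exp (-1) := by
  unfold rr
  rw [← Real.exp_nat_mul]
  congr 1
  have : (M : ℝ) ≠ 0 := by
    have : (0:ℝ) < M := by exact_mod_cast hM
    positivity
  field_simp

lemma rr_pow_le {M : ℕ} (hM : 1 ≤ M) : rr M ^ M ≤ 1 / 2 := by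
  rw [rr_pow hM, Real.exp_neg]
  have := Real.exp_one_gt_d9
  rw [one_div]
  exact inv_anti₀ (by norm_num) (by linarith)

lemma one_sub_rr_ge {M : ℕ} (hM : 1 ≤ M) : 1 / (2 * M) ≤ 1 - rr M := by
  have hMR : (0:ℝ) < M := by exact_mod_cast hM
  have h1 := rr_pow_le hM
  have h2 := rr_lt hM
  have h3 := (rr_pos M).le
  have h4 : 1 - rr M ^ M ≤ M * (1 - rr M) := by
    have := one_add_mul_le_pow (a := rr M - 1) (by linarith) M
    have e : 1 + (rr M - 1) = rr M := by ring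
    rw [e] at this
    linarith
  rw [div_le_iff₀ (by positivity)]
  linarith

lemma rpow_le_one_add {x s : ℝ} (hx : 0 ≤ x) (hs0 : 0 ≤ s) (hs1 : s ≤ 1) : x ^ s ≤ 1 + x := by
  rcases le_total x 1 with h | h
  · have := Real.rpow_le_one hx h hs0
    linarith
  · have := Real.rpow_le_rpow_of_exponent_le h hs1
    rw [Real.rpow_one] at this
    linarith

lemma pow_rpow_two_div {k : ℕ} (hk : 1 ≤ k) {X : ℝ} (hX : 0 ≤ X) : (X ^ k) ^ (2 / k : ℝ) = X ^ 2 := by
  have hkR : (0:ℝ) < k := by exact_mod_cast hk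
  rw [← Real.rpow_natCast X k, ← Real.rpow_mul hX]
  have : (k : ℝ) * (2 / k) = (2 : ℕ) := by push_cast; field_simp
  rw [this, Real.rpow_natCast]

lemma P_real (A : Set ℕ) (i : ℕ) (r : ℝ) : P A i (r : ℂ) = ((S A i r : ℝ) : ℂ) := by
  unfold P S ev
  rw [Complex.ofReal_tsum]
  refine tsum_congr ?_
  intro n; push_cast; ring

lemma Eg_le (A : Set ℕ) (k : ℕ) (g : ℕ → ℕ) (hle : ∀ n, g n ≤ r1 A n k) {r : ℝ} (hr0 : 0 ≤ r) (hr1 : r < 1) :
    ∑' n : ℕ, (g n : ℝ) * r ^ n ≤ S A 1 r ^ k ∧ Summable (fun n : ℕ => (g n : ℝ) * r ^ n) := by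
  have hz : ‖(r : ℂ)‖ < 1 := by rw [Complex.norm_real, Real.norm_of_nonneg hr0]; exact hr1
  have hs1 : Summable (fun n : ℕ => (r1 A n k : ℝ) * r ^ n) := by
    have := ev_summable (g := fun n => (r1 A n k : ℂ)) (k := k) (fun n => by
      rw [Complex.norm_natCast]; exact_mod_cast r1_le A n k) hz
    refine this.congr ?_
    intro n
    rw [norm_mul, norm_pow, Complex.norm_natCast, Complex.norm_real, Real.norm_of_nonneg hr0]
  have hs2 : Summable (fun n : ℕ => (g n : ℝ) * r ^ n) := by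
    refine Summable.of_nonneg_of_le (fun n => by positivity) (fun n => ?_) hs1
    exact mul_le_mul_of_nonneg_right (by exact_mod_cast hle n) (pow_nonneg hr0 n)
  refine ⟨?_, hs2⟩
  have h1 : ((∑' n : ℕ, (r1 A n k : ℝ) * r ^ n : ℝ) : ℂ) = ((S A 1 r ^ k : ℝ) : ℂ) := by
    push_cast
    rw [← P_real, ← ev_r1 A k hz]
    rfl
  have h2 : ∑' n : ℕ, (r1 A n k : ℝ) * r ^ n = S A 1 r ^ k := by exact_mod_cast h1
  rw [← h2]
  refine hs2.tsum_le_tsum (fun n => ?_) hs1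
  exact mul_le_mul_of_nonneg_right (by exact_mod_cast hle n) (pow_nonneg hr0 n)

lemma rr_sq_lt {M : ℕ} (hM : 1 ≤ M) : rr M ^ 2 < 1 := by
  have := rr_lt hM
  have := rr_pos M
  nlinarith

/-- `S` is unbounded -/
lemma S_large {A : Set ℕ} (hA : A.Infinite) (B : ℝ) : ∃ M0 : ℕ, 1 ≤ M0 ∧ ∀ M ≥ M0, B ≤ S A 1 (rr M ^ 2) := by
  classical
  obtain ⟨T, hTA, hTc⟩ := hA.exists_subset_card_eq (⌈2 * B⌉₊)
  set L := T.sup id with hL
  refine ⟨4 * L + 1, by omega, ?_⟩
  intro M hM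
  have hM1 : 1 ≤ M := by omega
  have hMR : (0:ℝ) < M := by exact_mod_cast hM1
  have hr0 := (rr_pos M).le
  have hr1 := rr_lt hM1
  have hr2 := rr_sq_lt hM1
  unfold S
  have h1 : ∑ m ∈ T, (q A 1 m : ℝ) * (rr M ^ 2) ^ m ≤ ∑' m : ℕ, (q A 1 m : ℝ) * (rr M ^ 2) ^ m :=
    (S_summable A 1 (by positivity) hr2).sum_le_tsum T (fun m _ => mul_nonneg (q_nonneg A 1 m) (by positivity))
  refine le_trans ?_ h1
  have h2 : ∀ m ∈ T, (1 / 2 : ℝ) ≤ (q A 1 m : ℝ) * (rr M ^ 2) ^ m := by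
    intro m hm
    have hmA : m ∈ A := hTA hm
    have hq : (q A 1 m : ℝ) = 1 := by unfold q; simp [hmA]
    rw [hq, one_mul, ← pow_mul]
    have hmL : m ≤ L := le_sup (f := id) hm
    have h3 := one_add_mul_le_pow (a := rr M - 1) (by linarith) (2 * m)
    have e : 1 + (rr M - 1) = rr M := by ring
    rw [e] at h3
    refine le_trans ?_ h3
    have h4 := one_sub_rr_le M
    have h5 : (2 * m : ℝ) * (1 - rr M) ≤ 1 / 2 := by
      have h6 : (2 * m : ℝ) * (1 - rr M) ≤ (2 * m) * (1 / M) := mul_le_mul_of_nonneg_left h4 (by positivity)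
      have h7 : (4 * m : ℝ) ≤ M := by
        have : 4 * m ≤ M := by omega
        exact_mod_cast this
      have h8 : (2 * m : ℝ) * (1 / M) ≤ 1 / 2 := by
        rw [mul_one_div, div_le_div_iff₀ hMR (by norm_num)]
        linarith
      linarith
    push_cast
    linarith
  have h3 := card_nsmul_le_sum T _ _ h2
  rw [nsmul_eq_mul, hTc] at h3
  have h4 := Nat.le_ceil (2 * B)
  linarith

/-- the main estimate -/
lemma main_est (A : Set ℕ) (hA : A.Infinite) (k : ℕ) (hk : 2 ≤ k) (g : ℕ → ℕ) (hle : ∀ n, g n ≤ r1 A n k) (n0 : ℕ)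
    (hmono : ∀ n ≥ n0, g n ≤ g (n + 1)) (hpos : ∀ N, ∃ n ≥ N, 1 ≤ g n)
    (hpt : ∃ K : ℝ, 1 ≤ K ∧ ∀ z : ℂ, ‖z‖ < 1 →
      ‖P A 1 z‖ ^ 2 ≤ K * (1 + ∑ i ∈ Icc 2 k, ‖P A i z‖) ∨ ‖P A 1 z‖ ^ k ≤ K * ‖ev (fun n => (g n : ℂ)) z‖) :
    ∃ C : ℝ, 0 < C ∧ ∃ M0 : ℕ, ∀ M ≥ M0, S A 1 (rr M ^ 2) ≤ C * ((M : ℝ) ^ (-(2 / k : ℝ)) * (3 + Real.log M)) * S A 1 (rr M) ^ 2 := by
  classical
  obtain ⟨K, hK1, hpt⟩ := hpt
  obtain ⟨C0, hC0, hmb⟩ := mono_bound g k n0 (fun n => (hle n).trans (r1_le A n k)) hmono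
  obtain ⟨n1, hn1, hgn1⟩ := hpos n0
  have hg1 : ∀ n, n1 ≤ n → 1 ≤ g n := by
    intro n hn
    induction n, hn using Nat.le_induction with
    | base => exact hgn1
    | succ n hn ih => exact ih.trans (hmono n (by omega))
  obtain ⟨M1, hM11, hM1⟩ := S_large hA (max (4 * K) (32 * K ^ 2 * k ^ 2))
  refine ⟨2 * (K * (1 + 2 * C0)), by positivity, max M1 (2 * n1 + 1), ?_⟩
  intro M hM
  have hMM1 : M1 ≤ M := (le_max_left _ _).trans hM
  have hMn1 : 2 * n1 + 1 ≤ M := (le_max_right _ _).trans hM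
  have hM1' : 1 ≤ M := by omega
  have hMR : (1:ℝ) ≤ M := by exact_mod_cast hM1'
  have : NeZero M := ⟨by omega⟩
  set r := rr M with hr
  have hr0 : 0 ≤ r := (rr_pos M).le
  have hr1 : r < 1 := rr_lt hM1'
  have hr2 : r ^ 2 < 1 := rr_sq_lt hM1'
  have hkR : (2:ℝ) ≤ k := by exact_mod_cast hk
  set s : ℝ := 2 / k with hs
  have hs0 : 0 < s := by rw [hs]; positivity
  have hs1 : s ≤ 1 := by rw [hs, div_le_one (by linarith)]; exact hkR
  set T := S A 1 (r ^ 2) with hT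
  set S1 := S A 1 r with hS1
  have hT0 : 0 ≤ T := S_nonneg A 1 (by positivity)
  have hS10 : 0 ≤ S1 := S_nonneg A 1 hr0
  have hTlarge := hM1 M hMM1
  rw [← hr, ← hT] at hTlarge
  have hT1 : 4 * K ≤ T := (le_max_left _ _).trans hTlarge
  have hT2 : 32 * K ^ 2 * k ^ 2 ≤ T := (le_max_right _ _).trans hTlarge
  obtain ⟨hEg, hEgs⟩ := Eg_le A k g hle hr0 hr1
  set Eg := ∑' n : ℕ, (g n : ℝ) * r ^ n with hEgdef
  -- lower bound for Eg
  have hEglow : 1 / 2 ≤ (1 - r) * Eg := by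
    have h1 : ∑' n : ℕ, r ^ (n + n1) ≤ Eg := by
      rw [hEgdef, ← hEgs.sum_add_tsum_nat_add n1]
      have h2 : 0 ≤ ∑ i ∈ range n1, (g i : ℝ) * r ^ i := sum_nonneg (fun i _ => by positivity)
      have h3 : ∑' n : ℕ, r ^ (n + n1) ≤ ∑' n : ℕ, (g (n + n1) : ℝ) * r ^ (n + n1) := by
        refine Summable.tsum_le_tsum (fun n => ?_) ((summable_nat_add_iff n1).2 (summable_geometric_of_lt_one hr0 hr1)) ((summable_nat_add_iff n1).2 hEgs)
        have : (1:ℝ) ≤ g (n + n1) := by exact_mod_cast hg1 _ (by omega)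
        have h4 : 0 ≤ r ^ (n + n1) := by positivity
        nlinarith
      linarith
    have h2 : ∑' n : ℕ, r ^ (n + n1) = r ^ n1 * (1 - r)⁻¹ := by
      rw [← tsum_geometric_of_lt_one hr0 hr1, ← tsum_mul_left]
      refine tsum_congr ?_
      intro n; rw [pow_add]; ring
    rw [h2] at h1
    have h3 : 0 < 1 - r := by linarith
    have h4 : r ^ n1 ≤ (1 - r) * Eg := by
      have := mul_le_mul_of_nonneg_left h1 h3.le
      have e : (1 - r) * (r ^ n1 * (1 - r)⁻¹) = r ^ n1 := by field_simp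
      rw [e] at this
      exact this
    refine le_trans ?_ h4
    have h5 := one_add_mul_le_pow (a := r - 1) (by linarith) n1
    have e : 1 + (r - 1) = r := by ring
    rw [e] at h5
    refine le_trans ?_ h5
    have h6 := one_sub_rr_le M
    rw [← hr] at h6
    have h7 : (n1 : ℝ) * (1 - r) ≤ 1 / 2 := by
      have h8 : (n1 : ℝ) * (1 - r) ≤ n1 * (1 / M) := mul_le_mul_of_nonneg_left h6 (by positivity)
      have h9 : (2 * n1 : ℝ) ≤ M := by
        have : 2 * n1 ≤ M := by omega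
        exact_mod_cast this
      have h10 : (n1 : ℝ) * (1 / M) ≤ 1 / 2 := by
        rw [mul_one_div, div_le_div_iff₀ (by linarith) (by norm_num)]
        linarith
      linarith
    linarith
  have hEg0 : 0 ≤ Eg := tsum_nonneg (fun n => by positivity)
  -- B bound
  have hB : (1 - r) * Eg + C0 ≤ (1 + 2 * C0) * (S1 ^ k * (M : ℝ)⁻¹) := by
    have h1 : (1 - r) * Eg + C0 ≤ (1 + 2 * C0) * ((1 - r) * Eg) := by nlinarith
    refine h1.trans (mul_le_mul_of_nonneg_left ?_ (by positivity))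
    have h6 := one_sub_rr_le M
    rw [← hr, one_div] at h6
    calc (1 - r) * Eg ≤ (M : ℝ)⁻¹ * S1 ^ k := mul_le_mul h6 hEg hEg0 (by positivity)
      _ = S1 ^ k * (M : ℝ)⁻¹ := by ring
  set z : ZMod M → ℂ := fun j => (r : ℂ) * ZMod.stdAddChar j with hz
  have hznorm : ∀ j, ‖z j‖ = r := by
    intro j
    simp only [hz]
    rw [norm_mul, AddChar.norm_apply, mul_one, Complex.norm_real, Real.norm_of_nonneg hr0]
  have hzlt : ∀ j, ‖z j‖ < 1 := fun j => by rw [hznorm]; exact hr1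
  -- Step A
  have hA1 : M * T ≤ ∑ j : ZMod M, ‖P A 1 (z j)‖ ^ 2 := by
    have := parseval_lower (M := M) (q_nonneg A 1) (q_le_one A 1) hr0 hr1
    simp only [q_sq] at this
    exact this
  -- Step B
  have hB1 : ∀ j, ‖P A 1 (z j)‖ ^ 2 ≤ K * (1 + ∑ i ∈ Icc 2 k, ‖P A i (z j)‖) + (K * ‖ev (fun n => (g n : ℂ)) (z j)‖) ^ s := by
    intro j
    have hnn1 : 0 ≤ K * (1 + ∑ i ∈ Icc 2 k, ‖P A i (z j)‖) := by
      have : 0 ≤ ∑ i ∈ Icc 2 k, ‖P A i (z j)‖ := sum_nonneg (fun _ _ => norm_nonneg _)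
      positivity
    have hnn2 : 0 ≤ (K * ‖ev (fun n => (g n : ℂ)) (z j)‖) ^ s := by positivity
    rcases hpt (z j) (hzlt j) with h | h
    · linarith
    · have h1 := Real.rpow_le_rpow (by positivity) h hs0.le
      rw [hs, pow_rpow_two_div (by omega) (norm_nonneg _)] at h1
      rw [← hs] at h1
      linarith
  -- Step C
  have hC1 : ∑ j : ZMod M, K * (1 + ∑ i ∈ Icc 2 k, ‖P A i (z j)‖) ≤ K * (M + k * (M * Real.sqrt (2 * T))) := by
    rw [← mul_sum, sum_add_distrib, sum_const, card_univ, ZMod.card, nsmul_eq_mul, mul_one]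
    refine mul_le_mul_of_nonneg_left ?_ (by linarith)
    have h1 : ∑ j : ZMod M, ∑ i ∈ Icc 2 k, ‖P A i (z j)‖ ≤ ∑ i ∈ Icc 2 k, M * Real.sqrt (2 * T) := by
      rw [sum_comm]
      refine sum_le_sum ?_
      intro i hi
      rw [mem_Icc] at hi
      have h2 := avg_upper (M := M) (q_nonneg A i) (q_le_one A i) hr0 hr1
      refine (le_of_eq ?_).trans (h2.trans ?_)
      · rfl
      · refine mul_le_mul_of_nonneg_left (Real.sqrt_le_sqrt ?_) (by positivity)
        have h3 : (1 - r ^ M)⁻¹ ≤ 2 := by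
          have := rr_pow_le hM1'
          rw [← hr] at this
          rw [inv_le_comm₀ (by linarith) (by norm_num)]
          linarith
        have h4 := S_le A i hi.1 hr0 hr1
        exact mul_le_mul h3 h4 (S_nonneg A i hr0) (by norm_num)
    have h5 : ∑ i ∈ Icc 2 k, (M : ℝ) * Real.sqrt (2 * T) ≤ k * (M * Real.sqrt (2 * T)) := by
      rw [sum_const, nsmul_eq_mul, Nat.card_Icc]
      refine mul_le_mul_of_nonneg_right ?_ (by positivity)
      have : k + 1 - 2 ≤ k := by omega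
      exact_mod_cast this
    linarith
  -- Step D
  have hKs : K ^ s ≤ K := by
    have := Real.rpow_le_rpow_of_exponent_le hK1 hs1
    rwa [Real.rpow_one] at this
  have hD0 : (K * ‖ev (fun n => (g n : ℂ)) (z 0)‖) ^ s ≤ K * S1 ^ 2 := by
    have h1 : ‖ev (fun n => (g n : ℂ)) (z 0)‖ ≤ S1 ^ k := by
      refine le_trans ?_ hEg
      have h2 : z 0 = (r : ℂ) := by simp only [hz]; rw [AddChar.map_zero_eq_one, mul_one]
      rw [h2]
      unfold ev
      have h3 : ∑' n : ℕ, ((g n : ℕ) : ℂ) * (r : ℂ) ^ n = ((Eg : ℝ) : ℂ) := by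
        rw [hEgdef, Complex.ofReal_tsum]
        refine tsum_congr ?_
        intro n; push_cast; ring
      rw [h3, Complex.norm_real, Real.norm_of_nonneg hEg0]
    calc (K * ‖ev (fun n => (g n : ℂ)) (z 0)‖) ^ s ≤ (K * S1 ^ k) ^ s :=
          Real.rpow_le_rpow (by positivity) (mul_le_mul_of_nonneg_left h1 (by linarith)) hs0.le
      _ = K ^ s * (S1 ^ k) ^ s := Real.mul_rpow (by linarith) (by positivity)
      _ = K ^ s * S1 ^ 2 := by rw [hs, pow_rpow_two_div (by omega) hS10]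
      _ ≤ K * S1 ^ 2 := mul_le_mul_of_nonneg_right hKs (by positivity)
  set K2 := K * (1 + 2 * C0) with hK2
  have hK21 : 1 ≤ K2 := by rw [hK2]; nlinarith
  have hK2s : K2 ^ s ≤ K2 := by
    have := Real.rpow_le_rpow_of_exponent_le hK21 hs1
    rwa [Real.rpow_one] at this
  clear_value K2
  have hDj : ∀ j ∈ (univ : Finset (ZMod M)).erase 0, (K * ‖ev (fun n => (g n : ℂ)) (z j)‖) ^ s
      ≤ K2 * S1 ^ 2 * (M : ℝ) ^ (-s) * (1 + ‖1 - z j‖⁻¹) := by
    intro j hj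
    have hj0 := ne_of_mem_erase hj
    have hne : 0 < ‖1 - z j‖ := by
      have := norm_sub_norm_le (1 : ℂ) (z j)
      rw [norm_one, hznorm] at this
      linarith
    have h1 := hmb (z j) (hzlt j)
    rw [hznorm, ← hEgdef] at h1
    have h2 : ‖ev (fun n => (g n : ℂ)) (z j)‖ ≤ (1 + 2 * C0) * (S1 ^ k * (M : ℝ)⁻¹) * ‖1 - z j‖⁻¹ := by
      rw [← div_eq_mul_inv, le_div_iff₀ hne, mul_comm]
      exact h1.trans hB
    have h3 : K * ‖ev (fun n => (g n : ℂ)) (z j)‖ ≤ K2 * (S1 ^ k * ((M : ℝ)⁻¹ * ‖1 - z j‖⁻¹)) := by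
      refine (mul_le_mul_of_nonneg_left h2 (by linarith)).trans (le_of_eq ?_)
      rw [hK2]; ring
    have hi1 : 0 ≤ (M : ℝ)⁻¹ := by positivity
    have hi2 : 0 ≤ ‖1 - z j‖⁻¹ := by positivity
    calc (K * ‖ev (fun n => (g n : ℂ)) (z j)‖) ^ s ≤ (K2 * (S1 ^ k * ((M : ℝ)⁻¹ * ‖1 - z j‖⁻¹))) ^ s :=
          Real.rpow_le_rpow (by positivity) h3 hs0.le
      _ = K2 ^ s * (S1 ^ 2 * ((M : ℝ) ^ (-s) * (‖1 - z j‖⁻¹) ^ s)) := by
          rw [Real.mul_rpow (by linarith) (by positivity), Real.mul_rpow (by positivity) (by positivity),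
            Real.mul_rpow hi1 hi2]
          congr 2
          · rw [hs, pow_rpow_two_div (by omega) hS10]
          · congr 1
            rw [Real.inv_rpow (by positivity), Real.rpow_neg (by positivity)]
      _ ≤ K2 * (S1 ^ 2 * ((M : ℝ) ^ (-s) * (1 + ‖1 - z j‖⁻¹))) := by
          refine mul_le_mul hK2s ?_ (by positivity) (by linarith)
          refine mul_le_mul_of_nonneg_left (mul_le_mul_of_nonneg_left ?_ (by positivity)) (by positivity)
          exact rpow_le_one_add hi2 hs0.le hs1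
      _ = _ := by ring
  have hDsum : ∑ j : ZMod M, (K * ‖ev (fun n => (g n : ℂ)) (z j)‖) ^ s ≤
      K * S1 ^ 2 + K2 * S1 ^ 2 * (M : ℝ) ^ (-s) * (M * (2 + Real.log M)) := by
    rw [← add_sum_erase univ _ (mem_univ (0 : ZMod M))]
    refine add_le_add hD0 ((sum_le_sum hDj).trans ?_)
    have hfac : ∑ j ∈ (univ : Finset (ZMod M)).erase 0, K2 * S1 ^ 2 * (M : ℝ) ^ (-s) * (1 + ‖1 - z j‖⁻¹)
        = K2 * S1 ^ 2 * (M : ℝ) ^ (-s) * ∑ j ∈ (univ : Finset (ZMod M)).erase 0, (1 + ‖1 - z j‖⁻¹) := by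
      rw [mul_sum]
    rw [hfac]
    have hcoef : 0 ≤ K2 * S1 ^ 2 * (M : ℝ) ^ (-s) := by positivity
    refine mul_le_mul_of_nonneg_left ?_ hcoef
    rw [sum_add_distrib, sum_const, card_erase_of_mem (mem_univ _), card_univ, ZMod.card, nsmul_eq_mul, mul_one]
    have h1 := sum_inv_one_sub (M := M) hr0 hr1
    have h2 : ((M - 1 : ℕ) : ℝ) ≤ M := by
      have : M - 1 ≤ M := by omega
      exact_mod_cast this
    have h3 : ∑ j ∈ (univ : Finset (ZMod M)).erase 0, ‖1 - z j‖⁻¹ ≤ M * (1 + Real.log M) := h1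
    nlinarith
  -- combine
  have hsum := sum_le_sum (s := (univ : Finset (ZMod M))) (fun j _ => hB1 j)
  rw [sum_add_distrib] at hsum
  have hall : M * T ≤ K * (M + k * (M * Real.sqrt (2 * T))) + (K * S1 ^ 2 + K2 * S1 ^ 2 * (M : ℝ) ^ (-s) * (M * (2 + Real.log M))) :=
    hA1.trans (hsum.trans (add_le_add hC1 hDsum))
  have hMpos : (0:ℝ) < M := by linarith
  have hinv : (1:ℝ) ≤ M * (M : ℝ) ^ (-s) := by
    have h1 : (M : ℝ) * (M : ℝ) ^ (-s) = (M : ℝ) ^ (1 - s) := by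
      rw [sub_eq_add_neg, Real.rpow_add hMpos, Real.rpow_one]
    rw [h1]
    exact Real.one_le_rpow hMR (by linarith)
  have hlog : 0 ≤ Real.log M := Real.log_nonneg hMR
  have hKK2 : K ≤ K2 := by rw [hK2]; nlinarith
  have hS1sq : 0 ≤ S1 ^ 2 := by positivity
  have hMs : 0 ≤ (M : ℝ) ^ (-s) := by positivity
  have h1 : K * S1 ^ 2 ≤ K2 * S1 ^ 2 * (M : ℝ) ^ (-s) * (M * 1) := by
    calc K * S1 ^ 2 ≤ K2 * S1 ^ 2 := mul_le_mul_of_nonneg_right hKK2 hS1sq
      _ = K2 * S1 ^ 2 * 1 := by ring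
      _ ≤ K2 * S1 ^ 2 * (M * (M : ℝ) ^ (-s)) := mul_le_mul_of_nonneg_left hinv (by positivity)
      _ = _ := by ring
  have hall2 : M * T ≤ M * (K + k * K * Real.sqrt (2 * T) + K2 * S1 ^ 2 * (M : ℝ) ^ (-s) * (3 + Real.log M)) := by
    refine hall.trans ?_
    nlinarith
  have hall3 := le_of_mul_le_mul_left hall2 hMpos
  have hsq : k * K * Real.sqrt (2 * T) ≤ T / 4 := by
    have h2 : Real.sqrt (2 * T) ≤ T / (4 * (k * K)) := by
      rw [Real.sqrt_le_left (by positivity), div_pow, le_div_iff₀ (by positivity)]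
      nlinarith
    calc k * K * Real.sqrt (2 * T) ≤ k * K * (T / (4 * (k * K))) := mul_le_mul_of_nonneg_left h2 (by positivity)
      _ = T / 4 := by
        have : (k : ℝ) * K ≠ 0 := by positivity
        field_simp
  have hfin : T / 2 ≤ K2 * S1 ^ 2 * (M : ℝ) ^ (-s) * (3 + Real.log M) := by linarith
  calc T ≤ 2 * (K2 * S1 ^ 2 * (M : ℝ) ^ (-s) * (3 + Real.log M)) := by linarith
    _ = _ := by rw [hs]; ring

end Pool.Agent.H27.RepGrowth
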